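import Mathlib

/-!
# Module AVG: functions of disjoint blocks of independent fair bits are independent

PAPER PROOF. Induction on `s`. Step `insert i s`: with `h ω = ∏ j ∈ s, g j ω`, which depends only on the bits outside `B i`,
show `(∑ ω, g i ω * h ω) * 2^N = (∑ ω, g i ω) * (∑ ω, h ω)`, `N = card V`: for a pair `(ω, ω')` let `ω ⋈ ω'` have the bits of `ω`
on `B i` and of `ω'` outside; `(ω, ω') ↦ (ω ⋈ ω', ω' ⋈ ω)` is an involution of pairs and `g i (ω ⋈ ω') = g i ω`,
`h (ω ⋈ ω') = h ω'`; so `∑_{ω,ω'} g i ω * h ω' = ∑_{ω,ω'} g i (ω ⋈ ω') * h (ω ⋈ ω') = ∑_{ω,ω'} g i ω * h ω`.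
-/

namespace Pool.RCay

namespace Avg

open scoped Classical

variable {V : Type} [Fintype V]

/-- the bits of `ω` on `B` and of `ω'` outside -/
noncomputable def mix (B : Finset V) (ω ω' : V → Bool) : V → Bool :=
  fun v => if v ∈ B then ω v else ω' v

theorem mix_mix (B : Finset V) (ω ω' : V → Bool) : mix B (mix B ω ω') (mix B ω' ω) = ω := by
  funext v
  unfold mix
  split_ifs <;> rfl

/-- the involution of pairs -/
noncomputable def mixE (B : Finset V) : (V → Bool) × (V → Bool) ≃ (V → Bool) × (V → Bool) where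
  toFun q := (mix B q.1 q.2, mix B q.2 q.1)
  invFun q := (mix B q.1 q.2, mix B q.2 q.1)
  left_inv q := Prod.ext (mix_mix B q.1 q.2) (mix_mix B q.2 q.1)
  right_inv q := Prod.ext (mix_mix B q.1 q.2) (mix_mix B q.2 q.1)

theorem two (B : Finset V) (g h : (V → Bool) → ℝ)
    (hg : ∀ ω ω' : V → Bool, (∀ v ∈ B, ω v = ω' v) → g ω = g ω')
    (hh : ∀ ω ω' : V → Bool, (∀ v, v ∉ B → ω v = ω' v) → h ω = h ω') :
    (∑ ω : V → Bool, g ω * h ω) * 2 ^ Fintype.card V = (∑ ω, g ω) * ∑ ω, h ω := by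
  have h1 : (∑ ω, g ω) * ∑ ω, h ω = ∑ q : (V → Bool) × (V → Bool), g q.1 * h q.2 := by
    rw [Finset.sum_mul_sum, ← Finset.sum_product']
    rfl
  have h2 : ∑ q : (V → Bool) × (V → Bool), g q.1 * h q.2 =
      ∑ q : (V → Bool) × (V → Bool), g q.1 * h q.1 := by
    rw [← Equiv.sum_comp (mixE B) (fun q => g q.1 * h q.1)]
    refine Finset.sum_congr rfl fun q _ => ?_
    have e1 : g (mix B q.1 q.2) = g q.1 := hg _ _ fun v hv => by simp [mix, hv]
    have e2 : h (mix B q.1 q.2) = h q.2 := hh _ _ fun v hv => by simp [mix, hv]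
    show g q.1 * h q.2 = g (mix B q.1 q.2) * h (mix B q.1 q.2)
    rw [e1, e2]
  rw [h1, h2, Fintype.sum_prod_type]
  simp only [Finset.sum_const, Finset.card_univ, nsmul_eq_mul, Fintype.card_fun, Fintype.card_bool,
    ← Finset.mul_sum]
  push_cast
  ring

end Avg

open scoped Classical in
theorem avg_prod {V : Type} [Fintype V] {ι : Type} (s : Finset ι) (B : ι → Finset V)
    (hB : ∀ i ∈ s, ∀ j ∈ s, i ≠ j → Disjoint (B i) (B j)) (g : ι → (V → Bool) → ℝ)
    (hg : ∀ i ∈ s, ∀ ω ω' : V → Bool, (∀ v ∈ B i, ω v = ω' v) → g i ω = g i ω') :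
    (∑ ω : V → Bool, ∏ i ∈ s, g i ω) * (2 ^ Fintype.card V) ^ s.card =
      2 ^ Fintype.card V * ∏ i ∈ s, ∑ ω : V → Bool, g i ω := by
  induction s using Finset.induction_on with
  | empty => simp
  | insert i s hi ih =>
    have ih' := ih (fun j hj k hk => hB j (Finset.mem_insert_of_mem hj) k
      (Finset.mem_insert_of_mem hk)) (fun j hj => hg j (Finset.mem_insert_of_mem hj))
    have h1 := Avg.two (B i) (g i) (fun ω => ∏ j ∈ s, g j ω)
      (hg i (Finset.mem_insert_self i s)) (fun ω ω' h => by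
        refine Finset.prod_congr rfl fun j hj => ?_
        refine hg j (Finset.mem_insert_of_mem hj) _ _ fun v hv => h v fun hv' => ?_
        have hij : i ≠ j := by rintro rfl; exact hi hj
        exact Finset.disjoint_left.1 (hB i (Finset.mem_insert_self i s) j
          (Finset.mem_insert_of_mem hj) hij) hv' hv)
    simp only [Finset.prod_insert hi]
    rw [Finset.card_insert_of_notMem hi, pow_succ]
    calc (∑ ω : V → Bool, g i ω * ∏ j ∈ s, g j ω) *
          ((2 ^ Fintype.card V) ^ s.card * 2 ^ Fintype.card V) =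
        ((∑ ω : V → Bool, g i ω * ∏ j ∈ s, g j ω) * 2 ^ Fintype.card V) *
          (2 ^ Fintype.card V) ^ s.card := by ring
      _ = (∑ ω, g i ω) * ((∑ ω : V → Bool, ∏ j ∈ s, g j ω) * (2 ^ Fintype.card V) ^ s.card) := by
          rw [h1]; ring
      _ = _ := by rw [ih']; ring

end Pool.RCay
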