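import Pool.Agent.RCay.Defs

/-!
# Basic facts on the representatives and the bits
-/

namespace Pool.RCay

open scoped Classical

variable {G : Type} [Group G] [Fintype G]

theorem rp_mem (g : G) : rp g = g ∨ rp g = g⁻¹ := by
  unfold rp
  split_ifs
  · exact Or.inl rfl
  · exact Or.inr rfl

theorem rp_inv (g : G) : rp g⁻¹ = rp g := by
  unfold rp
  rw [inv_inv]
  by_cases h : g = g⁻¹
  · simp only [← h]
  · have hne : Fintype.equivFin G g ≠ Fintype.equivFin G g⁻¹ := fun h' =>
      h ((Fintype.equivFin G).injective h')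
    by_cases h1 : Fintype.equivFin G g ≤ Fintype.equivFin G g⁻¹
    · rw [if_pos h1, if_neg]
      intro h2
      exact hne (le_antisymm h1 h2)
    · rw [if_neg h1, if_pos]
      exact le_of_lt (not_le.1 h1)

theorem rp_eq_iff (g h : G) : rp g = rp h ↔ g = h ∨ g = h⁻¹ := by
  constructor
  · intro e
    rcases rp_mem g with h1 | h1 <;> rcases rp_mem h with h2 | h2
    · left; rw [← h1, e, h2]
    · right; rw [← h1, e, h2]
    · right; rw [h1, h2] at e; rw [← e, inv_inv]
    · left; rw [h1, h2] at e; exact inv_injective e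
  · rintro (rfl | rfl)
    · rfl
    · exact rp_inv h

theorem rp_rp (g : G) : rp (rp g) = rp g := by
  rcases rp_mem g with h | h
  · rw [h]; exact h
  · rw [h, rp_inv, h]

theorem rp_one : rp (1 : G) = 1 := by
  rcases rp_mem (1 : G) with h | h
  · exact h
  · rw [h, inv_one]

theorem rp_eq_one (g : G) : rp g = 1 ↔ g = 1 := by
  rw [← rp_one, rp_eq_iff, inv_one, or_self, rp_one]

theorem sn_inv (ω : G → Bool) (g : G) : sn ω g⁻¹ = sn ω g := by
  unfold sn
  simp only [rp_inv, ne_eq, inv_eq_one]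

theorem sn_one (ω : G → Bool) : sn ω 1 = 0 := by
  unfold sn
  simp

theorem sn_eq (ω : G → Bool) (g : G) : sn ω g = if g ∈ SS ω then 1 else 0 := by
  unfold sn SS
  simp only [Finset.mem_filter, Finset.mem_univ, true_and]

theorem SS_mem_conn (ω : G → Bool) : SS ω ∈ conn G := by
  unfold conn SS
  simp only [Finset.mem_filter, Finset.mem_univ, true_and]
  refine ⟨by simp, ?_⟩
  rintro g ⟨h1, h2⟩
  refine ⟨by simpa using h1, ?_⟩
  rw [rp_inv]
  exact h2

theorem adj_cay {S : Finset G} (hS : S ∈ conn G) (x y : G) : (cay S).Adj x y ↔ x⁻¹ * y ∈ S := by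
  unfold conn at hS
  simp only [Finset.mem_filter, Finset.mem_univ, true_and] at hS
  unfold cay
  rw [SimpleGraph.fromRel_adj]
  constructor
  · rintro ⟨h1, h2 | h2⟩
    · exact h2
    · have := hS.2 _ h2
      rwa [mul_inv_rev, inv_inv] at this
  · intro h
    refine ⟨?_, Or.inl h⟩
    rintro rfl
    rw [inv_mul_cancel] at h
    exact hS.1 h

theorem adj_SS (ω : G → Bool) (x y : G) : (cay (SS ω)).Adj x y ↔ sn ω (x⁻¹ * y) = 1 := by
  rw [adj_cay (SS_mem_conn ω), sn_eq]
  by_cases h : x⁻¹ * y ∈ SS ω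
  · simp [h]
  · simp [h]

/-- The number of common neighbours. -/
theorem common (ω : G → Bool) (x t : G) :
    ((Finset.univ.filter (fun v => (cay (SS ω)).Adj x v ∧ (cay (SS ω)).Adj t v)).card : ℤ) =
      ff ω (x⁻¹ * t) := by
  rw [Finset.card_filter]
  push_cast
  unfold ff
  rw [← Fintype.sum_equiv (Equiv.mulLeft t) (fun h => sn ω h * sn ω (x⁻¹ * t * h))
    (fun v => if (cay (SS ω)).Adj x v ∧ (cay (SS ω)).Adj t v then (1 : ℤ) else 0)]
  intro h
  simp only [Equiv.coe_mulLeft, adj_SS]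
  rw [← mul_assoc x⁻¹ t h, inv_mul_cancel_left, sn_eq, sn_eq]
  by_cases h1 : h ∈ SS ω <;> by_cases h2 : x⁻¹ * t * h ∈ SS ω <;> simp [h1, h2]

theorem mm_nonneg (a u v : G) : 0 ≤ mm a u v := by
  unfold mm
  apply Finset.sum_nonneg
  intro h _
  split_ifs <;> norm_num

end Pool.RCay
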