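import Mathlib

/-!
# Module BINOM: an upper bound for binomial coefficients
-/

namespace Pool.RCay

theorem centralBinom_sq_mul_le (m : ℕ) : (Nat.centralBinom m) ^ 2 * (2 * m + 1) ≤ 16 ^ m := by
  induction m with
  | zero => simp
  | succ m ih =>
    have h := Nat.succ_mul_centralBinom_succ m
    have h2 : ((m + 1) * Nat.centralBinom (m + 1)) ^ 2 * (2 * (m + 1) + 1) ≤ (m + 1) ^ 2 * 16 ^ (m + 1) := by
      rw [h]
      calc (2 * (2 * m + 1) * Nat.centralBinom m) ^ 2 * (2 * (m + 1) + 1)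
          = (Nat.centralBinom m ^ 2 * (2 * m + 1)) * (4 * ((2 * m + 1) * (2 * m + 3))) := by ring
        _ ≤ 16 ^ m * (4 * (4 * (m + 1) ^ 2)) := by
            apply Nat.mul_le_mul ih
            nlinarith
        _ = (m + 1) ^ 2 * 16 ^ (m + 1) := by ring
    have h3 : (m + 1) ^ 2 * (Nat.centralBinom (m + 1) ^ 2 * (2 * (m + 1) + 1)) ≤ (m + 1) ^ 2 * 16 ^ (m + 1) := by
      calc _ = ((m + 1) * Nat.centralBinom (m + 1)) ^ 2 * (2 * (m + 1) + 1) := by ring
        _ ≤ _ := h2
    exact Nat.le_of_mul_le_mul_left h3 (by positivity)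

theorem choose_sq_mul_le (n k : ℕ) : (n.choose k) ^ 2 * n ≤ 4 ^ n := by
  have h1 : (n.choose k) ^ 2 * n ≤ (n.choose (n / 2)) ^ 2 * n :=
    Nat.mul_le_mul_right _ (Nat.pow_le_pow_left (Nat.choose_le_middle k n) 2)
  refine le_trans h1 ?_
  rcases Nat.even_or_odd' n with ⟨m, rfl | rfl⟩
  · have h2 : 2 * m / 2 = m := by omega
    rw [h2]
    have h3 := centralBinom_sq_mul_le m
    rw [Nat.centralBinom] at h3
    calc (Nat.choose (2 * m) m) ^ 2 * (2 * m) ≤ (Nat.choose (2 * m) m) ^ 2 * (2 * m + 1) :=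
          Nat.mul_le_mul_left _ (by omega)
      _ ≤ 16 ^ m := h3
      _ = 4 ^ (2 * m) := by rw [pow_mul]; norm_num
  · have h2 : (2 * m + 1) / 2 = m := by omega
    rw [h2]
    have h3 := centralBinom_sq_mul_le (m + 1)
    have h4 : Nat.centralBinom (m + 1) = 2 * Nat.choose (2 * m + 1) m := by
      rw [Nat.centralBinom, show 2 * (m + 1) = (2 * m + 1) + 1 by ring, Nat.choose_succ_succ]
      have h5 : Nat.choose (2 * m + 1) (m + 1) = Nat.choose (2 * m + 1) m := by
        rw [← Nat.choose_symm_of_eq_add]; ring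
      rw [h5]; ring
    rw [h4] at h3
    have h6 : 4 * ((Nat.choose (2 * m + 1) m) ^ 2 * (2 * m + 1)) ≤ 4 * 4 ^ (2 * m + 1) := by
      calc 4 * ((Nat.choose (2 * m + 1) m) ^ 2 * (2 * m + 1))
          ≤ (2 * Nat.choose (2 * m + 1) m) ^ 2 * (2 * (m + 1) + 1) := by
            have : (2 * Nat.choose (2 * m + 1) m) ^ 2 * (2 * (m + 1) + 1) =
              4 * ((Nat.choose (2 * m + 1) m) ^ 2 * (2 * (m + 1) + 1)) := by ring
            rw [this]
            apply Nat.mul_le_mul_left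
            apply Nat.mul_le_mul_left
            omega
        _ ≤ 16 ^ (m + 1) := h3
        _ = 4 * 4 ^ (2 * m + 1) := by
            rw [show (16 : ℕ) = 4 ^ 2 by norm_num, ← pow_mul, ← pow_succ']
            congr 1
    exact Nat.le_of_mul_le_mul_left h6 (by norm_num)

end Pool.RCay
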