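import Pool.Agent.RCay.Defs

/-!
# Cai-Fürer-Immerman graphs over the hypercube: definitions
-/

namespace Pool.RCay

open scoped Classical

/-- The unit vectors. -/
def ev {m : ℕ} (i : Fin m) : Fin m → ZMod 2 := Pi.single i 1

/-- The vectors of even weight. -/
def EV (m : ℕ) : AddSubgroup (Fin m → ZMod 2) where
  carrier := {A | ∑ i, A i = 0}
  zero_mem' := by simp
  add_mem' := by
    intro a b ha hb
    simp only [Set.mem_setOf_eq, Pi.add_apply, Finset.sum_add_distrib] at *
    rw [ha, hb, add_zero]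
  neg_mem' := by
    intro a ha
    simp only [Set.mem_setOf_eq, Pi.neg_apply, Finset.sum_neg_distrib] at *
    rw [ha, neg_zero]

noncomputable instance (m : ℕ) : Fintype (EV m) := Fintype.ofFinite _

/-- The vertices: a vertex of the hypercube together with a vector of even weight. -/
abbrev CV (m : ℕ) : Type := (Fin m → ZMod 2) × EV m

/-- The graph with twist `τ`: `(v, A)` and `(v + e_i, A')` are adjacent when `A_i + A'_i = τ v i`. -/
def cfi {m : ℕ} (τ : (Fin m → ZMod 2) → Fin m → ZMod 2) : SimpleGraph (CV m) :=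
  SimpleGraph.fromRel (fun x y => ∃ i, y.1 = x.1 + ev i ∧ x.2.1 i + y.2.1 i = τ x.1 i)

/-- The twist is a function of the edges of the hypercube. -/
def Sym {m : ℕ} (τ : (Fin m → ZMod 2) → Fin m → ZMod 2) : Prop := ∀ v i, τ (v + ev i) i = τ v i

/-- The twist of the single edge `{w, w + e_j}`. -/
noncomputable def tw {m : ℕ} (w : Fin m → ZMod 2) (j : Fin m) : (Fin m → ZMod 2) → Fin m → ZMod 2 :=
  fun v i => if i = j ∧ (v = w ∨ v = w + ev j) then 1 else 0

/-- Forget the coordinates of the edges inside `W`. -/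
noncomputable def prj {m : ℕ} (W : Finset (Fin m → ZMod 2)) (x : CV m) :
    (Fin m → ZMod 2) × (Fin m → ZMod 2) :=
  (x.1, fun i => if x.1 ∈ W ∧ x.1 + ev i ∈ W then 0 else x.2.1 i)

/-! ## Basic facts -/

section
variable {m : ℕ}

theorem ev_add_ev (i : Fin m) : ev i + ev i = 0 := by
  funext l
  simp only [Pi.add_apply, Pi.zero_apply]
  exact CharTwo.add_self_eq_zero _

theorem add_ev_add_ev (v : Fin m → ZMod 2) (i : Fin m) : v + ev i + ev i = v := by
  rw [add_assoc, ev_add_ev, add_zero]

theorem ev_ne_zero (i : Fin m) : ev i ≠ (0 : Fin m → ZMod 2) := by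
  intro h
  have := congrFun h i
  simp [ev] at this

theorem add_ev_ne (v : Fin m → ZMod 2) (i : Fin m) : v + ev i ≠ v := by
  intro h
  exact ev_ne_zero i (by simpa using h)

theorem ev_injective : Function.Injective (ev : Fin m → Fin m → ZMod 2) := by
  intro i j h
  by_contra hij
  have := congrFun h i
  simp [ev, Pi.single_apply, hij] at this

theorem adj_cfi {τ : (Fin m → ZMod 2) → Fin m → ZMod 2} (hτ : Sym τ) (x y : CV m) :
    (cfi τ).Adj x y ↔ ∃ i, y.1 = x.1 + ev i ∧ x.2.1 i + y.2.1 i = τ x.1 i := by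
  simp only [cfi, SimpleGraph.fromRel_adj]
  constructor
  · rintro ⟨_, h | ⟨i, h1, h2⟩⟩
    · exact h
    · refine ⟨i, by rw [h1, add_ev_add_ev], ?_⟩
      rw [h1, hτ, add_comm]
      exact h2
  · rintro ⟨i, h1, h2⟩
    refine ⟨?_, Or.inl ⟨i, h1, h2⟩⟩
    rintro rfl
    exact add_ev_ne _ _ h1.symm

theorem sym_zero : Sym (0 : (Fin m → ZMod 2) → Fin m → ZMod 2) := fun _ _ => rfl

theorem sym_tw (w : Fin m → ZMod 2) (j : Fin m) : Sym (tw w j) := by
  intro v i
  unfold tw
  by_cases hi : i = j
  · subst hi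
    congr 1
    simp only [true_and, eq_iff_iff]
    constructor
    · rintro (h | h)
      · right
        rw [← h, add_ev_add_ev]
      · left
        exact add_right_cancel h
    · rintro (h | h)
      · right
        rw [h]
      · left
        rw [h, add_ev_add_ev]
  · simp [hi]

end

end Pool.RCay
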