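import Mathlib

/-!
# Module CHOOSET: the choice of the individualised vertices

PAPER PROOF (`Us` is an arbitrary relation here, `n = card G`). For `z ≠ 1` let `A z = {a | 128 #{u | Us a z u} < n}`,
`P z = |A z|`. For `a ∈ A z`, `#{u | ¬ Us a z u} > (127/128) n`, so by the first hypothesis
`(127/128) n P z ≤ #{(a,u) | ¬ Us a z u} ≤ (63/64) n²`, i.e. `P z ≤ (126/127) n`; by the second one
`∑_{z ≠ 1} (127/128) n P z ≤ 12 n²`, i.e. `∑_{z ≠ 1} P z ≤ 13 n`.
Consider all `n^{LR}` functions `t : Fin L × Fin R → G`. For `x`, `z ≠ 1`, `b` the number of `t` with `x⁻¹ t(b,j) ∈ A z` for all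
`j < R` is `(P z)^R n^{LR-R} ≤ (126/127)^{R-1} (P z / n) n^{LR}` (`R ≥ 1`). Summing over `x, b, z` : the sum over `t` of the number of
the bad `x` (not Good) is `≤ 13 L n (126/127)^{R-1} n^{LR} ≤ (n/64) n^{LR}` if `R` is large (`832 L (126/127)^{R-1} ≤ 1`). So at most
a quarter of the `t` have more than `n/16` bad `x`. At most `(LR)² n^{LR-1}` functions `t` are not injective, at most a quarter
if `n ≥ n₀ = 4 (LR)²`. Hence some injective `t` has at most `n/16` bad `x`.
-/

namespace Pool.RCay

open scoped Classical in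
/-- The number of the functions whose `b`-th block maps into a translate of `A`. -/
theorem ct_block {G : Type} [Group G] [Fintype G] (L R : ℕ) (A : Finset G) (x : G) (b : Fin L) :
    (Finset.univ.filter (fun t : Fin L × Fin R → G => ∀ j, x⁻¹ * t (b, j) ∈ A)).card *
      Fintype.card G ^ R = A.card ^ R * Fintype.card G ^ (L * R) := by
  have h1 : (Finset.univ.filter (fun t : Fin L × Fin R → G => ∀ j, x⁻¹ * t (b, j) ∈ A)) =
      Fintype.piFinset (fun p : Fin L × Fin R =>
        if p.1 = b then A.image (fun g => x * g) else Finset.univ) := by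
    ext t
    simp only [Finset.mem_filter, Finset.mem_univ, true_and, Fintype.mem_piFinset]
    constructor
    · rintro h ⟨c, j⟩
      by_cases hc : c = b
      · subst hc
        simp only [if_true]
        rw [Finset.mem_image]
        exact ⟨_, h j, by group⟩
      · simp only [hc, if_false]
        exact Finset.mem_univ _
    · intro h j
      have := h (b, j)
      simp only [if_true] at this
      rw [Finset.mem_image] at this
      obtain ⟨g, hg, hg2⟩ := this
      rw [← hg2]
      simpa using hg
  rw [h1, Fintype.card_piFinset, Fintype.prod_prod_type]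
  have h2 : ∀ c : Fin L, ∏ j : Fin R, (if (c, j).1 = b then A.image (fun g => x * g)
      else (Finset.univ : Finset G)).card = if c = b then A.card ^ R else Fintype.card G ^ R := by
    intro c
    by_cases hc : c = b
    · simp only [hc, if_true]
      rw [Finset.prod_const, Finset.card_univ, Fintype.card_fin,
        Finset.card_image_of_injective _ (mul_right_injective x)]
    · simp only [hc, if_false]
      rw [Finset.prod_const, Finset.card_univ, Finset.card_univ, Fintype.card_fin]
  rw [Finset.prod_congr rfl (fun c _ => h2 c),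
    ← Finset.mul_prod_erase Finset.univ _ (Finset.mem_univ b)]
  have h3 : ∏ c ∈ Finset.univ.erase b, (if c = b then A.card ^ R else Fintype.card G ^ R) =
      ∏ c ∈ Finset.univ.erase b, Fintype.card G ^ R := by
    apply Finset.prod_congr rfl
    intro c hc
    rw [if_neg (Finset.ne_of_mem_erase hc)]
  have h4 : Fintype.card G ^ (L * R) = Fintype.card G ^ R *
      ∏ c ∈ Finset.univ.erase b, Fintype.card G ^ R := by
    rw [Finset.mul_prod_erase Finset.univ (fun _ => Fintype.card G ^ R) (Finset.mem_univ b)]
    rw [Finset.prod_const, Finset.card_univ, Fintype.card_fin, ← pow_mul, mul_comm R L]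
  rw [h3, h4, if_pos rfl]
  ring

open scoped Classical in
/-- The number of the functions which take equal values at two places. -/
theorem ct_pair {G T : Type} [Fintype G] [Fintype T] [DecidableEq T] (p q : T) (hpq : p ≠ q) :
    (Finset.univ.filter (fun t : T → G => t p = t q)).card * Fintype.card G ≤
      Fintype.card G ^ Fintype.card T := by
  have h1 : Fintype.card G ^ Fintype.card T = Fintype.card (T → G) := by
    rw [Fintype.card_fun]
  rw [h1, ← Finset.card_univ (α := G), ← Finset.card_product, ← Finset.card_univ (α := T → G)]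
  apply Finset.card_le_card_of_injOn (fun y : (T → G) × G => Function.update y.1 q y.2)
  · intro y _
    exact Finset.mem_univ _
  · rintro ⟨t, g⟩ ht ⟨t', g'⟩ ht' h
    simp only [Finset.coe_product, Set.mem_prod, Finset.mem_coe, Finset.mem_filter,
      Finset.mem_univ, true_and, and_true] at ht ht'
    simp only at h
    have hg : g = g' := by
      have := congrFun h q
      simpa using this
    have hr : ∀ r, r ≠ q → t r = t' r := by
      intro r hr
      have := congrFun h r
      simpa [Function.update_of_ne hr] using this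
    have ht2 : t = t' := by
      funext r
      by_cases hrq : r = q
      · rw [hrq, ← ht, ← ht', hr p hpq]
      · exact hr r hrq
    rw [hg, ht2]

open scoped Classical in
/-- The number of the functions that are not injective. -/
theorem ct_noninj {G T : Type} [Fintype G] [Fintype T] [DecidableEq T] :
    (Finset.univ.filter (fun t : T → G => ¬ Function.Injective t)).card * Fintype.card G ≤
      Fintype.card T ^ 2 * Fintype.card G ^ Fintype.card T := by
  have h1 : (Finset.univ.filter (fun t : T → G => ¬ Function.Injective t)) ⊆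
      (Finset.univ.filter (fun q : T × T => q.1 ≠ q.2)).biUnion
        (fun q => Finset.univ.filter (fun t : T → G => t q.1 = t q.2)) := by
    intro t ht
    simp only [Finset.mem_filter, Finset.mem_univ, true_and] at ht
    unfold Function.Injective at ht
    push Not at ht
    obtain ⟨a, b, hab, hne⟩ := ht
    rw [Finset.mem_biUnion]
    exact ⟨(a, b), by simpa using hne, by simpa using hab⟩
  have h2 : (Finset.univ.filter (fun t : T → G => ¬ Function.Injective t)).card ≤
      ∑ q ∈ Finset.univ.filter (fun q : T × T => q.1 ≠ q.2),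
        (Finset.univ.filter (fun t : T → G => t q.1 = t q.2)).card :=
    (Finset.card_le_card h1).trans Finset.card_biUnion_le
  calc (Finset.univ.filter (fun t : T → G => ¬ Function.Injective t)).card * Fintype.card G
      ≤ (∑ q ∈ Finset.univ.filter (fun q : T × T => q.1 ≠ q.2),
        (Finset.univ.filter (fun t : T → G => t q.1 = t q.2)).card) * Fintype.card G :=
        Nat.mul_le_mul_right _ h2
    _ = ∑ q ∈ Finset.univ.filter (fun q : T × T => q.1 ≠ q.2),
        (Finset.univ.filter (fun t : T → G => t q.1 = t q.2)).card * Fintype.card G := by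
        rw [Finset.sum_mul]
    _ ≤ ∑ q ∈ Finset.univ.filter (fun q : T × T => q.1 ≠ q.2),
        Fintype.card G ^ Fintype.card T := by
        apply Finset.sum_le_sum
        intro q hq
        simp only [Finset.mem_filter, Finset.mem_univ, true_and] at hq
        exact ct_pair q.1 q.2 hq
    _ ≤ Fintype.card T ^ 2 * Fintype.card G ^ Fintype.card T := by
        rw [Finset.sum_const, smul_eq_mul]
        apply Nat.mul_le_mul_right
        refine (Finset.card_filter_le _ _).trans ?_
        rw [Finset.card_univ, Fintype.card_prod, sq]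

open scoped Classical in
/-- The first bound for the number of the poor `a`. -/
theorem ct_P1 {G : Type} [Group G] [Fintype G] (U : G → G → Prop)
    (h : Fintype.card G ^ 2 ≤ 64 * (Finset.univ.filter (fun q : G × G => U q.1 q.2)).card) :
    127 * (Finset.univ.filter (fun a : G =>
      128 * (Finset.univ.filter (fun u : G => U a u)).card < Fintype.card G)).card ≤
      126 * Fintype.card G := by
  set A := Finset.univ.filter (fun a : G =>
      128 * (Finset.univ.filter (fun u : G => U a u)).card < Fintype.card G) with hA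
  have h1 : (Finset.univ.filter (fun q : G × G => U q.1 q.2)).card =
      ∑ a : G, (Finset.univ.filter (fun u : G => U a u)).card := by
    simp only [Finset.card_filter]
    rw [Fintype.sum_prod_type]
  have h2 : 128 * ∑ a : G, (Finset.univ.filter (fun u : G => U a u)).card ≤
      ∑ a : G, (if a ∈ A then Fintype.card G else 128 * Fintype.card G) := by
    rw [Finset.mul_sum]
    apply Finset.sum_le_sum
    intro a _
    by_cases ha : a ∈ A
    · rw [if_pos ha]
      rw [hA, Finset.mem_filter] at ha
      exact ha.2.le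
    · rw [if_neg ha]
      apply Nat.mul_le_mul_left
      exact Finset.card_le_univ _
  have h3 : ∑ a : G, (if a ∈ A then Fintype.card G else 128 * Fintype.card G) + 127 * (A.card * Fintype.card G) =
      128 * Fintype.card G * Fintype.card G := by
    have e1 : ∀ a : G, (if a ∈ A then Fintype.card G else 128 * Fintype.card G) +
        (if a ∈ A then 127 * Fintype.card G else 0) = 128 * Fintype.card G := by
      intro a
      by_cases ha : a ∈ A
      · simp only [ha, if_true]; ring
      · simp only [ha, if_false]; ring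
    have e2 : ∑ a : G, (if a ∈ A then 127 * Fintype.card G else 0) =
        127 * (A.card * Fintype.card G) := by
      rw [Finset.sum_ite_mem, Finset.univ_inter, Finset.sum_const, smul_eq_mul]
      ring
    rw [← e2, ← Finset.sum_add_distrib, Finset.sum_congr rfl (fun a _ => e1 a), Finset.sum_const,
      Finset.card_univ, smul_eq_mul]
    ring
  have hpos : 0 < Fintype.card G := Fintype.card_pos
  have h4 : 127 * A.card * Fintype.card G ≤ 126 * Fintype.card G * Fintype.card G := by
    rw [h1] at h
    nlinarith [h, h2, h3]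
  exact Nat.le_of_mul_le_mul_right h4 hpos

open scoped Classical in
/-- The second bound for the number of the poor `a`. -/
theorem ct_P2 {G : Type} [Group G] [Fintype G] (Us : G → G → G → Prop)
    (h : (Finset.univ.filter (fun q : G × G × G => ¬ Us q.1 q.2.1 q.2.2)).card ≤
      12 * Fintype.card G ^ 2) :
    ∑ z : G, (Finset.univ.filter (fun a : G =>
      128 * (Finset.univ.filter (fun u : G => Us a z u)).card < Fintype.card G)).card ≤
      13 * Fintype.card G := by
  have hpos : 0 < Fintype.card G := Fintype.card_pos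
  have h1 : (Finset.univ.filter (fun q : G × G × G => ¬ Us q.1 q.2.1 q.2.2)).card =
      ∑ z : G, ∑ a : G, (Finset.univ.filter (fun u : G => ¬ Us a z u)).card := by
    simp only [Finset.card_filter]
    rw [Fintype.sum_prod_type]
    simp only [Fintype.sum_prod_type]
    rw [Finset.sum_comm]
  have h2 : ∀ z : G, 127 * ((Finset.univ.filter (fun a : G =>
      128 * (Finset.univ.filter (fun u : G => Us a z u)).card < Fintype.card G)).card *
        Fintype.card G) ≤ 128 * ∑ a : G, (Finset.univ.filter (fun u : G => ¬ Us a z u)).card := by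
    intro z
    set A := Finset.univ.filter (fun a : G =>
      128 * (Finset.univ.filter (fun u : G => Us a z u)).card < Fintype.card G) with hA
    rw [← smul_eq_mul (a := A.card), ← Finset.sum_const, Finset.mul_sum, Finset.mul_sum]
    refine (Finset.sum_le_sum (fun a ha => ?_)).trans (Finset.sum_le_univ_sum_of_nonneg
      (s := A) (fun a => Nat.zero_le _))
    rw [hA, Finset.mem_filter] at ha
    have e := Finset.card_filter_add_card_filter_not (s := (Finset.univ : Finset G)) (fun u : G => Us a z u)
    rw [Finset.card_univ] at e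
    have := ha.2
    omega
  have h3 : 127 * ((∑ z : G, (Finset.univ.filter (fun a : G =>
      128 * (Finset.univ.filter (fun u : G => Us a z u)).card < Fintype.card G)).card) *
        Fintype.card G) ≤ 128 * (12 * Fintype.card G ^ 2) := by
    refine le_trans ?_ (Nat.mul_le_mul_left 128 h)
    rw [h1, Finset.sum_mul, Finset.mul_sum, Finset.mul_sum]
    exact Finset.sum_le_sum (fun z _ => h2 z)
  by_contra hc
  push Not at hc
  have h4 : 13 * Fintype.card G * Fintype.card G ≤ (∑ z : G, (Finset.univ.filter (fun a : G =>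
      128 * (Finset.univ.filter (fun u : G => Us a z u)).card < Fintype.card G)).card) *
        Fintype.card G := Nat.mul_le_mul_right _ hc.le
  have h5 : 0 < Fintype.card G * Fintype.card G := Nat.mul_pos hpos hpos
  nlinarith [h3, h4, h5]

open scoped Classical in
/-- The average number of bad `x`. -/
theorem ct_sum {G : Type} [Group G] [Fintype G] (L R : ℕ) (Us : G → G → G → Prop)
    (hR : 832 * (L : ℝ) * (126 / 127 : ℝ) ^ R ≤ 1)
    (h1 : ∀ z : G, z ≠ 1 → Fintype.card G ^ 2 ≤
      64 * (Finset.univ.filter (fun q : G × G => Us q.1 z q.2)).card)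
    (h2 : (Finset.univ.filter (fun q : G × G × G => ¬ Us q.1 q.2.1 q.2.2)).card ≤
      12 * Fintype.card G ^ 2) :
    64 * ∑ t : Fin L × Fin (R + 1) → G,
      (Finset.univ.filter (fun x : G => ¬ ∀ z : G, z ≠ 1 → ∀ b : Fin L, ∃ j : Fin (R + 1),
        Fintype.card G ≤ 128 * (Finset.univ.filter
          (fun u : G => Us (x⁻¹ * t (b, j)) z u)).card)).card ≤
      Fintype.card G * Fintype.card G ^ (L * (R + 1)) := by
  have hpos : 0 < Fintype.card G := Fintype.card_pos
  set n := Fintype.card G with hn
  have hnR : (0 : ℝ) < n := by exact_mod_cast hpos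
  set A : G → Finset G := fun z => Finset.univ.filter (fun a : G =>
      128 * (Finset.univ.filter (fun u : G => Us a z u)).card < n) with hA
  -- pointwise bound
  have hb : ∀ t : Fin L × Fin (R + 1) → G,
      (Finset.univ.filter (fun x : G => ¬ ∀ z : G, z ≠ 1 → ∀ b : Fin L, ∃ j : Fin (R + 1),
        n ≤ 128 * (Finset.univ.filter (fun u : G => Us (x⁻¹ * t (b, j)) z u)).card)).card ≤
      ∑ x : G, ∑ z ∈ Finset.univ.erase (1 : G), ∑ b : Fin L,
        (if (∀ j : Fin (R + 1), x⁻¹ * t (b, j) ∈ A z) then 1 else 0) := by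
    intro t
    rw [Finset.card_filter]
    apply Finset.sum_le_sum
    intro x _
    split_ifs with h
    · exact Nat.zero_le _
    · push Not at h
      obtain ⟨z, hz, b, hj⟩ := h
      have e1 : (1 : ℕ) ≤ ∑ b : Fin L, (if (∀ j : Fin (R + 1), x⁻¹ * t (b, j) ∈ A z) then 1 else 0) := by
        refine le_trans ?_ (Finset.single_le_sum (fun _ _ => Nat.zero_le _) (Finset.mem_univ b))
        rw [if_pos]
        intro j
        rw [hA]
        simp only [Finset.mem_filter, Finset.mem_univ, true_and]
        exact hj j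
      refine e1.trans ?_
      exact Finset.single_le_sum (f := fun z => ∑ b : Fin L,
        (if (∀ j : Fin (R + 1), x⁻¹ * t (b, j) ∈ A z) then 1 else 0)) (fun _ _ => Nat.zero_le _)
        (Finset.mem_erase.2 ⟨hz, Finset.mem_univ z⟩)
  have hS : (∑ t : Fin L × Fin (R + 1) → G,
      (Finset.univ.filter (fun x : G => ¬ ∀ z : G, z ≠ 1 → ∀ b : Fin L, ∃ j : Fin (R + 1),
        n ≤ 128 * (Finset.univ.filter (fun u : G => Us (x⁻¹ * t (b, j)) z u)).card)).card) ≤
      ∑ x : G, ∑ z ∈ Finset.univ.erase (1 : G), ∑ b : Fin L,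
        (Finset.univ.filter (fun t : Fin L × Fin (R + 1) → G => ∀ j, x⁻¹ * t (b, j) ∈ A z)).card := by
    refine (Finset.sum_le_sum (fun t _ => hb t)).trans (le_of_eq ?_)
    rw [Finset.sum_comm]
    apply Finset.sum_congr rfl
    intro x _
    rw [Finset.sum_comm]
    apply Finset.sum_congr rfl
    intro z _
    rw [Finset.sum_comm]
    apply Finset.sum_congr rfl
    intro b _
    rw [Finset.card_filter]
  -- the number for given x, z, b
  have hterm : ∀ x : G, ∀ z ∈ Finset.univ.erase (1 : G), ∀ b : Fin L,
      ((Finset.univ.filter (fun t : Fin L × Fin (R + 1) → G => ∀ j, x⁻¹ * t (b, j) ∈ A z)).card : ℝ) ≤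
        (126 / 127 : ℝ) ^ R * ((A z).card / n) * (n : ℝ) ^ (L * (R + 1)) := by
    intro x z hz b
    have e1 := ct_block L (R + 1) (A z) x b
    have e2 : ((Finset.univ.filter (fun t : Fin L × Fin (R + 1) → G => ∀ j, x⁻¹ * t (b, j) ∈ A z)).card : ℝ) *
        (n : ℝ) ^ (R + 1) = ((A z).card : ℝ) ^ (R + 1) * (n : ℝ) ^ (L * (R + 1)) := by
      exact_mod_cast e1
    have e3 : 127 * ((A z).card : ℝ) ≤ 126 * (n : ℝ) := by
      have := ct_P1 (fun a u => Us a z u) (h1 z (Finset.ne_of_mem_erase hz))
      exact_mod_cast this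
    have e4 : ((A z).card : ℝ) / n ≤ 126 / 127 := by
      rw [div_le_iff₀ hnR]
      linarith
    have e5 : ((Finset.univ.filter (fun t : Fin L × Fin (R + 1) → G => ∀ j, x⁻¹ * t (b, j) ∈ A z)).card : ℝ) =
        (((A z).card : ℝ) / n) ^ (R + 1) * (n : ℝ) ^ (L * (R + 1)) := by
      rw [div_pow, div_mul_eq_mul_div, eq_div_iff (by positivity)]
      exact e2
    rw [e5, pow_succ]
    apply mul_le_mul_of_nonneg_right _ (by positivity)
    apply mul_le_mul_of_nonneg_right _ (by positivity)
    exact pow_le_pow_left₀ (by positivity) e4 R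
  have hP2 : ((∑ z ∈ Finset.univ.erase (1 : G), (A z).card : ℕ) : ℝ) ≤ 13 * (n : ℝ) := by
    have := ct_P2 Us h2
    have e : (∑ z ∈ Finset.univ.erase (1 : G), (A z).card) ≤ 13 * n :=
      (Finset.sum_le_sum_of_subset (Finset.erase_subset _ _)).trans this
    exact_mod_cast e
  have hfin : ((∑ x : G, ∑ z ∈ Finset.univ.erase (1 : G), ∑ b : Fin L,
        (Finset.univ.filter (fun t : Fin L × Fin (R + 1) → G => ∀ j, x⁻¹ * t (b, j) ∈ A z)).card : ℕ) : ℝ) ≤
      (n : ℝ) * ((L : ℝ) * (126 / 127 : ℝ) ^ R * 13) * (n : ℝ) ^ (L * (R + 1)) := by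
    push_cast
    calc (∑ x : G, ∑ z ∈ Finset.univ.erase (1 : G), ∑ b : Fin L,
        ((Finset.univ.filter (fun t : Fin L × Fin (R + 1) → G => ∀ j, x⁻¹ * t (b, j) ∈ A z)).card : ℝ))
        ≤ ∑ x : G, ∑ z ∈ Finset.univ.erase (1 : G), ∑ b : Fin L,
          (126 / 127 : ℝ) ^ R * ((A z).card / n) * (n : ℝ) ^ (L * (R + 1)) :=
          Finset.sum_le_sum (fun x _ => Finset.sum_le_sum (fun z hz =>
            Finset.sum_le_sum (fun b _ => hterm x z hz b)))
      _ = (n : ℝ) * ((L : ℝ) * (126 / 127 : ℝ) ^ R * ((∑ z ∈ Finset.univ.erase (1 : G), ((A z).card : ℝ)) / n)) *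
          (n : ℝ) ^ (L * (R + 1)) := by
          simp only [Finset.sum_const, Finset.card_univ, Fintype.card_fin, nsmul_eq_mul, ← hn]
          simp only [Finset.sum_div, Finset.mul_sum, Finset.sum_mul]
          apply Finset.sum_congr rfl
          intro z _
          ring
      _ ≤ _ := by
          have e6 : (∑ z ∈ Finset.univ.erase (1 : G), ((A z).card : ℝ)) / n ≤ 13 := by
            rw [div_le_iff₀ hnR]
            have := hP2
            push_cast at this
            exact this
          gcongr
  have hreal : (64 : ℝ) * ((∑ t : Fin L × Fin (R + 1) → G,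
      (Finset.univ.filter (fun x : G => ¬ ∀ z : G, z ≠ 1 → ∀ b : Fin L, ∃ j : Fin (R + 1),
        n ≤ 128 * (Finset.univ.filter (fun u : G => Us (x⁻¹ * t (b, j)) z u)).card)).card : ℕ) : ℝ) ≤
      (n : ℝ) * (n : ℝ) ^ (L * (R + 1)) := by
    have e7 : ((∑ t : Fin L × Fin (R + 1) → G,
      (Finset.univ.filter (fun x : G => ¬ ∀ z : G, z ≠ 1 → ∀ b : Fin L, ∃ j : Fin (R + 1),
        n ≤ 128 * (Finset.univ.filter (fun u : G => Us (x⁻¹ * t (b, j)) z u)).card)).card : ℕ) : ℝ) ≤
        (n : ℝ) * ((L : ℝ) * (126 / 127 : ℝ) ^ R * 13) * (n : ℝ) ^ (L * (R + 1)) :=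
      le_trans (by exact_mod_cast hS) hfin
    have e8 : 64 * ((L : ℝ) * (126 / 127 : ℝ) ^ R * 13) ≤ 1 := by
      linarith
    have e9 : (0 : ℝ) ≤ (n : ℝ) * (n : ℝ) ^ (L * (R + 1)) := by positivity
    nlinarith [mul_le_mul_of_nonneg_right e8 e9]
  exact_mod_cast hreal

open scoped Classical in
theorem chooseT (L : ℕ) (hL : 0 < L) : ∃ R n₀ : ℕ, 0 < R ∧ ∀ (G : Type) [Group G] [Fintype G]
    (Us : G → G → G → Prop), n₀ ≤ Fintype.card G →
    (∀ z : G, z ≠ 1 → Fintype.card G ^ 2 ≤
      64 * (Finset.univ.filter (fun q : G × G => Us q.1 z q.2)).card) →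
    (Finset.univ.filter (fun q : G × G × G => ¬ Us q.1 q.2.1 q.2.2)).card ≤ 12 * Fintype.card G ^ 2 →
    ∃ t : Fin L × Fin R → G, Function.Injective t ∧
      16 * (Finset.univ.filter (fun x : G => ¬ ∀ z : G, z ≠ 1 → ∀ b : Fin L, ∃ j : Fin R,
        Fintype.card G ≤ 128 * (Finset.univ.filter (fun u : G => Us (x⁻¹ * t (b, j)) z u)).card)).card ≤
        Fintype.card G := by
  have hLR : (0 : ℝ) < L := by exact_mod_cast hL
  obtain ⟨R, hR⟩ := exists_pow_lt_of_lt_one (show (0 : ℝ) < 1 / (832 * (L : ℝ)) by positivity)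
    (show (126 / 127 : ℝ) < 1 by norm_num)
  have hR' : 832 * (L : ℝ) * (126 / 127 : ℝ) ^ R ≤ 1 := by
    have := (lt_div_iff₀ (show (0 : ℝ) < 832 * (L : ℝ) by positivity)).1 hR
    linarith
  refine ⟨R + 1, 4 * (L * (R + 1)) ^ 2, Nat.succ_pos _, ?_⟩
  intro G _ _ Us hn0 h1 h2
  have hpos : 0 < Fintype.card G := Fintype.card_pos
  have hsum := ct_sum L R Us hR' h1 h2
  set n := Fintype.card G with hn
  have hni := ct_noninj (G := G) (T := Fin L × Fin (R + 1))
  have hcT : Fintype.card (Fin L × Fin (R + 1)) = L * (R + 1) := by simp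
  rw [hcT, ← hn] at hni
  set N := n ^ (L * (R + 1)) with hN
  have hNpos : 0 < N := pow_pos hpos _
  by_contra hcon
  -- few functions are not injective
  have h4 : 4 * (Finset.univ.filter (fun t : Fin L × Fin (R + 1) → G => ¬ Function.Injective t)).card ≤ N := by
    have e1 : (4 * (Finset.univ.filter (fun t : Fin L × Fin (R + 1) → G =>
        ¬ Function.Injective t)).card) * n ≤ N * n := by
      calc (4 * (Finset.univ.filter (fun t : Fin L × Fin (R + 1) → G =>
        ¬ Function.Injective t)).card) * n = 4 * ((Finset.univ.filter (fun t : Fin L × Fin (R + 1) → G =>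
        ¬ Function.Injective t)).card * n) := by ring
        _ ≤ 4 * ((L * (R + 1)) ^ 2 * N) := Nat.mul_le_mul_left _ hni
        _ = (4 * (L * (R + 1)) ^ 2) * N := by ring
        _ ≤ n * N := Nat.mul_le_mul_right _ hn0
        _ = N * n := by ring
    exact Nat.le_of_mul_le_mul_right e1 hpos
  have h5 : (Finset.univ.filter (fun t : Fin L × Fin (R + 1) → G => Function.Injective t)).card +
      (Finset.univ.filter (fun t : Fin L × Fin (R + 1) → G => ¬ Function.Injective t)).card = N := by
    rw [Finset.card_filter_add_card_filter_not, Finset.card_univ, Fintype.card_fun, hcT]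
  have h6 : (Finset.univ.filter (fun t : Fin L × Fin (R + 1) → G => Function.Injective t)).card * n ≤
      16 * ∑ t : Fin L × Fin (R + 1) → G,
      (Finset.univ.filter (fun x : G => ¬ ∀ z : G, z ≠ 1 → ∀ b : Fin L, ∃ j : Fin (R + 1),
        n ≤ 128 * (Finset.univ.filter (fun u : G => Us (x⁻¹ * t (b, j)) z u)).card)).card := by
    rw [Finset.mul_sum, ← smul_eq_mul, ← Finset.sum_const]
    refine (Finset.sum_le_sum (fun t ht => ?_)).trans (Finset.sum_le_univ_sum_of_nonneg
      (s := Finset.univ.filter (fun t : Fin L × Fin (R + 1) → G => Function.Injective t))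
      (fun t => Nat.zero_le _))
    rw [Finset.mem_filter] at ht
    by_contra hlt
    exact hcon ⟨t, ht.2, le_of_lt (not_le.1 hlt)⟩
  have h7 : 3 * N ≤ 4 * (Finset.univ.filter
      (fun t : Fin L × Fin (R + 1) → G => Function.Injective t)).card := by omega
  have h8 : 3 * N * n ≤ n * N := by
    calc 3 * N * n ≤ 4 * (Finset.univ.filter
      (fun t : Fin L × Fin (R + 1) → G => Function.Injective t)).card * n := Nat.mul_le_mul_right _ h7
      _ = 4 * ((Finset.univ.filter
      (fun t : Fin L × Fin (R + 1) → G => Function.Injective t)).card * n) := by ring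
      _ ≤ 4 * (16 * ∑ t : Fin L × Fin (R + 1) → G,
      (Finset.univ.filter (fun x : G => ¬ ∀ z : G, z ≠ 1 → ∀ b : Fin L, ∃ j : Fin (R + 1),
        n ≤ 128 * (Finset.univ.filter (fun u : G => Us (x⁻¹ * t (b, j)) z u)).card)).card) :=
        Nat.mul_le_mul_left _ h6
      _ = 64 * ∑ t : Fin L × Fin (R + 1) → G,
      (Finset.univ.filter (fun x : G => ¬ ∀ z : G, z ≠ 1 → ∀ b : Fin L, ∃ j : Fin (R + 1),
        n ≤ 128 * (Finset.univ.filter (fun u : G => Us (x⁻¹ * t (b, j)) z u)).card)).card := by ring
      _ ≤ n * N := hsum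
  have h9 : 0 < N * n := Nat.mul_pos hNpos hpos
  nlinarith [h8, h9]

end Pool.RCay
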