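import Pool.Agent.RCay.EvCount

/-!
# Module CODEG: the gadgets can be recognised from the numbers of common neighbours

PAPER PROOF. `codeg_same`: by `adj_cfi` the neighbours of `(v, A)` are the `(v + e_i, C)` with `C_i = A_i + τ v i`. The common neighbours
of `(v, A)` and `(v, B)` are the `(v + e_i, C)` with `A_i = B_i` and `C_i = A_i + τ v i`; for each `i` with `A_i = B_i` there are
`2^{m-2}` of them (`card_one`). The number of the `i` with `A_i = B_i` is `m - 2`.
`codeg_diff`: let `(u, C)` be a common neighbour of `x = (v, A)` and `y = (v', B)`, `v ≠ v'`: `u = v + e_i = v' + e_j` with `i ≠ j`. Then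
`v + v' = e_i + e_j`, so the unordered pair `{i, j}` is determined by `x, y` and there are at most two possibilities for `u`; for each of them
`C_i`, `C_j` are prescribed: at most `2^{m-3}` vectors `C` (`card_two`). Total `≤ 2 · 2^{m-3} = 2^{m-2} < (m - 2) 2^{m-2}`.
-/

namespace Pool.RCay

open scoped Classical

theorem codeg_same {m : ℕ} (hm : 4 ≤ m) {τ : (Fin m → ZMod 2) → Fin m → ZMod 2} (hτ : Sym τ)
    (v : Fin m → ZMod 2) (A B : EV m) (hAB : (Finset.univ.filter (fun i => A.1 i ≠ B.1 i)).card = 2) :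
    (Finset.univ.filter (fun z => (cfi τ).Adj (v, A) z ∧ (cfi τ).Adj (v, B) z)).card =
      (m - 2) * 2 ^ (m - 2) := by
  have hS : (Finset.univ.filter (fun z => (cfi τ).Adj (v, A) z ∧ (cfi τ).Adj (v, B) z)) =
      (Finset.univ.filter (fun i => A.1 i = B.1 i)).biUnion
        (fun i => (Finset.univ.filter (fun C : EV m => C.1 i = A.1 i + τ v i)).image
          (fun C => ((v + ev i, C) : CV m))) := by
    ext ⟨u, C⟩
    simp only [Finset.mem_filter, Finset.mem_univ, true_and, Finset.mem_biUnion, Finset.mem_image,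
      adj_cfi hτ, Prod.mk.injEq]
    constructor
    · rintro ⟨⟨i, h1, h2⟩, ⟨j, h3, h4⟩⟩
      have hij : i = j := ev_injective (add_left_cancel (h1.symm.trans h3))
      subst hij
      refine ⟨i, ?_, C, ?_, h1.symm, rfl⟩
      · exact add_right_cancel (h2.trans h4.symm)
      · rw [← h2, ← add_assoc, CharTwo.add_self_eq_zero, zero_add]
    · rintro ⟨i, h1, D, h2, h3, rfl⟩
      refine ⟨⟨i, h3.symm, ?_⟩, ⟨i, h3.symm, ?_⟩⟩
      · rw [h2, ← add_assoc, CharTwo.add_self_eq_zero, zero_add]
      · rw [h2, ← h1, ← add_assoc, CharTwo.add_self_eq_zero, zero_add]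
  rw [hS, Finset.card_biUnion]
  · have h1 : ∀ i ∈ Finset.univ.filter (fun i => A.1 i = B.1 i),
        ((Finset.univ.filter (fun C : EV m => C.1 i = A.1 i + τ v i)).image
          (fun C => ((v + ev i, C) : CV m))).card = 2 ^ (m - 2) := by
      intro i _
      rw [Finset.card_image_of_injective, card_one (by omega)]
      intro C D h
      exact (Prod.mk.inj h).2
    rw [Finset.sum_congr rfl h1, Finset.sum_const, smul_eq_mul]
    congr 1
    have h2 := Finset.card_filter_add_card_filter_not (s := (Finset.univ : Finset (Fin m)))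
      (fun i => A.1 i = B.1 i)
    rw [Finset.card_univ, Fintype.card_fin] at h2
    have h3 : (Finset.univ.filter (fun i => ¬ A.1 i = B.1 i)).card = 2 := hAB
    omega
  · intro i _ j _ hij
    rw [Function.onFun, Finset.disjoint_left]
    rintro z hz hz'
    simp only [Finset.mem_image] at hz hz'
    obtain ⟨C, _, rfl⟩ := hz
    obtain ⟨D, _, hD⟩ := hz'
    have h := (Prod.mk.inj hD).1
    exact hij (ev_injective (add_left_cancel h)).symm

theorem codeg_add_self {m : ℕ} (v : Fin m → ZMod 2) : v + v = 0 := by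
  funext l
  simp only [Pi.add_apply, Pi.zero_apply]
  exact CharTwo.add_self_eq_zero _

theorem codeg_ev_pair {m : ℕ} {i j k l : Fin m} (hij : i ≠ j) (h : ev i + ev j = (ev k + ev l : Fin m → ZMod 2)) :
    (k = i ∧ l = j) ∨ (k = j ∧ l = i) := by
  have hkl : k ≠ l := by
    rintro rfl
    rw [ev_add_ev] at h
    apply hij
    apply ev_injective
    calc ev i = ev i + ev j + ev j := by rw [add_ev_add_ev]
      _ = ev j := by rw [h, zero_add]
  have h1 := congrFun h i
  have h2 := congrFun h j
  simp only [ev, Pi.add_apply, Pi.single_apply, hij, hij.symm, if_true, if_false] at h1 h2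
  by_cases hk : i = k
  · by_cases hl : j = l
    · left
      exact ⟨hk.symm, hl.symm⟩
    · exfalso
      have hjk : ¬ j = k := fun h => hij (hk.trans h.symm)
      simp [hl, hjk] at h2
  · by_cases hl : i = l
    · by_cases hjk : j = k
      · right
        exact ⟨hjk.symm, hl.symm⟩
      · exfalso
        have hjl : ¬ j = l := fun h => hij (hl.trans h.symm)
        simp [hjl, hjk] at h2
    · exfalso
      simp [hk, hl] at h1

theorem codeg_diff {m : ℕ} (hm : 4 ≤ m) {τ : (Fin m → ZMod 2) → Fin m → ZMod 2} (hτ : Sym τ)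
    (x y : CV m) (hxy : x.1 ≠ y.1) :
    (Finset.univ.filter (fun z => (cfi τ).Adj x z ∧ (cfi τ).Adj y z)).card <
      (m - 2) * 2 ^ (m - 2) := by
  have hpos : 0 < 2 ^ (m - 2) := by positivity
  rcases Finset.eq_empty_or_nonempty
    (Finset.univ.filter (fun z => (cfi τ).Adj x z ∧ (cfi τ).Adj y z)) with he | ⟨z, hz⟩
  · rw [he, Finset.card_empty]
    exact Nat.mul_pos (by omega) hpos
  · rw [Finset.mem_filter, adj_cfi hτ, adj_cfi hτ] at hz
    obtain ⟨-, ⟨i, h1, -⟩, ⟨j, h2, -⟩⟩ := hz
    have h12 : x.1 + ev i = y.1 + ev j := h1.symm.trans h2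
    have hij : i ≠ j := by
      rintro rfl
      exact hxy (add_right_cancel h12)
    have hsum : x.1 + y.1 = ev i + ev j := by
      calc x.1 + y.1 = (x.1 + ev i + ev i) + (y.1 + ev j + ev j) := by
            rw [add_ev_add_ev, add_ev_add_ev]
        _ = (x.1 + ev i) + (y.1 + ev j) + (ev i + ev j) := by ring
        _ = (y.1 + ev j) + (y.1 + ev j) + (ev i + ev j) := by rw [h12]
        _ = ev i + ev j := by
            rw [codeg_add_self, zero_add]
    have hsub : (Finset.univ.filter (fun z => (cfi τ).Adj x z ∧ (cfi τ).Adj y z)) ⊆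
        ((Finset.univ.filter (fun C : EV m => C.1 i = x.2.1 i + τ x.1 i ∧ C.1 j = y.2.1 j + τ y.1 j)).image
          (fun C => ((x.1 + ev i, C) : CV m))) ∪
        ((Finset.univ.filter (fun C : EV m => C.1 j = x.2.1 j + τ x.1 j ∧ C.1 i = y.2.1 i + τ y.1 i)).image
          (fun C => ((x.1 + ev j, C) : CV m))) := by
      rintro ⟨u, C⟩ hu
      rw [Finset.mem_filter, adj_cfi hτ, adj_cfi hτ] at hu
      obtain ⟨-, ⟨k, h3, h4⟩, ⟨l, h5, h6⟩⟩ := hu
      simp only at h3 h4 h5 h6
      have h34 : x.1 + ev k = y.1 + ev l := h3.symm.trans h5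
      have hkl : ev i + ev j = (ev k + ev l : Fin m → ZMod 2) := by
        rw [← hsum]
        calc x.1 + y.1 = (x.1 + ev k + ev k) + (y.1 + ev l + ev l) := by
              rw [add_ev_add_ev, add_ev_add_ev]
          _ = (x.1 + ev k) + (y.1 + ev l) + (ev k + ev l) := by ring
          _ = (y.1 + ev l) + (y.1 + ev l) + (ev k + ev l) := by rw [h34]
          _ = ev k + ev l := by
              rw [codeg_add_self, zero_add]
      have e1 : C.1 k = x.2.1 k + τ x.1 k := by
        rw [← h4, ← add_assoc, CharTwo.add_self_eq_zero, zero_add]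
      have e2 : C.1 l = y.2.1 l + τ y.1 l := by
        rw [← h6, ← add_assoc, CharTwo.add_self_eq_zero, zero_add]
      rw [Finset.mem_union, Finset.mem_image, Finset.mem_image]
      rcases codeg_ev_pair hij hkl with ⟨rfl, rfl⟩ | ⟨rfl, rfl⟩
      · left
        exact ⟨C, by simp only [Finset.mem_filter, Finset.mem_univ, true_and]; exact ⟨e1, e2⟩,
          by rw [h3]⟩
      · right
        exact ⟨C, by simp only [Finset.mem_filter, Finset.mem_univ, true_and]; exact ⟨e1, e2⟩,
          by rw [h3]⟩
    have hcard : (Finset.univ.filter (fun z => (cfi τ).Adj x z ∧ (cfi τ).Adj y z)).card ≤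
        2 ^ (m - 3) + 2 ^ (m - 3) := by
      refine (Finset.card_le_card hsub).trans ((Finset.card_union_le _ _).trans ?_)
      refine Nat.add_le_add ?_ ?_
      · refine Finset.card_image_le.trans ?_
        rw [card_two (by omega) i j hij]
      · refine Finset.card_image_le.trans ?_
        rw [card_two (by omega) j i hij.symm]
    have hpow : 2 ^ (m - 2) = 2 ^ (m - 3) + 2 ^ (m - 3) := by
      have : m - 2 = (m - 3) + 1 := by omega
      rw [this, pow_succ]
      ring
    calc _ ≤ 2 ^ (m - 2) := by rw [hpow]; exact hcard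
      _ < (m - 2) * 2 ^ (m - 2) := by nlinarith [hpos, (by omega : 2 ≤ m - 2)]

end Pool.RCay
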