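import Pool.Agent.RCay.CDefs

/-!
# Module CORE: a small set of vertices of the hypercube misses a subgraph of minimum degree 2

PAPER PROOF. For a finset `S` of vertices let `e S = #{(v, i) | v ∈ S, v + e_i ∈ S}`. Of the `m 2^m` pairs `(v, i)` at most
`m |F|` have `v ∈ F` and at most `m |F|` have `v + e_i ∈ F`, so `e Fᶜ ≥ m 2^m - 2 m |F| ≥ 2 (2^m - |F|) = 2 |Fᶜ|`, by `hF`
(`2 (m-1) |F| ≤ (m-2) 2^m`); `Fᶜ` is not empty (`|F| < 2^m`). Let `W ⊆ Fᶜ` be nonempty with `e W ≥ 2 |W|` and of minimal cardinality.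
If `v ∈ W` has `d ≤ 1` neighbours in `W`, then `e (W \ {v}) = e W - 2 d ≥ 2 |W| - 2 = 2 |W \ {v}|`, and `W \ {v}` is not empty (`e {v} = 0`
because `v + e_i ≠ v`), contradicting minimality.
-/

namespace Pool.RCay

open scoped Classical

/-- The degree of `v` inside `S`. -/
noncomputable def cdg {m : ℕ} (S : Finset (Fin m → ZMod 2)) (v : Fin m → ZMod 2) : ℕ :=
  (Finset.univ.filter (fun i => v + ev i ∈ S)).card

theorem core_erase {m : ℕ} (S : Finset (Fin m → ZMod 2)) (v : Fin m → ZMod 2) (hv : v ∈ S) :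
    ∑ u ∈ S, cdg S u ≤ ∑ u ∈ S.erase v, cdg (S.erase v) u + 2 * cdg S v := by
  have h1 : ∑ u ∈ S, cdg S u = cdg S v + ∑ u ∈ S.erase v, cdg S u :=
    (Finset.add_sum_erase S (cdg S) hv).symm
  have h2 : ∀ u ∈ S.erase v, cdg S u ≤ cdg (S.erase v) u
      + (Finset.univ.filter (fun i : Fin m => u + ev i = v)).card := by
    intro u _
    unfold cdg
    refine le_trans (Finset.card_le_card ?_) (Finset.card_union_le _ _)
    intro i hi
    simp only [Finset.mem_filter, Finset.mem_univ, true_and, Finset.mem_union,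
      Finset.mem_erase] at hi ⊢
    by_cases h : u + ev i = v
    · exact Or.inr h
    · exact Or.inl ⟨h, hi⟩
  have h3 : ∑ u ∈ S.erase v, (Finset.univ.filter (fun i : Fin m => u + ev i = v)).card
      ≤ cdg S v := by
    rw [← Finset.card_sigma]
    unfold cdg
    refine Finset.card_le_card_of_injOn (fun p => p.2) ?_ ?_
    · rintro ⟨u, i⟩ hp
      simp only [Finset.coe_sigma, Set.mem_sigma_iff, Finset.mem_coe, Finset.mem_erase,
        Finset.mem_filter, Finset.mem_univ, true_and] at hp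
      simp only [Finset.coe_filter, Finset.mem_univ, true_and, Set.mem_setOf_eq]
      obtain ⟨⟨_, h⟩, h'⟩ := hp
      rw [← h', add_ev_add_ev]
      exact h
    · rintro ⟨u, i⟩ hp ⟨u', i'⟩ hp' hii
      simp only [Finset.coe_sigma, Set.mem_sigma_iff, Finset.mem_coe, Finset.mem_erase,
        Finset.mem_filter, Finset.mem_univ, true_and] at hp hp' hii
      subst hii
      have : u = u' := by
        have h := hp.2.trans hp'.2.symm
        exact add_right_cancel h
      subst this
      rfl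
  calc ∑ u ∈ S, cdg S u = cdg S v + ∑ u ∈ S.erase v, cdg S u := h1
    _ ≤ cdg S v + ∑ u ∈ S.erase v, (cdg (S.erase v) u
        + (Finset.univ.filter (fun i : Fin m => u + ev i = v)).card) :=
      Nat.add_le_add_left (Finset.sum_le_sum h2) _
    _ = cdg S v + (∑ u ∈ S.erase v, cdg (S.erase v) u
        + ∑ u ∈ S.erase v, (Finset.univ.filter (fun i : Fin m => u + ev i = v)).card) := by
      rw [Finset.sum_add_distrib]
    _ ≤ ∑ u ∈ S.erase v, cdg (S.erase v) u + 2 * cdg S v := by omega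

theorem core_min {m : ℕ} : ∀ (n : ℕ) (S : Finset (Fin m → ZMod 2)), S.card = n → S.Nonempty →
    2 * S.card ≤ ∑ u ∈ S, cdg S u →
    ∃ W ⊆ S, W.Nonempty ∧ ∀ v ∈ W, 2 ≤ cdg W v := by
  intro n
  induction n with
  | zero =>
    intro S hS hne _
    exact absurd (Finset.card_pos.mpr hne) (by omega)
  | succ n ih =>
    intro S hS hne he
    by_cases hall : ∀ v ∈ S, 2 ≤ cdg S v
    · exact ⟨S, Finset.Subset.refl _, hne, hall⟩
    push Not at hall
    obtain ⟨v, hv, hd⟩ := hall
    have h1 := core_erase S v hv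
    have hc : (S.erase v).card = n := by
      rw [Finset.card_erase_of_mem hv, hS]
      rfl
    have hne' : (S.erase v).Nonempty := by
      by_contra hcon
      rw [Finset.not_nonempty_iff_eq_empty] at hcon
      have hSv : S = {v} := by
        rw [Finset.erase_eq_empty_iff] at hcon
        rcases hcon with h | h
        · rw [h] at hv
          exact absurd hv (Finset.notMem_empty _)
        · exact h
      have hz : cdg S v = 0 := by
        unfold cdg
        rw [Finset.card_eq_zero, Finset.filter_eq_empty_iff]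
        intro i _ h
        rw [hSv, Finset.mem_singleton] at h
        exact add_ev_ne _ _ h
      rw [hSv, Finset.sum_singleton, Finset.card_singleton] at he
      rw [hSv] at hz
      omega
    obtain ⟨W, hW, h2, h3⟩ := ih (S.erase v) hc hne' (by omega)
    exact ⟨W, hW.trans (Finset.erase_subset _ _), h2, h3⟩

theorem core_start {m : ℕ} (F : Finset (Fin m → ZMod 2)) :
    m * 2 ^ m ≤ ∑ u ∈ Fᶜ, cdg Fᶜ u + 2 * (m * F.card) := by
  have hcard : Fintype.card (Fin m → ZMod 2) = 2 ^ m := by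
    rw [Fintype.card_fun, ZMod.card, Fintype.card_fin]
  have h1 : ∑ u ∈ Fᶜ, cdg Fᶜ u
      = ∑ i : Fin m, (Fᶜ.filter (fun u => u + ev i ∈ Fᶜ)).card := by
    unfold cdg
    simp only [Finset.card_filter]
    rw [Finset.sum_comm]
  have h2 : ∀ i : Fin m, 2 ^ m ≤ (Fᶜ.filter (fun u => u + ev i ∈ Fᶜ)).card + 2 * F.card := by
    intro i
    have h3 : (Finset.univ : Finset (Fin m → ZMod 2)) ⊆
        (Fᶜ.filter (fun u => u + ev i ∈ Fᶜ)) ∪ (F ∪ F.image (fun u => u + ev i)) := by
      intro u _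
      simp only [Finset.mem_union, Finset.mem_filter, Finset.mem_compl, Finset.mem_image]
      by_cases ha : u ∈ F
      · exact Or.inr (Or.inl ha)
      · by_cases hb : u + ev i ∈ F
        · exact Or.inr (Or.inr ⟨_, hb, add_ev_add_ev _ _⟩)
        · exact Or.inl ⟨ha, hb⟩
    have h4 := Finset.card_le_card h3
    rw [Finset.card_univ, hcard] at h4
    have h5 := Finset.card_union_le (Fᶜ.filter (fun u => u + ev i ∈ Fᶜ))
      (F ∪ F.image (fun u => u + ev i))
    have h6 := Finset.card_union_le F (F.image (fun u => u + ev i))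
    have h7 : (F.image (fun u => u + ev i)).card ≤ F.card := Finset.card_image_le
    omega
  have h8 : ∑ _i : Fin m, 2 ^ m ≤ ∑ i : Fin m,
      ((Fᶜ.filter (fun u => u + ev i ∈ Fᶜ)).card + 2 * F.card) :=
    Finset.sum_le_sum (fun i _ => h2 i)
  rw [Finset.sum_add_distrib, ← h1] at h8
  simp only [Finset.sum_const, Finset.card_univ, Fintype.card_fin, smul_eq_mul] at h8
  calc m * 2 ^ m ≤ _ := h8
    _ = _ := by ring

theorem core {m : ℕ} (hm : 2 ≤ m) (F : Finset (Fin m → ZMod 2))
    (hF : F.card * (m - 1) ≤ (m - 2) * 2 ^ (m - 1)) :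
    ∃ W : Finset (Fin m → ZMod 2), W.Nonempty ∧ Disjoint W F ∧
      ∀ v ∈ W, 2 ≤ (Finset.univ.filter (fun i => v + ev i ∈ W)).card := by
  have hcard : Fintype.card (Fin m → ZMod 2) = 2 ^ m := by
    rw [Fintype.card_fun, ZMod.card, Fintype.card_fin]
  obtain ⟨k, rfl⟩ : ∃ k, m = k + 2 := ⟨m - 2, by omega⟩
  have e1 : k + 2 - 1 = k + 1 := rfl
  have e2 : k + 2 - 2 = k := rfl
  rw [e1, e2] at hF
  have hp : 0 < 2 ^ (k + 1) := by positivity
  have hpow : 2 ^ (k + 2) = 2 * 2 ^ (k + 1) := by ring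
  have hc : (Fᶜ).card + F.card = 2 ^ (k + 2) := by
    rw [← hcard]
    exact Finset.card_compl_add_card F
  have hlt : F.card < 2 ^ (k + 2) := by
    by_contra hcon
    push Not at hcon
    have h1 : 2 ^ (k + 2) * (k + 1) ≤ F.card * (k + 1) := Nat.mul_le_mul_right _ hcon
    rw [hpow] at h1
    nlinarith
  have hst := core_start F
  have he : 2 * (Fᶜ).card ≤ ∑ u ∈ Fᶜ, cdg Fᶜ u := by
    rw [hpow] at hst hc
    nlinarith
  have hne : (Fᶜ).Nonempty := by
    rw [← Finset.card_pos]
    omega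
  obtain ⟨W, hW, h2, h3⟩ := core_min _ Fᶜ rfl hne he
  refine ⟨W, h2, ?_, h3⟩
  rw [Finset.disjoint_left]
  intro v hv hvF
  exact (Finset.mem_compl.mp (hW hv)) hvF

end Pool.RCay
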