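import Pool.Agent.RCay.CDefs

/-!
# Module COUNTS: forgetting the coordinates inside `W` gives an equitable partition

PAPER PROOF. Call `i` open at `v` if `v ∈ W` and `v + e_i ∈ W`; `i` is open at `v` iff it is open at `v + e_i` (`add_ev_add_ev`). Let
`x = (v, A)`, `y = (v, B)` (`prj W x = prj W y` gives `x.1 = y.1`, and `A_i = B_i` for the `i` not open at `v`), `q = (v', K)`. If `v'` is
not of the form `v + e_i`, both sides are `0`. Otherwise `i` is unique (`ev_injective`); by `adj_cfi` the two sides count the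
`A' ∈ EV m` with `A'_i = A_i` (left), `A'_i = B_i + tw w j v i` (right), and in both cases `prj W (v', A') = (v', K)`.
If `i` is not open at `v`, then `A_i = B_i` and `tw w j v i = 0` (`tw w j v i ≠ 0` implies `i = j`, `v ∈ {w, w + e_j}` and `i` is open at
`v`): the two sets are equal. If `i` is open at `v`, it is open at `v'`, so `v' ∈ W`, and by `hW` there is another `l ≠ i` open at `v'`;
`A' ↦ A' + e_i + e_l` preserves `EV m` and `prj W (v', A')` and changes `A'_i`, so the number of the `A'` with `A'_i = c` and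
`prj W (v', A') = q` does not depend on `c`.
-/

namespace Pool.RCay

open scoped Classical

theorem counts_pair_mem {m : ℕ} (i l : Fin m) : (ev i + ev l : Fin m → ZMod 2) ∈ EV m := by
  show ∑ k, (ev i + ev l : Fin m → ZMod 2) k = 0
  simp only [Pi.add_apply, Finset.sum_add_distrib, ev, Pi.single_apply, Finset.sum_ite_eq',
    Finset.mem_univ, if_true]
  decide

theorem counts_prj {m : ℕ} (W : Finset (Fin m → ZMod 2)) (u : Fin m → ZMod 2) (i l : Fin m)
    (hu : u ∈ W) (hi : u + ev i ∈ W) (hl : u + ev l ∈ W) (C : EV m) :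
    prj W (u, C + ⟨ev i + ev l, counts_pair_mem i l⟩) = prj W (u, C) := by
  unfold prj
  refine Prod.ext rfl ?_
  funext k
  simp only [hu, true_and]
  by_cases hk : u + ev k ∈ W
  · simp [hk]
  · have hki : k ≠ i := by
      rintro rfl
      exact hk hi
    have hkl : k ≠ l := by
      rintro rfl
      exact hk hl
    rw [if_neg hk, if_neg hk]
    simp [ev, hki, hkl]

theorem counts_flip {m : ℕ} (W : Finset (Fin m → ZMod 2)) (u : Fin m → ZMod 2) (i l : Fin m)
    (hil : i ≠ l) (hu : u ∈ W) (hi : u + ev i ∈ W) (hl : u + ev l ∈ W)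
    (q : (Fin m → ZMod 2) × (Fin m → ZMod 2)) (a : ZMod 2) :
    (Finset.univ.filter (fun C : EV m => C.1 i = a ∧ prj W (u, C) = q)).card ≤
      (Finset.univ.filter (fun C : EV m => C.1 i = a + 1 ∧ prj W (u, C) = q)).card := by
  refine Finset.card_le_card_of_injOn
    (fun C => C + ⟨ev i + ev l, counts_pair_mem i l⟩) ?_ ?_
  · intro C hC
    simp only [Finset.coe_filter, Finset.mem_univ, true_and, Set.mem_ofPred_eq] at hC ⊢
    refine ⟨?_, ?_⟩
    · rw [← hC.1]
      simp [ev, hil]
    · rw [counts_prj W u i l hu hi hl, hC.2]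
  · intro C _ D _ h
    exact add_right_cancel h

theorem counts_zmod : ∀ a b : ZMod 2, b = a ∨ b = a + 1 := by
  decide

theorem counts_flip_eq {m : ℕ} (W : Finset (Fin m → ZMod 2)) (u : Fin m → ZMod 2) (i l : Fin m)
    (hil : i ≠ l) (hu : u ∈ W) (hi : u + ev i ∈ W) (hl : u + ev l ∈ W)
    (q : (Fin m → ZMod 2) × (Fin m → ZMod 2)) (a b : ZMod 2) :
    (Finset.univ.filter (fun C : EV m => C.1 i = a ∧ prj W (u, C) = q)).card =
      (Finset.univ.filter (fun C : EV m => C.1 i = b ∧ prj W (u, C) = q)).card := by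
  have h1 := counts_flip W u i l hil hu hi hl q a
  have h2 := counts_flip W u i l hil hu hi hl q (a + 1)
  have h3 : a + 1 + 1 = a := by
    rw [add_assoc]
    have : (1 : ZMod 2) + 1 = 0 := by decide
    rw [this, add_zero]
  rw [h3] at h2
  have hab : b = a ∨ b = a + 1 := counts_zmod a b
  rcases hab with rfl | rfl
  · rfl
  · exact le_antisymm h1 h2

theorem counts_fibre {m : ℕ} {τ : (Fin m → ZMod 2) → Fin m → ZMod 2} (hτ : Sym τ)
    (W : Finset (Fin m → ZMod 2)) (x : CV m) (q : (Fin m → ZMod 2) × (Fin m → ZMod 2)) (i : Fin m)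
    (hi : q.1 = x.1 + ev i) :
    (Finset.univ.filter (fun x' => (cfi τ).Adj x x' ∧ prj W x' = q)).card =
      (Finset.univ.filter (fun C : EV m => C.1 i = x.2.1 i + τ x.1 i ∧
        prj W (x.1 + ev i, C) = q)).card := by
  have hS : (Finset.univ.filter (fun x' => (cfi τ).Adj x x' ∧ prj W x' = q)) =
      (Finset.univ.filter (fun C : EV m => C.1 i = x.2.1 i + τ x.1 i ∧
        prj W (x.1 + ev i, C) = q)).image (fun C => ((x.1 + ev i, C) : CV m)) := by
    ext ⟨u, C⟩
    simp only [Finset.mem_filter, Finset.mem_univ, true_and, Finset.mem_image, adj_cfi hτ,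
      Prod.mk.injEq]
    constructor
    · rintro ⟨⟨k, h1, h2⟩, h3⟩
      have hu : u = x.1 + ev i := by
        rw [← hi, ← h3]
        rfl
      have hki : k = i := ev_injective (add_left_cancel (h1.symm.trans hu))
      subst hki
      refine ⟨C, ⟨?_, ?_⟩, hu.symm, rfl⟩
      · rw [← h2, ← add_assoc, CharTwo.add_self_eq_zero, zero_add]
      · rw [← hu]
        exact h3
    · rintro ⟨D, ⟨h1, h2⟩, rfl, rfl⟩
      refine ⟨⟨i, rfl, ?_⟩, h2⟩
      rw [h1, ← add_assoc, CharTwo.add_self_eq_zero, zero_add]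
  rw [hS, Finset.card_image_of_injective]
  intro C D h
  exact (Prod.mk.inj h).2

theorem counts_empty {m : ℕ} {τ : (Fin m → ZMod 2) → Fin m → ZMod 2} (hτ : Sym τ)
    (W : Finset (Fin m → ZMod 2)) (x : CV m) (q : (Fin m → ZMod 2) × (Fin m → ZMod 2))
    (hq : ¬ ∃ i, q.1 = x.1 + ev i) :
    (Finset.univ.filter (fun x' => (cfi τ).Adj x x' ∧ prj W x' = q)).card = 0 := by
  rw [Finset.card_eq_zero, Finset.filter_eq_empty_iff]
  rintro ⟨u, C⟩ - ⟨h1, h2⟩
  rw [adj_cfi hτ] at h1
  obtain ⟨i, h3, -⟩ := h1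
  apply hq
  refine ⟨i, ?_⟩
  rw [← h2]
  exact h3

theorem counts {m : ℕ} (W : Finset (Fin m → ZMod 2))
    (hW : ∀ v ∈ W, 2 ≤ (Finset.univ.filter (fun i => v + ev i ∈ W)).card)
    (w : Fin m → ZMod 2) (j : Fin m) (hw : w ∈ W) (hw' : w + ev j ∈ W) (x y : CV m)
    (h : prj W x = prj W y) (q : (Fin m → ZMod 2) × (Fin m → ZMod 2)) :
    (Finset.univ.filter (fun x' => (cfi (m := m) 0).Adj x x' ∧ prj W x' = q)).card =
      (Finset.univ.filter (fun y' => (cfi (tw w j)).Adj y y' ∧ prj W y' = q)).card := by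
  have hxy : x.1 = y.1 := (Prod.ext_iff.1 h).1
  by_cases hq : ∃ i, q.1 = x.1 + ev i
  · obtain ⟨i, hi⟩ := hq
    rw [counts_fibre sym_zero W x q i hi, counts_fibre (sym_tw w j) W y q i (by rw [← hxy]; exact hi),
      ← hxy]
    by_cases ho : x.1 ∈ W ∧ x.1 + ev i ∈ W
    · obtain ⟨ho1, ho2⟩ := ho
      have h2 := hW _ ho2
      have hmem : i ∈ Finset.univ.filter (fun l => x.1 + ev i + ev l ∈ W) := by
        rw [Finset.mem_filter, add_ev_add_ev]
        exact ⟨Finset.mem_univ _, ho1⟩
      obtain ⟨l, hl, hli⟩ := Finset.exists_mem_ne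
        (s := Finset.univ.filter (fun l => x.1 + ev i + ev l ∈ W)) (by omega) i
      rw [Finset.mem_filter] at hl
      refine counts_flip_eq W (x.1 + ev i) i l hli.symm ho2 ?_ hl.2 q _ _
      rw [add_ev_add_ev]
      exact ho1
    · have e1 : x.2.1 i = y.2.1 i := by
        have e := congrFun (Prod.ext_iff.1 h).2 i
        simp only [prj] at e
        rw [if_neg ho, ← hxy, if_neg ho] at e
        exact e
      have e2 : tw w j x.1 i = 0 := by
        unfold tw
        rw [if_neg]
        rintro ⟨rfl, h1 | h1⟩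
        · exact ho ⟨h1 ▸ hw, h1 ▸ hw'⟩
        · apply ho
          rw [h1, add_ev_add_ev]
          exact ⟨hw', hw⟩
      rw [e1, e2]
      rfl
  · rw [counts_empty sym_zero W x q hq, counts_empty (sym_tw w j) W y q (by rw [← hxy]; exact hq)]

end Pool.RCay
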