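import Mathlib

/-!
# Random Cayley graphs and colour refinement: common definitions
-/

namespace Pool.RCay

open scoped Classical

/-! ## Colour refinement -/

/-- The type of the colours after `k` rounds, with `r` individualised vertices. -/
def Col (r : ℕ) : ℕ → Type
  | 0 => Finset (Fin r)
  | k + 1 => Col r k × Multiset (Col r k)

/-- The colour of the vertex `x` of the graph `X` after `k` rounds of colour refinement, after the
vertices `t i` have been individualised. -/
noncomputable def col {V : Type} [Fintype V] (X : SimpleGraph V) {r : ℕ} (t : Fin r → V) :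
    (k : ℕ) → V → Col r k
  | 0, x => Finset.univ.filter (fun i => t i = x)
  | k + 1, x => (col X t k x, (Finset.univ.filter (fun y => X.Adj x y)).val.map (col X t k))

/-- The multiset of the colours of all vertices after `k` rounds. -/
noncomputable def cols {V : Type} [Fintype V] (X : SimpleGraph V) {r : ℕ} (t : Fin r → V) (k : ℕ) :
    Multiset (Col r k) := (Finset.univ : Finset V).val.map (col X t k)

/-! ## Cayley graphs -/

/-- The Cayley graph of a group: distinct `x`, `y` are adjacent when `x⁻¹ y` or `y⁻¹ x` is in `S`. -/
def cay {G : Type} [Group G] (S : Finset G) : SimpleGraph G :=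
  SimpleGraph.fromRel (fun x y => x⁻¹ * y ∈ S)

/-- The inverse-closed subsets of `G` without `1`. -/
noncomputable def conn (G : Type) [Group G] [Fintype G] : Finset (Finset G) :=
  Finset.univ.filter (fun S => 1 ∉ S ∧ ∀ g ∈ S, g⁻¹ ∈ S)

/-! ## Bits and counts -/

section
variable {G : Type} [Group G] [Fintype G]

/-- The chosen representative of `{g, g⁻¹}`. -/
noncomputable def rp (g : G) : G :=
  if Fintype.equivFin G g ≤ Fintype.equivFin G g⁻¹ then g else g⁻¹

/-- The indicator of the connection set of `ω` as an integer. -/
noncomputable def sn (ω : G → Bool) (g : G) : ℤ := if g ≠ 1 ∧ ω (rp g) = true then 1 else 0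

/-- The connection set of `ω`. -/
noncomputable def SS (ω : G → Bool) : Finset G :=
  Finset.univ.filter (fun g => g ≠ 1 ∧ ω (rp g) = true)

/-- The number of common neighbours of two vertices with quotient `a`. -/
noncomputable def ff (ω : G → Bool) (a : G) : ℤ := ∑ h, sn ω h * sn ω (a * h)

/-- The coefficient of the bit `v` in the derivative of `ff ω a` with respect to the bit of `u`. -/
noncomputable def mm (a u v : G) : ℤ :=
  ∑ h ∈ ({u, u⁻¹} : Finset G), ((if rp (a * h) = v then 1 else 0) + (if rp (a⁻¹ * h) = v then 1 else 0))

/-- The constant term of the derivative of `ff ω a` with respect to the bit of `u`. -/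
noncomputable def dg (a u : G) : ℤ :=
  ∑ h ∈ ({u, u⁻¹} : Finset G), (if a * h ∈ ({u, u⁻¹} : Finset G) then 1 else 0)

/-- The bits that can occur in the derivatives of `ff ω a` and `ff ω (z * a)` with respect to the bit
of `u`. -/
noncomputable def nb (a z u : G) : Finset G :=
  ({a * u, a * u⁻¹, a⁻¹ * u, a⁻¹ * u⁻¹, z * a * u, z * a * u⁻¹, (z * a)⁻¹ * u, (z * a)⁻¹ * u⁻¹} :
    Finset G).image rp

/-- `u` is useful for distinguishing `a` and `z * a`: the bit of `a * u` has different coefficients. -/
def Us (a z u : G) : Prop :=
  u ≠ 1 ∧ a * u ≠ 1 ∧ a * u ≠ u ∧ a * u ≠ u⁻¹ ∧ mm a u (rp (a * u)) ≠ mm (z * a) u (rp (a * u))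

/-- `g` or `g⁻¹`. -/
def sg (e : Bool) (g : G) : G := if e then g else g⁻¹

/-- The number of the sign triples with `g^± = b^± u^±`. -/
noncomputable def mx (b u g : G) : ℕ :=
  (Finset.univ.filter (fun e : Bool × Bool × Bool => sg e.1 g = sg e.2.1 b * sg e.2.2 u)).card

/-- The number of square roots. -/
noncomputable def rt (z : G) : ℕ := (Finset.univ.filter (fun v : G => v * v = z)).card

end

end Pool.RCay
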