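import Pool.Agent.RCay.Basic

/-!
# Module DERIV: the derivative of the number of common neighbours with respect to one bit

PAPER PROOF. Let `C = {u, u⁻¹}` (as a finset; one element if `u` is an involution). `rp g = rp u` iff `g ∈ C` (`rp_eq_iff`), and
`1 ∉ C`. So `sn ω₁ g - sn ω₀ g = 1` for `g ∈ C` (there `sn ω₀ g = 0`, `sn ω₁ g = 1`) and `0` otherwise. In
`ff ω a = ∑ h, sn ω h * sn ω (a h)` the difference is `∑_{h ∈ C, a h ∉ C} sn ω₀ (a h) + ∑_{h ∉ C, a h ∈ C} sn ω₀ h +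
#{h ∈ C | a h ∈ C}`; the second sum is, with `k = a h`, `∑_{k ∈ C, a⁻¹ k ∉ C} sn ω₀ (a⁻¹ k)`; since `sn ω₀` vanishes on `C`, the
conditions `∉ C` can be dropped: the difference is `dg a u + ∑_{h ∈ C} (sn ω₀ (a h) + sn ω₀ (a⁻¹ h))`. Finally
`sn ω₀ g = ∑_{v ≠ 1} [rp g = v] [ω₀ v]` (`rp_eq_one`), interchange the sums.
-/

namespace Pool.RCay

open scoped Classical

variable {G : Type} [Group G] [Fintype G]

namespace DerivAux

theorem sn_add (u : G) (hu : u ≠ 1) (ω₀ ω₁ : G → Bool) (h0 : ω₀ (rp u) = false)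
    (h1 : ω₁ (rp u) = true) (h : ∀ v, v ≠ rp u → ω₀ v = ω₁ v) (g : G) :
    sn ω₁ g = sn ω₀ g + if g ∈ ({u, u⁻¹} : Finset G) then 1 else 0 := by
  unfold sn
  by_cases hg : g ∈ ({u, u⁻¹} : Finset G)
  · have hr : rp g = rp u := by
      rw [rp_eq_iff]
      simpa using hg
    have hg1 : g ≠ 1 := by
      rintro rfl
      simp only [Finset.mem_insert, Finset.mem_singleton] at hg
      rcases hg with hg | hg
      · exact hu hg.symm
      · exact hu (inv_eq_one.mp hg.symm)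
    rw [if_pos hg, hr, h0, h1]
    simp [hg1]
  · have hr : rp g ≠ rp u := by
      intro h
      rw [rp_eq_iff] at h
      exact hg (by simpa using h)
    rw [if_neg hg, h _ hr, add_zero]

omit [Group G] in
theorem sum_ind (C : Finset G) (f : G → ℤ) :
    ∑ g, (if g ∈ C then 1 else 0) * f g = ∑ g ∈ C, f g := by
  simp

theorem sum_bit (ω : G → Bool) (g : G) :
    ∑ v ∈ Finset.univ.filter (fun v : G => v ≠ 1),
      (if rp g = v then (1 : ℤ) else 0) * (if ω v = true then 1 else 0) = sn ω g := by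
  unfold sn
  by_cases hg : g = 1
  · rw [if_neg (fun h => h.1 hg)]
    refine Finset.sum_eq_zero fun v hv => ?_
    rw [if_neg, zero_mul]
    rintro rfl
    rw [Finset.mem_filter] at hv
    exact hv.2 ((rp_eq_one g).mpr hg)
  · rw [Finset.sum_eq_single_of_mem (rp g)]
    · rw [if_pos rfl, one_mul]
      simp [hg]
    · rw [Finset.mem_filter]
      exact ⟨Finset.mem_univ _, fun h => hg ((rp_eq_one g).mp h)⟩
    · intro v _ hv
      rw [if_neg (Ne.symm hv), zero_mul]

end DerivAux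

open DerivAux

theorem deriv (a u : G) (hu : u ≠ 1) (ω₀ ω₁ : G → Bool) (h0 : ω₀ (rp u) = false)
    (h1 : ω₁ (rp u) = true) (h : ∀ v, v ≠ rp u → ω₀ v = ω₁ v) :
    ff ω₁ a - ff ω₀ a = dg a u +
      ∑ v ∈ Finset.univ.filter (fun v : G => v ≠ 1), mm a u v * (if ω₀ v = true then 1 else 0) := by
  have hs := sn_add u hu ω₀ ω₁ h0 h1 h
  set C : Finset G := {u, u⁻¹} with hC
  have e1 : ff ω₁ a - ff ω₀ a = (∑ g, (if g ∈ C then 1 else 0) * (if a * g ∈ C then 1 else 0)) +
      ((∑ g, (if g ∈ C then 1 else 0) * sn ω₀ (a * g)) +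
        ∑ g, (if a * g ∈ C then 1 else 0) * sn ω₀ g) := by
    unfold ff
    rw [← Finset.sum_sub_distrib, ← Finset.sum_add_distrib, ← Finset.sum_add_distrib]
    refine Finset.sum_congr rfl fun g _ => ?_
    rw [hs g, hs (a * g)]
    ring
  have e2 : ∑ g, (if a * g ∈ C then (1 : ℤ) else 0) * sn ω₀ g =
      ∑ k, (if k ∈ C then (1 : ℤ) else 0) * sn ω₀ (a⁻¹ * k) := by
    refine Fintype.sum_equiv (Equiv.mulLeft a) _ _ fun g => ?_
    simp only [Equiv.coe_mulLeft, inv_mul_cancel_left]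
    congr 1
  have e3 : ∑ v ∈ Finset.univ.filter (fun v : G => v ≠ 1),
      mm a u v * (if ω₀ v = true then 1 else 0) =
      ∑ g ∈ C, (sn ω₀ (a * g) + sn ω₀ (a⁻¹ * g)) := by
    unfold mm
    simp only [Finset.sum_mul]
    rw [Finset.sum_comm]
    refine Finset.sum_congr rfl fun g _ => ?_
    simp only [add_mul]
    rw [Finset.sum_add_distrib, sum_bit, sum_bit]
  rw [e1, e2, e3, sum_ind, sum_ind, sum_ind, Finset.sum_add_distrib]
  rfl

end Pool.RCay
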