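import Pool.Agent.RCay.Defs

/-!
# Module DISCRETE: three rounds suffice

PAPER PROOF. (1) `col X t 1 x` determines which `t i` are adjacent to `x`: `t i` is the only vertex whose colour of round `0` contains
`i`, so `X.Adj x (t i)` iff some element of the multiset `(col X t 1 x).2` contains `i`. (2) If `col X t 2 x = col X t 2 y` then for
every `i` the numbers of the neighbours `v` of `x`, resp. of `y`, with `X.Adj (t i) v` are equal: by (1) this number is
`Multiset.countP` of a predicate on the colours of round `1` in `(col X t 2 x).2`. So by `h1` the colour of round `2` of `x ∈ Gd`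
occurs only at `x`. (3) If `col X t 3 y = col X t 3 y'` then for `x ∈ Gd`: `X.Adj y x` iff `col X t 2 x ∈ (col X t 3 y).2` (by (2) only
`x` has this colour), so `X.Adj y x ↔ X.Adj y' x` for all `x ∈ Gd`, and `h2` gives `y = y'`.
-/

namespace Pool.RCay

open scoped Classical

theorem mem_col_one {V : Type} [Fintype V] (X : SimpleGraph V) {r : ℕ} (t : Fin r → V) (x : V)
    (i : Fin r) : (∃ d ∈ (col X t 1 x).2, i ∈ (show Finset (Fin r) from d)) ↔ X.Adj x (t i) := by
  constructor
  · rintro ⟨d, hd, hi⟩
    have hd' : d ∈ (Finset.univ.filter (fun y => X.Adj x y)).val.map (col X t 0) := hd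
    rw [Multiset.mem_map] at hd'
    obtain ⟨v, hv, rfl⟩ := hd'
    have hv' : X.Adj x v := by
      simpa using hv
    have hi' : i ∈ Finset.univ.filter (fun i => t i = v) := hi
    have hi'' : t i = v := by simpa using hi'
    rw [hi'']
    exact hv'
  · intro h
    refine ⟨col X t 0 (t i), ?_, ?_⟩
    · show col X t 0 (t i) ∈ (Finset.univ.filter (fun y => X.Adj x y)).val.map (col X t 0)
      rw [Multiset.mem_map]
      exact ⟨t i, by simpa using h, rfl⟩
    · show i ∈ Finset.univ.filter (fun j => t j = t i)
      simp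

theorem count_col_two {V : Type} [Fintype V] (X : SimpleGraph V) {r : ℕ} (t : Fin r → V) (x : V)
    (i : Fin r) :
    Multiset.countP (fun c : Col r 1 => ∃ d ∈ c.2, i ∈ (show Finset (Fin r) from d))
      (col X t 2 x).2 = (Finset.univ.filter (fun v => X.Adj x v ∧ X.Adj (t i) v)).card := by
  show Multiset.countP (fun c : Col r 1 => ∃ d ∈ c.2, i ∈ (show Finset (Fin r) from d))
      ((Finset.univ.filter (fun y => X.Adj x y)).val.map (col X t 1)) = _
  rw [Multiset.countP_map, ← Finset.filter_filter, Finset.card_def, Finset.filter_val]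
  congr 1
  apply Multiset.filter_congr
  intro v _
  rw [mem_col_one]
  exact X.adj_comm _ _

theorem discrete {V : Type} [Fintype V] (X : SimpleGraph V) {r : ℕ} (t : Fin r → V) (Gd : Set V)
    (h1 : ∀ x ∈ Gd, ∀ y, y ≠ x → ∃ i,
      (Finset.univ.filter (fun v => X.Adj x v ∧ X.Adj (t i) v)).card ≠
        (Finset.univ.filter (fun v => X.Adj y v ∧ X.Adj (t i) v)).card)
    (h2 : ∀ y y', y ≠ y' → ∃ x ∈ Gd, ¬ (X.Adj x y ↔ X.Adj x y')) :
    Function.Injective (col X t 3) := by
  have key : ∀ x ∈ Gd, ∀ v, col X t 2 v = col X t 2 x → v = x := by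
    intro x hx v hv
    by_contra hne
    obtain ⟨i, hi⟩ := h1 x hx v hne
    apply hi
    rw [← count_col_two X t x i, ← count_col_two X t v i, hv]
  have adj : ∀ x ∈ Gd, ∀ y, col X t 2 x ∈ (col X t 3 y).2 ↔ X.Adj x y := by
    intro x hx y
    show col X t 2 x ∈ (Finset.univ.filter (fun z => X.Adj y z)).val.map (col X t 2) ↔ _
    rw [Multiset.mem_map]
    constructor
    · rintro ⟨v, hv, e⟩
      have hvx := key x hx v e
      subst hvx
      exact (by simpa using hv : X.Adj y v).symm
    · intro h
      exact ⟨x, by simpa using h.symm, rfl⟩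
  intro y y' e
  by_contra hne
  obtain ⟨x, hx, hn⟩ := h2 y y' hne
  apply hn
  rw [← adj x hx y, ← adj x hx y', e]

end Pool.RCay
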