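import Pool.Agent.RCay.Defs

/-!
# Module EQUI: equitable partitions are finer than colour refinement

PAPER PROOF. Induction on `k`. `k = 0`: `h0`. Step: the colours of round `k` factor through `π` on both sides, with the same function
(`col X t k x = col Y t k y` whenever `π x = π y`, in particular for `x = y`), so it is enough that the multisets of the `π x'` over
the neighbours `x'` of `x` in `X` and of the `π y'` over the neighbours `y'` of `y` in `Y` are equal; that is `h1` (compare the
multiplicity of every `q`, `Multiset.count_map`). For instance choose `f : Q → Col r k` with `col X t k v = f (π v)` for all `v`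
(`Function.factorsThrough`), then also `col Y t k v = f (π v)`, and use `Multiset.map_map`.
-/

namespace Pool.RCay

open scoped Classical

theorem equi {V Q : Type} [Fintype V] (X Y : SimpleGraph V) (π : V → Q) {r : ℕ} (t : Fin r → V)
    (h0 : ∀ x y, π x = π y → ∀ i, t i = x ↔ t i = y)
    (h1 : ∀ x y, π x = π y → ∀ q,
      (Finset.univ.filter (fun x' => X.Adj x x' ∧ π x' = q)).card =
        (Finset.univ.filter (fun y' => Y.Adj y y' ∧ π y' = q)).card) (k : ℕ) :
    ∀ x y, π x = π y → col X t k x = col Y t k y := by
  induction k with
  | zero =>
    intro x y hxy
    change (Finset.univ.filter (fun i => t i = x) : Finset (Fin r)) =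
      Finset.univ.filter (fun i => t i = y)
    ext i
    simp only [Finset.mem_filter, Finset.mem_univ, true_and]
    exact h0 x y hxy i
  | succ k ih =>
    intro x y hxy
    have hc : col X t k = col Y t k := funext fun v => ih v v rfl
    have hf : (col X t k).FactorsThrough π := by
      intro v w hvw
      rw [ih v w hvw, hc]
    have hfe : ∀ v, Function.extend π (col X t k) (fun _ => col X t k x) (π v) = col X t k v :=
      fun v => hf.extend_apply _ v
    simp only [col]
    refine Prod.ext (ih x y hxy) ?_
    simp only
    rw [← hc]
    have hmap : ∀ s : Multiset V, s.map (col X t k) =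
        (s.map π).map (Function.extend π (col X t k) (fun _ => col X t k x)) := by
      intro s
      rw [Multiset.map_map]
      exact Multiset.map_congr rfl fun v _ => (hfe v).symm
    rw [hmap, hmap]
    congr 1
    ext q
    rw [Multiset.count_map, Multiset.count_map]
    have h2 := h1 x y hxy q
    have h3 : ∀ (Z : SimpleGraph V) (z : V),
        Multiset.card (Multiset.filter (fun a => q = π a)
          (Finset.univ.filter (fun y => Z.Adj z y)).val) =
        (Finset.univ.filter (fun x' => Z.Adj z x' ∧ π x' = q)).card := by
      intro Z z
      rw [← Finset.filter_val, Finset.filter_filter]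
      simp only [Finset.card, eq_comm]
    rw [h3, h3, h2]

theorem equi_cols {V Q : Type} [Fintype V] (X Y : SimpleGraph V) (π : V → Q) {r : ℕ} (t : Fin r → V)
    (h0 : ∀ x y, π x = π y → ∀ i, t i = x ↔ t i = y)
    (h1 : ∀ x y, π x = π y → ∀ q,
      (Finset.univ.filter (fun x' => X.Adj x x' ∧ π x' = q)).card =
        (Finset.univ.filter (fun y' => Y.Adj y y' ∧ π y' = q)).card) (k : ℕ) :
    cols X t k = cols Y t k := by
  unfold cols
  exact Multiset.map_congr rfl (fun x _ => equi X Y π t h0 h1 k x x rfl)

end Pool.RCay
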