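import Pool.Agent.RCay.CDefs

/-!
# Module EVCOUNT: numbers of the even vectors with prescribed coordinates

PAPER PROOF. `#(EV m) = 2^{m-1}`: for `m ≥ 1` the vectors split into those of sum `0` and of sum `1`, `A ↦ A + e_0` is a bijection
between them. One coordinate: for `m ≥ 2`, `i`, choose `l ≠ i`; `A ↦ A + e_i + e_l` exchanges `{A ∈ EV | A_i = 0}` and
`{A ∈ EV | A_i = 1}`, so both have `2^{m-2}` elements. Two coordinates `i ≠ j`, `m ≥ 3`, choose `l ≠ i, j`; the maps
`A ↦ A + e_i + e_l` and `A ↦ A + e_j + e_l` are bijections between the four classes, so each has `2^{m-3}` elements.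
-/

namespace Pool.RCay

open scoped Classical

theorem evc_mem_EV {m : ℕ} (A : Fin m → ZMod 2) : A ∈ EV m ↔ ∑ i, A i = 0 := Iff.rfl

theorem evc_sum_ev {m : ℕ} (i : Fin m) : ∑ l, (ev i : Fin m → ZMod 2) l = 1 := by
  unfold ev
  rw [Finset.sum_pi_single']
  simp

theorem evc_ev_self {m : ℕ} (i : Fin m) : (ev i : Fin m → ZMod 2) i = 1 := by
  simp [ev]

theorem evc_ev_of_ne {m : ℕ} {i l : Fin m} (h : l ≠ i) : (ev i : Fin m → ZMod 2) l = 0 := by
  simp [ev, h]

theorem evc_ev_pair_mem {m : ℕ} (i l : Fin m) : ev i + ev l ∈ EV m := by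
  rw [evc_mem_EV]
  simp only [Pi.add_apply, Finset.sum_add_distrib, evc_sum_ev]
  exact CharTwo.add_self_eq_zero _

theorem evc_card_shift {m : ℕ} (D : EV m) (P Q : EV m → Prop) [DecidablePred P] [DecidablePred Q]
    (h : ∀ A, P A ↔ Q (A + D)) :
    (Finset.univ.filter P).card = (Finset.univ.filter Q).card := by
  apply Finset.card_bij (fun A _ => A + D)
  · intro A hA
    simp only [Finset.mem_filter, Finset.mem_univ, true_and] at hA ⊢
    exact (h A).1 hA
  · intro A _ B _ hAB
    exact add_right_cancel hAB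
  · intro B hB
    simp only [Finset.mem_filter, Finset.mem_univ, true_and] at hB
    refine ⟨B - D, ?_, by simp⟩
    simp only [Finset.mem_filter, Finset.mem_univ, true_and]
    rw [h, sub_add_cancel]
    exact hB

theorem card_EV {m : ℕ} (hm : 1 ≤ m) : Fintype.card (EV m) = 2 ^ (m - 1) := by
  obtain ⟨n, rfl⟩ : ∃ n, m = n + 1 := ⟨m - 1, by omega⟩
  have h1 : Fintype.card (Fin (n + 1) → ZMod 2) = 2 ^ (n + 1) := by
    simp [ZMod.card]
  have h2 : Fintype.card (EV (n + 1)) =
      (Finset.univ.filter (fun A : Fin (n + 1) → ZMod 2 => ∑ i, A i = 0)).card := by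
    rw [← Fintype.card_subtype]
    exact Fintype.card_congr (Equiv.refl _)
  have h3 : (Finset.univ.filter (fun A : Fin (n + 1) → ZMod 2 => ∑ i, A i = 0)).card =
      (Finset.univ.filter (fun A : Fin (n + 1) → ZMod 2 => ¬ ∑ i, A i = 0)).card := by
    apply Finset.card_bij (fun A _ => A + ev 0)
    · intro A hA
      simp only [Finset.mem_filter, Finset.mem_univ, true_and] at hA ⊢
      simp only [Pi.add_apply, Finset.sum_add_distrib, evc_sum_ev, hA]
      decide
    · intro A _ B _ hAB
      exact add_right_cancel hAB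
    · intro B hB
      simp only [Finset.mem_filter, Finset.mem_univ, true_and] at hB
      refine ⟨B + ev 0, ?_, add_ev_add_ev B 0⟩
      simp only [Finset.mem_filter, Finset.mem_univ, true_and]
      simp only [Pi.add_apply, Finset.sum_add_distrib, evc_sum_ev]
      have : ∀ c : ZMod 2, ¬ c = 0 → c + 1 = 0 := by decide
      exact this _ hB
  have h4 := Finset.card_filter_add_card_filter_not (s := (Finset.univ : Finset (Fin (n + 1) → ZMod 2)))
    (fun A => ∑ i, A i = 0)
  rw [Finset.card_univ, h1, ← h3, ← h2] at h4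
  rw [pow_succ] at h4
  simp only [Nat.add_sub_cancel]
  omega

theorem evc_exists_ne_one {m : ℕ} (hm : 2 ≤ m) (i : Fin m) : ∃ l, l ≠ i := by
  have : Nontrivial (Fin m) := Fin.nontrivial_iff_two_le.2 hm
  exact exists_ne i

theorem evc_exists_ne_two {m : ℕ} (hm : 3 ≤ m) (i j : Fin m) : ∃ l, l ≠ i ∧ l ≠ j := by
  by_contra hcon
  push Not at hcon
  have h : (Finset.univ : Finset (Fin m)) ⊆ {i, j} := by
    intro l _
    simp only [Finset.mem_insert, Finset.mem_singleton]
    by_cases hl : l = i
    · exact Or.inl hl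
    · exact Or.inr (hcon l hl)
  have := Finset.card_le_card h
  rw [Finset.card_univ, Fintype.card_fin] at this
  have := Finset.card_le_two (a := i) (b := j)
  omega

theorem evc_flip_iff (c : ZMod 2) (a b : ZMod 2) (hb : b = 1) : a = c ↔ a + b = c + 1 := by
  subst hb
  exact (add_left_inj 1).symm

theorem evc_zmod_ne_iff (a c : ZMod 2) : ¬ a = c ↔ a = c + 1 := by
  revert a c
  decide

theorem card_one {m : ℕ} (hm : 2 ≤ m) (i : Fin m) (c : ZMod 2) :
    (Finset.univ.filter (fun A : EV m => A.1 i = c)).card = 2 ^ (m - 2) := by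
  obtain ⟨l, hl⟩ := evc_exists_ne_one hm i
  have h1 : (Finset.univ.filter (fun A : EV m => A.1 i = c)).card =
      (Finset.univ.filter (fun A : EV m => ¬ A.1 i = c)).card := by
    apply evc_card_shift ⟨ev i + ev l, evc_ev_pair_mem i l⟩
    intro A
    rw [evc_zmod_ne_iff]
    simp only [AddSubgroup.coe_add, Pi.add_apply, evc_ev_self, evc_ev_of_ne hl.symm, add_zero]
    exact evc_flip_iff c _ _ rfl
  have h2 := Finset.card_filter_add_card_filter_not (s := (Finset.univ : Finset (EV m)))
    (fun A => A.1 i = c)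
  rw [Finset.card_univ, card_EV (by omega), ← h1] at h2
  have h3 : 2 ^ (m - 1) = 2 ^ (m - 2) * 2 := by
    rw [← pow_succ]
    congr 1
    omega
  omega

theorem card_two {m : ℕ} (hm : 3 ≤ m) (i j : Fin m) (hij : i ≠ j) (c d : ZMod 2) :
    (Finset.univ.filter (fun A : EV m => A.1 i = c ∧ A.1 j = d)).card = 2 ^ (m - 3) := by
  obtain ⟨l, hl, hl'⟩ := evc_exists_ne_two hm i j
  have h1 : (Finset.univ.filter (fun A : EV m => A.1 i = c ∧ A.1 j = d)).card =
      (Finset.univ.filter (fun A : EV m => A.1 i = c ∧ ¬ A.1 j = d)).card := by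
    apply evc_card_shift ⟨ev j + ev l, evc_ev_pair_mem j l⟩
    intro A
    rw [evc_zmod_ne_iff]
    simp only [AddSubgroup.coe_add, Pi.add_apply, evc_ev_self, evc_ev_of_ne hl.symm, evc_ev_of_ne hl'.symm,
      evc_ev_of_ne hij, add_zero]
    exact and_congr Iff.rfl (evc_flip_iff d _ _ rfl)
  have h2 := Finset.card_filter_add_card_filter_not
    (s := (Finset.univ.filter (fun A : EV m => A.1 i = c))) (fun A => A.1 j = d)
  rw [Finset.filter_filter, Finset.filter_filter, card_one (by omega) i c, ← h1] at h2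
  have h3 : 2 ^ (m - 2) = 2 ^ (m - 3) * 2 := by
    rw [← pow_succ]
    congr 1
    omega
  omega

end Pool.RCay
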