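import Mathlib

/-!
# Module PACKING: greedy packing and greedy independent sets

PAPER PROOF. `packing`: take `F ⊆ U` maximal (for inclusion, or of maximal cardinality) with pairwise disjoint blocks. Every
`u ∈ U` satisfies `v ∈ B u ∩ B f` for some `f ∈ F`, `v` (if `u ∈ F` take `f = u` and use `(B u).Nonempty`, otherwise maximality), so
`U ⊆ ⋃_{f ∈ F} ⋃_{v ∈ B f} {u ∈ U | v ∈ B u}`, which has at most `|F| α β` elements.
`indep`: induction on `K`, removing an element `u` together with `{v ∈ S | R u v}` and `{v ∈ S | R v u}`: at most `2 d + 1` elements.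
-/

namespace Pool.RCay

open scoped Classical in
theorem packing {V W : Type} (U : Finset W) (B : W → Finset V) (α β : ℕ)
    (hα : ∀ u ∈ U, (B u).card ≤ α) (hβ : ∀ v, (U.filter (fun u => v ∈ B u)).card ≤ β)
    (hne : ∀ u ∈ U, (B u).Nonempty) :
    ∃ F : Finset W, F ⊆ U ∧ (∀ u ∈ F, ∀ u' ∈ F, u ≠ u' → Disjoint (B u) (B u')) ∧
      U.card ≤ α * β * F.card := by
  -- the families of pairwise disjoint blocks
  let P : Finset (Finset W) := U.powerset.filter
    (fun F => ∀ u ∈ F, ∀ u' ∈ F, u ≠ u' → Disjoint (B u) (B u'))
  have hP : P.Nonempty := ⟨∅, by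
    simp only [P, Finset.mem_filter, Finset.mem_powerset, Finset.empty_subset, true_and]
    intro u hu
    simp at hu⟩
  obtain ⟨F, hF, hmax⟩ := P.exists_max_image Finset.card hP
  simp only [P, Finset.mem_filter, Finset.mem_powerset] at hF hmax
  obtain ⟨hFU, hdis⟩ := hF
  refine ⟨F, hFU, hdis, ?_⟩
  have hcov : U ⊆ F.biUnion (fun f => (B f).biUnion (fun v => U.filter (fun u => v ∈ B u))) := by
    intro u hu
    have key : ∃ f ∈ F, ¬ Disjoint (B u) (B f) := by
      by_cases huF : u ∈ F
      · refine ⟨u, huF, ?_⟩
        rw [disjoint_self]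
        exact Finset.nonempty_iff_ne_empty.1 (hne u hu)
      · by_contra hno
        push Not at hno
        have hins := hmax (insert u F) ⟨by
          intro w hw
          rcases Finset.mem_insert.1 hw with rfl | hw
          · exact hu
          · exact hFU hw, by
          intro a ha b hb hab
          rcases Finset.mem_insert.1 ha with ha | ha
          · rcases Finset.mem_insert.1 hb with hb | hb
            · exact absurd (ha.trans hb.symm) hab
            · rw [ha]; exact hno b hb
          · rcases Finset.mem_insert.1 hb with hb | hb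
            · rw [hb]; exact (hno a ha).symm
            · exact hdis a ha b hb hab⟩
        rw [Finset.card_insert_of_notMem huF] at hins
        omega
    obtain ⟨f, hf, hnd⟩ := key
    rw [Finset.not_disjoint_iff] at hnd
    obtain ⟨v, hv1, hv2⟩ := hnd
    rw [Finset.mem_biUnion]
    refine ⟨f, hf, ?_⟩
    rw [Finset.mem_biUnion]
    exact ⟨v, hv2, Finset.mem_filter.2 ⟨hu, hv1⟩⟩
  calc U.card ≤ _ := Finset.card_le_card hcov
    _ ≤ F.card * (α * β) := by
        apply Finset.card_biUnion_le_card_mul
        intro f hf
        calc _ ≤ (B f).card * β := by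
              apply Finset.card_biUnion_le_card_mul
              intro v _
              exact hβ v
          _ ≤ α * β := Nat.mul_le_mul_right _ (hα f (hFU hf))
    _ = α * β * F.card := Nat.mul_comm _ _

open scoped Classical in
theorem indep {W : Type} (R : W → W → Prop) (d K : ℕ) (S : Finset W)
    (h1 : ∀ u ∈ S, (S.filter (fun v => R u v)).card ≤ d)
    (h2 : ∀ u ∈ S, (S.filter (fun v => R v u)).card ≤ d) (hK : K * (2 * d + 1) ≤ S.card) :
    ∃ I : Fin K → W, Function.Injective I ∧ (∀ k, I k ∈ S) ∧ ∀ k k', k ≠ k' → ¬ R (I k) (I k') := by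
  induction K generalizing S with
  | zero =>
    exact ⟨fun k => k.elim0, fun k => k.elim0, fun k => k.elim0, fun k => k.elim0⟩
  | succ K ih =>
    have hpos : 0 < S.card := by
      have : 0 < (K + 1) * (2 * d + 1) := by positivity
      omega
    obtain ⟨u, hu⟩ := Finset.card_pos.1 hpos
    let X : Finset W := insert u (S.filter (fun v => R u v) ∪ S.filter (fun v => R v u))
    have hX : X.card ≤ 2 * d + 1 := by
      calc X.card ≤ (S.filter (fun v => R u v) ∪ S.filter (fun v => R v u)).card + 1 :=
            Finset.card_insert_le _ _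
        _ ≤ ((S.filter (fun v => R u v)).card + (S.filter (fun v => R v u)).card) + 1 :=
            Nat.add_le_add_right (Finset.card_union_le _ _) 1
        _ ≤ (d + d) + 1 := Nat.add_le_add_right (Nat.add_le_add (h1 u hu) (h2 u hu)) 1
        _ = 2 * d + 1 := by ring
    have hsub : S \ X ⊆ S := Finset.sdiff_subset
    have hcard : K * (2 * d + 1) ≤ (S \ X).card := by
      have h3 : S.card - X.card ≤ (S \ X).card := Finset.le_card_sdiff X S
      have h4 : (K + 1) * (2 * d + 1) = K * (2 * d + 1) + (2 * d + 1) := by ring
      omega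
    obtain ⟨I, hI, hIS, hR⟩ := ih (S \ X)
      (fun w hw => (Finset.card_le_card (Finset.filter_subset_filter _ hsub)).trans
        (h1 w (hsub hw)))
      (fun w hw => (Finset.card_le_card (Finset.filter_subset_filter _ hsub)).trans
        (h2 w (hsub hw))) hcard
    have hnot : ∀ k, I k ≠ u ∧ ¬ R u (I k) ∧ ¬ R (I k) u := by
      intro k
      have h5 := hIS k
      rw [Finset.mem_sdiff] at h5
      obtain ⟨h6, h7⟩ := h5
      simp only [X, Finset.mem_insert, Finset.mem_union, Finset.mem_filter, not_or, not_and] at h7
      exact ⟨h7.1, h7.2.1 h6, h7.2.2 h6⟩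
    refine ⟨Fin.cons u I, ?_, ?_, ?_⟩
    · rw [Fin.cons_injective_iff]
      refine ⟨?_, hI⟩
      rintro ⟨k, hk⟩
      exact (hnot k).1 hk
    · intro k
      refine Fin.cases ?_ (fun j => ?_) k
      · simpa using hu
      · simpa using hsub (hIS j)
    · intro k k'
      refine Fin.cases ?_ (fun j => ?_) k
      · refine Fin.cases ?_ (fun j' => ?_) k'
        · intro h; exact absurd rfl h
        · intro _
          simpa using (hnot j').2.1
      · refine Fin.cases ?_ (fun j' => ?_) k'
        · intro _
          simpa using (hnot j).2.2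
        · intro h
          have : j ≠ j' := fun e => h (by rw [e])
          simpa using hR j j' this

end Pool.RCay
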