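import Pool.Agent.RCay.Basic
import Pool.Agent.RCay.Packing

/-!
# Module EXTRACT: conflict-free useful indices, the same for many `u`

PAPER PROOF. `L = 8448 K = 256 * 33 * K`. Double counting: `∑_b #{u | Us (a b) z u} ≥ L n / 128`, so the set `U₀` of the `u` for
which at least `L/256 = 33 K` indices `b` satisfy `Us (a b) z u` has `≥ n/256` elements
(`L |U₀| + (L/256) n ≥ L n/128`). For `u ∈ U₀` let `S` be the set of these `b`, and `R b b' :↔ rp (a b * u) ∈ nb (a b') z u`.
For fixed `b'` there are at most `16` indices `b` with `R b b'`: `rp (a b * u) = rp y` for one of the eight listed `y`, so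
`a b * u ∈ {y, y⁻¹}` (`rp_eq_iff`), and `a` is injective. For fixed `b` there are at most `16` indices `b'` with `R b b'`:
`a b * u` or its inverse equals one of the eight elements built from `a b'`, and each of these equations determines `a b'`.
`indep` with `d = 16`: there is an injective `I_u : Fin K → Fin L` in `S` without conflicts. There are at most `L^K` functions
`Fin K → Fin L`; by pigeonhole one `I` serves `≥ |U₀| / L^K` elements `u`.
-/

namespace Pool.RCay

open scoped Classical

variable {G : Type} [Group G] [Fintype G]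

namespace ExtractAux

omit [Group G] [Fintype G] in
theorem card8 (a1 a2 a3 a4 a5 a6 a7 a8 : G) :
    ({a1, a2, a3, a4, a5, a6, a7, a8} : Finset G).card ≤ 8 := by
  have h := (Finset.card_insert_le a1 {a2, a3, a4, a5, a6, a7, a8})
  have h2 := (Finset.card_insert_le a2 {a3, a4, a5, a6, a7, a8})
  have h3 : ({a3, a4, a5, a6, a7, a8} : Finset G).card ≤ 6 := Finset.card_le_six
  omega

/-- The eight elements of `nb`. -/
noncomputable def E8 (a z u : G) : Finset G :=
  {a * u, a * u⁻¹, a⁻¹ * u, a⁻¹ * u⁻¹, z * a * u, z * a * u⁻¹, (z * a)⁻¹ * u, (z * a)⁻¹ * u⁻¹}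

/-- The solutions. -/
noncomputable def F8 (h z u : G) : Finset G :=
  {h * u⁻¹, h * u, u * h⁻¹, u⁻¹ * h⁻¹, z⁻¹ * h * u⁻¹, z⁻¹ * h * u, z⁻¹ * (u * h⁻¹),
    z⁻¹ * (u⁻¹ * h⁻¹)}

omit [Fintype G] in
theorem mem_E8 {a z u h : G} (hh : h ∈ E8 a z u) : a ∈ F8 h z u := by
  unfold E8 at hh
  simp only [Finset.mem_insert, Finset.mem_singleton] at hh
  unfold F8
  simp only [Finset.mem_insert, Finset.mem_singleton]
  rcases hh with rfl | rfl | rfl | rfl | rfl | rfl | rfl | rfl
  · left; group
  · right; left; group
  · right; right; left; group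
  · right; right; right; left; group
  · right; right; right; right; left; group
  · right; right; right; right; right; left; group
  · right; right; right; right; right; right; left; group
  · right; right; right; right; right; right; right; group

theorem mem_nb {a z u g : G} (h : rp g ∈ nb a z u) : g ∈ E8 a z u ∨ g⁻¹ ∈ E8 a z u := by
  unfold nb at h
  rw [Finset.mem_image] at h
  obtain ⟨y, hy, hyg⟩ := h
  rcases (rp_eq_iff y g).1 hyg with h1 | h1
  · left; rw [← h1]; exact hy
  · right; rw [← h1]; exact hy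

theorem left_count {L : ℕ} (a : Fin L → G) (ha : Function.Injective a) (z u : G) (b' : Fin L)
    (S : Finset (Fin L)) :
    (S.filter (fun b => rp (a b * u) ∈ nb (a b') z u)).card ≤ 16 := by
  have h1 : (S.filter (fun b => rp (a b * u) ∈ nb (a b') z u)).card ≤
      ((E8 (a b') z u).image (fun y => y * u⁻¹) ∪ (E8 (a b') z u).image (fun y => y⁻¹ * u⁻¹)).card := by
    apply Finset.card_le_card_of_injOn a
    · intro b hb
      rw [Finset.mem_coe, Finset.mem_filter] at hb
      rw [Finset.mem_coe, Finset.mem_union, Finset.mem_image, Finset.mem_image]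
      rcases mem_nb hb.2 with h | h
      · left; exact ⟨_, h, by group⟩
      · right; exact ⟨_, h, by group⟩
    · exact ha.injOn
  have h2 := Finset.card_union_le ((E8 (a b') z u).image (fun y => y * u⁻¹))
    ((E8 (a b') z u).image (fun y => y⁻¹ * u⁻¹))
  have h3 : ((E8 (a b') z u).image (fun y => y * u⁻¹)).card ≤ 8 :=
    Finset.card_image_le.trans (card8 _ _ _ _ _ _ _ _)
  have h4 : ((E8 (a b') z u).image (fun y => y⁻¹ * u⁻¹)).card ≤ 8 :=
    Finset.card_image_le.trans (card8 _ _ _ _ _ _ _ _)
  omega

theorem right_count {L : ℕ} (a : Fin L → G) (ha : Function.Injective a) (z u : G) (b : Fin L)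
    (S : Finset (Fin L)) :
    (S.filter (fun b' => rp (a b * u) ∈ nb (a b') z u)).card ≤ 16 := by
  have h1 : (S.filter (fun b' => rp (a b * u) ∈ nb (a b') z u)).card ≤
      (F8 (a b * u) z u ∪ F8 (a b * u)⁻¹ z u).card := by
    apply Finset.card_le_card_of_injOn a
    · intro b' hb
      rw [Finset.mem_coe, Finset.mem_filter] at hb
      rw [Finset.mem_coe, Finset.mem_union]
      rcases mem_nb hb.2 with h | h
      · left; exact mem_E8 h
      · right; exact mem_E8 h
    · exact ha.injOn
  have h2 := Finset.card_union_le (F8 (a b * u) z u) (F8 (a b * u)⁻¹ z u)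
  have h3 : (F8 (a b * u) z u).card ≤ 8 := card8 _ _ _ _ _ _ _ _
  have h4 : (F8 (a b * u)⁻¹ z u).card ≤ 8 := card8 _ _ _ _ _ _ _ _
  omega

theorem extract' (K L : ℕ) (hL : L = 8448 * K) (z : G) (a : Fin L → G)
    (ha : Function.Injective a)
    (h : ∀ b, Fintype.card G ≤ 128 * (Finset.univ.filter (fun u : G => Us (a b) z u)).card) :
    ∃ I : Fin K → Fin L, Function.Injective I ∧ ∃ U : Finset G,
      Fintype.card G ≤ 256 * L ^ K * U.card ∧
      (∀ u ∈ U, ∀ k, Us (a (I k)) z u) ∧
      ∀ u ∈ U, ∀ k k', k ≠ k' → rp (a (I k) * u) ∉ nb (a (I k')) z u := by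
  rcases Nat.eq_zero_or_pos K with hK0 | hKpos
  · subst hK0
    refine ⟨Fin.elim0, fun x => x.elim0, Finset.univ, ?_, fun _ _ k => k.elim0,
      fun _ _ k => k.elim0⟩
    rw [pow_zero, mul_one, Finset.card_univ]
    omega
  set n := Fintype.card G with hn
  have hnpos : 0 < n := Fintype.card_pos
  set S : G → Finset (Fin L) := fun u => Finset.univ.filter (fun b => Us (a b) z u) with hS
  set U₀ : Finset G := Finset.univ.filter (fun u => 33 * K ≤ (S u).card) with hU₀
  -- double counting
  have hdc : ∑ u : G, (S u).card = ∑ b : Fin L, (Finset.univ.filter (fun u : G => Us (a b) z u)).card := by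
    simp only [hS, Finset.card_filter]
    rw [Finset.sum_comm]
  have hlow : L * n ≤ 128 * ∑ u : G, (S u).card := by
    rw [hdc, Finset.mul_sum]
    calc L * n = ∑ _b : Fin L, n := by simp
      _ ≤ _ := Finset.sum_le_sum (fun b _ => h b)
  have hup : ∑ u : G, (S u).card ≤ L * U₀.card + 33 * K * n := by
    rw [← Finset.sum_filter_add_sum_filter_not Finset.univ (fun u => 33 * K ≤ (S u).card)]
    apply Nat.add_le_add
    · calc ∑ u ∈ U₀, (S u).card ≤ ∑ _u ∈ U₀, L := Finset.sum_le_sum (fun u _ => by
            have := Finset.card_le_univ (S u)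
            rwa [Fintype.card_fin] at this)
        _ = L * U₀.card := by rw [Finset.sum_const, smul_eq_mul, mul_comm]
    · calc ∑ u ∈ Finset.univ.filter (fun u => ¬ 33 * K ≤ (S u).card), (S u).card
          ≤ ∑ _u ∈ Finset.univ.filter (fun u => ¬ 33 * K ≤ (S u).card), 33 * K :=
            Finset.sum_le_sum (fun u hu => by
              rw [Finset.mem_filter] at hu
              omega)
        _ = (Finset.univ.filter (fun u => ¬ 33 * K ≤ (S u).card)).card * (33 * K) := by
            rw [Finset.sum_const, smul_eq_mul]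
        _ ≤ n * (33 * K) := Nat.mul_le_mul_right _ (Finset.card_le_univ _)
        _ = 33 * K * n := by ring
  have hU₀card : n ≤ 256 * U₀.card := by
    have h1 : L * n ≤ 128 * (L * U₀.card + 33 * K * n) := hlow.trans (Nat.mul_le_mul_left _ hup)
    have h2 : 2 * (128 * (33 * K * n)) = L * n := by rw [hL]; ring
    have h3 : L * n ≤ L * (256 * U₀.card) := by
      have : 128 * (L * U₀.card + 33 * K * n) = 128 * L * U₀.card + 128 * (33 * K * n) := by ring
      rw [this] at h1
      have h4 : L * (256 * U₀.card) = 2 * (128 * L * U₀.card) := by ring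
      rw [h4]
      omega
    have hLpos : 0 < L := by omega
    exact Nat.le_of_mul_le_mul_left h3 hLpos
  have hU₀pos : 0 < U₀.card := by omega
  -- independent indices
  have hex : ∀ u : G, ∃ I : Fin K → Fin L, u ∈ U₀ → Function.Injective I ∧ (∀ k, Us (a (I k)) z u) ∧
      ∀ k k', k ≠ k' → rp (a (I k) * u) ∉ nb (a (I k')) z u := by
    intro u
    by_cases hu : u ∈ U₀
    · have hu' : 33 * K ≤ (S u).card := by
        rw [hU₀, Finset.mem_filter] at hu
        exact hu.2
      obtain ⟨I, hI1, hI2, hI3⟩ := indep (fun b b' => rp (a b * u) ∈ nb (a b') z u) 16 K (S u)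
        (fun b _ => by convert right_count a ha z u b (S u))
        (fun b' _ => by convert left_count a ha z u b' (S u)) (by omega)
      refine ⟨I, fun _ => ⟨hI1, ?_, hI3⟩⟩
      intro k
      have := hI2 k
      simp only [hS, Finset.mem_filter] at this
      exact this.2
    · have : 0 < L := by omega
      exact ⟨fun _ => ⟨0, this⟩, fun h => absurd h hu⟩
  choose J hJ using hex
  -- pigeonhole
  have hne : (Finset.univ : Finset (Fin K → Fin L)).Nonempty := by
    have : 0 < L := by omega
    exact ⟨fun _ => ⟨0, this⟩, Finset.mem_univ _⟩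
  obtain ⟨I, _, hI⟩ := Finset.exists_max_image (Finset.univ : Finset (Fin K → Fin L))
    (fun I => (U₀.filter (fun u => J u = I)).card) hne
  set U := U₀.filter (fun u => J u = I) with hU
  have hcard : U₀.card ≤ L ^ K * U.card := by
    rw [Finset.card_eq_sum_card_fiberwise (f := J) (t := Finset.univ)
      (fun u _ => Finset.mem_coe.2 (Finset.mem_univ _))]
    calc ∑ I' : Fin K → Fin L, (U₀.filter (fun u => J u = I')).card
        ≤ ∑ _I' : Fin K → Fin L, U.card := Finset.sum_le_sum (fun I' _ => hI I' (Finset.mem_univ _))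
      _ = L ^ K * U.card := by
        rw [Finset.sum_const, smul_eq_mul, Finset.card_univ, Fintype.card_fun, Fintype.card_fin,
          Fintype.card_fin]
  have hUne : U.Nonempty := by
    rw [Finset.nonempty_iff_ne_empty]
    intro h0
    rw [h0, Finset.card_empty, mul_zero] at hcard
    omega
  have hmem : ∀ u ∈ U, Function.Injective I ∧ (∀ k, Us (a (I k)) z u) ∧
      ∀ k k', k ≠ k' → rp (a (I k) * u) ∉ nb (a (I k')) z u := by
    intro u hu
    rw [hU, Finset.mem_filter] at hu
    have := hJ u hu.1
    rw [hu.2] at this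
    exact this
  obtain ⟨u0, hu0⟩ := hUne
  refine ⟨I, (hmem u0 hu0).1, U, ?_, fun u hu => (hmem u hu).2.1, fun u hu => (hmem u hu).2.2⟩
  calc n ≤ 256 * U₀.card := hU₀card
    _ ≤ 256 * (L ^ K * U.card) := Nat.mul_le_mul_left _ hcard
    _ = 256 * L ^ K * U.card := by ring

end ExtractAux

theorem extract (K : ℕ) (z : G) (a : Fin (8448 * K) → G)
    (ha : Function.Injective a)
    (h : ∀ b, Fintype.card G ≤ 128 * (Finset.univ.filter (fun u : G => Us (a b) z u)).card) :
    ∃ I : Fin K → Fin (8448 * K), Function.Injective I ∧ ∃ U : Finset G,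
      Fintype.card G ≤ 256 * (8448 * K) ^ K * U.card ∧
      (∀ u ∈ U, ∀ k, Us (a (I k)) z u) ∧
      ∀ u ∈ U, ∀ k k', k ≠ k' → rp (a (I k) * u) ∉ nb (a (I k')) z u :=
  ExtractAux.extract' K _ rfl z a ha h

end Pool.RCay
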