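import Pool.Agent.RCay.CDefs

/-!
# Module GAUGE: the position of the twist does not matter

PAPER PROOF. (1) For `i ≠ l` and every `v`: `cfi (tw v i) ≃g cfi (tw v l)` by `(u, A) ↦ (u, A + e_i + e_l)` for `u = v` and
`(u, A) ↦ (u, A)` for `u ≠ v` (an involution of `CV m`). By `adj_cfi`, for an edge `(u, A), (u + e_k, A')` with `u, u + e_k ≠ v` nothing
changes (`tw v i u k = tw v l u k = 0`, since `tw v i u k ≠ 0` only if `k = i` and `u ∈ {v, v + e_i}`, i.e. `v ∈ {u, u + e_k}`); for
`u = v` (or symmetrically `u + e_k = v`): `A_k + (e_i + e_l)_k + A'_k = tw v l v k` iff `A_k + A'_k = tw v i v k`, since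
`tw v i v k = (e_i)_k`, `tw v l v k = (e_l)_k`.
(2) `tw v i = tw (v + e_i) i`. (3) So for all `v, i, l`: `cfi (tw v i) ≃g cfi (tw v l) = cfi (tw (v + e_l) l) ≃g cfi (tw (v + e_l) i)`.
The `d` such that `Nonempty (cfi (tw v i) ≃g cfi (tw (v + d) i))` for all `v, i` form a set containing `0` and closed under
adding unit vectors, so it contains everything (`d = ∑ d_i e_i`; induction over a finset of coordinates).
-/

namespace Pool.RCay

open scoped Classical

theorem ev_apply {m : ℕ} (i k : Fin m) : (ev i : Fin m → ZMod 2) k = if k = i then 1 else 0 := by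
  unfold ev
  rw [Pi.single_apply]

theorem sum_ev {m : ℕ} (i : Fin m) : ∑ k, (ev i : Fin m → ZMod 2) k = 1 := by
  simp only [ev_apply, Finset.sum_ite_eq', Finset.mem_univ, if_true]

/-- `e_i + e_l` has even weight. -/
noncomputable def evv {m : ℕ} (i l : Fin m) : EV m :=
  ⟨ev i + ev l, by
    show ∑ k, (ev i + ev l) k = 0
    simp only [Pi.add_apply, Finset.sum_add_distrib, sum_ev]
    decide⟩

theorem tw_eq {m : ℕ} (v : Fin m → ZMod 2) (i k : Fin m) (x y : Fin m → ZMod 2)
    (h : y = x + ev k) :
    tw v i x k = (if k = i then 1 else 0) * ((if x = v then 1 else 0) + (if y = v then 1 else 0)) := by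
  unfold tw
  by_cases hk : k = i
  · subst hk
    have hne : y ≠ x := by rw [h]; exact add_ev_ne _ _
    have h1 : x = v + ev k ↔ y = v := by
      rw [h]
      constructor
      · intro h2
        rw [h2, add_ev_add_ev]
      · intro h2
        rw [← h2, add_ev_add_ev]
    simp only [h1]
    by_cases hx : x = v
    · have hy : y ≠ v := fun h2 => hne (h2.trans hx.symm)
      simp [hx, hy]
    · by_cases hy : y = v
      · simp [hx, hy]
      · simp [hx, hy]
  · simp [hk]

theorem gauge_step {m : ℕ} (v : Fin m → ZMod 2) (i l : Fin m) :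
    Nonempty (cfi (tw v i) ≃g cfi (tw v l)) := by
  have hDD : evv i l + evv i l = 0 := by
    apply Subtype.ext
    funext k
    show (ev i + ev l) k + (ev i + ev l) k = 0
    exact CharTwo.add_self_eq_zero _
  let φ : CV m → CV m := fun x => (x.1, if x.1 = v then x.2 + evv i l else x.2)
  have hφφ : ∀ x, φ (φ x) = x := by
    intro x
    refine Prod.ext rfl ?_
    show (if x.1 = v then (if x.1 = v then x.2 + evv i l else x.2) + evv i l
      else (if x.1 = v then x.2 + evv i l else x.2)) = x.2
    by_cases h : x.1 = v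
    · simp only [if_pos h]
      rw [add_assoc, hDD, add_zero]
    · simp only [if_neg h]
  have hφk : ∀ (x : CV m) (k : Fin m), (φ x).2.1 k = x.2.1 k +
      (if x.1 = v then 1 else 0) * ((if k = i then 1 else 0) + (if k = l then 1 else 0)) := by
    intro x k
    by_cases h : x.1 = v
    · have : (φ x).2 = x.2 + evv i l := if_pos h
      rw [this, if_pos h, one_mul]
      show x.2.1 k + (ev i + ev l) k = _
      rw [Pi.add_apply, ev_apply, ev_apply]
    · have : (φ x).2 = x.2 := if_neg h
      rw [this, if_neg h, zero_mul, add_zero]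
  refine ⟨⟨⟨φ, φ, hφφ, hφφ⟩, ?_⟩⟩
  intro x y
  show (cfi (tw v l)).Adj (φ x) (φ y) ↔ (cfi (tw v i)).Adj x y
  rw [adj_cfi (sym_tw v l), adj_cfi (sym_tw v i)]
  apply exists_congr
  intro k
  show (y.1 = x.1 + ev k ∧ (φ x).2.1 k + (φ y).2.1 k = tw v l x.1 k) ↔ _
  apply and_congr_right
  intro h
  rw [hφk, hφk, tw_eq v l k _ _ h, tw_eq v i k _ _ h]
  generalize (if x.1 = v then (1 : ZMod 2) else 0) = a
  generalize (if y.1 = v then (1 : ZMod 2) else 0) = b
  generalize (if k = i then (1 : ZMod 2) else 0) = c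
  generalize (if k = l then (1 : ZMod 2) else 0) = d
  generalize x.2.1 k = p
  generalize y.2.1 k = q
  revert a b c d p q
  decide

theorem tw_shift {m : ℕ} (v : Fin m → ZMod 2) (i : Fin m) : tw v i = tw (v + ev i) i := by
  funext u k
  unfold tw
  rw [add_ev_add_ev]
  congr 1
  simp only [or_comm]

theorem gauge {m : ℕ} (v w : Fin m → ZMod 2) (i j : Fin m) :
    Nonempty (cfi (tw v i) ≃g cfi (tw w j)) := by
  have h1 : ∀ (v : Fin m → ZMod 2) (l : Fin m),
      Nonempty (cfi (tw v i) ≃g cfi (tw (v + ev l) i)) := by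
    intro v l
    obtain ⟨f⟩ := gauge_step v i l
    obtain ⟨g⟩ := gauge_step (v + ev l) l i
    rw [← tw_shift v l] at g
    exact ⟨f.trans g⟩
  have h2 : ∀ s : Finset (Fin m), Nonempty (cfi (tw v i) ≃g cfi (tw (v + ∑ l ∈ s, ev l) i)) := by
    intro s
    induction s using Finset.induction_on with
    | empty =>
      rw [Finset.sum_empty, add_zero]
      exact ⟨SimpleGraph.Iso.refl⟩
    | insert l s hl ih =>
      obtain ⟨f⟩ := ih
      obtain ⟨g⟩ := h1 (v + ∑ l ∈ s, ev l) l
      rw [Finset.sum_insert hl, add_comm (ev l), ← add_assoc]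
      exact ⟨f.trans g⟩
  have h3 : w = v + ∑ l ∈ Finset.univ.filter (fun l => (w - v) l = 1), ev l := by
    funext k
    rw [Pi.add_apply, Finset.sum_apply]
    simp only [ev_apply]
    rw [Finset.sum_ite_eq]
    simp only [Finset.mem_filter, Finset.mem_univ, true_and, Pi.sub_apply]
    generalize w k = a
    generalize v k = b
    revert a b
    decide
  obtain ⟨f⟩ := h2 (Finset.univ.filter (fun l => (w - v) l = 1))
  rw [← h3] at f
  obtain ⟨g⟩ := gauge_step w i j
  exact ⟨f.trans g⟩

end Pool.RCay
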