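import Pool.Agent.RCay.Defs

/-!
# Module ISOTEST: discrete colourings give an isomorphism test

PAPER PROOF. `→`: for an isomorphism `φ : X ≃g H` take `u = φ ∘ t`; by induction on `k`, `col H u k (φ x) = col X t k x`
(`Finset.univ.filter (H.Adj (φ x))` is the image of `Finset.univ.filter (X.Adj x)` under `φ`), so the multisets agree.
`←`: `col X t 4` is injective (its first component is `col X t 3`). Two multisets of colours without repetition on one side that are
equal: `cols X t 4` has no duplicates, so `cols H u 4` has none, `col H u 4` is injective and has the same range; this gives a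
bijection `ψ : W → V` with `col X t 4 (ψ w) = col H u 4 w`, hence also `col X t 3 (ψ w) = col H u 3 w`, so `col H u 3` is injective.
`H.Adj w w'` iff `col H u 3 w' ∈ (col H u 4 w).2` (injectivity of `col H u 3`) iff `col X t 3 (ψ w') ∈ (col X t 4 (ψ w)).2` iff
`X.Adj (ψ w) (ψ w')`.
-/

namespace Pool.RCay

theorem col_iso {V W : Type} [Fintype V] [Fintype W] {X : SimpleGraph V} {H : SimpleGraph W}
    (φ : X ≃g H) {r : ℕ} (t : Fin r → V) (k : ℕ) (x : V) :
    col H (fun i => φ (t i)) k (φ x) = col X t k x := by
  classical
  induction k generalizing x with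
  | zero =>
    unfold col
    refine Finset.ext (α := Fin r) (fun i => ?_)
    simp only [Finset.mem_filter, Finset.mem_univ, true_and]
    exact φ.injective.eq_iff
  | succ k ih =>
    unfold col
    rw [ih x]
    congr 1
    have h1 : (Finset.univ.filter (fun y => H.Adj (φ x) y)) =
        (Finset.univ.filter (fun y => X.Adj x y)).map φ.toEquiv.toEmbedding := by
      ext y
      simp only [Finset.mem_filter, Finset.mem_univ, true_and, Finset.mem_map,
        Equiv.coe_toEmbedding]
      constructor
      · intro h
        refine ⟨φ.symm y, ?_, by simp⟩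
        rw [← φ.map_adj_iff]
        simpa using h
      · rintro ⟨z, hz, rfl⟩
        exact φ.map_adj_iff.2 hz
    have h2 : (Finset.univ.filter (fun y => H.Adj (φ x) y)).val =
        (Finset.univ.filter (fun y => X.Adj x y)).val.map φ := by
      rw [h1, Finset.map_val]
      rfl
    convert congrArg (Multiset.map (col H (fun i => φ (t i)) k)) h2 using 1
    rw [Multiset.map_map]
    exact Multiset.map_congr rfl (fun y _ => (ih y).symm)

theorem cols_iso {V W : Type} [Fintype V] [Fintype W] {X : SimpleGraph V} {H : SimpleGraph W}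
    (φ : X ≃g H) {r : ℕ} (t : Fin r → V) (k : ℕ) : cols H (fun i => φ (t i)) k = cols X t k := by
  unfold cols
  have h1 : (Finset.univ : Finset W).val = (Finset.univ : Finset V).val.map φ := by
    have : (Finset.univ : Finset W) = (Finset.univ : Finset V).map φ.toEquiv.toEmbedding := by
      simp
    rw [this, Finset.map_val]
    rfl
  rw [h1, Multiset.map_map]
  exact Multiset.map_congr rfl (fun y _ => col_iso φ t k y)

theorem iso_test {V W : Type} [Fintype V] [Fintype W] (X : SimpleGraph V) (H : SimpleGraph W) {r : ℕ}
    (t : Fin r → V) (hX : Function.Injective (col X t 3)) :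
    Nonempty (X ≃g H) ↔ ∃ u : Fin r → W, cols H u 4 = cols X t 4 := by
  classical
  constructor
  · rintro ⟨φ⟩
    exact ⟨fun i => φ (t i), cols_iso φ t 4⟩
  · rintro ⟨u, hu⟩
    have hX4 : Function.Injective (col X t 4) := by
      intro x y h
      apply hX
      exact congrArg Prod.fst h
    have hnd : (cols X t 4).Nodup := Multiset.Nodup.map hX4 (Finset.univ : Finset V).nodup
    have hndH : (cols H u 4).Nodup := by rw [hu]; exact hnd
    have hH4 : Function.Injective (col H u 4) := by
      intro x y h
      exact (Multiset.nodup_map_iff_inj_on (Finset.univ : Finset W).nodup).1 hndH x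
        (Finset.mem_univ_val x) y (Finset.mem_univ_val y) h
    have hex : ∀ w : W, ∃ v : V, col X t 4 v = col H u 4 w := by
      intro w
      have h1 : col H u 4 w ∈ cols H u 4 := Multiset.mem_map_of_mem _ (Finset.mem_univ_val w)
      rw [hu] at h1
      obtain ⟨v, _, hv⟩ := Multiset.mem_map.1 h1
      exact ⟨v, hv⟩
    have hex' : ∀ v : V, ∃ w : W, col H u 4 w = col X t 4 v := by
      intro v
      have h1 : col X t 4 v ∈ cols X t 4 := Multiset.mem_map_of_mem _ (Finset.mem_univ_val v)
      rw [← hu] at h1
      obtain ⟨w, _, hw⟩ := Multiset.mem_map.1 h1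
      exact ⟨w, hw⟩
    choose ψ hψ using hex
    choose χ hχ using hex'
    have hψ3 : ∀ w, col X t 3 (ψ w) = col H u 3 w := fun w => congrArg Prod.fst (hψ w)
    have e1 : ∀ v, ψ (χ v) = v := fun v => hX4 (by rw [hψ, hχ])
    have e2 : ∀ w, χ (ψ w) = w := fun w => hH4 (by rw [hχ, hψ])
    have hH3 : Function.Injective (col H u 3) := by
      intro x y h
      rw [← hψ3, ← hψ3] at h
      have := hX h
      rw [← e2 x, ← e2 y, this]
    have adjH : ∀ w w', H.Adj w w' ↔ col H u 3 w' ∈ (col H u 4 w).2 := by
      intro w w'
      change _ ↔ col H u 3 w' ∈ (Finset.univ.filter (fun y => H.Adj w y)).val.map (col H u 3)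
      rw [Multiset.mem_map_of_injective hH3]
      simp
    have adjX : ∀ v v', X.Adj v v' ↔ col X t 3 v' ∈ (col X t 4 v).2 := by
      intro v v'
      change _ ↔ col X t 3 v' ∈ (Finset.univ.filter (fun y => X.Adj v y)).val.map (col X t 3)
      rw [Multiset.mem_map_of_injective hX]
      simp
    refine ⟨{ toFun := χ, invFun := ψ, left_inv := e1, right_inv := e2, map_rel_iff' := ?_ }⟩
    intro a b
    change H.Adj (χ a) (χ b) ↔ X.Adj a b
    rw [adjH, adjX, hχ a, ← hψ3 (χ b), e1 b]

end Pool.RCay
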