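import Pool.Agent.RCay.NDefs

/-!
# Module LIFT: swap data for the re-randomised bits

PAPER PROOF. `pt' i = (pt i, last s)`, `Nb' i = ((insert (pt i) (Nb i)) ×ˢ univ) \ {(pt i, last s)}`, `w' q = (w q, last s)`, same
`p`, `lam`. `card (Nb' i) ≤ (a + 1) (s + 1)`. `disj`: the block of `i` is `(insert (pt i) (Nb i)) ×ˢ univ`. `base`: if all bits of
`Nb' i` are `false` then all control bits of `pt i` and of the `v ∈ Nb i` are `false`, so `nmix b θ₀ v = θ₀ (v, last) = false` for
`v ∈ Nb i`, `nmix b θ₀ (pt i) = false`, `nmix b θ₁ (pt i) = true`, and `nmix b θ₀ v = nmix b θ₁ v` for `v ≠ pt i`. `extra`: the control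
bits are again `false` (they are not equal to `w' q`), and `nmix b θ₀ v = θ₀ (v, last)` is `true` iff `v = w q` for `v ∈ Nb`.
-/

namespace Pool.RCay

open scoped Classical

/-- If the control bits vanish, the value is the fresh bit. -/
theorem nmix_of_ctrl {V : Type} {s : ℕ} (b : V → Bool) (θ : V × Fin (s + 1) → Bool) (v : V)
    (h : ∀ i : Fin s, θ (v, i.castSucc) = false) : nmix b θ v = θ (v, Fin.last s) := by
  unfold nmix
  rw [if_pos h]

/-- The value at `v` depends only on the bits over `v`. -/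
theorem nmix_congr {V : Type} {s : ℕ} (b : V → Bool) (θ θ' : V × Fin (s + 1) → Bool) (v : V)
    (h : ∀ i, θ (v, i) = θ' (v, i)) : nmix b θ v = nmix b θ' v := by
  unfold nmix
  simp only [h]

theorem lift_data {V : Type} {K m a : ℕ} {D : (V → Bool) → Fin K → ℤ} (d : SwapData V K m a D)
    (s : ℕ) (b : V → Bool) :
    Nonempty (SwapData (V × Fin (s + 1)) K m ((a + 1) * (s + 1)) (fun θ => D (nmix b θ))) := by
  have hmem : ∀ (i : Fin K × Fin m × Bool) (v : V) (t : Fin (s + 1)),
      (v, t) ∈ (((insert (d.pt i) (d.Nb i)) ×ˢ (Finset.univ : Finset (Fin (s + 1)))).erase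
        (d.pt i, Fin.last s)) ↔
      (v, t) ≠ (d.pt i, Fin.last s) ∧ (v = d.pt i ∨ v ∈ d.Nb i) := by
    intro i v t
    simp [Finset.mem_erase, Finset.mem_product, Finset.mem_insert]
  have hcs : ∀ (i : Fin K × Fin m × Bool) (v : V) (t : Fin s),
      (v, t.castSucc) ≠ (d.pt i, Fin.last s) := by
    intro i v t h
    have h2 := congrArg Prod.snd h
    exact (Fin.castSucc_lt_last t).ne h2
  have hne : ∀ (i : Fin K × Fin m × Bool) (v : V), v ∈ d.Nb i → v ≠ d.pt i := by
    intro i v hv h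
    rw [h] at hv
    exact d.notMem i hv
  refine ⟨{
    pt := fun i => (d.pt i, Fin.last s)
    Nb := fun i => (((insert (d.pt i) (d.Nb i)) ×ˢ (Finset.univ : Finset (Fin (s + 1)))).erase
        (d.pt i, Fin.last s))
    w := fun q => (d.w q, Fin.last s)
    p := d.p
    lam := d.lam
    card_le := ?_
    notMem := ?_
    disj := ?_
    w_mem := ?_
    lam_ne := d.lam_ne
    base := ?_
    extra := ?_ }⟩
  · intro i
    refine le_trans (Finset.card_erase_le) ?_
    rw [Finset.card_product, Finset.card_univ, Fintype.card_fin]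
    refine Nat.mul_le_mul_right _ ?_
    exact le_trans (Finset.card_insert_le _ _) (Nat.succ_le_succ (d.card_le i))
  · intro i h
    exact Finset.notMem_erase _ _ h
  · rintro i j hij ⟨v, t⟩ h1 h2
    have e1 : v = d.pt i ∨ v ∈ d.Nb i := by
      rcases h1 with h | h
      · exact Or.inl (congrArg Prod.fst h)
      · exact ((hmem i v t).1 h).2
    have e2 : v = d.pt j ∨ v ∈ d.Nb j := by
      rcases h2 with h | h
      · exact Or.inl (congrArg Prod.fst h)
      · exact ((hmem j v t).1 h).2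
    exact d.disj i j hij v e1 e2
  · intro q
    refine (hmem (q.1, q.2, false) (d.w q) (Fin.last s)).2 ⟨?_, Or.inr (d.w_mem q)⟩
    intro h
    exact hne _ _ (d.w_mem q) (congrArg Prod.fst h)
  · intro i ω₀ ω₁ h0 h1 h2 h3 j
    have hc0 : ∀ v, (v = d.pt i ∨ v ∈ d.Nb i) → ∀ t : Fin s, ω₀ (v, t.castSucc) = false := by
      intro v hv t
      exact h0 _ ((hmem i v t.castSucc).2 ⟨hcs i v t, hv⟩)
    refine d.base i (nmix b ω₀) (nmix b ω₁) ?_ ?_ ?_ ?_ j
    · intro v hv
      rw [nmix_of_ctrl b ω₀ v (hc0 v (Or.inr hv))]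
      refine h0 _ ((hmem i v (Fin.last s)).2 ⟨?_, Or.inr hv⟩)
      intro h
      exact hne _ _ hv (congrArg Prod.fst h)
    · rw [nmix_of_ctrl b ω₀ _ (hc0 _ (Or.inl rfl))]
      exact h1
    · rw [nmix_of_ctrl b ω₁ _ (fun t => by rw [← h3 _ (hcs i _ t)]; exact hc0 _ (Or.inl rfl) t)]
      exact h2
    · intro v hv
      refine nmix_congr b _ _ v (fun t => h3 _ ?_)
      intro h
      exact hv (congrArg Prod.fst h)
  · intro q ω₀ ω₁ h0 h1 h2 h3 j
    have hc0 : ∀ v, (v = d.pt (q.1, q.2, false) ∨ v ∈ d.Nb (q.1, q.2, false)) →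
        ∀ t : Fin s, ω₀ (v, t.castSucc) = false := by
      intro v hv t
      have h4 := h0 _ ((hmem (q.1, q.2, false) v t.castSucc).2 ⟨hcs _ v t, hv⟩)
      by_contra h5
      have h6 := h4.1 (by simpa using h5)
      have h7 := congrArg Prod.snd h6
      exact (Fin.castSucc_lt_last t).ne h7
    refine d.extra q (nmix b ω₀) (nmix b ω₁) ?_ ?_ ?_ ?_ j
    · intro v hv
      rw [nmix_of_ctrl b ω₀ v (hc0 v (Or.inr hv))]
      have h4 := h0 _ ((hmem (q.1, q.2, false) v (Fin.last s)).2 ⟨by
        intro h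
        exact hne _ _ hv (congrArg Prod.fst h), Or.inr hv⟩)
      rw [h4]
      constructor
      · intro h
        exact congrArg Prod.fst h
      · intro h
        rw [h]
    · rw [nmix_of_ctrl b ω₀ _ (hc0 _ (Or.inl rfl))]
      exact h1
    · rw [nmix_of_ctrl b ω₁ _ (fun t => by rw [← h3 _ (hcs _ _ t)]; exact hc0 _ (Or.inl rfl) t)]
      exact h2
    · intro v hv
      refine nmix_congr b _ _ v (fun t => h3 _ ?_)
      intro h
      exact hv (congrArg Prod.fst h)

end Pool.RCay
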