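import Pool.Agent.RCay.Codeg

/-!
# Module NONISO: one twisted edge gives a non-isomorphic graph

PAPER PROOF. (1) Let `σ, τ` be `Sym` and `φ : cfi σ ≃g cfi τ`. `φ` preserves the numbers of common neighbours, so by `codeg_same` for `σ`
and `codeg_diff` for `τ`: if `A, B` differ in exactly two coordinates then `(φ (v, A)).1 = (φ (v, B)).1`. Any `A ∈ EV m` is
connected with `0` by such steps (induction on the number of the nonzero coordinates, which is even: subtract `e_i + e_l` for two
nonzero coordinates), so `(φ (v, A)).1 = ψ v` with `ψ v = (φ (v, 0)).1`. The same for `φ⁻¹` shows that `ψ` is injective: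
`ψ v = ψ v'` gives `v = (φ⁻¹ (ψ v, *)).1 = v'`; so `ψ` is bijective (finite).
(2) Let `σ = 0`, `τ = tw w j`. `(v, 0)` and `(v + e_i, 0)` are adjacent in `cfi 0`. With `φ (v, 0) = (ψ v, a v)` there is an index `s v i` with
`ψ (v + e_i) = ψ v + e_{s v i}` and `(a v)_{s v i} + (a (v + e_i))_{s v i} = τ (ψ v) (s v i)`. `s v` is injective (as `ψ` is), so
bijective. With `b = a ∘ ψ⁻¹`: for all `u`, `l`: `(b u)_l + (b (u + e_l))_l = τ u l`.
(3) Sum over all `(u, l)` with `u_l = 0`: the left side is `∑_{u, l} (b u)_l = ∑_u 0 = 0` (`(u, l) ↦ (u + e_l, l)` exchanges `u_l = 0` and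
`u_l = 1`). The right side is `1`: `τ u l = 1` iff `l = j` and `u ∈ {w, w + e_j}`, and exactly one of these two has `u_j = 0`.
Contradiction in `ZMod 2`.
-/

namespace Pool.RCay

open scoped Classical

namespace NonIsoAux

variable {m : ℕ}

theorem zmod2 (a : ZMod 2) : a = 0 ∨ a = 1 := by
  revert a; decide

theorem ev_same (i : Fin m) : ev i i = 1 := by simp [ev]

theorem ev_diff {i l : Fin m} (h : l ≠ i) : ev i l = 0 := by simp [ev, h]

theorem step (hm : 4 ≤ m) {σ τ : (Fin m → ZMod 2) → Fin m → ZMod 2} (hσ : Sym σ) (hτ : Sym τ)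
    (φ : cfi σ ≃g cfi τ) (v : Fin m → ZMod 2) (A B : EV m)
    (hAB : (Finset.univ.filter (fun i => A.1 i ≠ B.1 i)).card = 2) :
    (φ (v, A)).1 = (φ (v, B)).1 := by
  by_contra hne
  have h1 := codeg_same hm hσ v A B hAB
  have h2 := codeg_diff hm hτ (φ (v, A)) (φ (v, B)) hne
  have h3 : (Finset.univ.filter (fun z => (cfi σ).Adj (v, A) z ∧ (cfi σ).Adj (v, B) z)).card =
      (Finset.univ.filter (fun z => (cfi τ).Adj (φ (v, A)) z ∧ (cfi τ).Adj (φ (v, B)) z)).card := by
    apply Finset.card_equiv φ.toEquiv
    intro z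
    simp only [Finset.mem_filter, Finset.mem_univ, true_and]
    have e1 : (cfi τ).Adj (φ (v, A)) (φ z) ↔ (cfi σ).Adj (v, A) z := φ.map_adj_iff
    have e2 : (cfi τ).Adj (φ (v, B)) (φ z) ↔ (cfi σ).Adj (v, B) z := φ.map_adj_iff
    exact (and_congr e1 e2).symm
  rw [h1] at h3
  omega

theorem exists_step (A : EV m) (hA : A ≠ 0) : ∃ B : EV m,
    (Finset.univ.filter (fun i => A.1 i ≠ B.1 i)).card = 2 ∧
    (Finset.univ.filter (fun i => B.1 i ≠ 0)).card < (Finset.univ.filter (fun i => A.1 i ≠ 0)).card := by
  have h1 : ∃ i, A.1 i ≠ 0 := by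
    by_contra h
    push Not at h
    exact hA (Subtype.ext (funext h))
  obtain ⟨i, hi⟩ := h1
  have h2 : ∃ l, l ≠ i ∧ A.1 l ≠ 0 := by
    by_contra h
    push Not at h
    have h3 : ∑ l, A.1 l = A.1 i := Finset.sum_eq_single i (fun l _ hl => h l hl)
      (fun hh => absurd (Finset.mem_univ _) hh)
    have h4 : ∑ l, A.1 l = 0 := A.2
    rw [h3] at h4
    exact hi h4
  obtain ⟨l, hli, hl⟩ := h2
  have hsum : ∑ x, (A.1 + ev i + ev l) x = 0 := by
    have h4 : ∑ l, A.1 l = 0 := A.2
    simp only [Pi.add_apply, Finset.sum_add_distrib, h4, zero_add]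
    have e : ∀ k : Fin m, ∑ x, ev k x = 1 := by
      intro k
      rw [Finset.sum_eq_single k (fun x _ hx => ev_diff hx)
        (fun hh => absurd (Finset.mem_univ _) hh), ev_same]
    rw [e, e]
    decide
  have hval : ∀ x, (A.1 + ev i + ev l) x = if x = i ∨ x = l then A.1 x + 1 else A.1 x := by
    intro x
    simp only [Pi.add_apply]
    by_cases hxi : x = i
    · subst hxi
      rw [ev_same, ev_diff (Ne.symm hli)]
      simp
    · by_cases hxl : x = l
      · subst hxl
        rw [ev_same, ev_diff hli]
        simp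
      · rw [ev_diff hxi, ev_diff hxl]
        simp [hxi, hxl]
  refine ⟨⟨A.1 + ev i + ev l, hsum⟩, ?_, ?_⟩
  · have e : (Finset.univ.filter (fun x => A.1 x ≠ (A.1 + ev i + ev l) x)) = {i, l} := by
      ext x
      simp only [Finset.mem_filter, Finset.mem_univ, true_and, Finset.mem_insert,
        Finset.mem_singleton]
      rw [hval]
      by_cases hx : x = i ∨ x = l
      · simp [hx]
      · simp [hx]
    change (Finset.univ.filter (fun x => A.1 x ≠ (A.1 + ev i + ev l) x)).card = 2
    rw [e, Finset.card_pair (Ne.symm hli)]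
  · apply Finset.card_lt_card
    rw [Finset.ssubset_iff_of_subset]
    · refine ⟨i, by simp [hi], ?_⟩
      simp only [Finset.mem_filter, Finset.mem_univ, true_and, not_not]
      rw [hval]
      simp only [true_or, if_true]
      rcases zmod2 (A.1 i) with h | h
      · exact absurd h hi
      · rw [h]; decide
    · intro x
      simp only [Finset.mem_filter, Finset.mem_univ, true_and]
      rw [hval]
      intro hx hx0
      apply hx
      split_ifs with h
      · rcases h with rfl | rfl
        · exact absurd hx0 hi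
        · exact absurd hx0 hl
      · exact hx0

theorem fst_eq (hm : 4 ≤ m) {σ τ : (Fin m → ZMod 2) → Fin m → ZMod 2} (hσ : Sym σ) (hτ : Sym τ)
    (φ : cfi σ ≃g cfi τ) (v : Fin m → ZMod 2) (A : EV m) :
    (φ (v, A)).1 = (φ (v, 0)).1 := by
  induction h : (Finset.univ.filter (fun i => A.1 i ≠ 0)).card using Nat.strong_induction_on
    generalizing A with
  | _ n ih =>
    by_cases hA : A = 0
    · rw [hA]
    · obtain ⟨B, h1, h2⟩ := exists_step A hA
      rw [step hm hσ hτ φ v A B h1]
      exact ih _ (h ▸ h2) B rfl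

end NonIsoAux

open NonIsoAux

theorem noniso {m : ℕ} (hm : 4 ≤ m) (w : Fin m → ZMod 2) (j : Fin m) :
    IsEmpty (cfi (m := m) 0 ≃g cfi (tw w j)) := by
  constructor
  intro φ
  set τ := tw w j with hτdef
  have hτ : Sym τ := sym_tw w j
  set ψ : (Fin m → ZMod 2) → (Fin m → ZMod 2) := fun v => (φ (v, 0)).1 with hψ
  set a : (Fin m → ZMod 2) → EV m := fun v => (φ (v, 0)).2 with ha
  have hinj : Function.Injective ψ := by
    intro v v' h
    have h1 : (φ.symm (ψ v, a v)).1 = (φ.symm (ψ v, 0)).1 :=
      fst_eq hm hτ sym_zero φ.symm (ψ v) (a v)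
    have h2 : (φ.symm (ψ v', a v')).1 = (φ.symm (ψ v', 0)).1 :=
      fst_eq hm hτ sym_zero φ.symm (ψ v') (a v')
    have h3 : φ.symm (ψ v, a v) = (v, 0) := by
      have : (ψ v, a v) = φ (v, 0) := rfl
      rw [this]; exact φ.symm_apply_apply _
    have h4 : φ.symm (ψ v', a v') = (v', 0) := by
      have : (ψ v', a v') = φ (v', 0) := rfl
      rw [this]; exact φ.symm_apply_apply _
    rw [h3] at h1
    rw [h4] at h2
    simp only at h1 h2
    rw [h1, h2, h]
  have hbij : Function.Bijective ψ := Finite.injective_iff_bijective.1 hinj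
  have hs : ∀ v i, ∃ l, ψ (v + ev i) = ψ v + ev l ∧
      (a v).1 l + (a (v + ev i)).1 l = τ (ψ v) l := by
    intro v i
    have h1 : (cfi (m := m) 0).Adj (v, 0) (v + ev i, 0) := by
      rw [adj_cfi sym_zero]
      exact ⟨i, rfl, by simp⟩
    have h2 : (cfi τ).Adj (φ (v, 0)) (φ (v + ev i, 0)) := φ.map_adj_iff.2 h1
    rw [adj_cfi hτ] at h2
    exact h2
  choose s hs1 hs2 using hs
  have hsb : ∀ v, Function.Bijective (s v) := by
    intro v
    apply Finite.injective_iff_bijective.1
    intro i i' h
    have h1 : ψ (v + ev i) = ψ (v + ev i') := by rw [hs1, hs1, h]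
    have h2 := hinj h1
    exact ev_injective (add_left_cancel h2)
  obtain ⟨ψ', hψ'1, hψ'2⟩ := Function.bijective_iff_has_inverse.1 hbij
  have hb : ∀ u l, (a (ψ' u)).1 l + (a (ψ' (u + ev l))).1 l = τ u l := by
    intro u l
    obtain ⟨i, hi⟩ := (hsb (ψ' u)).2 l
    have h1 := hs1 (ψ' u) i
    have h2 := hs2 (ψ' u) i
    rw [hi, hψ'2 u] at h1 h2
    have h3 : ψ' (u + ev l) = ψ' u + ev i := by
      rw [← h1]; exact hψ'1 _
    rw [h3]
    exact h2
  set b : (Fin m → ZMod 2) → Fin m → ZMod 2 := fun u => (a (ψ' u)).1 with hbdef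
  have hsum0 : ∀ u, ∑ l, b u l = 0 := fun u => (a (ψ' u)).2
  have key : ∑ l, ∑ u, (if u l = 0 then τ u l else 0) = ∑ l, ∑ u, b u l := by
    apply Finset.sum_congr rfl
    intro l _
    have e1 : ∀ u : Fin m → ZMod 2, (if u l = 0 then τ u l else 0) =
        (if u l = 0 then b u l else 0) + (if u l = 0 then b (u + ev l) l else 0) := by
      intro u
      rw [← hb]
      split_ifs
      · rfl
      · simp
    have e2 : ∑ u : Fin m → ZMod 2, (if u l = 0 then b (u + ev l) l else 0) =
        ∑ u : Fin m → ZMod 2, (if u l = 0 then 0 else b u l) := by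
      rw [← Equiv.sum_comp (Equiv.addRight (ev l)) (fun u : Fin m → ZMod 2 => if u l = 0 then 0 else b u l)]
      apply Finset.sum_congr rfl
      intro u _
      simp only [Equiv.coe_addRight, Pi.add_apply, ev_same]
      rcases zmod2 (u l) with h | h
      · rw [h]; simp
      · rw [h]
        have : (1 : ZMod 2) + 1 = 0 := by decide
        rw [this]
        simp
    rw [Finset.sum_congr rfl (fun u _ => e1 u), Finset.sum_add_distrib, e2,
      ← Finset.sum_add_distrib]
    apply Finset.sum_congr rfl
    intro u _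
    split_ifs <;> simp
  rw [Finset.sum_comm (f := fun l u => b u l)] at key
  rw [Finset.sum_eq_zero (fun u _ => hsum0 u)] at key
  have hR : ∑ l, ∑ u, (if u l = 0 then τ u l else 0) = 1 := by
    rw [Finset.sum_eq_single j]
    · have e : ∀ u : Fin m → ZMod 2, (if u j = 0 then τ u j else 0) =
          if u = (if w j = 0 then w else w + ev j) then 1 else 0 := by
        intro u
        have hd : τ u j = if u = w ∨ u = w + ev j then 1 else 0 := by
          rw [hτdef]; unfold tw; simp
        rw [hd]
        by_cases hw : w j = 0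
        · rw [if_pos hw]
          by_cases h1 : u = w
          · subst h1
            simp [hw]
          · by_cases h2 : u = w + ev j
            · have h3 : u j ≠ 0 := by
                rw [h2, Pi.add_apply, hw, ev_same]
                decide
              rw [if_neg h3, if_neg h1]
            · rw [if_neg h1]
              simp [h1, h2]
        · rw [if_neg hw]
          have hw1 : w j = 1 := (zmod2 _).resolve_left hw
          by_cases h1 : u = w
          · have h3 : u j ≠ 0 := by rw [h1]; exact hw
            rw [if_neg h3, if_neg]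
            rw [h1]
            exact (add_ev_ne w j).symm
          · by_cases h2 : u = w + ev j
            · have h3 : u j = 0 := by
                rw [h2, Pi.add_apply, hw1, ev_same]
                decide
              rw [if_pos h3, if_pos h2, if_pos (Or.inr h2)]
            · rw [if_neg h2]
              simp [h1, h2]
      rw [Finset.sum_congr rfl (fun u _ => e u), Finset.sum_ite_eq']
      simp
    · intro l _ hl
      apply Finset.sum_eq_zero
      intro u _
      have : τ u l = 0 := by rw [hτdef]; unfold tw; simp [hl]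
      rw [this]
      simp
    · intro h
      exact absurd (Finset.mem_univ _) h
  rw [hR] at key
  exact one_ne_zero key

end Pool.RCay
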