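import Pool.Agent.RCay.Equi
import Pool.Agent.RCay.Core
import Pool.Agent.RCay.Counts
import Pool.Agent.RCay.Gauge
import Pool.Agent.RCay.NonIso
import Pool.Agent.RCay.IsoTest

/-!
# Assembly of the lower bound
-/

namespace Pool.RCay

open scoped Classical

theorem prj_notMem {m : ℕ} {W : Finset (Fin m → ZMod 2)} {x y : CV m} (hx : x.1 ∉ W)
    (h : prj W x = prj W y) : x = y := by
  have h1 : x.1 = y.1 := (Prod.ext_iff.1 h).1
  have h2 := (Prod.ext_iff.1 h).2
  refine Prod.ext h1 (Subtype.ext ?_)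
  funext i
  have h3 := congrFun h2 i
  have hy : y.1 ∉ W := h1 ▸ hx
  simpa [prj, hx, hy] using h3

theorem lower {m : ℕ} (hm : 4 ≤ m) : ∃ Y : SimpleGraph (CV m), IsEmpty (cfi (m := m) 0 ≃g Y) ∧
    ∀ k : ℕ, k * (m - 1) ≤ (m - 2) * 2 ^ (m - 1) →
      ∀ u : Fin k → CV m, ∃ u' : Fin k → CV m, ∀ j, cols (cfi (m := m) 0) u j = cols Y u' j := by
  refine ⟨cfi (tw 0 ⟨0, by omega⟩), noniso hm _ _, ?_⟩
  intro k hk u
  obtain ⟨W, ⟨w, hw⟩, hd, hW⟩ := core (m := m) (by omega) (Finset.univ.image (fun i => (u i).1)) (by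
    refine le_trans (Nat.mul_le_mul_right _ ?_) hk
    refine le_trans Finset.card_image_le ?_
    rw [Finset.card_univ, Fintype.card_fin])
  have h2 := hW w hw
  obtain ⟨j, hj⟩ := Finset.card_pos.1 (lt_of_lt_of_le (by norm_num) h2)
  simp only [Finset.mem_filter, Finset.mem_univ, true_and] at hj
  have hcols := equi_cols (cfi (m := m) 0) (cfi (tw w j)) (prj W) u
    (by
      intro x y hxy i
      have key : ∀ x y : CV m, prj W x = prj W y → u i = x → u i = y := by
        intro x y hxy h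
        have hx : x.1 ∉ W := by
          intro hx
          refine Finset.disjoint_left.1 hd hx ?_
          rw [← h]
          exact Finset.mem_image_of_mem _ (Finset.mem_univ _)
        rw [h]
        exact prj_notMem hx hxy
      exact ⟨key x y hxy, key y x hxy.symm⟩)
    (fun x y hxy q => by convert counts W hW w j hw hj x y hxy q)
  obtain ⟨φ⟩ := gauge w 0 j ⟨0, by omega⟩
  refine ⟨fun i => φ (u i), fun l => ?_⟩
  rw [hcols l, cols_iso φ u l]

end Pool.RCay
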