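import Pool.Agent.RCay.NDefs

/-!
# Module MIXTURE: independent bits with bounded biases are mixtures of re-randomised bits

PAPER PROOF. `N = card V`, `ε = (1/2)^s ≤ 1/2`, `q' v = (q v - ε/2) / (1 - ε) ∈ [0, 1]`. For `b, ω : V → Bool` the number of the `θ`
with `nmix b θ = ω` is a product over `v` (`Fintype.piFinset` / `Equiv.curry`): `∏ v, c (b v) (ω v)` with
`c β o = #{η : Fin (s+1) → Bool | (if all η (castSucc i) = false then η last else β) = o} = 1 + (if β = o then 2 (2^s - 1) else 0)`.
Hence `∑_b wt q' b * #{θ | nmix b θ = ω} = ∏ v ((q' v) c true (ω v) + (1 - q' v) c false (ω v)) = 2^{(s+1) N} wt q ω`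
(`Finset.prod_univ_sum`), because `ε/2 + (1 - ε) q' v = q v`. Sum over the `ω` with `P ω`:
`2^{(s+1) N} ∑_{P ω} wt q ω = ∑_b wt q' b * #{θ | P (nmix b θ)} ≤ B 2^{(s+1) N} ∑_b wt q' b = B 2^{(s+1) N}`.
-/

namespace Pool.RCay

open scoped Classical

/-- The number of the values of the `s + 1` bits over one point that give the value `o`. -/
noncomputable def cnt (s : ℕ) (β o : Bool) : ℕ :=
  (Finset.univ.filter (fun η : Fin (s + 1) → Bool =>
    (if ∀ i : Fin s, η i.castSucc = false then η (Fin.last s) else β) = o)).card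

theorem cnt_eq (s : ℕ) (β o : Bool) :
    (cnt s β o : ℝ) = 1 + if β = o then 2 ^ (s + 1) - 2 else 0 := by
  have h1 : (cnt s β o : ℝ) = ∑ η : Fin (s + 1) → Bool,
      (if (if ∀ i : Fin s, η i.castSucc = false then η (Fin.last s) else β) = o then (1 : ℝ)
        else 0) := by
    unfold cnt
    rw [Finset.card_filter]
    push_cast
    rfl
  rw [h1, ← (Fin.snocEquiv (fun _ => Bool)).sum_comp, Fintype.sum_prod_type]
  have h2 : ∀ (x : Bool) (y : Fin s → Bool),
      (if (if ∀ i : Fin s, (Fin.snocEquiv (fun _ => Bool)) (x, y) i.castSucc = false then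
        (Fin.snocEquiv (fun _ => Bool)) (x, y) (Fin.last s) else β) = o then (1 : ℝ) else 0) =
      (if y = (fun _ => false) then (if x = o then (1 : ℝ) else 0) else 0) +
        (if β = o then (1 : ℝ) else 0) - (if y = (fun _ => false) then
          (if β = o then (1 : ℝ) else 0) else 0) := by
    intro x y
    have e1 : ∀ i : Fin s, (Fin.snocEquiv (fun _ => Bool)) (x, y) i.castSucc = y i := by
      intro i
      simp [Fin.snocEquiv]
    have e2 : (Fin.snocEquiv (fun _ => Bool)) (x, y) (Fin.last s) = x := by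
      simp [Fin.snocEquiv]
    rw [e2]
    simp only [e1]
    by_cases hy : y = (fun _ => false)
    · subst hy
      simp
    · have hy2 : ¬ ∀ i, y i = false := fun h => hy (funext h)
      simp [hy, hy2]
  simp only [h2, Finset.sum_add_distrib, Finset.sum_sub_distrib, Finset.sum_ite_eq',
    Finset.mem_univ, if_true, Fintype.sum_bool]
  simp only [Finset.sum_const, Finset.card_univ, Fintype.card_fun, Fintype.card_bool,
    Fintype.card_fin, nsmul_eq_mul]
  push_cast
  cases β <;> cases o <;> simp <;> ring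

/-- The number of the `θ` that give `ω` is a product. -/
theorem card_nmix_eq {V : Type} [Fintype V] (s : ℕ) (b ω : V → Bool) :
    (Finset.univ.filter (fun θ : V × Fin (s + 1) → Bool => nmix b θ = ω)).card =
      ∏ v, cnt s (b v) (ω v) := by
  unfold cnt
  rw [← Fintype.card_piFinset]
  refine Finset.card_equiv (Equiv.curry V (Fin (s + 1)) Bool) ?_
  intro θ
  simp only [Finset.mem_filter, Finset.mem_univ, true_and, Fintype.mem_piFinset,
    Equiv.curry_apply, Function.curry]
  constructor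
  · intro h v
    rw [← h]
    rfl
  · intro h
    funext v
    exact h v

theorem sum_wt {V : Type} [Fintype V] (q : V → ℝ) : ∑ b : V → Bool, wt q b = 1 := by
  unfold wt
  have h := Finset.prod_univ_sum (fun _ : V => (Finset.univ : Finset Bool))
    (fun v β => if β = true then q v else 1 - q v)
  rw [Fintype.piFinset_univ] at h
  rw [← h]
  refine Finset.prod_eq_one ?_
  intro v _
  simp

theorem wt_mix {V : Type} [Fintype V] (s : ℕ) (hs : 1 ≤ s) (q : V → ℝ) (ω : V → Bool) :
    ∑ b : V → Bool, wt (fun v => (q v - (1 / 2) ^ (s + 1)) / (1 - (1 / 2) ^ s)) b *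
      ((Finset.univ.filter (fun θ : V × Fin (s + 1) → Bool => nmix b θ = ω)).card : ℝ) =
    2 ^ ((s + 1) * Fintype.card V) * wt q ω := by
  have hε : (1 / 2 : ℝ) ^ s ≤ 1 / 2 := by
    calc (1 / 2 : ℝ) ^ s ≤ (1 / 2) ^ 1 :=
          pow_le_pow_of_le_one (by norm_num) (by norm_num) hs
      _ = 1 / 2 := by norm_num
  have hε1 : (1 - (1 / 2 : ℝ) ^ s) ≠ 0 := by
    intro h
    linarith
  have h2 : (2 : ℝ) ^ s * (1 / 2) ^ s = 1 := by
    rw [← mul_pow]
    norm_num
  have h := Finset.prod_univ_sum (fun _ : V => (Finset.univ : Finset Bool))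
    (fun v β => (if β = true then (q v - (1 / 2) ^ (s + 1)) / (1 - (1 / 2) ^ s) else
      1 - (q v - (1 / 2) ^ (s + 1)) / (1 - (1 / 2) ^ s)) * (cnt s β (ω v) : ℝ))
  rw [Fintype.piFinset_univ] at h
  have h3 : ∀ b : V → Bool, wt (fun v => (q v - (1 / 2) ^ (s + 1)) / (1 - (1 / 2) ^ s)) b *
      ((Finset.univ.filter (fun θ : V × Fin (s + 1) → Bool => nmix b θ = ω)).card : ℝ) =
      ∏ v, ((if b v = true then (q v - (1 / 2) ^ (s + 1)) / (1 - (1 / 2) ^ s) else
      1 - (q v - (1 / 2) ^ (s + 1)) / (1 - (1 / 2) ^ s)) * (cnt s (b v) (ω v) : ℝ)) := by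
    intro b
    rw [card_nmix_eq, wt, Finset.prod_mul_distrib]
    push_cast
    rfl
  rw [Finset.sum_congr rfl (fun b _ => h3 b), ← h, pow_mul, ← Finset.card_univ, ← Finset.prod_const,
    wt, ← Finset.prod_mul_distrib]
  refine Finset.prod_congr rfl ?_
  intro v _
  rw [Fintype.sum_bool]
  simp only [cnt_eq, if_true, Bool.false_eq_true, if_false]
  have h4 : (2 : ℝ) ^ (s + 1) = 2 * 2 ^ s := by ring
  have h5 : (1 / 2 : ℝ) ^ (s + 1) = (1 / 2) * (1 / 2) ^ s := by ring
  rw [h4, h5]
  set E := (1 / 2 : ℝ) ^ s with hE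
  set T := (2 : ℝ) ^ s with hT
  cases hω : ω v
  · simp only [Bool.true_eq_false, Bool.false_eq_true, if_false, if_true]
    field_simp
    linear_combination (2 - 4 * q v) * h2
  · simp only [Bool.false_eq_true, if_false, if_true]
    field_simp
    linear_combination (4 * q v - 2) * h2

theorem mixture {V : Type} [Fintype V] (s : ℕ) (hs : 1 ≤ s) (q : V → ℝ)
    (hq : ∀ v, (1 / 2 : ℝ) ^ (s + 1) ≤ q v ∧ q v ≤ 1 - (1 / 2) ^ (s + 1)) (P : (V → Bool) → Prop) (B : ℝ)
    (h : ∀ b : V → Bool,
      ((Finset.univ.filter (fun θ : V × Fin (s + 1) → Bool => P (nmix b θ))).card : ℝ) ≤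
        B * 2 ^ ((s + 1) * Fintype.card V)) :
    ∑ ω ∈ Finset.univ.filter (fun ω : V → Bool => P ω), wt q ω ≤ B := by
  have hε : (1 / 2 : ℝ) ^ s ≤ 1 / 2 := by
    calc (1 / 2 : ℝ) ^ s ≤ (1 / 2) ^ 1 :=
          pow_le_pow_of_le_one (by norm_num) (by norm_num) hs
      _ = 1 / 2 := by norm_num
  have h5 : (1 / 2 : ℝ) ^ (s + 1) = (1 / 2) * (1 / 2) ^ s := by ring
  have hpos : (0 : ℝ) < 1 - (1 / 2) ^ s := by linarith
  have hwt : ∀ b : V → Bool, 0 ≤ wt (fun v => (q v - (1 / 2) ^ (s + 1)) / (1 - (1 / 2) ^ s)) b := by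
    intro b
    unfold wt
    refine Finset.prod_nonneg ?_
    intro v _
    obtain ⟨h1, h2⟩ := hq v
    have h3 : 0 ≤ (q v - (1 / 2) ^ (s + 1)) / (1 - (1 / 2) ^ s) :=
      div_nonneg (by linarith) hpos.le
    have h4 : (q v - (1 / 2) ^ (s + 1)) / (1 - (1 / 2) ^ s) ≤ 1 := by
      rw [div_le_one hpos]
      rw [h5] at h2 ⊢
      linarith
    split_ifs
    · exact h3
    · linarith
  have hP : (0 : ℝ) < 2 ^ ((s + 1) * Fintype.card V) := by positivity
  have hfib : ∀ b : V → Bool,
      ∑ ω ∈ Finset.univ.filter (fun ω : V → Bool => P ω),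
        ((Finset.univ.filter (fun θ : V × Fin (s + 1) → Bool => nmix b θ = ω)).card : ℝ) =
      ((Finset.univ.filter (fun θ : V × Fin (s + 1) → Bool => P (nmix b θ))).card : ℝ) := by
    intro b
    have h6 := Finset.card_eq_sum_card_fiberwise (f := fun θ : V × Fin (s + 1) → Bool => nmix b θ)
      (s := Finset.univ.filter (fun θ : V × Fin (s + 1) → Bool => P (nmix b θ)))
      (t := Finset.univ.filter (fun ω : V → Bool => P ω)) (by
        intro θ hθ
        simpa using hθ)
    rw [h6]
    push_cast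
    refine Finset.sum_congr rfl ?_
    intro ω hω
    have hPω : P ω := by simpa using hω
    congr 1
    congr 1
    ext θ
    simp only [Finset.mem_filter, Finset.mem_univ, true_and]
    constructor
    · intro h7
      refine ⟨?_, h7⟩
      rw [h7]
      exact hPω
    · intro h7
      exact h7.2
  have key : 2 ^ ((s + 1) * Fintype.card V) *
      ∑ ω ∈ Finset.univ.filter (fun ω : V → Bool => P ω), wt q ω ≤
      2 ^ ((s + 1) * Fintype.card V) * B := by
    rw [Finset.mul_sum]
    calc ∑ ω ∈ Finset.univ.filter (fun ω : V → Bool => P ω),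
          (2 : ℝ) ^ ((s + 1) * Fintype.card V) * wt q ω
        = ∑ ω ∈ Finset.univ.filter (fun ω : V → Bool => P ω), ∑ b : V → Bool,
          wt (fun v => (q v - (1 / 2) ^ (s + 1)) / (1 - (1 / 2) ^ s)) b *
          ((Finset.univ.filter (fun θ : V × Fin (s + 1) → Bool => nmix b θ = ω)).card : ℝ) := by
            refine Finset.sum_congr rfl ?_
            intro ω _
            rw [wt_mix s hs q ω]
      _ = ∑ b : V → Bool, wt (fun v => (q v - (1 / 2) ^ (s + 1)) / (1 - (1 / 2) ^ s)) b *
          ((Finset.univ.filter (fun θ : V × Fin (s + 1) → Bool => P (nmix b θ))).card : ℝ) := by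
            rw [Finset.sum_comm]
            refine Finset.sum_congr rfl ?_
            intro b _
            rw [← Finset.mul_sum, hfib b]
      _ ≤ ∑ b : V → Bool, wt (fun v => (q v - (1 / 2) ^ (s + 1)) / (1 - (1 / 2) ^ s)) b *
          (B * 2 ^ ((s + 1) * Fintype.card V)) := by
            refine Finset.sum_le_sum ?_
            intro b _
            exact mul_le_mul_of_nonneg_left (h b) (hwt b)
      _ = 2 ^ ((s + 1) * Fintype.card V) * B := by
            rw [← Finset.sum_mul, sum_wt]
            ring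
  exact le_of_mul_le_mul_left key hP

end Pool.RCay
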