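import Mathlib

/-!
# Swap units: definitions

`V` is the set of the bits, `K` the number of the coordinates of `D`. The units are indexed by `Fin K × Fin m`; the unit
`(j, l)` consists of two bits `pt (j, l, false)` and `pt (j, l, true)` with neighbourhoods `Nb`. It is active when the
neighbourhood of the first one shows exactly the bit `w (j, l)`, that of the second one shows nothing, and the two bits
are different. Exchanging the two bits of an active unit changes `D` by `± lam j` in the coordinate `j` only.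
-/

namespace Pool.RCay

/-- Swap data for the function `D`. -/
structure SwapData (V : Type) (K m a : ℕ) (D : (V → Bool) → Fin K → ℤ) where
  /-- the two bits of the units -/
  pt : Fin K × Fin m × Bool → V
  /-- the neighbourhoods -/
  Nb : Fin K × Fin m × Bool → Finset V
  /-- the witness bits -/
  w : Fin K × Fin m → V
  /-- the common base derivative -/
  p : Fin K → ℤ
  /-- the extra derivative caused by the witness bit -/
  lam : Fin K → ℤ
  card_le : ∀ i, (Nb i).card ≤ a
  notMem : ∀ i, pt i ∉ Nb i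
  disj : ∀ i j, i ≠ j → (∀ v, v = pt i ∨ v ∈ Nb i → ¬ (v = pt j ∨ v ∈ Nb j))
  w_mem : ∀ q : Fin K × Fin m, w q ∈ Nb (q.1, q.2, false)
  lam_ne : ∀ j, lam j ≠ 0
  base : ∀ i (ω₀ ω₁ : V → Bool), (∀ v ∈ Nb i, ω₀ v = false) → ω₀ (pt i) = false → ω₁ (pt i) = true →
    (∀ v, v ≠ pt i → ω₀ v = ω₁ v) → ∀ j, D ω₁ j - D ω₀ j = p j
  extra : ∀ (q : Fin K × Fin m) (ω₀ ω₁ : V → Bool),
    (∀ v ∈ Nb (q.1, q.2, false), (ω₀ v = true ↔ v = w q)) → ω₀ (pt (q.1, q.2, false)) = false →
    ω₁ (pt (q.1, q.2, false)) = true → (∀ v, v ≠ pt (q.1, q.2, false) → ω₀ v = ω₁ v) →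
    ∀ j, D ω₁ j - D ω₀ j = p j + if j = q.1 then lam j else 0

/-- The unit `(j, l)` is active. -/
def SwapData.Act {V : Type} {K m a : ℕ} {D : (V → Bool) → Fin K → ℤ} (d : SwapData V K m a D)
    (j : Fin K) (l : Fin m) (ω : V → Bool) : Prop :=
  (∀ v ∈ d.Nb (j, l, false), (ω v = true ↔ v = d.w (j, l))) ∧ (∀ v ∈ d.Nb (j, l, true), ω v = false) ∧
    ω (d.pt (j, l, false)) ≠ ω (d.pt (j, l, true))

open scoped Classical in
/-- The number of the active units for the coordinate `j`. -/
noncomputable def SwapData.nAct {V : Type} {K m a : ℕ} {D : (V → Bool) → Fin K → ℤ}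
    (d : SwapData V K m a D) (j : Fin K) (ω : V → Bool) : ℕ :=
  (Finset.univ.filter (fun l => d.Act j l ω)).card

end Pool.RCay
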