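import Pool.Agent.RCay.Basic
import Pool.Agent.RCay.SwapDefs

/-!
# Smoothed version: definitions
-/

namespace Pool.RCay

open scoped Classical

/-- The bits of `b`, replaced by fresh bits where all the first `s` control bits vanish. -/
def nmix {V : Type} {s : ℕ} (b : V → Bool) (θ : V × Fin (s + 1) → Bool) : V → Bool :=
  fun v => if ∀ i : Fin s, θ (v, i.castSucc) = false then θ (v, Fin.last s) else b v

/-- The weight of `ω` when the bit of `v` is `true` with probability `q v`, independently. -/
noncomputable def wt {V : Type} [Fintype V] (q : V → ℝ) (ω : V → Bool) : ℝ :=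
  ∏ v, if ω v = true then q v else 1 - q v

end Pool.RCay
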