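import Pool.Agent.RCay.SwapDefs

/-!
# Module SWAPCOUNT: averaging over the swaps of the active units

PAPER PROOF. For `T : Fin K × Fin m → Bool` let `σ_T : (V → Bool) → (V → Bool)` exchange the bits `pt (j,l,false)` and
`pt (j,l,true)` for all `(j,l)` with `T (j,l) = true` that are active at `ω`. By `disj`, no `pt i` lies in a `Nb i'`, and all
`pt i` are distinct, so `σ_T ω` and `ω` have the same active units; hence `σ_T` is an involution, in particular a bijection and
`#{ω | D ω = 0} = ∑_ω 2^{-Km} #{T | D (σ_T ω) = 0}`.
Fix `ω` and let `A_j` be the set of the active `l` for `j`. Exchanging one active unit `(j,l)` from state `(true,false)` to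
`(false,true)` changes `D` by `-lam j` in the coordinate `j` and not at all in the other coordinates: compare both with the
configuration where both bits are `false` (`base` for `pt (j,l,true)`, `extra` for `pt (j,l,false)`; neighbourhoods are not
touched). So with `s_l = ω (pt (j,l,false)) xor T (j,l)` (the state after `σ_T`) there is an integer `k_j` (independent of `T`)
such that `D (σ_T ω) j = k_j + lam j * #{l ∈ A_j | s_l = true}` for all `T`. (Induction on the number of swapped active units, or:
both sides change in the same way when `T` is changed at one active unit and do not change at an inactive one.) As `lam j ≠ 0`,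
`D (σ_T ω) = 0` prescribes the number of `l ∈ A_j` with `s_l = true` for each `j`; the number of `T` is at most
`∏_j choose |A_j| (..) * 2^{m - |A_j|}`, and `choose |A_j| .. ≤ choose |A_j| (|A_j|/2)` (`Nat.choose_le_middle`).
-/

namespace Pool.RCay

open scoped Classical

section SwapCountAux

variable {V : Type} {K m a : ℕ} {D : (V → Bool) → Fin K → ℤ} (d : SwapData V K m a D)

theorem SwapData.pt_inj {i j : Fin K × Fin m × Bool} (h : d.pt i = d.pt j) : i = j := by
  by_contra hij
  exact d.disj i j hij (d.pt i) (Or.inl rfl) (Or.inl h)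

theorem SwapData.pt_notMem (i j : Fin K × Fin m × Bool) : d.pt i ∉ d.Nb j := by
  by_cases h : i = j
  · subst h
    exact d.notMem i
  · intro h2
    exact d.disj i j h (d.pt i) (Or.inl rfl) (Or.inr h2)

/-- The bit at `v` is flipped by the swap `T`. -/
def SwapData.Fl (T : Fin K × Fin m → Bool) (ω : V → Bool) (v : V) : Prop :=
  ∃ i : Fin K × Fin m × Bool, v = d.pt i ∧ T (i.1, i.2.1) = true ∧ d.Act i.1 i.2.1 ω

/-- The swap `σ_T`. -/
noncomputable def SwapData.sw (T : Fin K × Fin m → Bool) (ω : V → Bool) : V → Bool :=
  fun v => if d.Fl T ω v then !(ω v) else ω v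

theorem SwapData.sw_pt (T : Fin K × Fin m → Bool) (ω : V → Bool) (i : Fin K × Fin m × Bool) :
    d.sw T ω (d.pt i) =
      if T (i.1, i.2.1) = true ∧ d.Act i.1 i.2.1 ω then !(ω (d.pt i)) else ω (d.pt i) := by
  unfold SwapData.sw
  have : d.Fl T ω (d.pt i) ↔ (T (i.1, i.2.1) = true ∧ d.Act i.1 i.2.1 ω) := by
    constructor
    · rintro ⟨j, h1, h2, h3⟩
      have := d.pt_inj h1
      subst this
      exact ⟨h2, h3⟩
    · rintro ⟨h2, h3⟩
      exact ⟨i, rfl, h2, h3⟩
  simp only [this]

theorem SwapData.sw_other (T : Fin K × Fin m → Bool) (ω : V → Bool) (v : V)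
    (h : ∀ i, v ≠ d.pt i) : d.sw T ω v = ω v := by
  unfold SwapData.sw
  rw [if_neg]
  rintro ⟨i, h1, _⟩
  exact h i h1

theorem SwapData.sw_nb (T : Fin K × Fin m → Bool) (ω : V → Bool) (v : V)
    {j : Fin K × Fin m × Bool} (h : v ∈ d.Nb j) : d.sw T ω v = ω v := by
  apply d.sw_other
  rintro i rfl
  exact d.pt_notMem i j h

theorem SwapData.act_sw (T : Fin K × Fin m → Bool) (ω : V → Bool) (j : Fin K) (l : Fin m) :
    d.Act j l (d.sw T ω) ↔ d.Act j l ω := by
  have e1 : (∀ v ∈ d.Nb (j, l, false), (d.sw T ω v = true ↔ v = d.w (j, l))) ↔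
      (∀ v ∈ d.Nb (j, l, false), (ω v = true ↔ v = d.w (j, l))) := by
    constructor
    · intro h v hv
      rw [← h v hv, d.sw_nb T ω v hv]
    · intro h v hv
      rw [← h v hv, d.sw_nb T ω v hv]
  have e2 : (∀ v ∈ d.Nb (j, l, true), d.sw T ω v = false) ↔
      (∀ v ∈ d.Nb (j, l, true), ω v = false) := by
    constructor
    · intro h v hv
      rw [← h v hv, d.sw_nb T ω v hv]
    · intro h v hv
      rw [← h v hv, d.sw_nb T ω v hv]
  have e3 : d.sw T ω (d.pt (j, l, false)) ≠ d.sw T ω (d.pt (j, l, true)) ↔
      ω (d.pt (j, l, false)) ≠ ω (d.pt (j, l, true)) := by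
    rw [d.sw_pt, d.sw_pt]
    by_cases h : T (j, l) = true ∧ d.Act j l ω
    · simp only [h, and_self, if_true]
      cases ω (d.pt (j, l, false)) <;> cases ω (d.pt (j, l, true)) <;> simp
    · simp only [h, if_false]
  unfold SwapData.Act
  rw [e1, e2, e3]

theorem SwapData.sw_sw (T : Fin K × Fin m → Bool) (ω : V → Bool) :
    d.sw T (d.sw T ω) = ω := by
  funext v
  by_cases h : ∃ i, v = d.pt i
  · obtain ⟨i, rfl⟩ := h
    rw [d.sw_pt]
    simp only [d.act_sw]
    rw [d.sw_pt]
    by_cases h : T (i.1, i.2.1) = true ∧ d.Act i.1 i.2.1 ω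
    · simp [h]
    · simp only [h, if_false]
  · push Not at h
    rw [d.sw_other _ _ _ h, d.sw_other _ _ _ h]

/-- The number of the active units for `j` whose state after the swap is `true`. -/
noncomputable def SwapData.cn (ω : V → Bool) (T : Fin K × Fin m → Bool) (j : Fin K) : ℕ :=
  (Finset.univ.filter (fun l => d.Act j l ω ∧
    xor (ω (d.pt (j, l, false))) (T (j, l)) = true)).card

theorem SwapData.diff (ω : V → Bool) (T : Fin K × Fin m → Bool) (q : Fin K × Fin m)
    (hact : d.Act q.1 q.2 ω) (hx : xor (ω (d.pt (q.1, q.2, false))) (T q) = false) (j : Fin K) :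
    D (d.sw (Function.update T q (!T q)) ω) j - D (d.sw T ω) j =
      if j = q.1 then d.lam j else 0 := by
  obtain ⟨j0, l0⟩ := q
  simp only at hact hx ⊢
  set T' := Function.update T (j0, l0) (!T (j0, l0)) with hT'
  set P0 := d.pt (j0, l0, false) with hP0
  set P1 := d.pt (j0, l0, true) with hP1
  have hP : P1 ≠ P0 := by
    intro h
    have := d.pt_inj h
    simp at this
  have hne : ω P0 ≠ ω P1 := hact.2.2
  have hT'q : T' (j0, l0) = !T (j0, l0) := by rw [hT']; simp
  -- the values of the two configurations
  have v1 : d.sw T ω P0 = false := by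
    rw [hP0, d.sw_pt]
    simp only [hact, and_true]
    rw [← hP0]
    revert hx
    cases ω P0 <;> cases T (j0, l0) <;> simp
  have v2 : d.sw T ω P1 = true := by
    rw [hP1, d.sw_pt]
    simp only [hact, and_true]
    rw [← hP1]
    revert hx hne
    cases ω P0 <;> cases T (j0, l0) <;> cases ω P1 <;> simp
  have v3 : d.sw T' ω P0 = true := by
    rw [hP0, d.sw_pt]
    simp only [hact, and_true, hT'q]
    rw [← hP0]
    revert hx
    cases ω P0 <;> cases T (j0, l0) <;> simp
  have v4 : d.sw T' ω P1 = false := by
    rw [hP1, d.sw_pt]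
    simp only [hact, and_true, hT'q]
    rw [← hP1]
    revert hx hne
    cases ω P0 <;> cases T (j0, l0) <;> cases ω P1 <;> simp
  have v5 : ∀ v, v ≠ P0 → v ≠ P1 → d.sw T' ω v = d.sw T ω v := by
    intro v h0 h1
    by_cases h : ∃ i, v = d.pt i
    · obtain ⟨i, rfl⟩ := h
      rw [d.sw_pt, d.sw_pt]
      have hi : (i.1, i.2.1) ≠ (j0, l0) := by
        rintro h
        obtain ⟨i1, i2, i3⟩ := i
        simp only [Prod.mk.injEq] at h
        obtain ⟨rfl, rfl⟩ := h
        cases i3
        · exact h0 rfl
        · exact h1 rfl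
      rw [hT', Function.update_of_ne hi]
    · push Not at h
      rw [d.sw_other _ _ _ h, d.sw_other _ _ _ h]
  -- the middle configuration
  set ω₀ : V → Bool := fun v => if v = P0 ∨ v = P1 then false else d.sw T ω v with hω₀
  have w0 : ω₀ P0 = false := by simp [hω₀]
  have w1 : ω₀ P1 = false := by simp [hω₀]
  have w2 : ∀ v, v ≠ P0 → v ≠ P1 → ω₀ v = d.sw T ω v := by
    intro v h0 h1
    simp [hω₀, h0, h1]
  have hb := d.base (j0, l0, true) ω₀ (d.sw T ω) (by
    intro v hv
    have n0 : v ≠ P0 := by
      rintro rfl
      exact d.pt_notMem _ _ hv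
    have n1 : v ≠ P1 := by
      rintro rfl
      exact d.pt_notMem _ _ hv
    rw [w2 v n0 n1, d.sw_nb T ω v hv]
    exact hact.2.1 v hv) w1 v2 (by
    intro v hv
    by_cases h0 : v = P0
    · rw [h0, w0, v1]
    · exact w2 v h0 hv) j
  have he := d.extra (j0, l0) ω₀ (d.sw T' ω) (by
    intro v hv
    have n0 : v ≠ P0 := by
      rintro rfl
      exact d.pt_notMem _ _ hv
    have n1 : v ≠ P1 := by
      rintro rfl
      exact d.pt_notMem _ _ hv
    rw [w2 v n0 n1, d.sw_nb T ω v hv]
    exact hact.1 v hv) w0 v3 (by
    intro v hv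
    by_cases h1 : v = P1
    · rw [h1, w1, v4]
    · rw [w2 v hv h1, v5 v hv h1]) j
  simp only at he
  linarith

theorem SwapData.cn_update (ω : V → Bool) (T : Fin K × Fin m → Bool) (q : Fin K × Fin m)
    (hact : d.Act q.1 q.2 ω) (hx : xor (ω (d.pt (q.1, q.2, false))) (T q) = false) (j : Fin K) :
    (d.cn ω (Function.update T q (!T q)) j : ℤ) = d.cn ω T j + if j = q.1 then 1 else 0 := by
  obtain ⟨j0, l0⟩ := q
  simp only at hact hx ⊢
  unfold SwapData.cn
  by_cases hj : j = j0
  · subst hj
    have : (Finset.univ.filter (fun l => d.Act j l ω ∧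
        xor (ω (d.pt (j, l, false))) (Function.update T (j, l0) (!T (j, l0)) (j, l)) = true)) =
        insert l0 (Finset.univ.filter (fun l => d.Act j l ω ∧
          xor (ω (d.pt (j, l, false))) (T (j, l)) = true)) := by
      ext l
      simp only [Finset.mem_filter, Finset.mem_univ, true_and, Finset.mem_insert]
      by_cases hl : l = l0
      · subst hl
        simp only [hact, Function.update_self, true_and, true_or, iff_true]
        revert hx
        cases ω (d.pt (j, l, false)) <;> cases T (j, l) <;> simp
      · rw [Function.update_of_ne (by simp [hl])]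
        simp [hl]
    rw [this, Finset.card_insert_of_notMem]
    · simp
    · intro hmem
      have h9 := (Finset.mem_filter.1 hmem).2.2
      rw [hx] at h9
      exact Bool.false_ne_true h9
  · have : (Finset.univ.filter (fun l => d.Act j l ω ∧
        xor (ω (d.pt (j, l, false))) (Function.update T (j0, l0) (!T (j0, l0)) (j, l)) = true)) =
        (Finset.univ.filter (fun l => d.Act j l ω ∧
          xor (ω (d.pt (j, l, false))) (T (j, l)) = true)) := by
      ext l
      simp only [Finset.mem_filter, Finset.mem_univ, true_and]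
      rw [Function.update_of_ne (by simp [hj])]
    rw [this]
    simp [hj]

theorem SwapData.inv_update (ω : V → Bool) (T : Fin K × Fin m → Bool) (q : Fin K × Fin m)
    (b : Bool) (j : Fin K) :
    D (d.sw (Function.update T q b) ω) j - d.lam j * d.cn ω (Function.update T q b) j =
      D (d.sw T ω) j - d.lam j * d.cn ω T j := by
  by_cases hact : d.Act q.1 q.2 ω
  · by_cases hb : b = T q
    · rw [hb, Function.update_eq_self]
    · have hb' : b = !T q := by
        revert hb
        cases b <;> cases T q <;> simp
      by_cases hx : xor (ω (d.pt (q.1, q.2, false))) (T q) = false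
      · rw [hb']
        have h1 := d.diff ω T q hact hx j
        have h2 := d.cn_update ω T q hact hx j
        rw [h2]
        by_cases hj : j = q.1
        · simp only [hj, if_true] at h1 ⊢
          linarith
        · simp only [hj, if_false] at h1 ⊢
          linarith
      · set T1 := Function.update T q b with hT1
        have hx1 : xor (ω (d.pt (q.1, q.2, false))) (T1 q) = false := by
          rw [hT1, Function.update_self, hb']
          revert hx
          cases ω (d.pt (q.1, q.2, false)) <;> cases T q <;> simp
        have hT : Function.update T1 q (!T1 q) = T := by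
          rw [hT1, Function.update_self, hb', Bool.not_not, Function.update_idem,
            Function.update_eq_self]
        have h1 := d.diff ω T1 q hact hx1 j
        have h2 := d.cn_update ω T1 q hact hx1 j
        rw [hT] at h1 h2
        rw [h2]
        by_cases hj : j = q.1
        · simp only [hj, if_true] at h1 ⊢
          linarith
        · simp only [hj, if_false] at h1 ⊢
          linarith
  · have e1 : d.sw (Function.update T q b) ω = d.sw T ω := by
      funext v
      by_cases h : ∃ i, v = d.pt i
      · obtain ⟨i, rfl⟩ := h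
        rw [d.sw_pt, d.sw_pt]
        by_cases hi : (i.1, i.2.1) = q
        · have : ¬ d.Act i.1 i.2.1 ω := by
            rw [← hi] at hact
            exact hact
          simp [this]
        · rw [Function.update_of_ne hi]
      · push Not at h
        rw [d.sw_other _ _ _ h, d.sw_other _ _ _ h]
    have e2 : d.cn ω (Function.update T q b) j = d.cn ω T j := by
      unfold SwapData.cn
      congr 1
      ext l
      simp only [Finset.mem_filter, Finset.mem_univ, true_and]
      by_cases hi : (j, l) = q
      · have : ¬ d.Act j l ω := by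
          rw [← hi] at hact
          exact hact
        simp [this]
      · rw [Function.update_of_ne hi]
    rw [e1, e2]

theorem SwapData.inv_const (ω : V → Bool) (T T' : Fin K × Fin m → Bool) (j : Fin K) :
    D (d.sw T ω) j - d.lam j * d.cn ω T j = D (d.sw T' ω) j - d.lam j * d.cn ω T' j := by
  have key : ∀ S : Finset (Fin K × Fin m),
      D (d.sw (fun q => if q ∈ S then T q else T' q) ω) j -
        d.lam j * d.cn ω (fun q => if q ∈ S then T q else T' q) j =
        D (d.sw T' ω) j - d.lam j * d.cn ω T' j := by
    intro S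
    induction S using Finset.induction_on with
    | empty => simp
    | insert q S hq ih =>
      rw [← ih]
      have : (fun q' => if q' ∈ insert q S then T q' else T' q') =
          Function.update (fun q' => if q' ∈ S then T q' else T' q') q (T q) := by
        funext q'
        by_cases h : q' = q
        · subst h
          simp
        · rw [Function.update_of_ne h]
          simp [h]
      rw [this]
      exact d.inv_update ω _ q (T q) j
  have := key Finset.univ
  simpa using this

theorem SwapData.cn_eq (ω : V → Bool) (T T' : Fin K × Fin m → Bool)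
    (h : ∀ j, D (d.sw T ω) j = 0) (h' : ∀ j, D (d.sw T' ω) j = 0) (j : Fin K) :
    d.cn ω T j = d.cn ω T' j := by
  have h1 := d.inv_const ω T T' j
  rw [h j, h' j] at h1
  have h2 : d.lam j * ((d.cn ω T j : ℤ) - d.cn ω T' j) = 0 := by linarith
  rcases mul_eq_zero.1 h2 with h3 | h3
  · exact absurd h3 (d.lam_ne j)
  · have : (d.cn ω T j : ℤ) = d.cn ω T' j := by linarith
    exact_mod_cast this

end SwapCountAux

theorem count_state {m : ℕ} (A : Finset (Fin m)) (u : Fin m → Bool) (c : ℕ) :
    (Finset.univ.filter (fun t : Fin m → Bool =>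
      (Finset.univ.filter (fun l => l ∈ A ∧ xor (u l) (t l) = true)).card = c)).card ≤
      A.card.choose (A.card / 2) * 2 ^ (m - A.card) := by
  have h1 : (Finset.univ.filter (fun t : Fin m → Bool =>
      (Finset.univ.filter (fun l => l ∈ A ∧ xor (u l) (t l) = true)).card = c)).card ≤
      ((Finset.powersetCard c A) ×ˢ (Aᶜ).powerset).card := by
    apply Finset.card_le_card_of_injOn (fun t =>
      ((Finset.univ.filter (fun l => l ∈ A ∧ xor (u l) (t l) = true)),
        (Finset.univ.filter (fun l => l ∉ A ∧ xor (u l) (t l) = true))))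
    · intro t ht
      simp only [Finset.coe_filter, Finset.mem_univ, true_and, Set.mem_ofPred_eq] at ht
      simp only [Finset.coe_product, Set.mem_prod, Finset.mem_coe, Finset.mem_powersetCard,
        Finset.mem_powerset]
      refine ⟨⟨?_, ht⟩, ?_⟩
      · intro l hl
        simp only [Finset.mem_filter] at hl
        exact hl.2.1
      · intro l hl
        simp only [Finset.mem_filter] at hl
        simpa using hl.2.1
    · intro t _ t' _ h
      simp only [Prod.mk.injEq] at h
      obtain ⟨h1, h2⟩ := h
      funext l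
      have e : (xor (u l) (t l) = true) ↔ (xor (u l) (t' l) = true) := by
        by_cases hl : l ∈ A
        · have := Finset.ext_iff.1 h1 l
          simp only [Finset.mem_filter, Finset.mem_univ, true_and, hl] at this
          exact this
        · have := Finset.ext_iff.1 h2 l
          simp only [Finset.mem_filter, Finset.mem_univ, true_and, hl, not_false_eq_true] at this
          exact this
      revert e
      cases u l <;> cases t l <;> cases t' l <;> simp
  refine h1.trans ?_
  rw [Finset.card_product, Finset.card_powersetCard, Finset.card_powerset, Finset.card_compl,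
    Fintype.card_fin]
  exact Nat.mul_le_mul_right _ (Nat.choose_le_middle _ _)

theorem SwapData.count_T {V : Type} {K m a : ℕ} {D : (V → Bool) → Fin K → ℤ}
    (d : SwapData V K m a D) (ω : V → Bool) :
    (Finset.univ.filter (fun T : Fin K × Fin m → Bool => ∀ j, D (d.sw T ω) j = 0)).card ≤
      ∏ j, ((d.nAct j ω).choose (d.nAct j ω / 2) * 2 ^ (m - d.nAct j ω)) := by
  by_cases hex : ∃ T0 : Fin K × Fin m → Bool, ∀ j, D (d.sw T0 ω) j = 0
  · obtain ⟨T0, hT0⟩ := hex
    have h1 : (Finset.univ.filter (fun T : Fin K × Fin m → Bool => ∀ j, D (d.sw T ω) j = 0)).card ≤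
        (Fintype.piFinset (fun j : Fin K => Finset.univ.filter (fun t : Fin m → Bool =>
          (Finset.univ.filter (fun l => l ∈ Finset.univ.filter (fun l => d.Act j l ω) ∧
            xor (ω (d.pt (j, l, false))) (t l) = true)).card = d.cn ω T0 j))).card := by
      apply Finset.card_le_card_of_injOn (fun T j l => T (j, l))
      · intro T hT
        simp only [Finset.coe_filter, Finset.mem_univ, true_and, Set.mem_ofPred_eq] at hT
        rw [Finset.mem_coe, Fintype.mem_piFinset]
        intro j
        simp only [Finset.mem_filter, Finset.mem_univ, true_and]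
        rw [← d.cn_eq ω T T0 hT hT0 j]
        rfl
      · intro T _ T' _ h
        funext q
        obtain ⟨j, l⟩ := q
        exact congrFun (congrFun h j) l
    refine h1.trans ?_
    rw [Fintype.card_piFinset]
    apply Finset.prod_le_prod'
    intro j _
    exact count_state (Finset.univ.filter (fun l => d.Act j l ω))
      (fun l => ω (d.pt (j, l, false))) (d.cn ω T0 j)
  · have : (Finset.univ.filter (fun T : Fin K × Fin m → Bool => ∀ j, D (d.sw T ω) j = 0)) = ∅ := by
      rw [Finset.filter_eq_empty_iff]
      intro T _ hT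
      exact hex ⟨T, hT⟩
    rw [this, Finset.card_empty]
    exact Nat.zero_le _

open scoped Classical in
theorem swap_count {V : Type} [Fintype V] {K m a : ℕ} {D : (V → Bool) → Fin K → ℤ}
    (d : SwapData V K m a D) :
    ((Finset.univ.filter (fun ω : V → Bool => ∀ j, D ω j = 0)).card : ℝ) ≤
      ∑ ω : V → Bool, ∏ j, (((d.nAct j ω).choose (d.nAct j ω / 2) : ℕ) : ℝ) / 2 ^ (d.nAct j ω) := by
  -- the swaps are bijections
  have h1 : ∀ T : Fin K × Fin m → Bool,
      (Finset.univ.filter (fun ω : V → Bool => ∀ j, D (d.sw T ω) j = 0)).card =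
      (Finset.univ.filter (fun ω : V → Bool => ∀ j, D ω j = 0)).card := by
    intro T
    apply Finset.card_bij (fun ω _ => d.sw T ω)
    · intro ω hω
      simpa using hω
    · intro ω _ ω' _ h
      rw [← d.sw_sw T ω, h, d.sw_sw]
    · intro ω hω
      refine ⟨d.sw T ω, ?_, d.sw_sw T ω⟩
      simp only [Finset.mem_filter, Finset.mem_univ, true_and] at hω ⊢
      rw [d.sw_sw]
      exact hω
  have h2 : (2 ^ (K * m) : ℕ) * (Finset.univ.filter (fun ω : V → Bool => ∀ j, D ω j = 0)).card =
      ∑ ω : V → Bool,
        (Finset.univ.filter (fun T : Fin K × Fin m → Bool => ∀ j, D (d.sw T ω) j = 0)).card := by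
    have e1 : ∑ ω : V → Bool,
        (Finset.univ.filter (fun T : Fin K × Fin m → Bool => ∀ j, D (d.sw T ω) j = 0)).card =
        ∑ T : Fin K × Fin m → Bool,
          (Finset.univ.filter (fun ω : V → Bool => ∀ j, D (d.sw T ω) j = 0)).card := by
      simp only [Finset.card_filter]
      exact Finset.sum_comm
    rw [e1, Finset.sum_congr rfl (fun T _ => h1 T), Finset.sum_const, Finset.card_univ,
      Fintype.card_fun, Fintype.card_prod, Fintype.card_fin, Fintype.card_fin, Fintype.card_bool,
      smul_eq_mul]
  have h3 : ((2 : ℝ) ^ (K * m)) *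
      ((Finset.univ.filter (fun ω : V → Bool => ∀ j, D ω j = 0)).card : ℝ) ≤
      ∑ ω : V → Bool, ∏ j, ((((d.nAct j ω).choose (d.nAct j ω / 2) : ℕ) : ℝ) *
        2 ^ (m - d.nAct j ω)) := by
    have : (((2 ^ (K * m) : ℕ) *
        (Finset.univ.filter (fun ω : V → Bool => ∀ j, D ω j = 0)).card : ℕ) : ℝ) ≤
        ((∑ ω : V → Bool, ∏ j, ((d.nAct j ω).choose (d.nAct j ω / 2) *
          2 ^ (m - d.nAct j ω)) : ℕ) : ℝ) := by
      rw [h2]
      exact_mod_cast Finset.sum_le_sum (fun ω _ => d.count_T ω)
    push_cast at this
    exact this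
  have h4 : ∀ (ω : V → Bool) (j : Fin K), d.nAct j ω ≤ m := by
    intro ω j
    unfold SwapData.nAct
    refine (Finset.card_le_univ _).trans ?_
    rw [Fintype.card_fin]
  have h5 : ∑ ω : V → Bool, ∏ j, ((((d.nAct j ω).choose (d.nAct j ω / 2) : ℕ) : ℝ) *
        2 ^ (m - d.nAct j ω)) = ((2 : ℝ) ^ (K * m)) * ∑ ω : V → Bool, ∏ j,
        (((d.nAct j ω).choose (d.nAct j ω / 2) : ℕ) : ℝ) / 2 ^ (d.nAct j ω) := by
    rw [Finset.mul_sum]
    apply Finset.sum_congr rfl
    intro ω _
    have : ((2 : ℝ) ^ (K * m)) = ∏ _j : Fin K, (2 : ℝ) ^ m := by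
      rw [Finset.prod_const, Finset.card_univ, Fintype.card_fin, ← pow_mul, mul_comm]
    rw [this, ← Finset.prod_mul_distrib]
    apply Finset.prod_congr rfl
    intro j _
    have h6 : (2 : ℝ) ^ m = 2 ^ (m - d.nAct j ω) * 2 ^ (d.nAct j ω) := by
      rw [← pow_add, Nat.sub_add_cancel (h4 ω j)]
    rw [h6]
    field_simp
  rw [h5] at h3
  exact le_of_mul_le_mul_left h3 (by positivity)

end Pool.RCay
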