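import Pool.Agent.RCay.Avg

/-!
# Module TAIL: many of the independent events happen

PAPER PROOF. Let `N = card V`, `q = 2^{-b}`, `X ω = #{l | E l ω}`. By `avg_prod` with `g l ω = if E l ω then 1/2 else 1`
(sum over `ω` is `2^N - #{E l}/2 ≤ 2^N (1 - q/2)`): `∑_ω (1/2)^{X ω} ≤ 2^N (1 - q/2)^m`. Choose `c ≥ 1` with
`(1 - q/2)^c ≤ 1/4`. If `c X ω < m` then `(1/2)^{X ω} ≥ 2^{-m/c}` (real exponent), hence
`#{ω | c X ω < m} ≤ 2^N 2^{m/c} (1 - q/2)^m ≤ 2^N 2^{m/c} 4^{-m/c} = 2^N 2^{-m/c}`, and `m^κ 2^{-m/c}` is bounded.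
-/

namespace Pool.RCay

open scoped Classical in
theorem tail (b κ : ℕ) : ∃ c C : ℕ, 0 < c ∧ ∀ (V : Type) [Fintype V] (m : ℕ) (B : Fin m → Finset V)
    (E : Fin m → (V → Bool) → Prop), (∀ i j, i ≠ j → Disjoint (B i) (B j)) →
    (∀ i, ∀ ω ω' : V → Bool, (∀ v ∈ B i, ω v = ω' v) → (E i ω ↔ E i ω')) →
    (∀ i, 2 ^ Fintype.card V ≤ 2 ^ b * (Finset.univ.filter (fun ω : V → Bool => E i ω)).card) →
    (Finset.univ.filter (fun ω : V → Bool =>
      c * (Finset.univ.filter (fun i => E i ω)).card < m)).card * m ^ κ ≤ C * 2 ^ Fintype.card V := by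
  obtain ⟨q, hq0, hq1, hqb⟩ : ∃ q : ℝ, 0 < q ∧ q ≤ 1 ∧ q * 2 ^ b = 1 :=
    ⟨(2 ^ b)⁻¹, by positivity, inv_le_one_of_one_le₀ (one_le_pow₀ (by norm_num)),
      inv_mul_cancel₀ (by positivity)⟩
  obtain ⟨ρ, hρ⟩ : ∃ ρ : ℝ, ρ = 1 - q / 2 := ⟨_, rfl⟩
  have hρ0 : 0 < ρ := by rw [hρ]; linarith
  have hρ1 : ρ < 1 := by rw [hρ]; linarith
  obtain ⟨c, hc⟩ := exists_pow_lt_of_lt_one (show (0 : ℝ) < 1 / 4 by norm_num) hρ1
  have hc0 : c ≠ 0 := by
    rintro rfl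
    norm_num at hc
  obtain ⟨θ, hθ⟩ : ∃ θ : ℝ, θ = (1 / 2 : ℝ) ^ ((c : ℝ)⁻¹) := ⟨_, rfl⟩
  have hθ0 : 0 < θ := by rw [hθ]; positivity
  have hθc : θ ^ c = 1 / 2 := by rw [hθ]; exact Real.rpow_inv_natCast_pow (by norm_num) hc0
  have hθ1 : θ < 1 := by
    by_contra h
    push Not at h
    have := one_le_pow₀ h (n := c)
    rw [hθc] at this
    norm_num at this
  have hρθ : ρ ≤ θ ^ 2 := by
    by_contra h
    push Not at h
    have h1 := pow_lt_pow_left₀ h (by positivity) hc0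
    rw [← pow_mul, mul_comm, pow_mul, hθc] at h1
    norm_num at h1 hc
    linarith
  obtain ⟨M, hM⟩ := (tendsto_pow_const_mul_const_pow_of_lt_one κ hθ0.le hθ1).bddAbove_range
  have hM' : ∀ m : ℕ, (m : ℝ) ^ κ * θ ^ m ≤ M := fun m => hM ⟨m, rfl⟩
  refine ⟨c, ⌈M⌉₊, Nat.pos_of_ne_zero hc0, fun V _ m B E hB hE hcard => ?_⟩
  obtain ⟨N, hN⟩ : ∃ N : ℕ, N = Fintype.card V := ⟨_, rfl⟩
  have hN0 : (0 : ℝ) < 2 ^ N := by positivity
  rw [← hN] at hcard ⊢
  have key := avg_prod (Finset.univ : Finset (Fin m)) B (fun i _ j _ h => hB i j h)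
    (fun i ω => if E i ω then (1 / 2 : ℝ) else 1) (by
      intro i _ ω ω' h
      simp only [hE i ω ω' h])
  have hcardV : Fintype.card (V → Bool) = 2 ^ N := by
    rw [Fintype.card_fun, Fintype.card_bool, hN]
  have hsum : ∀ i, ∑ ω : V → Bool, (if E i ω then (1 / 2 : ℝ) else 1) ≤ 2 ^ N * ρ := by
    intro i
    have h1 : ∑ ω : V → Bool, (if E i ω then (1 / 2 : ℝ) else 1) =
        2 ^ N - (Finset.univ.filter (fun ω : V → Bool => E i ω)).card / 2 := by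
      have h2 : ∀ ω : V → Bool, (if E i ω then (1 / 2 : ℝ) else 1) =
          1 - (if E i ω then (1 / 2 : ℝ) else 0) := by
        intro ω; split_ifs <;> norm_num
      rw [Finset.sum_congr rfl fun ω _ => h2 ω, Finset.sum_sub_distrib, Finset.sum_const,
        Finset.card_univ, hcardV, ← Finset.sum_filter, Finset.sum_const, nsmul_eq_mul,
        nsmul_eq_mul]
      push_cast
      ring
    have h3 : (2 : ℝ) ^ N ≤ 2 ^ b * (Finset.univ.filter (fun ω : V → Bool => E i ω)).card := by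
      exact_mod_cast hcard i
    have h4 : q * 2 ^ N ≤ (Finset.univ.filter (fun ω : V → Bool => E i ω)).card := by
      calc q * 2 ^ N ≤ q * (2 ^ b * (Finset.univ.filter (fun ω : V → Bool => E i ω)).card) := by
            gcongr
        _ = _ := by rw [← mul_assoc, hqb, one_mul]
    rw [h1, hρ]
    linarith
  have hprod : ∀ ω : V → Bool, ∏ i : Fin m, (if E i ω then (1 / 2 : ℝ) else 1) =
      (1 / 2) ^ (Finset.univ.filter (fun i => E i ω)).card := by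
    intro ω
    rw [← Finset.prod_filter, Finset.prod_const]
  have hle : (∑ ω : V → Bool, ∏ i : Fin m, (if E i ω then (1 / 2 : ℝ) else 1)) ≤ 2 ^ N * ρ ^ m := by
    have h1 : ∏ i : Fin m, ∑ ω : V → Bool, (if E i ω then (1 / 2 : ℝ) else 1) ≤
        (2 ^ N) ^ m * ρ ^ m := by
      calc _ ≤ ∏ _i : Fin m, (2 ^ N * ρ) := by
            refine Finset.prod_le_prod (fun i _ => ?_) fun i _ => hsum i
            exact Finset.sum_nonneg fun ω _ => by split_ifs <;> norm_num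
        _ = _ := by rw [Finset.prod_const, Finset.card_univ, Fintype.card_fin, mul_pow]
    rw [Finset.card_univ, Fintype.card_fin, ← hN] at key
    have hN1 : (0 : ℝ) < (2 ^ N) ^ m := by positivity
    refine le_of_mul_le_mul_right ?_ hN1
    rw [key]
    calc _ ≤ (2 : ℝ) ^ N * ((2 ^ N) ^ m * ρ ^ m) := by gcongr
      _ = _ := by ring
  obtain ⟨S, hS⟩ : ∃ S : Finset (V → Bool), S = Finset.univ.filter (fun ω : V → Bool =>
      c * (Finset.univ.filter (fun i => E i ω)).card < m) := ⟨_, rfl⟩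
  rw [← hS]
  have h5 : (S.card : ℝ) * θ ^ m ≤ 2 ^ N * ρ ^ m := by
    refine le_trans ?_ hle
    calc (S.card : ℝ) * θ ^ m = ∑ _ω ∈ S, θ ^ m := by rw [Finset.sum_const, nsmul_eq_mul]
      _ ≤ ∑ ω ∈ S, ∏ i : Fin m, (if E i ω then (1 / 2 : ℝ) else 1) := by
          refine Finset.sum_le_sum fun ω hω => ?_
          rw [hprod, ← hθc, ← pow_mul]
          rw [hS, Finset.mem_filter] at hω
          exact pow_le_pow_of_le_one hθ0.le hθ1.le hω.2.le
      _ ≤ _ := by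
          refine Finset.sum_le_sum_of_subset_of_nonneg (Finset.subset_univ _) fun ω _ _ => ?_
          rw [hprod]; positivity
  have h6 : (S.card : ℝ) ≤ 2 ^ N * θ ^ m := by
    have h7 : ρ ^ m ≤ θ ^ m * θ ^ m := by
      calc ρ ^ m ≤ (θ ^ 2) ^ m := by gcongr
        _ = _ := by rw [← pow_mul, ← pow_add]; congr 1; ring
    have h8 : (S.card : ℝ) * θ ^ m ≤ 2 ^ N * θ ^ m * θ ^ m := by
      calc _ ≤ (2 : ℝ) ^ N * ρ ^ m := h5
        _ ≤ 2 ^ N * (θ ^ m * θ ^ m) := by gcongr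
        _ = _ := by ring
    exact le_of_mul_le_mul_right h8 (by positivity)
  have h9 : ((S.card * m ^ κ : ℕ) : ℝ) ≤ ((⌈M⌉₊ * 2 ^ N : ℕ) : ℝ) := by
    push_cast
    calc (S.card : ℝ) * (m : ℝ) ^ κ ≤ 2 ^ N * θ ^ m * (m : ℝ) ^ κ := by gcongr
      _ = ((m : ℝ) ^ κ * θ ^ m) * 2 ^ N := by ring
      _ ≤ M * 2 ^ N := by gcongr; exact hM' m
      _ ≤ (⌈M⌉₊ : ℝ) * 2 ^ N := by gcongr; exact Nat.le_ceil M
  exact_mod_cast h9

end Pool.RCay
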