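import Pool.Agent.RCay.Binom
import Pool.Agent.RCay.Tail
import Pool.Agent.RCay.SwapCount

/-!
# Module SWAPBOUND: the small ball estimate

PAPER PROOF. `K = 2 κ`, `N = card V`. For fixed `j` the events `E l = d.Act j l` depend on the disjoint blocks
`B l = {pt (j,l,false), pt (j,l,true)} ∪ Nb (j,l,false) ∪ Nb (j,l,true)` of size `≤ 2 a + 2`, and have probability
`≥ 2^{-(2a+2)}` (one assignment of the block makes it active: `notMem`, `disj`; the number of `ω` with prescribed bits on a set of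
`s` bits is `2^{N-s}`). `tail` with `b = 2a+2` gives `c, C`: `#{ω | c nAct j ω < m} m^κ ≤ C 2^N`. By `choose_sq_mul_le`,
`β_j := choose A (A/2) / 2^A` satisfies `β_j ≤ 1`, `β_j^2 A ≤ 1` (`A = nAct j ω`). If `c nAct j ω ≥ m` for all `j`, then
`∏_j β_j ≤ (c/m)^κ` (`m ≥ 1`; `β_j^2 ≤ 1/A ≤ c/m`, `∏_j β_j` is the square root of `∏ β_j^2 ≤ (c/m)^{2κ}`). The other `ω`
contribute at most `∑_j #{ω | c nAct j ω < m}`. So with `swap_count`: `#{D = 0} m^κ ≤ (c^κ + 2 κ C) 2^N`. (`m = 0`: the left side
is `#{D=0} 0^κ`, at most `2^N`.)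
-/

namespace Pool.RCay

namespace SwapBoundAux

open scoped Classical

variable {V : Type} [Fintype V] {K m a : ℕ} {D : (V → Bool) → Fin K → ℤ}

/-- the block of a unit -/
noncomputable def blk (d : SwapData V K m a D) (j : Fin K) (l : Fin m) : Finset V :=
  ({d.pt (j, l, false), d.pt (j, l, true)} : Finset V) ∪ (d.Nb (j, l, false) ∪ d.Nb (j, l, true))

omit [Fintype V] in
lemma mem_blk (d : SwapData V K m a D) {j : Fin K} {l : Fin m} {v : V} :
    v ∈ blk d j l ↔ ∃ s : Bool, v = d.pt (j, l, s) ∨ v ∈ d.Nb (j, l, s) := by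
  unfold blk
  simp only [Finset.mem_union, Finset.mem_insert, Finset.mem_singleton, Bool.exists_bool]
  tauto

omit [Fintype V] in
lemma card_blk (d : SwapData V K m a D) (j : Fin K) (l : Fin m) : (blk d j l).card ≤ 2 * a + 2 := by
  unfold blk
  refine (Finset.card_union_le _ _).trans ?_
  have h1 : ({d.pt (j, l, false), d.pt (j, l, true)} : Finset V).card ≤ 2 := Finset.card_le_two
  have h2 := Finset.card_union_le (d.Nb (j, l, false)) (d.Nb (j, l, true))
  have h3 := d.card_le (j, l, false)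
  have h4 := d.card_le (j, l, true)
  omega

omit [Fintype V] in
lemma blk_disj (d : SwapData V K m a D) (j : Fin K) {l l' : Fin m} (h : l ≠ l') :
    Disjoint (blk d j l) (blk d j l') := by
  rw [Finset.disjoint_left]
  intro v hv hv'
  obtain ⟨s, hs⟩ := (mem_blk d).mp hv
  obtain ⟨s', hs'⟩ := (mem_blk d).mp hv'
  refine d.disj (j, l, s) (j, l', s') ?_ v hs hs'
  intro e
  simp only [Prod.mk.injEq] at e
  exact h e.2.1

omit [Fintype V] in
lemma act_dep (d : SwapData V K m a D) (j : Fin K) (l : Fin m) {ω ω' : V → Bool}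
    (h : ∀ v ∈ blk d j l, ω v = ω' v) : d.Act j l ω ↔ d.Act j l ω' := by
  have h0 : ∀ v ∈ d.Nb (j, l, false), ω v = ω' v := fun v hv =>
    h v ((mem_blk d).mpr ⟨false, Or.inr hv⟩)
  have h1 : ∀ v ∈ d.Nb (j, l, true), ω v = ω' v := fun v hv =>
    h v ((mem_blk d).mpr ⟨true, Or.inr hv⟩)
  have h2 := h _ ((mem_blk d).mpr ⟨false, Or.inl rfl⟩)
  have h3 := h _ ((mem_blk d).mpr ⟨true, Or.inl rfl⟩)
  unfold SwapData.Act
  rw [h2, h3]
  constructor
  · rintro ⟨a1, a2, a3⟩
    exact ⟨fun v hv => by rw [← h0 v hv]; exact a1 v hv, fun v hv => by rw [← h1 v hv]; exact a2 v hv,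
      a3⟩
  · rintro ⟨a1, a2, a3⟩
    exact ⟨fun v hv => by rw [h0 v hv]; exact a1 v hv, fun v hv => by rw [h1 v hv]; exact a2 v hv,
      a3⟩

/-- an assignment which makes the unit active -/
noncomputable def alp (d : SwapData V K m a D) (j : Fin K) (l : Fin m) (v : V) : Bool :=
  decide (v = d.w (j, l) ∨ v = d.pt (j, l, false))

omit [Fintype V] in
lemma act_alp (d : SwapData V K m a D) (j : Fin K) (l : Fin m) : d.Act j l (alp d j l) := by
  have hne : ((j, l, false) : Fin K × Fin m × Bool) ≠ (j, l, true) := by simp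
  have hw := d.w_mem (j, l)
  simp only at hw
  have hdj := d.disj _ _ hne
  refine ⟨?_, ?_, ?_⟩
  · intro v hv
    simp only [alp, decide_eq_true_eq]
    constructor
    · rintro (h | h)
      · exact h
      · exact absurd (h ▸ hv) (d.notMem _)
    · exact Or.inl
  · intro v hv
    simp only [alp, decide_eq_false_iff_not]
    rintro (h | h)
    · exact hdj v (Or.inr (h ▸ hw)) (Or.inr hv)
    · exact hdj v (Or.inl h) (Or.inr hv)
  · have h1 : alp d j l (d.pt (j, l, false)) = true := by simp [alp]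
    have h2 : alp d j l (d.pt (j, l, true)) = false := by
      simp only [alp, decide_eq_false_iff_not]
      rintro (h | h)
      · exact hdj _ (Or.inr hw) (Or.inl h.symm)
      · exact hdj _ (Or.inl rfl) (Or.inl h.symm)
    rw [h1, h2]; decide

lemma act_prob (d : SwapData V K m a D) (j : Fin K) (l : Fin m) :
    2 ^ Fintype.card V ≤
      2 ^ (2 * a + 2) * (Finset.univ.filter (fun ω : V → Bool => d.Act j l ω)).card := by
  set S := Finset.univ.filter (fun ω : V → Bool => d.Act j l ω) with hS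
  set B := blk d j l with hB
  set ov : (V → Bool) → (V → Bool) := fun ω v => if v ∈ B then alp d j l v else ω v with hov
  have hovS : ∀ ω, ov ω ∈ S := by
    intro ω
    rw [hS, Finset.mem_filter]
    refine ⟨Finset.mem_univ _, ?_⟩
    rw [act_dep d j l (ω' := alp d j l)]
    · exact act_alp d j l
    · intro v hv
      simp only [hov, hB, hv, if_true]
  have hinj : Function.Injective
      (fun ω : V → Bool => ((fun v : B => ω v.1), (⟨ov ω, hovS ω⟩ : S))) := by
    intro ω ω' h
    simp only [Prod.mk.injEq, Subtype.mk.injEq] at h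
    obtain ⟨h1, h2⟩ := h
    funext v
    by_cases hv : v ∈ B
    · exact congrFun h1 ⟨v, hv⟩
    · have := congrFun h2 v
      simpa only [hov, hv, if_false] using this
  have hcard := Fintype.card_le_of_injective _ hinj
  rw [Fintype.card_prod, Fintype.card_fun, Fintype.card_fun, Fintype.card_bool, Fintype.card_coe,
    Fintype.card_coe] at hcard
  refine hcard.trans ?_
  apply Nat.mul_le_mul_right
  exact Nat.pow_le_pow_right (by norm_num) (card_blk d j l)

/-- the central binomial ratio -/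
noncomputable def bet (n : ℕ) : ℝ := ((n.choose (n / 2) : ℕ) : ℝ) / 2 ^ n

lemma bet_nonneg (n : ℕ) : 0 ≤ bet n := by unfold bet; positivity

lemma bet_le_one (n : ℕ) : bet n ≤ 1 := by
  unfold bet
  rw [div_le_one (by positivity)]
  exact_mod_cast Nat.choose_le_two_pow n (n / 2)

lemma bet_sq (n : ℕ) : bet n ^ 2 * n ≤ 1 := by
  unfold bet
  have h := choose_sq_mul_le n (n / 2)
  have h' : (((n.choose (n / 2) : ℕ) : ℝ)) ^ 2 * n ≤ 4 ^ n := by exact_mod_cast h
  have e : ((2 : ℝ) ^ n) ^ 2 = 4 ^ n := by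
    rw [← pow_mul, mul_comm n 2, pow_mul]; norm_num
  rw [div_pow, e, div_mul_eq_mul_div, div_le_one (by positivity)]
  exact h'

end SwapBoundAux

open SwapBoundAux

open scoped Classical in
theorem swap_bound (κ a : ℕ) : ∃ C : ℕ, ∀ (V : Type) [Fintype V] (m : ℕ)
    (D : (V → Bool) → Fin (2 * κ) → ℤ) (_d : SwapData V (2 * κ) m a D),
    (Finset.univ.filter (fun ω : V → Bool => ∀ j, D ω j = 0)).card * m ^ κ ≤ C * 2 ^ Fintype.card V := by
  obtain ⟨c, C, hc, htail⟩ := tail (2 * a + 2) κ
  refine ⟨c ^ κ + 2 * κ * C, ?_⟩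
  intro V _ m D d
  have ht : ∀ j : Fin (2 * κ), (Finset.univ.filter (fun ω : V → Bool =>
      c * d.nAct j ω < m)).card * m ^ κ ≤ C * 2 ^ Fintype.card V := fun j =>
    htail V m (fun l => blk d j l) (fun l ω => d.Act j l ω) (fun l l' h => blk_disj d j h)
      (fun l ω ω' h => act_dep d j l h) (fun l => act_prob d j l)
  have hsc := swap_count d
  have hR : ((Finset.univ.filter (fun ω : V → Bool => ∀ j, D ω j = 0)).card : ℝ) * (m : ℝ) ^ κ ≤
      ((c : ℝ) ^ κ + 2 * κ * C) * 2 ^ Fintype.card V := by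
    have h1 : ∀ ω : V → Bool, (∏ j, bet (d.nAct j ω)) * (m : ℝ) ^ κ ≤
        (c : ℝ) ^ κ + ∑ j : Fin (2 * κ), if c * d.nAct j ω < m then (m : ℝ) ^ κ else 0 := by
      intro ω
      by_cases hg : ∀ j : Fin (2 * κ), m ≤ c * d.nAct j ω
      · have h2 : (∏ j, bet (d.nAct j ω)) * (m : ℝ) ^ κ ≤ (c : ℝ) ^ κ := by
          have h0 : 0 ≤ ∏ j, bet (d.nAct j ω) := Finset.prod_nonneg fun j _ => bet_nonneg _
          rw [← pow_le_pow_iff_left₀ (by positivity) (by positivity) (two_ne_zero)]
          have e1 : ((∏ j, bet (d.nAct j ω)) * (m : ℝ) ^ κ) ^ 2 =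
              ∏ j : Fin (2 * κ), (bet (d.nAct j ω) ^ 2 * m) := by
            rw [Finset.prod_mul_distrib, Finset.prod_pow, Finset.prod_const, Finset.card_univ,
              Fintype.card_fin, mul_pow, ← pow_mul, mul_comm κ 2]
          have e2 : ((c : ℝ) ^ κ) ^ 2 = ∏ _j : Fin (2 * κ), (c : ℝ) := by
            rw [Finset.prod_const, Finset.card_univ, Fintype.card_fin, ← pow_mul, mul_comm κ 2]
          rw [e1, e2]
          refine Finset.prod_le_prod (fun j _ => by positivity) fun j _ => ?_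
          have h3 : (m : ℝ) ≤ c * d.nAct j ω := by exact_mod_cast hg j
          calc bet (d.nAct j ω) ^ 2 * (m : ℝ) ≤ bet (d.nAct j ω) ^ 2 * (c * d.nAct j ω) := by
                gcongr
            _ = c * (bet (d.nAct j ω) ^ 2 * d.nAct j ω) := by ring
            _ ≤ c * 1 := by
                gcongr
                exact bet_sq _
            _ = c := mul_one _
        have h3 : 0 ≤ ∑ j : Fin (2 * κ), if c * d.nAct j ω < m then (m : ℝ) ^ κ else 0 :=
          Finset.sum_nonneg fun j _ => by split <;> positivity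
        linarith
      · push Not at hg
        obtain ⟨j, hj⟩ := hg
        have h2 : (∏ j, bet (d.nAct j ω)) ≤ 1 :=
          Finset.prod_le_one (fun j _ => bet_nonneg _) (fun j _ => bet_le_one _)
        have h3 : (m : ℝ) ^ κ ≤ ∑ j : Fin (2 * κ), if c * d.nAct j ω < m then (m : ℝ) ^ κ else 0 := by
          have h4 := Finset.single_le_sum (f := fun j : Fin (2 * κ) =>
            if c * d.nAct j ω < m then (m : ℝ) ^ κ else 0)
            (fun j _ => by split <;> positivity) (Finset.mem_univ j)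
          simp only [hj, if_true] at h4
          exact h4
        have h5 : (∏ j, bet (d.nAct j ω)) * (m : ℝ) ^ κ ≤ 1 * (m : ℝ) ^ κ := by gcongr
        have h6 : (0 : ℝ) ≤ (c : ℝ) ^ κ := by positivity
        linarith
    have h7 : ((Finset.univ.filter (fun ω : V → Bool => ∀ j, D ω j = 0)).card : ℝ) * (m : ℝ) ^ κ ≤
        ∑ ω : V → Bool, (∏ j, bet (d.nAct j ω)) * (m : ℝ) ^ κ := by
      rw [← Finset.sum_mul]
      exact mul_le_mul_of_nonneg_right hsc (by positivity)
    refine h7.trans ((Finset.sum_le_sum fun ω _ => h1 ω).trans ?_)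
    rw [Finset.sum_add_distrib, Finset.sum_comm]
    have h8 : ∑ _ω : V → Bool, (c : ℝ) ^ κ = (c : ℝ) ^ κ * 2 ^ Fintype.card V := by
      rw [Finset.sum_const, Finset.card_univ, Fintype.card_fun, Fintype.card_bool, nsmul_eq_mul]
      push_cast; ring
    have h9 : ∀ j : Fin (2 * κ), ∑ ω : V → Bool, (if c * d.nAct j ω < m then (m : ℝ) ^ κ else 0) ≤
        C * 2 ^ Fintype.card V := by
      intro j
      rw [← Finset.sum_filter, Finset.sum_const, nsmul_eq_mul]
      exact_mod_cast ht j
    have h10 : ∑ j : Fin (2 * κ), ∑ ω : V → Bool,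
        (if c * d.nAct j ω < m then (m : ℝ) ^ κ else 0) ≤ (2 * κ) * (C * 2 ^ Fintype.card V) := by
      refine (Finset.sum_le_sum fun j _ => h9 j).trans ?_
      rw [Finset.sum_const, Finset.card_univ, Fintype.card_fin, nsmul_eq_mul]
      push_cast
      exact le_rfl
    rw [h8]
    calc _ ≤ (c : ℝ) ^ κ * 2 ^ Fintype.card V + (2 * κ) * (C * 2 ^ Fintype.card V) :=
          add_le_add le_rfl h10
      _ = _ := by ring
  exact_mod_cast hR

end Pool.RCay
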