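import Pool.Agent.RCay.Deriv
import Pool.Agent.RCay.Packing
import Pool.Agent.RCay.SwapBound

/-!
# Module PAIRBOUND: the probability that a pair of vertices is not distinguished

PAPER PROOF. `K = 2 κ`, `D ω j = ff ω (a j) - ff ω (z a j)`, `Nb u = (⋃_j nb (a j) z u) \ {1, rp u}` (size `≤ 8 K`),
`B u = {rp u} ∪ Nb u` (size `≤ 8 K + 1`). A given `v` lies in `B u` for at most `16 K + 2` elements `u`: `rp u = v` gives
`u ∈ {v, v⁻¹}`, `rp y = v` for one of the eight `y` of `nb (a j) z u` gives `y ∈ {v, v⁻¹}`, and each such equation determines `u`.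
`packing` gives `F ⊆ U` with pairwise disjoint `B u` and `|U| ≤ (8K+1)(16K+2) |F|`; in particular `rp` is injective on `F`.
For `u ∈ F` consider the data `(dg (a j) u - dg (z a j) u)_j` (values in `[-2, 2]`: `0 ≤ dg ≤ 2`) and
`(mm (a j) u v_j - mm (z a j) u v_j)_j`, `v_j = rp (a j u)` (values in `[-4, 4]`, nonzero by `Us`: `0 ≤ mm ≤ 4`). By pigeonhole a
subset `F' ⊆ F` with `|F| ≤ 45^K |F'|` has constant data `p`, `lam`. Let `m = |F'| / (2K)` (`K ≥ 1`), choose an injection
`φ : Fin K × Fin m × Bool → F'` and put `pt i = rp (φ i)`, `Nb i = Nb (φ i)`, `w (j,l) = rp (a j * φ (j,l,false))`. This is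
`SwapData` with `a = 8 K`: by `deriv` (`u = φ i ≠ 1`), `D ω₁ j - D ω₀ j = p j + ∑_{v ≠ 1} (mm (a j) u v - mm (z a j) u v) [ω₀ v]`,
where only `v ∈ Nb u` matter (`mm (a j) u v ≠ 0` implies that `v` is one of the `rp (a j^± u^±)`, which are in `nb (a j) z u`, the
same for `z a j`; `v = rp u` has `ω₀ v = false`); `w (j,l) ∈ Nb`, because `a j u ≠ 1, u, u⁻¹` (`Us`, `rp_eq_one`, `rp_eq_iff`); and for
`k ≠ j` the coefficients `mm (a k) u (rp (a j u))`, `mm (z a k) u (rp (a j u))` vanish, because `rp (a j u) ∉ nb (a k) z u`.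
`swap_bound κ (8K)`: `#{D = 0} m^κ ≤ C 2^n`, and `n ≤ c |U| ≤ c' (m + 1)`, hence `n^κ ≤ (2c')^κ m^κ` if `m ≥ 1`; if `m = 0`, `n ≤ c'` and
the claim is trivial with a larger constant. (`κ = 0` is trivial.)
-/

namespace Pool.RCay

open scoped Classical

section
variable {G : Type} [Group G] [Fintype G]

theorem pb_card_rp (f : G → G) (hf : Function.Injective f) (v : G) :
    (Finset.univ.filter (fun u : G => rp (f u) = v)).card ≤ 2 := by
  have h : (Finset.univ.filter (fun u : G => rp (f u) = v)).card ≤ ({v, v⁻¹} : Finset G).card := by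
    apply Finset.card_le_card_of_injOn f
    · intro u hu
      simp only [Finset.coe_filter, Finset.mem_univ, true_and, Set.mem_setOf_eq] at hu
      simp only [Finset.coe_insert, Finset.coe_singleton, Set.mem_insert_iff, Set.mem_singleton_iff]
      rcases rp_mem (f u) with h | h
      · left; rw [← h, hu]
      · right; rw [h] at hu; rw [← hu, inv_inv]
    · exact hf.injOn
  exact h.trans Finset.card_le_two

theorem pb_card_nb (a z u : G) : (nb a z u).card ≤ 8 := by
  unfold nb
  refine Finset.card_image_le.trans ?_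
  refine (Finset.card_insert_le _ _).trans (Nat.succ_le_succ ?_)
  refine (Finset.card_insert_le _ _).trans (Nat.succ_le_succ ?_)
  refine (Finset.card_insert_le _ _).trans (Nat.succ_le_succ ?_)
  refine (Finset.card_insert_le _ _).trans (Nat.succ_le_succ ?_)
  refine (Finset.card_insert_le _ _).trans (Nat.succ_le_succ ?_)
  refine (Finset.card_insert_le _ _).trans (Nat.succ_le_succ ?_)
  refine (Finset.card_insert_le _ _).trans (Nat.succ_le_succ ?_)
  exact (Finset.card_singleton _).le

theorem pb_card_nb_mem (a z v : G) :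
    (Finset.univ.filter (fun u : G => v ∈ nb a z u)).card ≤ 16 := by
  have key : ∀ f : G → G, Function.Injective f →
      (Finset.univ.filter (fun u : G => rp (f u) = v)).card ≤ 2 := fun f hf => pb_card_rp f hf v
  set S : (G → G) → Finset G := fun f => Finset.univ.filter (fun u : G => rp (f u) = v) with hS
  have hsub : Finset.univ.filter (fun u : G => v ∈ nb a z u) ⊆
      S (fun u => a * u) ∪ (S (fun u => a * u⁻¹) ∪ (S (fun u => a⁻¹ * u) ∪ (S (fun u => a⁻¹ * u⁻¹) ∪
      (S (fun u => z * a * u) ∪ (S (fun u => z * a * u⁻¹) ∪ (S (fun u => (z * a)⁻¹ * u) ∪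
        S (fun u => (z * a)⁻¹ * u⁻¹))))))) := by
    intro u hu
    rw [Finset.mem_filter] at hu
    have hu2 := hu.2
    unfold nb at hu2
    rw [Finset.mem_image] at hu2
    obtain ⟨g, hg, hgv⟩ := hu2
    simp only [Finset.mem_insert, Finset.mem_singleton] at hg
    simp only [hS, Finset.mem_union, Finset.mem_filter, Finset.mem_univ, true_and]
    rcases hg with h | h | h | h | h | h | h | h
    · left; rw [← h]; exact hgv
    · right; left; rw [← h]; exact hgv
    · right; right; left; rw [← h]; exact hgv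
    · right; right; right; left; rw [← h]; exact hgv
    · right; right; right; right; left; rw [← h]; exact hgv
    · right; right; right; right; right; left; rw [← h]; exact hgv
    · right; right; right; right; right; right; left; rw [← h]; exact hgv
    · right; right; right; right; right; right; right; rw [← h]; exact hgv
  have inj1 : ∀ b : G, Function.Injective (fun u : G => b * u) := fun b => mul_right_injective b
  have inj2 : ∀ b : G, Function.Injective (fun u : G => b * u⁻¹) := fun b =>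
    (mul_right_injective b).comp inv_injective
  refine (Finset.card_le_card hsub).trans ?_
  have e1 := key _ (inj1 a)
  have e2 := key _ (inj2 a)
  have e3 := key _ (inj1 a⁻¹)
  have e4 := key _ (inj2 a⁻¹)
  have e5 := key _ (inj1 (z * a))
  have e6 := key _ (inj2 (z * a))
  have e7 := key _ (inj1 (z * a)⁻¹)
  have e8 := key _ (inj2 (z * a)⁻¹)
  have step : ∀ (A B : Finset G) (s t : ℕ), A.card ≤ s → B.card ≤ t → (A ∪ B).card ≤ s + t :=
    fun A B s t h1 h2 => (Finset.card_union_le A B).trans (add_le_add h1 h2)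
  exact step _ _ 2 14 e1 (step _ _ 2 12 e2 (step _ _ 2 10 e3 (step _ _ 2 8 e4 (step _ _ 2 6 e5
    (step _ _ 2 4 e6 (step _ _ 2 2 e7 e8))))))

theorem pb_card_pair (u : G) : ({u, u⁻¹} : Finset G).card ≤ 2 := Finset.card_le_two

theorem pb_mm_le (a u v : G) : mm a u v ≤ 4 := by
  unfold mm
  have h1 : ∀ h ∈ ({u, u⁻¹} : Finset G),
      ((if rp (a * h) = v then (1 : ℤ) else 0) + (if rp (a⁻¹ * h) = v then 1 else 0)) ≤ 2 := by
    intro h _
    split_ifs <;> norm_num
  have h2 := Finset.sum_le_card_nsmul _ _ _ h1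
  have h3 : (({u, u⁻¹} : Finset G).card : ℤ) ≤ 2 := by exact_mod_cast pb_card_pair u
  rw [nsmul_eq_mul] at h2
  linarith

theorem pb_dg_nonneg (a u : G) : 0 ≤ dg a u := by
  unfold dg
  apply Finset.sum_nonneg
  intro h _
  split_ifs <;> norm_num

theorem pb_dg_le (a u : G) : dg a u ≤ 2 := by
  unfold dg
  have h1 : ∀ h ∈ ({u, u⁻¹} : Finset G),
      (if a * h ∈ ({u, u⁻¹} : Finset G) then (1 : ℤ) else 0) ≤ 1 := by
    intro h _
    split_ifs <;> norm_num
  have h2 := Finset.sum_le_card_nsmul _ _ _ h1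
  have h3 : (({u, u⁻¹} : Finset G).card : ℤ) ≤ 2 := by exact_mod_cast pb_card_pair u
  rw [nsmul_eq_mul] at h2
  linarith

theorem pb_mm_ne {a u v : G} (h : mm a u v ≠ 0) :
    ∃ g ∈ ({u, u⁻¹} : Finset G), rp (a * g) = v ∨ rp (a⁻¹ * g) = v := by
  by_contra hcon
  push Not at hcon
  apply h
  unfold mm
  apply Finset.sum_eq_zero
  intro g hg
  rw [if_neg (hcon g hg).1, if_neg (hcon g hg).2, add_zero]

theorem pb_mm_zero1 {a z u v : G} (h : v ∉ nb a z u) : mm a u v = 0 := by
  by_contra hne
  apply h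
  obtain ⟨g, hg, hv⟩ := pb_mm_ne hne
  unfold nb
  rw [Finset.mem_image]
  simp only [Finset.mem_insert, Finset.mem_singleton] at hg
  rcases hg with rfl | rfl <;> rcases hv with hv | hv <;> refine ⟨_, ?_, hv⟩ <;> simp

theorem pb_mm_zero2 {a z u v : G} (h : v ∉ nb a z u) : mm (z * a) u v = 0 := by
  by_contra hne
  apply h
  obtain ⟨g, hg, hv⟩ := pb_mm_ne hne
  unfold nb
  rw [Finset.mem_image]
  simp only [Finset.mem_insert, Finset.mem_singleton] at hg
  rcases hg with rfl | rfl <;> rcases hv with hv | hv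
  · refine ⟨_, ?_, hv⟩
    simp only [Finset.mem_insert, Finset.mem_singleton, true_or, or_true]
  · refine ⟨_, ?_, hv⟩
    simp only [Finset.mem_insert, Finset.mem_singleton, true_or, or_true]
  · refine ⟨_, ?_, hv⟩
    simp only [Finset.mem_insert, Finset.mem_singleton, true_or, or_true]
  · refine ⟨_, ?_, hv⟩
    simp only [Finset.mem_insert, Finset.mem_singleton, true_or, or_true]

/-- The neighbourhood of a bit. -/
noncomputable def pbNb {K : ℕ} (a : Fin K → G) (z u : G) : Finset G :=
  (Finset.univ.biUnion (fun j => nb (a j) z u)) \ {1, rp u}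

theorem pbNb_card {K : ℕ} (a : Fin K → G) (z u : G) : (pbNb a z u).card ≤ 8 * K := by
  unfold pbNb
  refine (Finset.card_le_card Finset.sdiff_subset).trans ?_
  refine Finset.card_biUnion_le.trans ?_
  refine (Finset.sum_le_card_nsmul _ _ 8 (fun j _ => pb_card_nb (a j) z u)).trans ?_
  rw [Finset.card_univ, Fintype.card_fin, smul_eq_mul, mul_comm]

theorem pbNb_rp {K : ℕ} (a : Fin K → G) (z u : G) : rp u ∉ pbNb a z u := by
  unfold pbNb
  simp

theorem pbNb_one {K : ℕ} (a : Fin K → G) (z u : G) : (1 : G) ∉ pbNb a z u := by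
  unfold pbNb
  simp

theorem mem_pbNb {K : ℕ} (a : Fin K → G) (z u v : G) :
    v ∈ pbNb a z u ↔ (∃ j, v ∈ nb (a j) z u) ∧ v ≠ 1 ∧ v ≠ rp u := by
  unfold pbNb
  simp

theorem pb_D {K : ℕ} (a : Fin K → G) (z u : G) (hu : u ≠ 1) (ω₀ ω₁ : G → Bool)
    (h0 : ω₀ (rp u) = false) (h1 : ω₁ (rp u) = true) (h : ∀ v, v ≠ rp u → ω₀ v = ω₁ v)
    (j : Fin K) :
    (ff ω₁ (a j) - ff ω₁ (z * a j)) - (ff ω₀ (a j) - ff ω₀ (z * a j)) =
      (dg (a j) u - dg (z * a j) u) +
        ∑ v ∈ pbNb a z u, (mm (a j) u v - mm (z * a j) u v) * (if ω₀ v = true then 1 else 0) := by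
  have d1 := deriv (a j) u hu ω₀ ω₁ h0 h1 h
  have d2 := deriv (z * a j) u hu ω₀ ω₁ h0 h1 h
  have hs : ∑ v ∈ pbNb a z u, (mm (a j) u v - mm (z * a j) u v) * (if ω₀ v = true then 1 else 0) =
      ∑ v ∈ Finset.univ.filter (fun v : G => v ≠ 1),
        (mm (a j) u v - mm (z * a j) u v) * (if ω₀ v = true then 1 else 0) := by
    apply Finset.sum_subset
    · intro v hv
      rw [mem_pbNb] at hv
      simp only [Finset.mem_filter, Finset.mem_univ, true_and]
      exact hv.2.1
    · intro v hv hv'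
      simp only [Finset.mem_filter, Finset.mem_univ, true_and] at hv
      rw [mem_pbNb] at hv'
      by_cases hvu : v = rp u
      · rw [hvu, h0]
        simp
      · have hnb : v ∉ nb (a j) z u := by
          intro hmem
          exact hv' ⟨⟨j, hmem⟩, hv, hvu⟩
        rw [pb_mm_zero1 hnb, pb_mm_zero2 hnb]
        simp
  rw [hs]
  have hsum : ∑ v ∈ Finset.univ.filter (fun v : G => v ≠ 1),
        (mm (a j) u v - mm (z * a j) u v) * (if ω₀ v = true then (1 : ℤ) else 0) =
      (∑ v ∈ Finset.univ.filter (fun v : G => v ≠ 1), mm (a j) u v * (if ω₀ v = true then (1 : ℤ) else 0)) -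
      ∑ v ∈ Finset.univ.filter (fun v : G => v ≠ 1), mm (z * a j) u v * (if ω₀ v = true then (1 : ℤ) else 0) := by
    rw [← Finset.sum_sub_distrib]
    apply Finset.sum_congr rfl
    intro v _
    ring
  rw [hsum]
  linarith

/-- The swap data. -/
theorem pb_swapData {K m : ℕ} (z : G) (a : Fin K → G) (F : Finset G)
    (hUs : ∀ u ∈ F, ∀ k, Us (a k) z u)
    (hnb : ∀ u ∈ F, ∀ k k', k ≠ k' → rp (a k * u) ∉ nb (a k') z u)
    (hdisj : ∀ u ∈ F, ∀ u' ∈ F, u ≠ u' →
      Disjoint (insert (rp u) (pbNb a z u)) (insert (rp u') (pbNb a z u')))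
    (p lam : Fin K → ℤ) (hp : ∀ u ∈ F, ∀ j, dg (a j) u - dg (z * a j) u = p j)
    (hlam : ∀ u ∈ F, ∀ j, mm (a j) u (rp (a j * u)) - mm (z * a j) u (rp (a j * u)) = lam j)
    (hne : F.Nonempty) (φ : Fin K × Fin m × Bool → G) (hφ : Function.Injective φ)
    (hφF : ∀ i, φ i ∈ F) :
    Nonempty (SwapData G K m (8 * K) (fun ω j => ff ω (a j) - ff ω (z * a j))) := by
  have hwmem : ∀ (u : G), u ∈ F → ∀ j, rp (a j * u) ∈ pbNb a z u := by
    intro u hu j
    rw [mem_pbNb]
    obtain ⟨h1, h2, h3, h4, h5⟩ := hUs u hu j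
    refine ⟨⟨j, ?_⟩, ?_, ?_⟩
    · unfold nb
      rw [Finset.mem_image]
      exact ⟨a j * u, by simp, rfl⟩
    · rw [ne_eq, rp_eq_one]
      exact h2
    · rw [ne_eq, rp_eq_iff]
      push Not
      exact ⟨h3, h4⟩
  refine ⟨{
    pt := fun i => rp (φ i)
    Nb := fun i => pbNb a z (φ i)
    w := fun q => rp (a q.1 * φ (q.1, q.2, false))
    p := p
    lam := lam
    card_le := fun i => pbNb_card a z (φ i)
    notMem := fun i => pbNb_rp a z (φ i)
    disj := ?_
    w_mem := fun q => hwmem _ (hφF _) _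
    lam_ne := ?_
    base := ?_
    extra := ?_ }⟩
  · intro i j hij v h1 h2
    have hd := hdisj (φ i) (hφF i) (φ j) (hφF j) (fun h => hij (hφ h))
    rw [Finset.disjoint_left] at hd
    exact hd (Finset.mem_insert.2 h1) (Finset.mem_insert.2 h2)
  · intro j
    obtain ⟨u, hu⟩ := hne
    rw [← hlam u hu j]
    have := (hUs u hu j).2.2.2.2
    exact sub_ne_zero.2 this
  · intro i ω₀ ω₁ hb h0 h1 h j
    have hD := pb_D a z (φ i) (hUs _ (hφF i) j).1 ω₀ ω₁ h0 h1 h j
    rw [hD, hp _ (hφF i) j]
    have hz : ∑ v ∈ pbNb a z (φ i), (mm (a j) (φ i) v - mm (z * a j) (φ i) v) *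
        (if ω₀ v = true then 1 else 0) = 0 := by
      apply Finset.sum_eq_zero
      intro v hv
      rw [hb v hv]
      simp
    rw [hz, add_zero]
  · intro q ω₀ ω₁ hb h0 h1 h j
    set u := φ (q.1, q.2, false) with hu
    have huF : u ∈ F := hφF _
    have hD := pb_D a z u (hUs _ huF j).1 ω₀ ω₁ h0 h1 h j
    rw [hD, hp _ huF j]
    congr 1
    have hw := hwmem u huF q.1
    rw [Finset.sum_eq_single (rp (a q.1 * u))]
    · rw [if_pos ((hb _ hw).2 rfl), mul_one]
      by_cases hj : j = q.1
      · rw [if_pos hj, hj]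
        exact hlam u huF q.1
      · rw [if_neg hj]
        have hn := hnb u huF q.1 j (fun h => hj h.symm)
        rw [pb_mm_zero1 hn, pb_mm_zero2 hn, sub_zero]
    · intro v hv hvne
      have hf : ω₀ v = false := by
        by_contra hcon
        have ht : ω₀ v = true := by simpa using hcon
        exact hvne ((hb v hv).1 ht)
      rw [hf]
      simp
    · intro hcon
      exact absurd hw hcon

end

theorem pair_bound (κ c : ℕ) : ∃ C : ℕ, ∀ (G : Type) [Group G] [Fintype G] (z : G)
    (a : Fin (2 * κ) → G) (U : Finset G), Fintype.card G ≤ c * U.card →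
    (∀ u ∈ U, ∀ k, Us (a k) z u) →
    (∀ u ∈ U, ∀ k k', k ≠ k' → rp (a k * u) ∉ nb (a k') z u) →
    (Finset.univ.filter (fun ω : G → Bool => ∀ k, ff ω (a k) = ff ω (z * a k))).card *
      Fintype.card G ^ κ ≤ C * 2 ^ Fintype.card G := by
  obtain ⟨C0, hC0⟩ := swap_bound κ (8 * (2 * κ))
  set K := 2 * κ with hK
  set c' := c * ((8 * K + 1) * (16 * K + 2) * (45 ^ K * (2 * K))) with hc'
  refine ⟨1 + c' ^ κ + (2 * c') ^ κ * C0, ?_⟩
  intro G _ _ z a U hU hUs hnb
  have htriv : (Finset.univ.filter (fun ω : G → Bool => ∀ k, ff ω (a k) = ff ω (z * a k))).card ≤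
      2 ^ Fintype.card G := by
    refine (Finset.card_le_univ _).trans ?_
    rw [Fintype.card_fun, Fintype.card_bool]
  rcases Nat.eq_zero_or_pos κ with hκ | hκ
  · rw [hκ, pow_zero, mul_one]
    refine htriv.trans ?_
    calc 2 ^ Fintype.card G = 1 * 2 ^ Fintype.card G := (one_mul _).symm
      _ ≤ _ := Nat.mul_le_mul_right _ (by omega)
  have hKpos : 0 < K := by omega
  obtain ⟨F, hFU, hdisj, hFcard⟩ := packing U (fun u => insert (rp u) (pbNb a z u)) (8 * K + 1)
    (16 * K + 2)
    (fun u _ => (Finset.card_insert_le _ _).trans (Nat.succ_le_succ (pbNb_card a z u)))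
    (by
      intro v
      have hsub : U.filter (fun u => v ∈ insert (rp u) (pbNb a z u)) ⊆
          (Finset.univ.biUnion (fun j => Finset.univ.filter (fun u : G => v ∈ nb (a j) z u))) ∪
          Finset.univ.filter (fun u : G => rp (id u) = v) := by
        intro u hu
        rw [Finset.mem_filter, Finset.mem_insert, mem_pbNb] at hu
        rw [Finset.mem_union, Finset.mem_biUnion]
        rcases hu.2 with h | h
        · right
          simp only [Finset.mem_filter, Finset.mem_univ, true_and, id]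
          exact h.symm
        · left
          obtain ⟨j, hj⟩ := h.1
          exact ⟨j, Finset.mem_univ _, by simpa using hj⟩
      refine (Finset.card_le_card hsub).trans ?_
      refine (Finset.card_union_le _ _).trans ?_
      refine add_le_add ?_ (pb_card_rp id Function.injective_id v)
      refine Finset.card_biUnion_le.trans ?_
      refine (Finset.sum_le_card_nsmul _ _ 16 (fun j _ => pb_card_nb_mem (a j) z v)).trans ?_
      rw [Finset.card_univ, Fintype.card_fin, smul_eq_mul, mul_comm])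
    (fun u _ => Finset.insert_nonempty _ _)
  -- pigeonhole
  set T : Finset (Fin K → ℤ × ℤ) :=
    Fintype.piFinset (fun _ => Finset.Icc (-2 : ℤ) 2 ×ˢ Finset.Icc (-4 : ℤ) 4) with hT
  have hTcard : T.card = 45 ^ K := by
    rw [hT, Fintype.card_piFinset]
    simp
  set g : G → (Fin K → ℤ × ℤ) := fun u j => (dg (a j) u - dg (z * a j) u,
    mm (a j) u (rp (a j * u)) - mm (z * a j) u (rp (a j * u))) with hg
  have hmaps : ∀ u ∈ F, g u ∈ T := by
    intro u _
    rw [hT, Fintype.mem_piFinset]
    intro j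
    have m1 := mm_nonneg (a j) u (rp (a j * u))
    have m2 := mm_nonneg (z * a j) u (rp (a j * u))
    have m3 := pb_mm_le (a j) u (rp (a j * u))
    have m4 := pb_mm_le (z * a j) u (rp (a j * u))
    have d1 := pb_dg_nonneg (a j) u
    have d2 := pb_dg_nonneg (z * a j) u
    have d3 := pb_dg_le (a j) u
    have d4 := pb_dg_le (z * a j) u
    rw [Finset.mem_product, Finset.mem_Icc, Finset.mem_Icc]
    simp only [hg]
    refine ⟨⟨?_, ?_⟩, ?_, ?_⟩ <;> linarith
  have hTne : T.Nonempty := by
    rw [← Finset.card_pos, hTcard]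
    positivity
  obtain ⟨y, hyT, hy⟩ := Finset.exists_le_card_fiber_of_nsmul_le_card_of_maps_to (M := ℚ)
    (b := (F.card : ℚ) / (T.card : ℚ)) hmaps hTne (by
      rw [nsmul_eq_mul]
      rw [mul_div_cancel₀]
      have := Finset.card_pos.2 hTne
      positivity)
  set F' := F.filter (fun u => g u = y) with hF'
  have hF'card : F.card ≤ 45 ^ K * F'.card := by
    have hpos : (0 : ℚ) < (T.card : ℚ) := by exact_mod_cast Finset.card_pos.2 hTne
    rw [div_le_iff₀ hpos] at hy
    have h2 : (F.card : ℚ) ≤ ((45 ^ K * F'.card : ℕ) : ℚ) := by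
      rw [Nat.cast_mul, ← hTcard]
      linarith
    exact_mod_cast h2
  set m := F'.card / (2 * K) with hm
  have hmlt : F'.card ≤ 2 * K * (m + 1) := by
    have := Nat.lt_mul_div_succ F'.card (show 0 < 2 * K by omega)
    exact this.le
  have hn : Fintype.card G ≤ c' * (m + 1) := by
    calc Fintype.card G ≤ c * U.card := hU
      _ ≤ c * ((8 * K + 1) * (16 * K + 2) * F.card) := Nat.mul_le_mul_left _ hFcard
      _ ≤ c * ((8 * K + 1) * (16 * K + 2) * (45 ^ K * F'.card)) := by gcongr
      _ ≤ c * ((8 * K + 1) * (16 * K + 2) * (45 ^ K * (2 * K * (m + 1)))) := by gcongr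
      _ = c' * (m + 1) := by rw [hc']; ring
  rcases Nat.eq_zero_or_pos m with hm0 | hmpos
  · rw [hm0, zero_add, mul_one] at hn
    calc _ ≤ 2 ^ Fintype.card G * c' ^ κ := Nat.mul_le_mul htriv (Nat.pow_le_pow_left hn κ)
      _ = c' ^ κ * 2 ^ Fintype.card G := mul_comm _ _
      _ ≤ _ := Nat.mul_le_mul_right _ (by omega)
  · have hF'F : ∀ u, u ∈ F' → u ∈ F := fun u hu => (Finset.mem_filter.1 hu).1
    have hcardle : Fintype.card (Fin K × Fin m × Bool) ≤ F'.card := by
      rw [Fintype.card_prod, Fintype.card_prod, Fintype.card_fin, Fintype.card_fin,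
        Fintype.card_bool]
      calc K * (m * 2) = (2 * K) * m := by ring
        _ ≤ F'.card := Nat.mul_div_le _ _
    have hemb : Nonempty (Fin K × Fin m × Bool ↪ F') := by
      apply Function.Embedding.nonempty_of_card_le
      rw [Fintype.card_coe]
      exact hcardle
    obtain ⟨φ⟩ := hemb
    have hF'ne : F'.Nonempty := by
      rw [← Finset.card_pos]
      by_contra hcon
      have h0 : F'.card = 0 := by omega
      rw [h0, Nat.zero_div] at hm
      omega
    obtain ⟨d⟩ := pb_swapData (m := m) z a F' (fun u hu => hUs u (hFU (hF'F u hu)))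
      (fun u hu => hnb u (hFU (hF'F u hu)))
      (fun u hu u' hu' huu => hdisj u (hF'F u hu) u' (hF'F u' hu') huu)
      (fun j => (y j).1) (fun j => (y j).2)
      (fun u hu j => by
        have h2 := (Finset.mem_filter.1 hu).2
        rw [← h2])
      (fun u hu j => by
        have h2 := (Finset.mem_filter.1 hu).2
        rw [← h2])
      hF'ne (fun i => (φ i : G)) (fun i j hij => φ.injective (Subtype.ext hij))
      (fun i => (φ i).2)
    have hb := hC0 G m _ d
    have hfilt : (Finset.univ.filter (fun ω : G → Bool => ∀ k, ff ω (a k) = ff ω (z * a k))) =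
        (Finset.univ.filter (fun ω : G → Bool => ∀ j, ff ω (a j) - ff ω (z * a j) = 0)) := by
      apply Finset.filter_congr
      intro ω _
      constructor
      · intro h j
        rw [h j, sub_self]
      · intro h j
        exact sub_eq_zero.1 (h j)
    rw [hfilt]
    have hn2 : Fintype.card G ≤ 2 * c' * m := by
      calc Fintype.card G ≤ c' * (m + 1) := hn
        _ ≤ c' * (2 * m) := Nat.mul_le_mul_left _ (by omega)
        _ = 2 * c' * m := by ring
    calc _ ≤ (Finset.univ.filter
          (fun ω : G → Bool => ∀ j, ff ω (a j) - ff ω (z * a j) = 0)).card * (2 * c' * m) ^ κ :=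
          Nat.mul_le_mul_left _ (Nat.pow_le_pow_left hn2 κ)
      _ = (2 * c') ^ κ * ((Finset.univ.filter
          (fun ω : G → Bool => ∀ j, ff ω (a j) - ff ω (z * a j) = 0)).card * m ^ κ) := by
          rw [mul_pow]; ring
      _ ≤ (2 * c') ^ κ * (C0 * 2 ^ Fintype.card G) := Nat.mul_le_mul_left _ hb
      _ = ((2 * c') ^ κ * C0) * 2 ^ Fintype.card G := by ring
      _ ≤ _ := Nat.mul_le_mul_right _ (by omega)

end Pool.RCay
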