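import Pool.Agent.RCay.PairBound
import Pool.Agent.RCay.Lift

/-!
# The probability that a pair of vertices is not distinguished, smoothed version
-/

namespace Pool.RCay

open scoped Classical

theorem pn_card_inst {Ω : Type} (i1 i2 : Fintype Ω) (p : Ω → Prop) (d1 d2 : DecidablePred p) :
    (@Finset.filter Ω p d1 (@Finset.univ Ω i1)).card =
      (@Finset.filter Ω p d2 (@Finset.univ Ω i2)).card := by
  have e1 : i1 = i2 := Subsingleton.elim _ _
  subst e1
  have e2 : d1 = d2 := Subsingleton.elim _ _
  subst e2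
  rfl

theorem pair_bound_n (κ c s : ℕ) : ∃ C : ℕ, ∀ (G : Type) [Group G] [Fintype G] (z : G)
    (a : Fin (2 * κ) → G) (U : Finset G), Fintype.card G ≤ c * U.card →
    (∀ u ∈ U, ∀ k, Us (a k) z u) →
    (∀ u ∈ U, ∀ k k', k ≠ k' → rp (a k * u) ∉ nb (a k') z u) → ∀ b : G → Bool,
    (Finset.univ.filter (fun θ : G × Fin (s + 1) → Bool =>
      ∀ k, ff (nmix b θ) (a k) = ff (nmix b θ) (z * a k))).card *
      Fintype.card G ^ κ ≤ C * 2 ^ ((s + 1) * Fintype.card G) := by
  obtain ⟨C0, hC0⟩ := swap_bound κ ((8 * (2 * κ) + 1) * (s + 1))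
  set K := 2 * κ with hK
  set c' := c * ((8 * K + 1) * (16 * K + 2) * (45 ^ K * (2 * K))) with hc'
  refine ⟨1 + c' ^ κ + (2 * c') ^ κ * C0, ?_⟩
  intro G _ _ z a U hU hUs hnb b
  have hcV : Fintype.card (G × Fin (s + 1)) = (s + 1) * Fintype.card G := by
    rw [Fintype.card_prod, Fintype.card_fin, mul_comm]
  have htriv : (Finset.univ.filter (fun θ : G × Fin (s + 1) → Bool =>
      ∀ k, ff (nmix b θ) (a k) = ff (nmix b θ) (z * a k))).card ≤
      2 ^ ((s + 1) * Fintype.card G) := by
    refine (Finset.card_le_univ _).trans ?_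
    rw [Fintype.card_fun, Fintype.card_bool, hcV]
  rcases Nat.eq_zero_or_pos κ with hκ | hκ
  · rw [hκ, pow_zero, mul_one]
    refine htriv.trans ?_
    calc 2 ^ ((s + 1) * Fintype.card G) = 1 * 2 ^ ((s + 1) * Fintype.card G) := (one_mul _).symm
      _ ≤ _ := Nat.mul_le_mul_right _ (by omega)
  have hKpos : 0 < K := by omega
  obtain ⟨F, hFU, hdisj, hFcard⟩ := packing U (fun u => insert (rp u) (pbNb a z u)) (8 * K + 1)
    (16 * K + 2)
    (fun u _ => (Finset.card_insert_le _ _).trans (Nat.succ_le_succ (pbNb_card a z u)))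
    (by
      intro v
      have hsub : U.filter (fun u => v ∈ insert (rp u) (pbNb a z u)) ⊆
          (Finset.univ.biUnion (fun j => Finset.univ.filter (fun u : G => v ∈ nb (a j) z u))) ∪
          Finset.univ.filter (fun u : G => rp (id u) = v) := by
        intro u hu
        rw [Finset.mem_filter, Finset.mem_insert, mem_pbNb] at hu
        rw [Finset.mem_union, Finset.mem_biUnion]
        rcases hu.2 with h | h
        · right
          simp only [Finset.mem_filter, Finset.mem_univ, true_and, id]
          exact h.symm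
        · left
          obtain ⟨j, hj⟩ := h.1
          exact ⟨j, Finset.mem_univ _, by simpa using hj⟩
      refine (Finset.card_le_card hsub).trans ?_
      refine (Finset.card_union_le _ _).trans ?_
      refine add_le_add ?_ (pb_card_rp id Function.injective_id v)
      refine Finset.card_biUnion_le.trans ?_
      refine (Finset.sum_le_card_nsmul _ _ 16 (fun j _ => pb_card_nb_mem (a j) z v)).trans ?_
      rw [Finset.card_univ, Fintype.card_fin, smul_eq_mul, mul_comm])
    (fun u _ => Finset.insert_nonempty _ _)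
  -- pigeonhole
  set T : Finset (Fin K → ℤ × ℤ) :=
    Fintype.piFinset (fun _ => Finset.Icc (-2 : ℤ) 2 ×ˢ Finset.Icc (-4 : ℤ) 4) with hT
  have hTcard : T.card = 45 ^ K := by
    rw [hT, Fintype.card_piFinset]
    simp
  set g : G → (Fin K → ℤ × ℤ) := fun u j => (dg (a j) u - dg (z * a j) u,
    mm (a j) u (rp (a j * u)) - mm (z * a j) u (rp (a j * u))) with hg
  have hmaps : ∀ u ∈ F, g u ∈ T := by
    intro u _
    rw [hT, Fintype.mem_piFinset]
    intro j
    have m1 := mm_nonneg (a j) u (rp (a j * u))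
    have m2 := mm_nonneg (z * a j) u (rp (a j * u))
    have m3 := pb_mm_le (a j) u (rp (a j * u))
    have m4 := pb_mm_le (z * a j) u (rp (a j * u))
    have d1 := pb_dg_nonneg (a j) u
    have d2 := pb_dg_nonneg (z * a j) u
    have d3 := pb_dg_le (a j) u
    have d4 := pb_dg_le (z * a j) u
    rw [Finset.mem_product, Finset.mem_Icc, Finset.mem_Icc]
    simp only [hg]
    refine ⟨⟨?_, ?_⟩, ?_, ?_⟩ <;> linarith
  have hTne : T.Nonempty := by
    rw [← Finset.card_pos, hTcard]
    positivity
  obtain ⟨y, hyT, hy⟩ := Finset.exists_le_card_fiber_of_nsmul_le_card_of_maps_to (M := ℚ)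
    (b := (F.card : ℚ) / (T.card : ℚ)) hmaps hTne (by
      rw [nsmul_eq_mul]
      rw [mul_div_cancel₀]
      have := Finset.card_pos.2 hTne
      positivity)
  set F' := F.filter (fun u => g u = y) with hF'
  have hF'card : F.card ≤ 45 ^ K * F'.card := by
    have hpos : (0 : ℚ) < (T.card : ℚ) := by exact_mod_cast Finset.card_pos.2 hTne
    rw [div_le_iff₀ hpos] at hy
    have h2 : (F.card : ℚ) ≤ ((45 ^ K * F'.card : ℕ) : ℚ) := by
      rw [Nat.cast_mul, ← hTcard]
      linarith
    exact_mod_cast h2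
  set m := F'.card / (2 * K) with hm
  have hmlt : F'.card ≤ 2 * K * (m + 1) := by
    have := Nat.lt_mul_div_succ F'.card (show 0 < 2 * K by omega)
    exact this.le
  have hn : Fintype.card G ≤ c' * (m + 1) := by
    calc Fintype.card G ≤ c * U.card := hU
      _ ≤ c * ((8 * K + 1) * (16 * K + 2) * F.card) := Nat.mul_le_mul_left _ hFcard
      _ ≤ c * ((8 * K + 1) * (16 * K + 2) * (45 ^ K * F'.card)) := by gcongr
      _ ≤ c * ((8 * K + 1) * (16 * K + 2) * (45 ^ K * (2 * K * (m + 1)))) := by gcongr
      _ = c' * (m + 1) := by rw [hc']; ring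
  rcases Nat.eq_zero_or_pos m with hm0 | hmpos
  · rw [hm0, zero_add, mul_one] at hn
    calc _ ≤ 2 ^ ((s + 1) * Fintype.card G) * c' ^ κ := Nat.mul_le_mul htriv (Nat.pow_le_pow_left hn κ)
      _ = c' ^ κ * 2 ^ ((s + 1) * Fintype.card G) := mul_comm _ _
      _ ≤ _ := Nat.mul_le_mul_right _ (by omega)
  · have hF'F : ∀ u, u ∈ F' → u ∈ F := fun u hu => (Finset.mem_filter.1 hu).1
    have hcardle : Fintype.card (Fin K × Fin m × Bool) ≤ F'.card := by
      rw [Fintype.card_prod, Fintype.card_prod, Fintype.card_fin, Fintype.card_fin,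
        Fintype.card_bool]
      calc K * (m * 2) = (2 * K) * m := by ring
        _ ≤ F'.card := Nat.mul_div_le _ _
    have hemb : Nonempty (Fin K × Fin m × Bool ↪ F') := by
      apply Function.Embedding.nonempty_of_card_le
      rw [Fintype.card_coe]
      exact hcardle
    obtain ⟨φ⟩ := hemb
    have hF'ne : F'.Nonempty := by
      rw [← Finset.card_pos]
      by_contra hcon
      have h0 : F'.card = 0 := by omega
      rw [h0, Nat.zero_div] at hm
      omega
    obtain ⟨d⟩ := pb_swapData (m := m) z a F' (fun u hu => hUs u (hFU (hF'F u hu)))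
      (fun u hu => hnb u (hFU (hF'F u hu)))
      (fun u hu u' hu' huu => hdisj u (hF'F u hu) u' (hF'F u' hu') huu)
      (fun j => (y j).1) (fun j => (y j).2)
      (fun u hu j => by
        have h2 := (Finset.mem_filter.1 hu).2
        rw [← h2])
      (fun u hu j => by
        have h2 := (Finset.mem_filter.1 hu).2
        rw [← h2])
      hF'ne (fun i => (φ i : G)) (fun i j hij => φ.injective (Subtype.ext hij))
      (fun i => (φ i).2)
    obtain ⟨d'⟩ := lift_data d s b
    have hb : (Finset.univ.filter (fun θ : G × Fin (s + 1) → Bool =>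
        ∀ j, ff (nmix b θ) (a j) - ff (nmix b θ) (z * a j) = 0)).card * m ^ κ ≤
        C0 * 2 ^ ((s + 1) * Fintype.card G) := by
      have h0 := hC0 (G × Fin (s + 1)) m _ d'
      rw [hcV] at h0
      rw [pn_card_inst _ _ _ _ _] at h0
      exact h0
    have hfilt : (Finset.univ.filter (fun θ : G × Fin (s + 1) → Bool =>
        ∀ k, ff (nmix b θ) (a k) = ff (nmix b θ) (z * a k))) =
        (Finset.univ.filter (fun θ : G × Fin (s + 1) → Bool =>
          ∀ j, ff (nmix b θ) (a j) - ff (nmix b θ) (z * a j) = 0)) := by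
      apply Finset.filter_congr
      intro ω _
      constructor
      · intro h j
        rw [h j, sub_self]
      · intro h j
        exact sub_eq_zero.1 (h j)
    rw [hfilt]
    have hn2 : Fintype.card G ≤ 2 * c' * m := by
      calc Fintype.card G ≤ c' * (m + 1) := hn
        _ ≤ c' * (2 * m) := Nat.mul_le_mul_left _ (by omega)
        _ = 2 * c' * m := by ring
    calc _ ≤ (Finset.univ.filter
          (fun θ : G × Fin (s + 1) → Bool =>
            ∀ j, ff (nmix b θ) (a j) - ff (nmix b θ) (z * a j) = 0)).card * (2 * c' * m) ^ κ :=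
          Nat.mul_le_mul_left _ (Nat.pow_le_pow_left hn2 κ)
      _ = (2 * c') ^ κ * ((Finset.univ.filter
          (fun θ : G × Fin (s + 1) → Bool =>
            ∀ j, ff (nmix b θ) (a j) - ff (nmix b θ) (z * a j) = 0)).card * m ^ κ) := by
          rw [mul_pow]; ring
      _ ≤ (2 * c') ^ κ * (C0 * 2 ^ ((s + 1) * Fintype.card G)) := Nat.mul_le_mul_left _ hb
      _ = ((2 * c') ^ κ * C0) * 2 ^ ((s + 1) * Fintype.card G) := by ring
      _ ≤ _ := Nat.mul_le_mul_right _ (by omega)

end Pool.RCay
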