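import Pool.Agent.RCay.Defs

/-!
# Module SQRTCOUNT: a nontrivial element has at most `(3/4) n` square roots

PAPER PROOF. Let `A = {v | v v = z}`, suppose `4 |A| > 3 n`. Every `v ∈ A` commutes with `z = v v`, so the centraliser of `z` has
more than `n/2` elements and `z` is central. `A` and `z A` meet (`|A| > n/2`): there is `v ∈ A` with `z v ∈ A`, so
`z = (z v)(z v) = z² v² = z³`, `z² = 1`. If `v, w, v w ∈ A` then `v w v w = z`, hence
`w v = v⁻¹ z w⁻¹ = (v z) z (w z) = v w z` (`v⁻¹ = v z` because `v v = z`, `z z = 1`). Fix `v ∈ A`. The set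
`W = {w | w ∈ A, v w ∈ A}` has more than `n/2` elements (`|A|, |v⁻¹ A| > 3n/4`), and `w v = v w z` for `w ∈ W`. For `w₀ ∈ W` fixed and
`w ∈ W`, `w₀ w` commutes with `v` (`z` central, `z² = 1`), so more than `n/2` elements commute with `v`, while the elements
`w ∈ W` (more than `n/2`) do not commute with `v` since `z ≠ 1`: contradiction.
-/

namespace Pool.RCay

open scoped Classical

variable {G : Type} [Group G] [Fintype G]

omit [Fintype G] in
theorem sq_top_of_half [Finite G] (H : Subgroup G) (s : Finset G) (hs : ∀ x ∈ s, x ∈ H)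
    (h : Nat.card G < 2 * s.card) : H = ⊤ := by
  have h1 : s.card ≤ Nat.card H := by
    have h2 : (s : Set G) ⊆ (H : Set G) := fun x hx => hs x hx
    have h3 := Set.ncard_le_ncard h2 (Set.toFinite _)
    rw [Set.ncard_coe_finset] at h3
    exact h3
  obtain ⟨k, hk⟩ := Subgroup.card_subgroup_dvd_card H
  have hpos : 0 < Nat.card G := Nat.card_pos
  have hk1 : k = 1 := by
    rcases Nat.lt_or_ge k 2 with h4 | h4
    · rcases Nat.eq_zero_or_pos k with h5 | h5
      · rw [h5, mul_zero] at hk
        omega
      · omega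
    · have : Nat.card H * 2 ≤ Nat.card H * k := Nat.mul_le_mul_left _ h4
      omega
  rw [hk1, mul_one] at hk
  exact Subgroup.eq_top_of_card_eq H hk.symm

theorem sqrt_count (z : G) (hz : z ≠ 1) : 4 * rt z ≤ 3 * Fintype.card G := by
  by_contra hcon
  rw [not_le] at hcon
  unfold rt at hcon
  set A : Finset G := Finset.univ.filter (fun v : G => v * v = z) with hA
  have hmem : ∀ v, v ∈ A ↔ v * v = z := by
    intro v
    simp [hA]
  have hn : Nat.card G = Fintype.card G := Nat.card_eq_fintype_card
  -- z is central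
  have hcen : ∀ g : G, z * g = g * z := by
    have h1 : Subgroup.centralizer ({z} : Set G) = ⊤ := by
      apply sq_top_of_half _ A
      · intro x hx
        rw [hmem] at hx
        rw [Subgroup.mem_centralizer_singleton_iff]
        rw [← hx, mul_assoc]
      · omega
    intro g
    have h2 : g ∈ Subgroup.centralizer ({z} : Set G) := by
      rw [h1]
      exact Subgroup.mem_top g
    rw [Subgroup.mem_centralizer_singleton_iff] at h2
    exact h2.symm
  -- shifted copies
  have hshift : ∀ v : G, (A.image (fun x => v⁻¹ * x)).card = A.card := by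
    intro v
    exact Finset.card_image_of_injective _ (mul_right_injective v⁻¹)
  have hcardu : ∀ s : Finset G, s.card ≤ Fintype.card G := fun s => Finset.card_le_univ s
  have hinter : ∀ s t : Finset G, s.card + t.card ≤ Fintype.card G + (s ∩ t).card := by
    intro s t
    have h1 := Finset.card_union_add_card_inter s t
    have h2 := hcardu (s ∪ t)
    omega
  have hzz : z * z = 1 := by
    have h1 := hinter A (A.image (fun x => z⁻¹ * x))
    rw [hshift] at h1
    have h2 : 0 < (A ∩ A.image (fun x => z⁻¹ * x)).card := by omega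
    obtain ⟨v, hv⟩ := Finset.card_pos.1 h2
    rw [Finset.mem_inter, Finset.mem_image] at hv
    obtain ⟨hv1, x, hx, rfl⟩ := hv
    rw [hmem] at hv1 hx
    have hc1 : z⁻¹ * x = x * z⁻¹ := by
      rw [eq_mul_inv_iff_mul_eq, mul_assoc, ← hcen x, inv_mul_cancel_left]
    have h3 : z⁻¹ * x * (z⁻¹ * x) = z⁻¹ * z⁻¹ * z := by
      calc z⁻¹ * x * (z⁻¹ * x) = z⁻¹ * (x * z⁻¹) * x := by group
        _ = z⁻¹ * (z⁻¹ * x) * x := by rw [hc1]
        _ = z⁻¹ * z⁻¹ * (x * x) := by group
        _ = z⁻¹ * z⁻¹ * z := by rw [hx]
    rw [h3, inv_mul_cancel_right] at hv1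
    calc z * z = z * z⁻¹ := by rw [hv1]
      _ = 1 := mul_inv_cancel z
  have hAne : A.Nonempty := by
    rw [← Finset.card_pos]
    omega
  obtain ⟨v, hv⟩ := hAne
  have hvv := (hmem v).1 hv
  set W : Finset G := A ∩ A.image (fun x => v⁻¹ * x) with hW
  have hWcard : Fintype.card G < 2 * W.card := by
    have h1 := hinter A (A.image (fun x => v⁻¹ * x))
    rw [hshift, ← hW] at h1
    omega
  have hinvof : ∀ x : G, x * x = z → x⁻¹ = z * x := by
    intro x hx
    rw [inv_eq_iff_mul_eq_one]
    rw [hcen x, ← mul_assoc, hx, hzz]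
  have hcomm : ∀ w ∈ W, w * v = v * w * z := by
    intro w hw
    rw [hW, Finset.mem_inter, Finset.mem_image] at hw
    obtain ⟨hw1, x, hx, hxw⟩ := hw
    rw [hmem] at hw1 hx
    have hx' : x = v * w := by rw [← hxw, mul_inv_cancel_left]
    rw [hx'] at hx
    have h1 : w * v = v⁻¹ * z * w⁻¹ := by
      rw [← hx]
      group
    rw [h1, hinvof v hvv, hinvof w hw1]
    calc z * v * z * (z * w) = z * v * (z * z) * w := by group
      _ = z * (v * w) := by rw [hzz]; group
      _ = v * w * z := hcen _
  have hWne : W.Nonempty := by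
    rw [← Finset.card_pos]
    have := hcardu W
    by_contra h0
    have : W.card = 0 := by omega
    rw [this] at hWcard
    omega
  obtain ⟨w0, hw0⟩ := hWne
  have htop : Subgroup.centralizer ({v} : Set G) = ⊤ := by
    apply sq_top_of_half _ (W.image (fun w => w0 * w))
    · intro x hx
      rw [Finset.mem_image] at hx
      obtain ⟨w, hw, rfl⟩ := hx
      rw [Subgroup.mem_centralizer_singleton_iff]
      calc w0 * w * v = w0 * (w * v) := by group
        _ = w0 * (v * w * z) := by rw [hcomm w hw]
        _ = (w0 * v) * w * z := by group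
        _ = (v * w0 * z) * w * z := by rw [hcomm w0 hw0]
        _ = v * w0 * (z * w) * z := by group
        _ = v * w0 * (w * z) * z := by rw [hcen w]
        _ = v * (w0 * w) * (z * z) := by group
        _ = v * (w0 * w) := by rw [hzz, mul_one]
    · rw [Finset.card_image_of_injective _ (mul_right_injective w0), hn]
      exact hWcard
  have h5 : w0 ∈ Subgroup.centralizer ({v} : Set G) := by
    rw [htop]
    exact Subgroup.mem_top w0
  rw [Subgroup.mem_centralizer_singleton_iff] at h5
  have h6 := hcomm w0 hw0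
  rw [h5] at h6
  apply hz
  exact (mul_eq_left.1 h6.symm)

end Pool.RCay
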