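import Pool.Agent.RCay.Basic
import Pool.Agent.RCay.Packing
import Pool.Agent.RCay.SqrtCount

/-!
# Module PHASETWO: two vertices are distinguished by their adjacency to a large set

PAPER PROOF. `n = card G`. Let `W' = {w ∈ W | w ≠ 1, w z ≠ 1, w z ≠ w⁻¹}`. `w z = w⁻¹` iff `(w z)(w z) = z`, so at most
`rt z ≤ 3n/4` elements `w` have this property (`sqrt_count`); `|W'| ≥ n - n/16 - 3n/4 - 2 ≥ n/8` for `n ≥ 32`. For `w ∈ W'` let
`B w = {rp w, rp (w z)}`; these are two different elements (`rp_eq_iff`: `w = w z` would give `z = 1`, `w = (w z)⁻¹` is excluded). A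
given `v` lies in `B w` for at most `4` elements `w` (`w ∈ {v, v⁻¹}` or `w z ∈ {v, v⁻¹}`). `packing` (`α = 2`, `β = 4`):
`F ⊆ W'` with pairwise disjoint blocks, `|W'| ≤ 8 |F|`, `|F| ≥ n/64`. For `w ∈ F` the condition `sn ω w = sn ω (w z)` says
`ω (rp w) = ω (rp (w z))`. The number of the `ω` satisfying these conditions for all `w ∈ F` is `2^{n - |F|}` (for instance: the map
`ω ↦` (`ω` with the bit `rp (w z)` flipped for all `w` in a subset of `F`) shows `#{good ω} * 2^{|F|} ≤ 2^n`: the `2^{|F|}` translates of
the set of the good `ω` are pairwise disjoint).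
-/

namespace Pool.RCay

open scoped Classical

variable {G : Type} [Group G] [Fintype G]

theorem phase_two (z : G) (hz : z ≠ 1) (W : Finset G) (hW : 16 * (Wᶜ).card ≤ Fintype.card G)
    (hn : 32 ≤ Fintype.card G) :
    (Finset.univ.filter (fun ω : G → Bool => ∀ w ∈ W, sn ω w = sn ω (w * z))).card *
      2 ^ (Fintype.card G / 64) ≤ 2 ^ Fintype.card G := by
  set n := Fintype.card G with hndef
  let W' : Finset G := W.filter (fun w => w ≠ 1 ∧ w * z ≠ 1 ∧ w * z ≠ w⁻¹)
  -- the size of `W'`
  have hWc : W.card + (Wᶜ).card = n := Finset.card_add_card_compl W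
  have hsq := sqrt_count z hz
  have hsub : W ⊆ W' ∪ (({1} : Finset G) ∪ {z⁻¹} ∪
      (Finset.univ.filter (fun v : G => v * v = z)).image (fun v => v * z⁻¹)) := by
    intro w hw
    by_cases h1 : w = 1
    · simp [h1]
    by_cases h2 : w * z = 1
    · have : w = z⁻¹ := eq_inv_of_mul_eq_one_left h2
      simp [this]
    by_cases h3 : w * z = w⁻¹
    · rw [Finset.mem_union]
      right
      rw [Finset.mem_union]
      right
      rw [Finset.mem_image]
      refine ⟨w * z, ?_, by group⟩
      rw [Finset.mem_filter]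
      refine ⟨Finset.mem_univ _, ?_⟩
      rw [h3]
      calc w⁻¹ * w⁻¹ = w⁻¹ * (w * z) := by rw [h3]
        _ = z := by group
    · rw [Finset.mem_union]
      left
      exact Finset.mem_filter.2 ⟨hw, h1, h2, h3⟩
  have hcard : W.card ≤ W'.card + (1 + 1 + rt z) := by
    refine (Finset.card_le_card hsub).trans ((Finset.card_union_le _ _).trans ?_)
    have h3 : (({1} : Finset G) ∪ {z⁻¹} ∪
      (Finset.univ.filter (fun v : G => v * v = z)).image (fun v => v * z⁻¹)).card ≤
        1 + 1 + rt z := by
      refine (Finset.card_union_le _ _).trans ?_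
      have h4 : (({1} : Finset G) ∪ {z⁻¹}).card ≤ 1 + 1 :=
        (Finset.card_union_le _ _).trans (by simp)
      have h5 : ((Finset.univ.filter (fun v : G => v * v = z)).image (fun v => v * z⁻¹)).card ≤
          rt z := by
        refine Finset.card_image_le.trans ?_
        exact le_of_eq rfl
      omega
    omega
  have hW' : n ≤ 8 * W'.card := by omega
  -- the blocks
  obtain ⟨F, hF, hdis, hpack⟩ := packing W' (fun w => ({rp w, rp (w * z)} : Finset G)) 2 4
    (fun u _ => Finset.card_le_two) (by
      intro v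
      have hsub : W'.filter (fun u => v ∈ ({rp u, rp (u * z)} : Finset G)) ⊆
          ({v, v⁻¹, v * z⁻¹, v⁻¹ * z⁻¹} : Finset G) := by
        intro u hu
        rw [Finset.mem_filter, Finset.mem_insert, Finset.mem_singleton] at hu
        simp only [Finset.mem_insert, Finset.mem_singleton]
        rcases hu.2 with h | h
        · rcases rp_mem u with h1 | h1
          · left; rw [h, h1]
          · right; left; rw [h, h1, inv_inv]
        · rcases rp_mem (u * z) with h1 | h1
          · right; right; left; rw [h, h1]; group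
          · right; right; right; rw [h, h1]; group
      exact (Finset.card_le_card hsub).trans Finset.card_le_four)
    (fun u _ => ⟨rp u, by simp⟩)
  have hFn : n / 64 ≤ F.card := by omega
  have hprop : ∀ w ∈ F, w ∈ W ∧ w ≠ 1 ∧ w * z ≠ 1 ∧ w * z ≠ w⁻¹ := by
    intro w hw
    have := Finset.mem_filter.1 (hF hw)
    exact this
  have hne : ∀ w ∈ F, rp w ≠ rp (w * z) := by
    intro w hw h
    obtain ⟨-, -, -, h3⟩ := hprop w hw
    rw [rp_eq_iff] at h
    rcases h with h | h
    · apply hz
      have : w * 1 = w * z := by rw [mul_one]; exact h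
      exact (mul_left_cancel this).symm
    · apply h3
      rw [h, inv_inv, ← h]
  -- the good bits
  let A : Finset (G → Bool) :=
    Finset.univ.filter (fun ω : G → Bool => ∀ w ∈ W, sn ω w = sn ω (w * z))
  have hA : ∀ ω ∈ A, ∀ w ∈ F, ω (rp w) = ω (rp (w * z)) := by
    intro ω hω w hw
    obtain ⟨h0, h1, h2, -⟩ := hprop w hw
    have h := (Finset.mem_filter.1 hω).2 w h0
    unfold sn at h
    by_cases e1 : ω (rp w) = true <;> by_cases e2 : ω (rp (w * z)) = true <;>
      simp_all
  let Φ : (G → Bool) × Finset G → (G → Bool) := fun p g =>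
    if ∃ w ∈ p.2, g = rp (w * z) then !(p.1 g) else p.1 g
  have hΦ : ∀ ω ∈ A, ∀ T ⊆ F, ∀ w ∈ F,
      (Φ (ω, T) (rp w) ≠ Φ (ω, T) (rp (w * z)) ↔ w ∈ T) := by
    intro ω hω T hT w hw
    have h1 : ¬ ∃ w' ∈ T, rp w = rp (w' * z) := by
      rintro ⟨w', hw', h⟩
      by_cases e : w' = w
      · rw [e] at h; exact hne w hw h
      · have := hdis w' (hT hw') w hw e
        rw [Finset.disjoint_left] at this
        exact this (a := rp (w' * z)) (by simp) (by simp [← h])
    have h2 : (∃ w' ∈ T, rp (w * z) = rp (w' * z)) ↔ w ∈ T := by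
      constructor
      · rintro ⟨w', hw', h⟩
        by_cases e : w' = w
        · rw [← e]; exact hw'
        · exfalso
          have := hdis w' (hT hw') w hw e
          rw [Finset.disjoint_left] at this
          exact this (a := rp (w' * z)) (by simp) (by simp [← h])
      · intro h
        exact ⟨w, h, rfl⟩
    have h3 : Φ (ω, T) (rp w) = ω (rp w) := if_neg h1
    rw [h3]
    by_cases hwT : w ∈ T
    · have h4 : Φ (ω, T) (rp (w * z)) = !(ω (rp (w * z))) := if_pos (h2.2 hwT)
      rw [h4, ← hA ω hω w hw]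
      simp [hwT]
    · have h4 : Φ (ω, T) (rp (w * z)) = ω (rp (w * z)) := if_neg (fun h => hwT (h2.1 h))
      rw [h4, ← hA ω hω w hw]
      simp [hwT]
  have hinj : Set.InjOn Φ (A ×ˢ F.powerset : Finset _) := by
    rintro ⟨ω, T⟩ h ⟨ω', T'⟩ h' e
    rw [Finset.mem_coe, Finset.mem_product, Finset.mem_powerset] at h h'
    have hT : T = T' := by
      ext w
      constructor
      · intro hw
        have hwF := h.2 hw
        rw [← hΦ ω' h'.1 T' h'.2 w hwF, ← e]
        exact (hΦ ω h.1 T h.2 w hwF).2 hw
      · intro hw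
        have hwF := h'.2 hw
        rw [← hΦ ω h.1 T h.2 w hwF, e]
        exact (hΦ ω' h'.1 T' h'.2 w hwF).2 hw
    subst hT
    refine Prod.ext ?_ rfl
    funext g
    have := congrFun e g
    show ω g = ω' g
    simp only [Φ] at this
    split_ifs at this with hc
    · simpa using this
    · exact this
  have hle : A.card * 2 ^ F.card ≤ 2 ^ n := by
    rw [← Finset.card_powerset, ← Finset.card_product, ← Finset.card_image_of_injOn hinj]
    refine (Finset.card_le_univ _).trans (le_of_eq ?_)
    rw [Fintype.card_fun, Fintype.card_bool]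
  refine le_trans (Nat.mul_le_mul_left _ (Nat.pow_le_pow_right (by norm_num) hFn)) hle

end Pool.RCay
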