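import Pool.Agent.RCay.Basic

/-!
# Module TRANSFER: from bits to connection sets

PAPER PROOF. Every `S ∈ conn G` equals `SS ω` for `ω v = decide (v ∈ S)` (`rp g ∈ {g, g⁻¹}`). For `S, S' ∈ conn G` the map
`ω ↦ ω xor e`, `e v = true` iff `v ≠ 1`, `rp v = v` and exactly one of `v ∈ S`, `v ∈ S'` holds, is a bijection from `{ω | SS ω = S}` to
`{ω | SS ω = S'}`. So all fibres of `SS` over `conn G` have the same number `k ≥ 1` of elements, and
`#{ω | P (SS ω)} = k #{S ∈ conn G | P S}`, `2^n = k #(conn G)`.
-/

namespace Pool.RCay

open scoped Classical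

variable {G : Type} [Group G] [Fintype G]

namespace Transfer

theorem mem_rp {S : Finset G} (hS : S ∈ conn G) (g : G) : rp g ∈ S ↔ g ∈ S := by
  unfold conn at hS
  simp only [Finset.mem_filter, Finset.mem_univ, true_and] at hS
  rcases rp_mem g with h | h
  · rw [h]
  · rw [h]
    constructor
    · intro h1
      have := hS.2 _ h1
      rwa [inv_inv] at this
    · exact hS.2 g

theorem shift_iff {S : Finset G} (hS : S ∈ conn G) (ω : G → Bool) :
    SS (fun v => xor (ω v) (decide (v ∈ S))) = S ↔ SS ω = ∅ := by
  have h1 : (1 : G) ∉ S := by
    unfold conn at hS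
    simp only [Finset.mem_filter, Finset.mem_univ, true_and] at hS
    exact hS.1
  constructor
  · intro h
    rw [Finset.eq_empty_iff_forall_notMem]
    intro g hg
    have hg' := Finset.ext_iff.1 h g
    unfold SS at hg hg'
    simp only [Finset.mem_filter, Finset.mem_univ, true_and] at hg hg'
    by_cases hgS : g ∈ S
    · have := hg'.2 hgS
      have h2 : rp g ∈ S := (mem_rp hS g).2 hgS
      simp [hg.2, h2] at this
    · have h2 : rp g ∉ S := fun h3 => hgS ((mem_rp hS g).1 h3)
      apply hgS
      apply hg'.1
      refine ⟨hg.1, ?_⟩
      simp [hg.2, h2]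
  · intro h
    ext g
    have hg := Finset.eq_empty_iff_forall_notMem.1 h g
    unfold SS at hg ⊢
    simp only [Finset.mem_filter, Finset.mem_univ, true_and, not_and] at hg ⊢
    constructor
    · rintro ⟨h2, h3⟩
      have h4 := hg h2
      have h5 : ω (rp g) = false := by simpa using h4
      rw [h5] at h3
      simp only [Bool.false_bne, decide_eq_true_eq] at h3
      exact (mem_rp hS g).1 h3
    · intro h2
      have h3 : g ≠ 1 := by
        rintro rfl
        exact h1 h2
      refine ⟨h3, ?_⟩
      have h5 : ω (rp g) = false := by simpa using hg h3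
      rw [h5]
      simp only [Bool.false_bne, decide_eq_true_eq]
      exact (mem_rp hS g).2 h2

theorem fibre {S : Finset G} (hS : S ∈ conn G) :
    (Finset.univ.filter (fun ω : G → Bool => SS ω = S)).card =
      (Finset.univ.filter (fun ω : G → Bool => SS ω = ∅)).card := by
  apply Finset.card_bij' (fun ω _ => fun v => xor (ω v) (decide (v ∈ S)))
    (fun ω _ => fun v => xor (ω v) (decide (v ∈ S)))
  · intro ω hω
    simp only [Finset.mem_filter, Finset.mem_univ, true_and] at hω ⊢
    rw [← shift_iff hS]
    have : (fun v => xor (xor (ω v) (decide (v ∈ S))) (decide (v ∈ S))) = ω := by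
      funext v
      simp
    rw [this]
    exact hω
  · intro ω hω
    simp only [Finset.mem_filter, Finset.mem_univ, true_and] at hω ⊢
    exact (shift_iff hS ω).2 hω
  · intro ω _
    funext v
    simp
  · intro ω _
    funext v
    simp

theorem fibre_sum (P : Finset G → Prop) :
    (Finset.univ.filter (fun ω : G → Bool => P (SS ω))).card =
      ((conn G).filter P).card * (Finset.univ.filter (fun ω : G → Bool => SS ω = ∅)).card := by
  rw [Finset.card_eq_sum_card_fiberwise (f := fun ω : G → Bool => SS ω) (t := (conn G).filter P)]
  · rw [Finset.sum_congr rfl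
      (g := fun _ => (Finset.univ.filter (fun ω : G → Bool => SS ω = ∅)).card)]
    · rw [Finset.sum_const, smul_eq_mul]
    · intro S hS
      rw [Finset.mem_filter] at hS
      rw [← fibre hS.1, Finset.filter_filter]
      congr 1
      ext ω
      simp only [Finset.mem_filter, Finset.mem_univ, true_and]
      constructor
      · exact fun h => h.2
      · intro h
        refine ⟨?_, h⟩
        rw [h]
        exact hS.2
  · intro ω hω
    simp only [Finset.coe_filter, Finset.mem_univ, true_and, Set.mem_ofPred_eq] at hω ⊢
    exact ⟨SS_mem_conn ω, hω⟩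

end Transfer

theorem transfer (P : Finset G → Prop) :
    ((conn G).filter P).card * 2 ^ Fintype.card G =
      (Finset.univ.filter (fun ω : G → Bool => P (SS ω))).card * (conn G).card := by
  have h1 := Transfer.fibre_sum P
  have h2 := Transfer.fibre_sum (G := G) (fun _ => True)
  have h3 : 2 ^ Fintype.card G = (conn G).card *
      (Finset.univ.filter (fun ω : G → Bool => SS ω = ∅)).card := by
    have e1 : ∀ (d : DecidablePred (fun _ : Finset G => True)),
        (@Finset.filter _ (fun _ : Finset G => True) d (conn G)) = conn G := by
      intro d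
      ext S
      simp
    have e2 : ∀ (d : DecidablePred (fun _ : G → Bool => True)),
        (@Finset.filter _ (fun _ : G → Bool => True) d Finset.univ) = Finset.univ := by
      intro d
      ext S
      simp
    rw [e1, e2, Finset.card_univ, Fintype.card_fun, Fintype.card_bool] at h2
    exact h2
  rw [h1, h3]
  ring

end Pool.RCay
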