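import Pool.Agent.RCay.Basic

/-!
# Module USELESSUP: for given `(a, u)` only boundedly many `z` are useless

PAPER PROOF. Fix `(a, u)` with `u ≠ 1`, `a u ≠ 1`, `a u ≠ u`, `a u ≠ u⁻¹`. If `¬ Us a z u` then
`mm (z a) u (rp (a u)) = mm a u (rp (a u)) ≥ 1` (the term `h = u`), so for some `h ∈ {u, u⁻¹}` one of
`rp (z a h) = rp (a u)`, `rp ((z a)⁻¹ h) = rp (a u)` holds, i.e. (`rp_eq_iff`) one of the eight equations
`(z a)^{±1} u^{±1} = (a u)^{±1}` holds; each has exactly one solution `z`. So at most `8` values of `z`. There are at most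
`4 n` pairs `(a, u)` with `u = 1` or `a = u⁻¹` or `a = 1` or `a = u⁻¹ u⁻¹`, each with at most `n` values of `z`. Total
`≤ 8 n² + 4 n² = 12 n²`.
-/

namespace Pool.RCay

open scoped Classical

variable {G : Type} [Group G] [Fintype G]

omit [Fintype G] in
theorem uu_sg_sg (e : Bool) (g : G) : sg e (sg e g) = g := by
  cases e <;> simp [sg]

omit [Group G] in
theorem uu_card (P : G × G × G → Prop) (f : G × G × G → G × G)
    (h : ∀ q q', P q → P q' → f q = f q' → q = q') :
    (Finset.univ.filter P).card ≤ Fintype.card G ^ 2 := by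
  have h1 : (Finset.univ.filter P).card ≤ (Finset.univ : Finset (G × G)).card := by
    apply Finset.card_le_card_of_injOn f
    · intro x _
      exact Finset.mem_coe.2 (Finset.mem_univ _)
    · intro q hq q' hq' he
      have hq1 := (Finset.mem_filter.1 (Finset.mem_coe.1 hq)).2
      have hq2 := (Finset.mem_filter.1 (Finset.mem_coe.1 hq')).2
      exact h q q' hq1 hq2 he
  rw [Finset.card_univ, Fintype.card_prod] at h1
  rw [pow_two]
  exact h1

theorem uu_mm_pos (a u : G) : 1 ≤ mm a u (rp (a * u)) := by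
  unfold mm
  have hterm : ∀ h ∈ ({u, u⁻¹} : Finset G),
      (0 : ℤ) ≤ ((if rp (a * h) = rp (a * u) then 1 else 0) +
        (if rp (a⁻¹ * h) = rp (a * u) then 1 else 0)) := by
    intro h _
    split_ifs <;> norm_num
  have h1 := Finset.single_le_sum hterm (Finset.mem_insert_self u {u⁻¹})
  refine le_trans ?_ h1
  rw [if_pos rfl]
  split_ifs <;> norm_num

/-- A useless triple outside the degenerate ones satisfies one of eight equations. -/
theorem uu_key (a z u : G) (h1 : u ≠ 1) (h2 : a * u ≠ 1) (h3 : a * u ≠ u) (h4 : a * u ≠ u⁻¹)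
    (h : ¬ Us a z u) :
    ∃ e : Bool × Bool × Bool, sg e.1 (z * a) * sg e.2.1 u = sg e.2.2 (a * u) := by
  have h5 : mm a u (rp (a * u)) = mm (z * a) u (rp (a * u)) := by
    by_contra h6
    exact h ⟨h1, h2, h3, h4, h6⟩
  have h6 : 0 < mm (z * a) u (rp (a * u)) := by
    rw [← h5]
    have := uu_mm_pos a u
    omega
  unfold mm at h6
  have h7 : ∑ _h ∈ ({u, u⁻¹} : Finset G), (0 : ℤ) < ∑ h ∈ ({u, u⁻¹} : Finset G),
      ((if rp (z * a * h) = rp (a * u) then 1 else 0) +
        (if rp ((z * a)⁻¹ * h) = rp (a * u) then 1 else 0)) := by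
    rw [Finset.sum_const_zero]
    exact h6
  obtain ⟨g, hg, hpos⟩ := Finset.exists_lt_of_sum_lt h7
  have hg' : ∃ e2 : Bool, g = sg e2 u := by
    rw [Finset.mem_insert, Finset.mem_singleton] at hg
    rcases hg with rfl | rfl
    · exact ⟨true, by simp [sg]⟩
    · exact ⟨false, by simp [sg]⟩
  obtain ⟨e2, rfl⟩ := hg'
  have hor : rp (z * a * sg e2 u) = rp (a * u) ∨ rp ((z * a)⁻¹ * sg e2 u) = rp (a * u) := by
    by_contra hcon
    rw [not_or] at hcon
    rw [if_neg hcon.1, if_neg hcon.2] at hpos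
    simp at hpos
  rcases hor with hor | hor
  · rw [rp_eq_iff] at hor
    rcases hor with hor | hor
    · exact ⟨(true, e2, true), by simpa [sg] using hor⟩
    · exact ⟨(true, e2, false), by simpa [sg] using hor⟩
  · rw [rp_eq_iff] at hor
    rcases hor with hor | hor
    · exact ⟨(false, e2, true), by simpa [sg] using hor⟩
    · exact ⟨(false, e2, false), by simpa [sg] using hor⟩

theorem useless_upper :
    (Finset.univ.filter (fun q : G × G × G => ¬ Us q.1 q.2.1 q.2.2)).card ≤ 12 * Fintype.card G ^ 2 := by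
  set n := Fintype.card G with hn
  have hb1 := uu_card (G := G) (fun q => q.2.2 = 1) (fun q => (q.1, q.2.1)) (by
    rintro ⟨a, z, u⟩ ⟨a', z', u'⟩ h h' he
    simp only [Prod.mk.injEq] at h h' he ⊢
    exact ⟨he.1, he.2, by rw [h, h']⟩)
  have hb2 := uu_card (G := G) (fun q => q.1 * q.2.2 = 1) (fun q => (q.2.1, q.2.2)) (by
    rintro ⟨a, z, u⟩ ⟨a', z', u'⟩ h h' he
    simp only [Prod.mk.injEq] at h h' he ⊢
    refine ⟨?_, he.1, he.2⟩
    rw [he.2] at h
    exact mul_right_cancel (h.trans h'.symm))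
  have hb3 := uu_card (G := G) (fun q => q.1 * q.2.2 = q.2.2) (fun q => (q.2.1, q.2.2)) (by
    rintro ⟨a, z, u⟩ ⟨a', z', u'⟩ h h' he
    simp only [Prod.mk.injEq] at h h' he ⊢
    refine ⟨?_, he.1, he.2⟩
    rw [he.2] at h
    exact mul_right_cancel (h.trans h'.symm))
  have hb4 := uu_card (G := G) (fun q => q.1 * q.2.2 = q.2.2⁻¹) (fun q => (q.2.1, q.2.2)) (by
    rintro ⟨a, z, u⟩ ⟨a', z', u'⟩ h h' he
    simp only [Prod.mk.injEq] at h h' he ⊢
    refine ⟨?_, he.1, he.2⟩
    rw [he.2] at h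
    exact mul_right_cancel (h.trans h'.symm))
  have hb5 : ∀ e : Bool × Bool × Bool, (Finset.univ.filter (fun q : G × G × G =>
      sg e.1 (q.2.1 * q.1) * sg e.2.1 q.2.2 = sg e.2.2 (q.1 * q.2.2))).card ≤ n ^ 2 := by
    intro e
    apply uu_card (G := G) _ (fun q => (q.1, q.2.2))
    rintro ⟨a, z, u⟩ ⟨a', z', u'⟩ h h' he
    simp only [Prod.mk.injEq] at h h' he ⊢
    refine ⟨he.1, ?_, he.2⟩
    obtain ⟨he1, he2⟩ := he
    subst he1
    subst he2
    have h3 := mul_right_cancel (h.trans h'.symm)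
    have h4 : sg e.1 (sg e.1 (z * a)) = sg e.1 (sg e.1 (z' * a)) := by rw [h3]
    rw [uu_sg_sg, uu_sg_sg] at h4
    exact mul_right_cancel h4
  have hsub : (Finset.univ.filter (fun q : G × G × G => ¬ Us q.1 q.2.1 q.2.2)) ⊆
      ((((Finset.univ.filter (fun q : G × G × G => q.2.2 = 1)) ∪
        (Finset.univ.filter (fun q : G × G × G => q.1 * q.2.2 = 1))) ∪
        (Finset.univ.filter (fun q : G × G × G => q.1 * q.2.2 = q.2.2))) ∪
        (Finset.univ.filter (fun q : G × G × G => q.1 * q.2.2 = q.2.2⁻¹))) ∪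
      (Finset.univ : Finset (Bool × Bool × Bool)).biUnion (fun e =>
        Finset.univ.filter (fun q : G × G × G =>
          sg e.1 (q.2.1 * q.1) * sg e.2.1 q.2.2 = sg e.2.2 (q.1 * q.2.2))) := by
    rintro ⟨a, z, u⟩ hq
    rw [Finset.mem_filter] at hq
    have hq2 := hq.2
    simp only [Finset.mem_union, Finset.mem_filter, Finset.mem_univ, true_and, Finset.mem_biUnion]
    by_cases h1 : u = 1
    · exact Or.inl (Or.inl (Or.inl (Or.inl h1)))
    by_cases h2 : a * u = 1
    · exact Or.inl (Or.inl (Or.inl (Or.inr h2)))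
    by_cases h3 : a * u = u
    · exact Or.inl (Or.inl (Or.inr h3))
    by_cases h4 : a * u = u⁻¹
    · exact Or.inl (Or.inr h4)
    exact Or.inr (uu_key a z u h1 h2 h3 h4 hq2)
  have h8 : ((Finset.univ : Finset (Bool × Bool × Bool)).biUnion (fun e =>
        Finset.univ.filter (fun q : G × G × G =>
          sg e.1 (q.2.1 * q.1) * sg e.2.1 q.2.2 = sg e.2.2 (q.1 * q.2.2)))).card ≤ 8 * n ^ 2 := by
    refine le_trans (Finset.card_biUnion_le) ?_
    refine le_trans (Finset.sum_le_sum (fun e _ => hb5 e)) ?_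
    rw [Finset.sum_const, Finset.card_univ]
    simp
  have h9 := Finset.card_le_card hsub
  have u1 := Finset.card_union_le ((((Finset.univ.filter (fun q : G × G × G => q.2.2 = 1)) ∪
        (Finset.univ.filter (fun q : G × G × G => q.1 * q.2.2 = 1))) ∪
        (Finset.univ.filter (fun q : G × G × G => q.1 * q.2.2 = q.2.2))) ∪
        (Finset.univ.filter (fun q : G × G × G => q.1 * q.2.2 = q.2.2⁻¹)))
      ((Finset.univ : Finset (Bool × Bool × Bool)).biUnion (fun e =>
        Finset.univ.filter (fun q : G × G × G =>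
          sg e.1 (q.2.1 * q.1) * sg e.2.1 q.2.2 = sg e.2.2 (q.1 * q.2.2))))
  have u2 := Finset.card_union_le (((Finset.univ.filter (fun q : G × G × G => q.2.2 = 1)) ∪
        (Finset.univ.filter (fun q : G × G × G => q.1 * q.2.2 = 1))) ∪
        (Finset.univ.filter (fun q : G × G × G => q.1 * q.2.2 = q.2.2)))
        (Finset.univ.filter (fun q : G × G × G => q.1 * q.2.2 = q.2.2⁻¹))
  have u3 := Finset.card_union_le ((Finset.univ.filter (fun q : G × G × G => q.2.2 = 1)) ∪
        (Finset.univ.filter (fun q : G × G × G => q.1 * q.2.2 = 1)))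
        (Finset.univ.filter (fun q : G × G × G => q.1 * q.2.2 = q.2.2))
  have u4 := Finset.card_union_le (Finset.univ.filter (fun q : G × G × G => q.2.2 = 1))
        (Finset.univ.filter (fun q : G × G × G => q.1 * q.2.2 = 1))
  rw [← hn] at hb1 hb2 hb3 hb4
  omega

end Pool.RCay
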