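import Pool.Agent.RCay.UsefulLow
import Pool.Agent.RCay.UselessUp
import Pool.Agent.RCay.ChooseT
import Pool.Agent.RCay.Extract
import Pool.Agent.RCay.PairBound
import Pool.Agent.RCay.PhaseTwo
import Pool.Agent.RCay.Discrete
import Pool.Agent.RCay.Transfer

/-!
# Assembly of part A
-/

namespace Pool.RCay

open scoped Classical

theorem pow_le_exp (k : ℕ) : ∃ C : ℕ, ∀ n : ℕ, n ^ k ≤ C * 2 ^ (n / 64) := by
  have h := tendsto_pow_const_div_const_pow_of_one_lt k (one_lt_two (α := ℝ))
  obtain ⟨M, hM⟩ := h.bddAbove_range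
  obtain ⟨C, hC⟩ := exists_nat_ge M
  have key : ∀ q : ℕ, q ^ k ≤ C * 2 ^ q := by
    intro q
    have h1 : (q : ℝ) ^ k / 2 ^ q ≤ C := le_trans (hM ⟨q, rfl⟩) hC
    rw [div_le_iff₀ (by positivity)] at h1
    exact_mod_cast h1
  refine ⟨64 ^ k * (C * 2), ?_⟩
  intro n
  calc n ^ k ≤ (64 * (n / 64 + 1)) ^ k := by
        apply Nat.pow_le_pow_left
        omega
    _ = 64 ^ k * (n / 64 + 1) ^ k := by rw [Nat.mul_pow]
    _ ≤ 64 ^ k * (C * 2 ^ (n / 64 + 1)) := Nat.mul_le_mul_left _ (key _)
    _ = 64 ^ k * (C * 2) * 2 ^ (n / 64) := by rw [pow_succ]; ring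

section
variable {G : Type} [Group G] [Fintype G]

/-- The union bound over pairs. -/
theorem card_union_pairs {Ω : Type} [Fintype Ω] (E : G → G → Ω → Prop) (T : ℕ) (M : ℕ)
    (h : ∀ x y, (Finset.univ.filter (fun ω => E x y ω)).card * M ≤ T) :
    (Finset.univ.filter (fun ω => ∃ x y, E x y ω)).card * M ≤ Fintype.card G ^ 2 * T := by
  have h1 : (Finset.univ.filter (fun ω => ∃ x y, E x y ω)) ⊆
      (Finset.univ : Finset (G × G)).biUnion (fun q => Finset.univ.filter (fun ω => E q.1 q.2 ω)) := by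
    intro ω hω
    simp only [Finset.mem_filter, Finset.mem_univ, true_and, Finset.mem_biUnion] at hω ⊢
    obtain ⟨x, y, hxy⟩ := hω
    exact ⟨(x, y), hxy⟩
  calc (Finset.univ.filter (fun ω => ∃ x y, E x y ω)).card * M
      ≤ (∑ q : G × G, (Finset.univ.filter (fun ω => E q.1 q.2 ω)).card) * M :=
        Nat.mul_le_mul_right _ (le_trans (Finset.card_le_card h1) Finset.card_biUnion_le)
    _ = ∑ q : G × G, (Finset.univ.filter (fun ω => E q.1 q.2 ω)).card * M := by
        rw [Finset.sum_mul]
    _ ≤ ∑ q : G × G, T := Finset.sum_le_sum (fun q _ => h q.1 q.2)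
    _ = Fintype.card G ^ 2 * T := by
        rw [Finset.sum_const, Finset.card_univ, Fintype.card_prod, smul_eq_mul, sq]

/-- `x` is good for the individualised vertices `t`. -/
def Good {L R : ℕ} (t : Fin L × Fin R → G) (x : G) : Prop :=
  ∀ z : G, z ≠ 1 → ∀ b : Fin L, ∃ j : Fin R,
    Fintype.card G ≤ 128 * (Finset.univ.filter (fun u : G => Us (x⁻¹ * t (b, j)) z u)).card

/-- The good vertex `x` is not distinguished from `y`. -/
def BadOne {L R : ℕ} (t : Fin L × Fin R → G) (x y : G) (ω : G → Bool) : Prop :=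
  Good t x ∧ y ≠ x ∧ ∀ i : Fin (L * R),
    (Finset.univ.filter (fun v => (cay (SS ω)).Adj x v ∧
      (cay (SS ω)).Adj (t (finProdFinEquiv.symm i)) v)).card =
    (Finset.univ.filter (fun v => (cay (SS ω)).Adj y v ∧
      (cay (SS ω)).Adj (t (finProdFinEquiv.symm i)) v)).card

/-- `y` and `y'` have the same good neighbours. -/
def BadTwo (Gd : G → Prop) (y y' : G) (ω : G → Bool) : Prop :=
  y ≠ y' ∧ ∀ x, Gd x → ((cay (SS ω)).Adj x y ↔ (cay (SS ω)).Adj x y')

/-- The first bad event. -/
theorem bound_one (κ R C1 : ℕ) (t : Fin (8448 * (2 * κ)) × Fin R → G) (ht : Function.Injective t)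
    (hC1 : ∀ (z : G) (a : Fin (2 * κ) → G) (U : Finset G),
      Fintype.card G ≤ 256 * (8448 * (2 * κ)) ^ (2 * κ) * U.card →
      (∀ u ∈ U, ∀ k, Us (a k) z u) →
      (∀ u ∈ U, ∀ k k', k ≠ k' → rp (a k * u) ∉ nb (a k') z u) →
      (Finset.univ.filter (fun ω : G → Bool => ∀ k, ff ω (a k) = ff ω (z * a k))).card *
        Fintype.card G ^ κ ≤ C1 * 2 ^ Fintype.card G) (x y : G) :
    (Finset.univ.filter (fun ω : G → Bool => BadOne t x y ω)).card * Fintype.card G ^ κ ≤
      C1 * 2 ^ Fintype.card G := by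
  by_cases hgood : Good t x ∧ y ≠ x
  · obtain ⟨hg, hyx⟩ := hgood
    have hz : y⁻¹ * x ≠ 1 := by
      intro h
      exact hyx (inv_mul_eq_one.1 h)
    choose j hj using hg (y⁻¹ * x) hz
    have ha : Function.Injective (fun b => x⁻¹ * t (b, j b)) := by
      intro b b' h
      have h1 : t (b, j b) = t (b', j b') := mul_left_cancel h
      exact (Prod.ext_iff.1 (ht h1)).1
    obtain ⟨I, hI, U, hU1, hU2, hU3⟩ := extract (2 * κ) (y⁻¹ * x) (fun b => x⁻¹ * t (b, j b)) ha hj
    refine le_trans (Nat.mul_le_mul_right _ (Finset.card_le_card ?_))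
      (hC1 (y⁻¹ * x) (fun k => x⁻¹ * t (I k, j (I k))) U hU1 hU2 hU3)
    intro ω hω
    simp only [Finset.mem_filter, Finset.mem_univ, true_and] at hω ⊢
    intro k
    have h1 := hω.2.2 (finProdFinEquiv (I k, j (I k)))
    rw [Equiv.symm_apply_apply] at h1
    have h2 := common ω x (t (I k, j (I k)))
    have h3 := common ω y (t (I k, j (I k)))
    rw [h1, h3] at h2
    rw [← h2]
    congr 1
    group
  · have : (Finset.univ.filter (fun ω : G → Bool => BadOne t x y ω)) = ∅ := by
      apply Finset.filter_eq_empty_iff.2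
      rintro ω _ ⟨h1, h2, _⟩
      exact hgood ⟨h1, h2⟩
    rw [this, Finset.card_empty, Nat.zero_mul]
    exact Nat.zero_le _

/-- The second bad event. -/
theorem bound_two (Gd : G → Prop)
    (hG : 16 * (Finset.univ.filter (fun x : G => ¬ Gd x)).card ≤ Fintype.card G)
    (hn : 32 ≤ Fintype.card G) (y y' : G) :
    (Finset.univ.filter (fun ω : G → Bool => BadTwo Gd y y' ω)).card *
      2 ^ (Fintype.card G / 64) ≤ 2 ^ Fintype.card G := by
  by_cases hy : y = y'
  · have : (Finset.univ.filter (fun ω : G → Bool => BadTwo Gd y y' ω)) = ∅ := by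
      apply Finset.filter_eq_empty_iff.2
      rintro ω _ ⟨h1, _⟩
      exact h1 hy
    rw [this, Finset.card_empty, Nat.zero_mul]
    exact Nat.zero_le _
  · have hz : y⁻¹ * y' ≠ 1 := fun h => hy (inv_mul_eq_one.1 h)
    set W : Finset G := (Finset.univ.filter (fun x : G => Gd x)).image (fun x => x⁻¹ * y) with hWdef
    have hW : 16 * (Wᶜ).card ≤ Fintype.card G := by
      refine le_trans (Nat.mul_le_mul_left _ ?_) hG
      have : (Wᶜ).card ≤ ((Finset.univ.filter (fun x : G => ¬ Gd x)).image (fun x => x⁻¹ * y)).card := by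
        apply Finset.card_le_card
        intro w hw
        simp only [hWdef, Finset.mem_compl, Finset.mem_image, Finset.mem_filter, Finset.mem_univ,
          true_and, not_exists, not_and] at hw ⊢
        refine ⟨y * w⁻¹, ?_, by group⟩
        intro h
        exact hw _ h (by group)
      exact le_trans this Finset.card_image_le
    refine le_trans (Nat.mul_le_mul_right _ (Finset.card_le_card ?_)) (phase_two (y⁻¹ * y') hz W hW hn)
    intro ω hω
    simp only [Finset.mem_filter, Finset.mem_univ, true_and] at hω ⊢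
    intro w hw
    simp only [hWdef, Finset.mem_image, Finset.mem_filter, Finset.mem_univ, true_and] at hw
    obtain ⟨x, hx, rfl⟩ := hw
    have h1 := hω.2 x hx
    rw [adj_SS, adj_SS] at h1
    have h2 : x⁻¹ * y * (y⁻¹ * y') = x⁻¹ * y' := by group
    rw [h2]
    rw [sn_eq, sn_eq] at h1 ⊢
    by_cases ha : x⁻¹ * y ∈ SS ω <;> by_cases hb : x⁻¹ * y' ∈ SS ω <;> simp_all

theorem not_inj {L R : ℕ} (t : Fin L × Fin R → G) (ω : G → Bool)
    (h : ¬ Function.Injective (col (cay (SS ω)) (fun i => t (finProdFinEquiv.symm i)) 3)) :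
    (∃ x y, BadOne t x y ω) ∨ ∃ y y', BadTwo (Good t) y y' ω := by
  by_contra hcon
  apply h
  refine discrete (cay (SS ω)) _ {x | Good t x} ?_ ?_
  · intro x hx y hyx
    by_contra h2
    push Not at h2
    exact hcon (Or.inl ⟨x, y, hx, hyx, h2⟩)
  · intro y y' hyy
    by_contra h2
    push Not at h2
    refine hcon (Or.inr ⟨y, y', hyy, fun x hx => ?_⟩)
    have := h2 x hx
    tauto

end

theorem part_a (A : ℕ) : ∃ r C : ℕ, ∀ (G : Type) [Group G] [Fintype G], ∃ t : Fin r → G,
    ((conn G).filter (fun S => ¬ Function.Injective (col (cay S) t 3))).card * Fintype.card G ^ A ≤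
      C * (conn G).card := by
  obtain ⟨R, n₀, hR, hT⟩ := chooseT (8448 * (2 * (A + 2))) (by omega)
  obtain ⟨C1, hC1⟩ := pair_bound (A + 2) (256 * (8448 * (2 * (A + 2))) ^ (2 * (A + 2)))
  obtain ⟨C2, hC2⟩ := pow_le_exp (A + 2)
  refine ⟨8448 * (2 * (A + 2)) * R, C1 + C2 + (max n₀ 256) ^ A, ?_⟩
  intro G _ _
  by_cases hbig : max n₀ 256 ≤ Fintype.card G
  · have hn0 : n₀ ≤ Fintype.card G := le_trans (le_max_left _ _) hbig
    have hn1 : 256 ≤ Fintype.card G := le_trans (le_max_right _ _) hbig
    obtain ⟨t, ht, hgood0⟩ := hT G Us hn0 (fun z hz => useful_lower z hz hn1) useless_upper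
    have hgood : 16 * (Finset.univ.filter (fun x : G => ¬ Good t x)).card ≤ Fintype.card G := by
      unfold Good
      convert hgood0
    clear hgood0
    refine ⟨fun i => t (finProdFinEquiv.symm i), ?_⟩
    have hE1 := card_union_pairs (G := G) (fun x y ω => BadOne t x y ω) _ _
      (bound_one (A + 2) R C1 t ht (fun z a U h1 h2 h3 => hC1 G z a U h1 h2 h3))
    have hE2 := card_union_pairs (G := G) (fun y y' ω => BadTwo (Good t) y y' ω) _ _
      (bound_two (Good t) hgood (by omega))
    have hunion : (Finset.univ.filter (fun ω : G → Bool => ¬ Function.Injective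
        (col (cay (SS ω)) (fun i => t (finProdFinEquiv.symm i)) 3))).card ≤
        (Finset.univ.filter (fun ω : G → Bool => ∃ x y, BadOne t x y ω)).card +
        (Finset.univ.filter (fun ω : G → Bool => ∃ y y', BadTwo (Good t) y y' ω)).card := by
      refine le_trans (Finset.card_le_card ?_) (Finset.card_union_le _ _)
      intro ω hω
      simp only [Finset.mem_filter, Finset.mem_univ, true_and, Finset.mem_union] at hω ⊢
      exact not_inj t ω hω
    have hnpos : 0 < Fintype.card G := by omega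
    have htr : ((conn G).filter (fun S => ¬ Function.Injective
        (col (cay S) (fun i => t (finProdFinEquiv.symm i)) 3))).card * 2 ^ Fintype.card G =
        (Finset.univ.filter (fun ω : G → Bool => ¬ Function.Injective
        (col (cay (SS ω)) (fun i => t (finProdFinEquiv.symm i)) 3))).card * (conn G).card := by
      convert transfer (G := G) (fun S => ¬ Function.Injective
        (col (cay S) (fun i => t (finProdFinEquiv.symm i)) 3))
    generalize Fintype.card G = n at *
    have hb1 : (Finset.univ.filter (fun ω : G → Bool => ∃ x y, BadOne t x y ω)).card * n ^ A ≤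
        C1 * 2 ^ n := by
      refine Nat.le_of_mul_le_mul_right (?_ : _ * n ^ 2 ≤ _ * n ^ 2) (by positivity)
      calc (Finset.univ.filter (fun ω : G → Bool => ∃ x y, BadOne t x y ω)).card * n ^ A * n ^ 2
          = (Finset.univ.filter (fun ω : G → Bool => ∃ x y, BadOne t x y ω)).card * n ^ (A + 2) := by
            rw [pow_add]; ring
        _ ≤ n ^ 2 * (C1 * 2 ^ n) := hE1
        _ = C1 * 2 ^ n * n ^ 2 := by ring
    have hb2 : (Finset.univ.filter (fun ω : G → Bool => ∃ y y', BadTwo (Good t) y y' ω)).card *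
        n ^ A ≤ C2 * 2 ^ n := by
      refine Nat.le_of_mul_le_mul_right (?_ : _ * 2 ^ (n / 64) ≤ _ * 2 ^ (n / 64)) (by positivity)
      calc (Finset.univ.filter (fun ω : G → Bool => ∃ y y', BadTwo (Good t) y y' ω)).card *
            n ^ A * 2 ^ (n / 64)
          = ((Finset.univ.filter (fun ω : G → Bool => ∃ y y', BadTwo (Good t) y y' ω)).card *
            2 ^ (n / 64)) * n ^ A := by ring
        _ ≤ (n ^ 2 * 2 ^ n) * n ^ A := Nat.mul_le_mul_right _ hE2
        _ = n ^ (A + 2) * 2 ^ n := by rw [pow_add]; ring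
        _ ≤ (C2 * 2 ^ (n / 64)) * 2 ^ n := Nat.mul_le_mul_right _ (hC2 n)
        _ = C2 * 2 ^ n * 2 ^ (n / 64) := by ring
    generalize ((conn G).filter (fun S => ¬ Function.Injective
      (col (cay S) (fun i => t (finProdFinEquiv.symm i)) 3))).card = p at *
    generalize (Finset.univ.filter (fun ω : G → Bool => ¬ Function.Injective
        (col (cay (SS ω)) (fun i => t (finProdFinEquiv.symm i)) 3))).card = q at *
    refine Nat.le_of_mul_le_mul_right (?_ : _ * 2 ^ n ≤ _ * 2 ^ n) (by positivity)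
    calc p * n ^ A * 2 ^ n = (p * 2 ^ n) * n ^ A := by ring
      _ = (q * (conn G).card) * n ^ A := by rw [htr]
      _ = (q * n ^ A) * (conn G).card := by ring
      _ ≤ (C1 * 2 ^ n + C2 * 2 ^ n) * (conn G).card := by
          apply Nat.mul_le_mul_right
          refine le_trans (Nat.mul_le_mul_right _ hunion) ?_
          rw [Nat.add_mul]
          exact Nat.add_le_add hb1 hb2
      _ = (C1 + C2) * (conn G).card * 2 ^ n := by ring
      _ ≤ (C1 + C2 + (max n₀ 256) ^ A) * (conn G).card * 2 ^ n := by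
          apply Nat.mul_le_mul_right
          apply Nat.mul_le_mul_right
          omega
  · push Not at hbig
    refine ⟨fun _ => 1, ?_⟩
    have h1 : Fintype.card G ^ A ≤ (max n₀ 256) ^ A := Nat.pow_le_pow_left hbig.le A
    have h2 : ((conn G).filter (fun S => ¬ Function.Injective (col (cay S)
      (fun _ : Fin (8448 * (2 * (A + 2)) * R) => (1 : G)) 3))).card ≤ (conn G).card :=
      Finset.card_filter_le _ _
    calc _ ≤ (conn G).card * (max n₀ 256) ^ A := Nat.mul_le_mul h2 h1
      _ = (max n₀ 256) ^ A * (conn G).card := Nat.mul_comm _ _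
      _ ≤ _ := Nat.mul_le_mul_right _ (Nat.le_add_left _ _)

end Pool.RCay
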