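import Pool.Agent.RCay.Lower
import Pool.Agent.RCay.Basic

/-!
# Transport of the lower bound to a multiplicative group
-/

namespace Pool.RCay

open scoped Classical

/-- The connection set. -/
noncomputable def cset (m : ℕ) : Finset (Multiplicative (CV m)) :=
  Finset.univ.filter (fun g => ∃ i, (Multiplicative.toAdd g).1 = ev i ∧ (Multiplicative.toAdd g).2.1 i = 0)

theorem neg_CV {m : ℕ} (x : CV m) : -x = x := by
  refine Prod.ext ?_ (Subtype.ext ?_)
  · funext i
    exact ZMod.neg_eq_self_mod_two _
  · funext i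
    exact ZMod.neg_eq_self_mod_two _

theorem cset_mem_conn (m : ℕ) : cset m ∈ conn (Multiplicative (CV m)) := by
  unfold conn cset
  simp only [Finset.mem_filter, Finset.mem_univ, true_and, not_exists, not_and]
  refine ⟨?_, ?_⟩
  · intro i hi
    exact absurd hi.symm (ev_ne_zero i)
  · intro g hg
    have : Multiplicative.toAdd g⁻¹ = Multiplicative.toAdd g := by
      rw [toAdd_inv, neg_CV]
    rw [this]
    exact hg

theorem adj_cset {m : ℕ} (x y : Multiplicative (CV m)) :
    (cay (cset m)).Adj x y ↔ (cfi (m := m) 0).Adj (Multiplicative.toAdd x) (Multiplicative.toAdd y) := by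
  rw [adj_cay (cset_mem_conn m), adj_cfi sym_zero]
  unfold cset
  simp only [Finset.mem_filter, Finset.mem_univ, true_and, toAdd_mul, toAdd_inv, neg_CV]
  constructor
  · rintro ⟨i, h1, h2⟩
    refine ⟨i, ?_, ?_⟩
    · rw [← h1]
      simp only [Prod.fst_add]
      rw [← add_assoc]
      have : (Multiplicative.toAdd x).1 + (Multiplicative.toAdd x).1 = 0 := by
        funext l
        exact CharTwo.add_self_eq_zero _
      rw [this, zero_add]
    · exact h2
  · rintro ⟨i, h1, h2⟩
    refine ⟨i, ?_, ?_⟩
    · simp only [Prod.fst_add]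
      rw [h1, ← add_assoc]
      have : (Multiplicative.toAdd x).1 + (Multiplicative.toAdd x).1 = 0 := by
        funext l
        exact CharTwo.add_self_eq_zero _
      rw [this, zero_add]
    · exact h2

theorem part_c (m : ℕ) (hm : 4 ≤ m) : ∃ (G : Type) (_ : CommGroup G) (_ : Fintype G),
    (∀ g : G, g * g = 1) ∧ Fintype.card G = 2 ^ (2 * m - 1) ∧ ∃ S ∈ conn G, ∃ Y : SimpleGraph G,
      IsEmpty (cay S ≃g Y) ∧ ∀ k : ℕ, k * (m - 1) ≤ (m - 2) * 2 ^ (m - 1) →
        ∀ u : Fin k → G, ∃ u' : Fin k → G, ∀ j, cols (cay S) u j = cols Y u' j := by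
  obtain ⟨Y, hY, hcols⟩ := lower hm
  let e : cay (cset m) ≃g cfi (m := m) 0 :=
    { toEquiv := Multiplicative.toAdd
      map_rel_iff' := by
        intro x y
        exact (adj_cset x y).symm }
  let Y' : SimpleGraph (Multiplicative (CV m)) := Y.comap (Multiplicative.toAdd : Multiplicative (CV m) ≃ CV m)
  let f : Y' ≃g Y := SimpleGraph.Iso.comap (Multiplicative.toAdd : Multiplicative (CV m) ≃ CV m) Y
  refine ⟨Multiplicative (CV m), inferInstance, inferInstance, ?_, ?_, cset m, cset_mem_conn m, Y', ?_, ?_⟩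
  · intro g
    have : g⁻¹ = g := by
      apply Multiplicative.toAdd.injective
      rw [toAdd_inv, neg_CV]
    calc g * g = g⁻¹ * g := by rw [this]
      _ = 1 := inv_mul_cancel g
  · rw [Fintype.card_multiplicative, Fintype.card_prod, card_EV (by omega)]
    simp only [Fintype.card_pi, ZMod.card, Finset.prod_const, Finset.card_univ, Fintype.card_fin]
    rw [← pow_add]
    congr 1
    omega
  · refine ⟨fun φ => hY.false ?_⟩
    exact (e.symm.trans φ).trans f
  · intro k hk u
    obtain ⟨u', hu'⟩ := hcols k hk (fun i => e (u i))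
    refine ⟨fun i => f.symm (u' i), fun j => ?_⟩
    rw [← cols_iso e u j, hu' j, cols_iso f.symm u' j]

end Pool.RCay
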