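import Pool.Agent.RCay.NDefs
import Pool.Agent.RCay.Avg
import Pool.Agent.RCay.PhaseTwo

/-!
# Module PHASEN: two vertices are distinguished by their adjacency to a large set, smoothed version

PAPER PROOF. As in `phase_two` (PhaseTwo.lean; copy the construction of `F` from there) there is `F ⊆ W` with `n/64 ≤ |F|`,
`w ≠ 1`, `w z ≠ 1`, `rp w ≠ rp (w z)` for `w ∈ F` and pairwise disjoint blocks `{rp w, rp (w z)}`. If `θ` is in the set, then for all
`w ∈ F` the indicator `g w θ` of `nmix b θ (rp w) = nmix b θ (rp (w z))` is `1`. `g w` depends only on the bits of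
`{rp w, rp (w z)} ×ˢ univ`; these blocks are disjoint, so by `avg_prod` the number is at most
`2^{(s+1) n} ∏_w (average of g w)`, and the average of `g w` is at most `1 - (1/2)^{2 (s+1)}`, because `g w θ = 0` when the `2 (s+1)`
bits of the block are all `false` except the bit `(rp (w z), last s)` (that is a proportion `2^{-2(s+1)}` of all `θ`).
-/

namespace Pool.RCay

open scoped Classical

variable {G : Type} [Group G] [Fintype G]

theorem avg_prod_dec {V : Type} [Fintype V] [DecidableEq V] {ι : Type} (s : Finset ι)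
    (B : ι → Finset V)
    (hB : ∀ i ∈ s, ∀ j ∈ s, i ≠ j → Disjoint (B i) (B j)) (g : ι → (V → Bool) → ℝ)
    (hg : ∀ i ∈ s, ∀ ω ω' : V → Bool, (∀ v ∈ B i, ω v = ω' v) → g i ω = g i ω') :
    (∑ ω : V → Bool, ∏ i ∈ s, g i ω) * (2 ^ Fintype.card V) ^ s.card =
      2 ^ Fintype.card V * ∏ i ∈ s, ∑ ω : V → Bool, g i ω := by
  have e : ‹DecidableEq V› = (fun a b => Classical.propDecidable (a = b)) := Subsingleton.elim _ _
  subst e
  exact avg_prod s B hB g hg

theorem card_pattern {V : Type} [Fintype V] [DecidableEq V] (B : Finset V) (c : V → Bool) :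
    (Finset.univ.filter (fun θ : V → Bool => ∀ v ∈ B, θ v = c v)).card * 2 ^ B.card =
      2 ^ Fintype.card V := by
  have h1 : Finset.univ.filter (fun θ : V → Bool => ∀ v ∈ B, θ v = c v) =
      Fintype.piFinset (fun v => if v ∈ B then ({c v} : Finset Bool) else Finset.univ) := by
    ext θ
    simp only [Finset.mem_filter, Finset.mem_univ, true_and, Fintype.mem_piFinset]
    refine forall_congr' fun v => ?_
    by_cases h : v ∈ B <;> simp [h]
  have h2 : (2 : ℕ) ^ B.card = ∏ v, if v ∈ B then 2 else 1 := by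
    rw [Finset.prod_ite_mem, Finset.univ_inter, Finset.prod_const]
  rw [h1, Fintype.card_piFinset, h2, ← Finset.prod_mul_distrib, ← Finset.card_univ,
    ← Finset.prod_const]
  refine Finset.prod_congr rfl fun v _ => ?_
  by_cases h : v ∈ B <;> simp [h]

/-- the extraction of the disjoint blocks, as in `phase_two` -/
theorem blocks_two (z : G) (hz : z ≠ 1) (W : Finset G) (hW : 16 * (Wᶜ).card ≤ Fintype.card G)
    (hn : 32 ≤ Fintype.card G) :
    ∃ F : Finset G, Fintype.card G / 64 ≤ F.card ∧
      (∀ w ∈ F, w ∈ W ∧ w ≠ 1 ∧ w * z ≠ 1 ∧ w * z ≠ w⁻¹) ∧ (∀ w ∈ F, rp w ≠ rp (w * z)) ∧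
      ∀ u ∈ F, ∀ v ∈ F, u ≠ v →
        Disjoint ({rp u, rp (u * z)} : Finset G) ({rp v, rp (v * z)} : Finset G) := by
  set n := Fintype.card G with hndef
  let W' : Finset G := W.filter (fun w => w ≠ 1 ∧ w * z ≠ 1 ∧ w * z ≠ w⁻¹)
  -- the size of `W'`
  have hWc : W.card + (Wᶜ).card = n := Finset.card_add_card_compl W
  have hsq := sqrt_count z hz
  have hsub : W ⊆ W' ∪ (({1} : Finset G) ∪ {z⁻¹} ∪
      (Finset.univ.filter (fun v : G => v * v = z)).image (fun v => v * z⁻¹)) := by
    intro w hw
    by_cases h1 : w = 1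
    · simp [h1]
    by_cases h2 : w * z = 1
    · have : w = z⁻¹ := eq_inv_of_mul_eq_one_left h2
      simp [this]
    by_cases h3 : w * z = w⁻¹
    · rw [Finset.mem_union]
      right
      rw [Finset.mem_union]
      right
      rw [Finset.mem_image]
      refine ⟨w * z, ?_, by group⟩
      rw [Finset.mem_filter]
      refine ⟨Finset.mem_univ _, ?_⟩
      rw [h3]
      calc w⁻¹ * w⁻¹ = w⁻¹ * (w * z) := by rw [h3]
        _ = z := by group
    · rw [Finset.mem_union]
      left
      exact Finset.mem_filter.2 ⟨hw, h1, h2, h3⟩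
  have hcard : W.card ≤ W'.card + (1 + 1 + rt z) := by
    refine (Finset.card_le_card hsub).trans ((Finset.card_union_le _ _).trans ?_)
    have h3 : (({1} : Finset G) ∪ {z⁻¹} ∪
      (Finset.univ.filter (fun v : G => v * v = z)).image (fun v => v * z⁻¹)).card ≤
        1 + 1 + rt z := by
      refine (Finset.card_union_le _ _).trans ?_
      have h4 : (({1} : Finset G) ∪ {z⁻¹}).card ≤ 1 + 1 :=
        (Finset.card_union_le _ _).trans (by simp)
      have h5 : ((Finset.univ.filter (fun v : G => v * v = z)).image (fun v => v * z⁻¹)).card ≤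
          rt z := by
        refine Finset.card_image_le.trans ?_
        exact le_of_eq rfl
      omega
    omega
  have hW' : n ≤ 8 * W'.card := by omega
  -- the blocks
  obtain ⟨F, hF, hdis, hpack⟩ := packing W' (fun w => ({rp w, rp (w * z)} : Finset G)) 2 4
    (fun u _ => Finset.card_le_two) (by
      intro v
      have hsub : W'.filter (fun u => v ∈ ({rp u, rp (u * z)} : Finset G)) ⊆
          ({v, v⁻¹, v * z⁻¹, v⁻¹ * z⁻¹} : Finset G) := by
        intro u hu
        rw [Finset.mem_filter, Finset.mem_insert, Finset.mem_singleton] at hu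
        simp only [Finset.mem_insert, Finset.mem_singleton]
        rcases hu.2 with h | h
        · rcases rp_mem u with h1 | h1
          · left; rw [h, h1]
          · right; left; rw [h, h1, inv_inv]
        · rcases rp_mem (u * z) with h1 | h1
          · right; right; left; rw [h, h1]; group
          · right; right; right; rw [h, h1]; group
      exact (Finset.card_le_card hsub).trans Finset.card_le_four)
    (fun u _ => ⟨rp u, by simp⟩)
  have hFn : n / 64 ≤ F.card := by omega
  have hprop : ∀ w ∈ F, w ∈ W ∧ w ≠ 1 ∧ w * z ≠ 1 ∧ w * z ≠ w⁻¹ := by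
    intro w hw
    have := Finset.mem_filter.1 (hF hw)
    exact this
  have hne : ∀ w ∈ F, rp w ≠ rp (w * z) := by
    intro w hw h
    obtain ⟨-, -, -, h3⟩ := hprop w hw
    rw [rp_eq_iff] at h
    rcases h with h | h
    · apply hz
      have : w * 1 = w * z := by rw [mul_one]; exact h
      exact (mul_left_cancel this).symm
    · apply h3
      rw [h, inv_inv, ← h]
  exact ⟨F, hFn, hprop, hne, hdis⟩

theorem phase_two_n (s : ℕ) (z : G) (hz : z ≠ 1) (W : Finset G)
    (hW : 16 * (Wᶜ).card ≤ Fintype.card G) (hn : 32 ≤ Fintype.card G) (b : G → Bool) :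
    ((Finset.univ.filter (fun θ : G × Fin (s + 1) → Bool =>
      ∀ w ∈ W, sn (nmix b θ) w = sn (nmix b θ) (w * z))).card : ℝ) ≤
      (1 - (1 / 2) ^ (2 * (s + 1))) ^ (Fintype.card G / 64) * 2 ^ ((s + 1) * Fintype.card G) := by
  obtain ⟨F, hFn, hprop, hne, hdis⟩ := blocks_two z hz W hW hn
  set n := Fintype.card G with hndef
  set δ : ℝ := (1 / 2) ^ (2 * (s + 1)) with hδ
  have hδ0 : 0 ≤ δ := by positivity
  have hδ1 : δ ≤ 1 := by rw [hδ]; exact pow_le_one₀ (by norm_num) (by norm_num)
  obtain ⟨N, hNdef⟩ : ∃ N, Fintype.card (G × Fin (s + 1)) = N := ⟨_, rfl⟩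
  have hN : N = (s + 1) * n := by
    rw [← hNdef, Fintype.card_prod, Fintype.card_fin, mul_comm]
  let B : G → Finset (G × Fin (s + 1)) := fun w =>
    ({rp w, rp (w * z)} : Finset G) ×ˢ (Finset.univ : Finset (Fin (s + 1)))
  let g : G → (G × Fin (s + 1) → Bool) → ℝ := fun w θ =>
    if nmix b θ (rp w) = nmix b θ (rp (w * z)) then 1 else 0
  have hBdis : ∀ i ∈ F, ∀ j ∈ F, i ≠ j → Disjoint (B i) (B j) := by
    intro i hi j hj hij
    exact Finset.disjoint_product.2 (Or.inl (hdis i hi j hj hij))
  have hnm : ∀ (v : G) (θ θ' : G × Fin (s + 1) → Bool), (∀ i, θ (v, i) = θ' (v, i)) →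
      nmix b θ v = nmix b θ' v := by
    intro v θ θ' h
    unfold nmix
    simp only [h]
  have hgB : ∀ i ∈ F, ∀ θ θ' : G × Fin (s + 1) → Bool, (∀ v ∈ B i, θ v = θ' v) →
      g i θ = g i θ' := by
    intro i _ θ θ' h
    have h1 := hnm (rp i) θ θ' (fun j => h _ (by simp [B]))
    have h2 := hnm (rp (i * z)) θ θ' (fun j => h _ (by simp [B]))
    simp only [g, h1, h2]
  have hcard : ∀ w ∈ F, (B w).card = 2 * (s + 1) := by
    intro w hw
    simp only [B]
    rw [Finset.card_product, Finset.card_pair (hne w hw), Finset.card_univ, Fintype.card_fin]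
  -- the average of `g w`
  have havg : ∀ w ∈ F, ∑ θ, g w θ ≤ (1 - δ) * 2 ^ N := by
    intro w hw
    let c : G × Fin (s + 1) → Bool := fun p => decide (p = (rp (w * z), Fin.last s))
    have h1 := card_pattern (B w) c
    rw [hcard w hw, hNdef] at h1
    set P := Finset.univ.filter (fun θ : G × Fin (s + 1) → Bool => ∀ v ∈ B w, θ v = c v) with hP
    have h1' : (P.card : ℝ) * 2 ^ (2 * (s + 1)) = 2 ^ N := by
      have := congrArg (Nat.cast (R := ℝ)) h1
      push_cast at this
      exact this
    have h2 : (P.card : ℝ) = δ * 2 ^ N := by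
      rw [← h1', hδ, one_div, inv_pow]
      field_simp
    have h3 : ∀ θ ∈ P, g w θ = 0 := by
      intro θ hθ
      rw [hP, Finset.mem_filter] at hθ
      have hθ := hθ.2
      have e1 : nmix b θ (rp w) = false := by
        have hc : ∀ i : Fin (s + 1), θ (rp w, i) = false := by
          intro i
          rw [hθ _ (by simp [B])]
          simp only [c, decide_eq_false_iff_not, Prod.mk.injEq, not_and]
          intro h
          exact absurd h (hne w hw)
        unfold nmix
        rw [if_pos (fun i => hc _), hc]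
      have e2 : nmix b θ (rp (w * z)) = true := by
        have hc : ∀ i : Fin (s + 1), θ (rp (w * z), i) = decide (i = Fin.last s) := by
          intro i
          rw [hθ _ (by simp [B])]
          simp [c]
        unfold nmix
        rw [if_pos (fun i => by
          rw [hc]
          simp only [decide_eq_false_iff_not]
          exact (Fin.castSucc_lt_last i).ne), hc]
        simp
      simp only [g]
      rw [e1, e2]
      simp
    have h4 : ∑ θ, g w θ ≤ ∑ θ : G × Fin (s + 1) → Bool, if θ ∈ P then (0 : ℝ) else 1 := by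
      refine Finset.sum_le_sum fun θ _ => ?_
      by_cases hθ : θ ∈ P
      · rw [if_pos hθ, h3 θ hθ]
      · rw [if_neg hθ]
        simp only [g]
        split_ifs <;> norm_num
    have h5 : (∑ θ : G × Fin (s + 1) → Bool, if θ ∈ P then (0 : ℝ) else 1) = 2 ^ N - P.card := by
      have : ∀ θ : G × Fin (s + 1) → Bool, (if θ ∈ P then (0 : ℝ) else 1) =
          1 - if θ ∈ P then 1 else 0 := by
        intro θ
        split_ifs <;> norm_num
      rw [Finset.sum_congr rfl (fun θ _ => this θ), Finset.sum_sub_distrib]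
      simp [← hNdef]
    rw [h5, h2] at h4
    linarith
  have hmain := avg_prod_dec F B hBdis g hgB
  rw [hNdef] at hmain
  have hle : (∑ θ : G × Fin (s + 1) → Bool, ∏ i ∈ F, g i θ) ≤ 2 ^ N * (1 - δ) ^ F.card := by
    have h2N : (0 : ℝ) < (2 ^ N) ^ F.card := by positivity
    have h1 : ∏ i ∈ F, ∑ θ, g i θ ≤ ∏ _i ∈ F, ((1 - δ) * 2 ^ N) :=
      Finset.prod_le_prod (fun i _ => Finset.sum_nonneg fun θ _ => by
        simp only [g]; split_ifs <;> norm_num) havg
    rw [Finset.prod_const, mul_pow] at h1
    have h3 : (∑ θ : G × Fin (s + 1) → Bool, ∏ i ∈ F, g i θ) * (2 ^ N) ^ F.card ≤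
        (2 ^ N * (1 - δ) ^ F.card) * (2 ^ N) ^ F.card := by
      rw [hmain]
      calc (2 : ℝ) ^ N * ∏ i ∈ F, ∑ θ, g i θ ≤
          2 ^ N * ((1 - δ) ^ F.card * (2 ^ N) ^ F.card) :=
            mul_le_mul_of_nonneg_left h1 (by positivity)
        _ = _ := by ring
    exact le_of_mul_le_mul_right h3 h2N
  have hset : ((Finset.univ.filter (fun θ : G × Fin (s + 1) → Bool =>
      ∀ w ∈ W, sn (nmix b θ) w = sn (nmix b θ) (w * z))).card : ℝ) ≤
      ∑ θ : G × Fin (s + 1) → Bool, ∏ i ∈ F, g i θ := by
    rw [Finset.card_filter, Nat.cast_sum]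
    refine Finset.sum_le_sum fun θ _ => ?_
    by_cases h : ∀ w ∈ W, sn (nmix b θ) w = sn (nmix b θ) (w * z)
    · rw [if_pos h, Nat.cast_one]
      refine le_of_eq ?_
      symm
      refine Finset.prod_eq_one fun w hw => ?_
      obtain ⟨h0, h1, h2, -⟩ := hprop w hw
      have h3 := h w h0
      unfold sn at h3
      simp only [g]
      rw [if_pos]
      by_cases e1 : nmix b θ (rp w) = true <;> by_cases e2 : nmix b θ (rp (w * z)) = true <;>
        simp_all
    · rw [if_neg h, Nat.cast_zero]
      refine Finset.prod_nonneg fun w _ => ?_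
      simp only [g]; split_ifs <;> norm_num
  refine hset.trans (hle.trans ?_)
  rw [hN, mul_comm]
  refine mul_le_mul_of_nonneg_right ?_ (by positivity)
  exact pow_le_pow_of_le_one (by linarith) (by linarith) hFn

end Pool.RCay
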