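import Pool.Agent.RCay.PartA
import Pool.Agent.RCay.PairN
import Pool.Agent.RCay.PhaseN
import Pool.Agent.RCay.Mixture

/-!
# Assembly of the smoothed version
-/

namespace Pool.RCay

open scoped Classical

theorem pow_mul_pow_le (k : ℕ) (γ : ℝ) (h0 : 0 < γ) (h1 : γ < 1) :
    ∃ C : ℕ, ∀ n : ℕ, (n : ℝ) ^ k * γ ^ (n / 64) ≤ C := by
  have hr : 1 < γ⁻¹ := (one_lt_inv₀ h0).2 h1
  have h := tendsto_pow_const_div_const_pow_of_one_lt k hr
  obtain ⟨M, hM⟩ := h.bddAbove_range
  have key : ∀ q : ℕ, (q : ℝ) ^ k * γ ^ q ≤ M := by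
    intro q
    have h1 := hM ⟨q, rfl⟩
    simp only [inv_pow, div_inv_eq_mul] at h1
    exact h1
  obtain ⟨C, hC⟩ := exists_nat_ge (64 ^ k * (M * γ⁻¹))
  refine ⟨C, fun n => le_trans ?_ hC⟩
  have hn : (n : ℝ) ≤ 64 * ((n / 64 + 1 : ℕ) : ℝ) := by
    have : n ≤ 64 * (n / 64 + 1) := by omega
    exact_mod_cast this
  calc (n : ℝ) ^ k * γ ^ (n / 64) ≤ (64 * ((n / 64 + 1 : ℕ) : ℝ)) ^ k * γ ^ (n / 64) := by
        apply mul_le_mul_of_nonneg_right _ (by positivity)
        exact pow_le_pow_left₀ (by positivity) hn k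
    _ = 64 ^ k * ((((n / 64 + 1 : ℕ) : ℝ) ^ k * γ ^ (n / 64 + 1)) * γ⁻¹) := by
        rw [mul_pow, pow_succ γ]
        field_simp
    _ ≤ 64 ^ k * (M * γ⁻¹) := by
        apply mul_le_mul_of_nonneg_left _ (by positivity)
        exact mul_le_mul_of_nonneg_right (key _) (by positivity)

section
variable {G : Type} [Group G] [Fintype G]

theorem card_union_pairs_real {Ω : Type} [Fintype Ω] (E : G → G → Ω → Prop) (T : ℝ)
    (h : ∀ x y, ((Finset.univ.filter (fun ω => E x y ω)).card : ℝ) ≤ T) :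
    ((Finset.univ.filter (fun ω => ∃ x y, E x y ω)).card : ℝ) ≤ (Fintype.card G : ℝ) ^ 2 * T := by
  have h1 : (Finset.univ.filter (fun ω => ∃ x y, E x y ω)) ⊆
      (Finset.univ : Finset (G × G)).biUnion (fun q => Finset.univ.filter (fun ω => E q.1 q.2 ω)) := by
    intro ω hω
    simp only [Finset.mem_filter, Finset.mem_univ, true_and, Finset.mem_biUnion] at hω ⊢
    obtain ⟨x, y, hxy⟩ := hω
    exact ⟨(x, y), hxy⟩
  calc ((Finset.univ.filter (fun ω => ∃ x y, E x y ω)).card : ℝ)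
      ≤ ((∑ q : G × G, (Finset.univ.filter (fun ω => E q.1 q.2 ω)).card : ℕ) : ℝ) := by
        exact_mod_cast (le_trans (Finset.card_le_card h1) Finset.card_biUnion_le)
    _ = ∑ q : G × G, ((Finset.univ.filter (fun ω => E q.1 q.2 ω)).card : ℝ) := by
        push_cast
        rfl
    _ ≤ ∑ q : G × G, T := Finset.sum_le_sum (fun q _ => h q.1 q.2)
    _ = (Fintype.card G : ℝ) ^ 2 * T := by
        rw [Finset.sum_const, Finset.card_univ, Fintype.card_prod, nsmul_eq_mul]
        push_cast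
        ring

/-- The first bad event, smoothed. -/
theorem bound_one_n (κ R C1 s : ℕ) (t : Fin (8448 * (2 * κ)) × Fin R → G)
    (ht : Function.Injective t) (b : G → Bool)
    (hC1 : ∀ (z : G) (a : Fin (2 * κ) → G) (U : Finset G),
      Fintype.card G ≤ 256 * (8448 * (2 * κ)) ^ (2 * κ) * U.card →
      (∀ u ∈ U, ∀ k, Us (a k) z u) →
      (∀ u ∈ U, ∀ k k', k ≠ k' → rp (a k * u) ∉ nb (a k') z u) →
      (Finset.univ.filter (fun θ : G × Fin (s + 1) → Bool =>
        ∀ k, ff (nmix b θ) (a k) = ff (nmix b θ) (z * a k))).card *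
        Fintype.card G ^ κ ≤ C1 * 2 ^ ((s + 1) * Fintype.card G)) (x y : G) :
    (Finset.univ.filter (fun θ : G × Fin (s + 1) → Bool => BadOne t x y (nmix b θ))).card *
      Fintype.card G ^ κ ≤ C1 * 2 ^ ((s + 1) * Fintype.card G) := by
  by_cases hgood : Good t x ∧ y ≠ x
  · obtain ⟨hg, hyx⟩ := hgood
    have hz : y⁻¹ * x ≠ 1 := by
      intro h
      exact hyx (inv_mul_eq_one.1 h)
    choose j hj using hg (y⁻¹ * x) hz
    have ha : Function.Injective (fun b => x⁻¹ * t (b, j b)) := by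
      intro b b' h
      have h1 : t (b, j b) = t (b', j b') := mul_left_cancel h
      exact (Prod.ext_iff.1 (ht h1)).1
    obtain ⟨I, hI, U, hU1, hU2, hU3⟩ := extract (2 * κ) (y⁻¹ * x) (fun b => x⁻¹ * t (b, j b)) ha hj
    refine le_trans (Nat.mul_le_mul_right _ (Finset.card_le_card ?_))
      (hC1 (y⁻¹ * x) (fun k => x⁻¹ * t (I k, j (I k))) U hU1 hU2 hU3)
    intro θ hω
    simp only [Finset.mem_filter, Finset.mem_univ, true_and] at hω ⊢
    intro k
    have h1 := hω.2.2 (finProdFinEquiv (I k, j (I k)))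
    rw [Equiv.symm_apply_apply] at h1
    have h2 := common (nmix b θ) x (t (I k, j (I k)))
    have h3 := common (nmix b θ) y (t (I k, j (I k)))
    rw [h1, h3] at h2
    rw [← h2]
    congr 1
    group
  · have : (Finset.univ.filter (fun θ : G × Fin (s + 1) → Bool => BadOne t x y (nmix b θ))) = ∅ := by
      apply Finset.filter_eq_empty_iff.2
      rintro ω _ ⟨h1, h2, _⟩
      exact hgood ⟨h1, h2⟩
    rw [this, Finset.card_empty, Nat.zero_mul]
    exact Nat.zero_le _

/-- The second bad event, smoothed. -/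
theorem bound_two_n (s : ℕ) (Gd : G → Prop) (b : G → Bool)
    (hG : 16 * (Finset.univ.filter (fun x : G => ¬ Gd x)).card ≤ Fintype.card G)
    (hn : 32 ≤ Fintype.card G) (y y' : G) :
    ((Finset.univ.filter (fun θ : G × Fin (s + 1) → Bool => BadTwo Gd y y' (nmix b θ))).card : ℝ) ≤
      (1 - (1 / 2) ^ (2 * (s + 1))) ^ (Fintype.card G / 64) * 2 ^ ((s + 1) * Fintype.card G) := by
  by_cases hy : y = y'
  · have : (Finset.univ.filter (fun θ : G × Fin (s + 1) → Bool => BadTwo Gd y y' (nmix b θ))) = ∅ := by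
      apply Finset.filter_eq_empty_iff.2
      rintro ω _ ⟨h1, _⟩
      exact h1 hy
    rw [this, Finset.card_empty, Nat.cast_zero]
    have : (0 : ℝ) ≤ 1 - (1 / 2) ^ (2 * (s + 1)) := by
      have : (1 / 2 : ℝ) ^ (2 * (s + 1)) ≤ 1 := pow_le_one₀ (by norm_num) (by norm_num)
      linarith
    positivity
  · have hz : y⁻¹ * y' ≠ 1 := fun h => hy (inv_mul_eq_one.1 h)
    set W : Finset G := (Finset.univ.filter (fun x : G => Gd x)).image (fun x => x⁻¹ * y) with hWdef
    have hW : 16 * (Wᶜ).card ≤ Fintype.card G := by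
      refine le_trans (Nat.mul_le_mul_left _ ?_) hG
      have : (Wᶜ).card ≤ ((Finset.univ.filter (fun x : G => ¬ Gd x)).image (fun x => x⁻¹ * y)).card := by
        apply Finset.card_le_card
        intro w hw
        simp only [hWdef, Finset.mem_compl, Finset.mem_image, Finset.mem_filter, Finset.mem_univ,
          true_and, not_exists, not_and] at hw ⊢
        refine ⟨y * w⁻¹, ?_, by group⟩
        intro h
        exact hw _ h (by group)
      exact le_trans this Finset.card_image_le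
    refine le_trans (Nat.cast_le.2 (Finset.card_le_card ?_)) (phase_two_n s (y⁻¹ * y') hz W hW hn b)
    intro θ hω
    simp only [Finset.mem_filter, Finset.mem_univ, true_and] at hω ⊢
    intro w hw
    simp only [hWdef, Finset.mem_image, Finset.mem_filter, Finset.mem_univ, true_and] at hw
    obtain ⟨x, hx, rfl⟩ := hw
    have h1 := hω.2 x hx
    rw [adj_SS, adj_SS] at h1
    have h2 : x⁻¹ * y * (y⁻¹ * y') = x⁻¹ * y' := by group
    rw [h2]
    rw [sn_eq, sn_eq] at h1 ⊢
    by_cases ha : x⁻¹ * y ∈ SS (nmix b θ) <;> by_cases hb : x⁻¹ * y' ∈ SS (nmix b θ) <;> simp_all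

end

theorem part_n (A s : ℕ) : ∃ r C : ℕ, ∀ (G : Type) [Group G] [Fintype G], ∃ t : Fin r → G,
    ∀ b : G → Bool, ((Finset.univ.filter (fun θ : G × Fin (s + 1) → Bool =>
      ¬ Function.Injective (col (cay (SS (nmix b θ))) t 3))).card : ℝ) * Fintype.card G ^ A ≤
      C * 2 ^ ((s + 1) * Fintype.card G) := by
  obtain ⟨R, n₀, hR, hT⟩ := chooseT (8448 * (2 * (A + 2))) (by omega)
  obtain ⟨C1, hC1⟩ := pair_bound_n (A + 2) (256 * (8448 * (2 * (A + 2))) ^ (2 * (A + 2))) s
  have hγ0 : (0 : ℝ) < 1 - (1 / 2) ^ (2 * (s + 1)) := by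
    have : (1 / 2 : ℝ) ^ (2 * (s + 1)) < 1 := pow_lt_one₀ (by norm_num) (by norm_num) (by omega)
    linarith
  have hγ1 : (1 - (1 / 2) ^ (2 * (s + 1)) : ℝ) < 1 := by
    have : (0 : ℝ) < (1 / 2) ^ (2 * (s + 1)) := by positivity
    linarith
  obtain ⟨C2, hC2⟩ := pow_mul_pow_le (A + 2) _ hγ0 hγ1
  refine ⟨8448 * (2 * (A + 2)) * R, C1 + C2 + (max n₀ 256) ^ A, ?_⟩
  intro G _ _
  by_cases hbig : max n₀ 256 ≤ Fintype.card G
  · have hn0 : n₀ ≤ Fintype.card G := le_trans (le_max_left _ _) hbig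
    have hn1 : 256 ≤ Fintype.card G := le_trans (le_max_right _ _) hbig
    obtain ⟨t, ht, hgood0⟩ := hT G Us hn0 (fun z hz => useful_lower z hz hn1) useless_upper
    have hgood : 16 * (Finset.univ.filter (fun x : G => ¬ Good t x)).card ≤ Fintype.card G := by
      unfold Good
      convert hgood0
    clear hgood0
    refine ⟨fun i => t (finProdFinEquiv.symm i), fun b => ?_⟩
    have hE1 := card_union_pairs (G := G)
      (fun x y (θ : G × Fin (s + 1) → Bool) => BadOne t x y (nmix b θ)) _ _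
      (bound_one_n (A + 2) R C1 s t ht b (fun z a U h1 h2 h3 => hC1 G z a U h1 h2 h3 b))
    have hE2 := card_union_pairs_real (G := G)
      (fun y y' (θ : G × Fin (s + 1) → Bool) => BadTwo (Good t) y y' (nmix b θ)) _
      (bound_two_n s (Good t) b hgood (by omega))
    have hunion : (Finset.univ.filter (fun θ : G × Fin (s + 1) → Bool => ¬ Function.Injective
        (col (cay (SS (nmix b θ))) (fun i => t (finProdFinEquiv.symm i)) 3))).card ≤
        (Finset.univ.filter (fun θ : G × Fin (s + 1) → Bool => ∃ x y, BadOne t x y (nmix b θ))).card +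
        (Finset.univ.filter (fun θ : G × Fin (s + 1) → Bool =>
          ∃ y y', BadTwo (Good t) y y' (nmix b θ))).card := by
      refine le_trans (Finset.card_le_card ?_) (Finset.card_union_le _ _)
      intro ω hω
      simp only [Finset.mem_filter, Finset.mem_univ, true_and, Finset.mem_union] at hω ⊢
      exact not_inj t _ hω
    have hnpos : 0 < Fintype.card G := by omega
    generalize Fintype.card G = n at *
    generalize (Finset.univ.filter (fun θ : G × Fin (s + 1) → Bool => ¬ Function.Injective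
        (col (cay (SS (nmix b θ))) (fun i => t (finProdFinEquiv.symm i)) 3))).card = p at *
    generalize (Finset.univ.filter (fun θ : G × Fin (s + 1) → Bool =>
      ∃ x y, BadOne t x y (nmix b θ))).card = p1 at *
    generalize (Finset.univ.filter (fun θ : G × Fin (s + 1) → Bool =>
          ∃ y y', BadTwo (Good t) y y' (nmix b θ))).card = p2 at *
    have hb1 : (p1 : ℝ) * (n : ℝ) ^ A ≤ C1 * 2 ^ ((s + 1) * n) := by
      have h1 : p1 * n ^ A ≤ C1 * 2 ^ ((s + 1) * n) := by
        refine Nat.le_of_mul_le_mul_right (?_ : _ * n ^ 2 ≤ _ * n ^ 2) (by positivity)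
        calc p1 * n ^ A * n ^ 2 = p1 * n ^ (A + 2) := by rw [pow_add]; ring
          _ ≤ n ^ 2 * (C1 * 2 ^ ((s + 1) * n)) := hE1
          _ = C1 * 2 ^ ((s + 1) * n) * n ^ 2 := by ring
      exact_mod_cast h1
    have hb2 : (p2 : ℝ) * (n : ℝ) ^ A ≤ C2 * 2 ^ ((s + 1) * n) := by
      calc (p2 : ℝ) * (n : ℝ) ^ A
          ≤ ((n : ℝ) ^ 2 * ((1 - (1 / 2) ^ (2 * (s + 1))) ^ (n / 64) * 2 ^ ((s + 1) * n))) *
            (n : ℝ) ^ A := mul_le_mul_of_nonneg_right hE2 (by positivity)
        _ = ((n : ℝ) ^ (A + 2) * (1 - (1 / 2) ^ (2 * (s + 1))) ^ (n / 64)) * 2 ^ ((s + 1) * n) := by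
            rw [pow_add]; ring
        _ ≤ C2 * 2 ^ ((s + 1) * n) := mul_le_mul_of_nonneg_right (hC2 n) (by positivity)
    calc (p : ℝ) * (n : ℝ) ^ A ≤ ((p1 : ℝ) + p2) * (n : ℝ) ^ A := by
          apply mul_le_mul_of_nonneg_right _ (by positivity)
          exact_mod_cast hunion
      _ = (p1 : ℝ) * (n : ℝ) ^ A + (p2 : ℝ) * (n : ℝ) ^ A := by ring
      _ ≤ C1 * 2 ^ ((s + 1) * n) + C2 * 2 ^ ((s + 1) * n) := add_le_add hb1 hb2
      _ ≤ ((C1 + C2 + (max n₀ 256) ^ A : ℕ) : ℝ) * 2 ^ ((s + 1) * n) := by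
          rw [← add_mul]
          apply mul_le_mul_of_nonneg_right _ (by positivity)
          push_cast
          have : (0 : ℝ) ≤ (max (n₀ : ℝ) 256) ^ A := by positivity
          linarith
  · push Not at hbig
    refine ⟨fun _ => 1, fun b => ?_⟩
    have h1 : Fintype.card G ^ A ≤ (max n₀ 256) ^ A := Nat.pow_le_pow_left hbig.le A
    have h2 : (Finset.univ.filter (fun θ : G × Fin (s + 1) → Bool =>
      ¬ Function.Injective (col (cay (SS (nmix b θ)))
        (fun _ : Fin (8448 * (2 * (A + 2)) * R) => (1 : G)) 3))).card ≤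
        2 ^ ((s + 1) * Fintype.card G) := by
      refine (Finset.card_le_univ _).trans ?_
      rw [Fintype.card_fun, Fintype.card_bool, Fintype.card_prod, Fintype.card_fin, mul_comm (s + 1)]
    have h3 : (Finset.univ.filter (fun θ : G × Fin (s + 1) → Bool =>
      ¬ Function.Injective (col (cay (SS (nmix b θ)))
        (fun _ : Fin (8448 * (2 * (A + 2)) * R) => (1 : G)) 3))).card * Fintype.card G ^ A ≤
        (C1 + C2 + (max n₀ 256) ^ A) * 2 ^ ((s + 1) * Fintype.card G) := by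
      calc _ ≤ 2 ^ ((s + 1) * Fintype.card G) * (max n₀ 256) ^ A := Nat.mul_le_mul h2 h1
        _ = (max n₀ 256) ^ A * 2 ^ ((s + 1) * Fintype.card G) := Nat.mul_comm _ _
        _ ≤ _ := Nat.mul_le_mul_right _ (Nat.le_add_left _ _)
    exact_mod_cast h3

/-- The smoothed theorem. -/
theorem smoothed (δ : ℝ) (hδ : 0 < δ) (A : ℕ) :
    ∃ r C : ℕ, ∀ (G : Type) [Group G] [Fintype G], ∃ t : Fin r → G,
      ∀ q : G → ℝ, (∀ g, δ ≤ q g ∧ q g ≤ 1 - δ) →
        (∑ ω ∈ Finset.univ.filter (fun ω : G → Bool =>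
          ¬ Function.Injective (col (cay (SS ω)) t 3)), wt q ω) * Fintype.card G ^ A ≤ C := by
  obtain ⟨s, hs⟩ := exists_pow_lt_of_lt_one hδ (show (1 / 2 : ℝ) < 1 by norm_num)
  obtain ⟨r, C, h⟩ := part_n A (s + 1)
  refine ⟨r, C, ?_⟩
  intro G _ _
  obtain ⟨t, ht⟩ := h G
  refine ⟨t, fun q hq => ?_⟩
  have hn : (0 : ℝ) < (Fintype.card G : ℝ) ^ A := by
    have : 0 < Fintype.card G := Fintype.card_pos
    positivity
  have hsm : (1 / 2 : ℝ) ^ (s + 1 + 1) ≤ δ := by
    have h1 : (1 / 2 : ℝ) ^ (s + 1 + 1) ≤ (1 / 2 : ℝ) ^ s :=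
      pow_le_pow_of_le_one (by norm_num) (by norm_num) (by omega)
    linarith
  have hmix := mixture (s + 1) (by omega) q
    (fun v => ⟨hsm.trans (hq v).1, (hq v).2.trans (by linarith)⟩)
    (fun ω => ¬ Function.Injective (col (cay (SS ω)) t 3)) (C / (Fintype.card G : ℝ) ^ A) (by
      intro b
      have h1 := ht b
      rw [div_mul_eq_mul_div, le_div_iff₀ hn]
      refine le_trans (le_of_eq ?_) h1
      congr!)
  rw [le_div_iff₀ hn] at hmix
  refine le_trans (le_of_eq ?_) hmix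
  congr!

end Pool.RCay
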