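import Pool.Agent.RCay.Xi

/-!
# Module USEFULLOW: many pairs `(a, u)` are useful for each `z ≠ 1`

PAPER PROOF. `0 ≤ mx ≤ 8`, so by `xi` the set `Q` of the pairs `(a, u)` with `mx a u (a u) ≠ mx (z a) u (a u)` has at least
`n²/32` elements (each pair contributes at most `8` to the difference): `n² ≤ 32 |Q|`. At most `4 n` pairs have `u = 1`,
`a u = 1`, `a u = u` (`a = 1`) or `a u = u⁻¹` (`a = u⁻¹ u⁻¹`). For the other pairs of `Q`, `Us a z u` holds: with `g = a u`,
`mx b u g * |{u,u⁻¹}| * |{g,g⁻¹}| = 4 * mm b u (rp g)` for all `b` (`mx b u g = ∑_{e₂,e₃} #{e₁ | g^{e₁} = b^{e₂} u^{e₃}}`, the inner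
number is `2/|{g,g⁻¹}|` times the indicator of `b^{e₂} u^{e₃} ∈ {g,g⁻¹}`, i.e. of `rp (b^{e₂} u^{e₃}) = rp g`), so
`mm a u (rp g) = mm (z a) u (rp g)` would give `mx a u g = mx (z a) u g`. So `#Us ≥ n²/32 - 4 n ≥ n²/64` for `n ≥ 256`.
-/

namespace Pool.RCay

open scoped Classical

variable {G : Type} [Group G] [Fintype G]

theorem ind_rp (w g : G) : ((if g = w then 1 else 0) + (if g⁻¹ = w then 1 else 0) : ℤ) *
    (({g, g⁻¹} : Finset G).card : ℤ) = 2 * (if rp w = rp g then 1 else 0) := by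
  by_cases hg : g = g⁻¹
  · rw [← hg]
    by_cases h : g = w
    · subst h
      simp
    · have h2 : ¬ rp w = rp g := by
        rw [rp_eq_iff, ← hg, or_self]
        exact fun e => h e.symm
      simp [h, h2]
  · have hc : ({g, g⁻¹} : Finset G).card = 2 := Finset.card_pair hg
    rw [hc]
    by_cases h : g = w
    · subst h
      have h3 : ¬ g⁻¹ = g := fun e => hg e.symm
      simp [h3]
    · by_cases h4 : g⁻¹ = w
      · have h5 : rp w = rp g := by rw [rp_eq_iff]; exact Or.inr h4.symm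
        simp [h, h4, h5]
      · have h6 : ¬ rp w = rp g := by
          rw [rp_eq_iff]
          rintro (e | e)
          · exact h e.symm
          · exact h4 e.symm
        simp [h, h4, h6]

omit [Fintype G] in
theorem sum_pair_inv (u : G) (F : G → ℤ) : (F u + F u⁻¹) * (({u, u⁻¹} : Finset G).card : ℤ) =
    2 * ∑ h ∈ ({u, u⁻¹} : Finset G), F h := by
  by_cases hu : u = u⁻¹
  · rw [← hu]
    simp
    ring
  · rw [Finset.card_pair hu, Finset.sum_pair hu]
    push_cast
    ring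

theorem mx_mm (b u g : G) : (mx b u g : ℤ) * (({g, g⁻¹} : Finset G).card : ℤ) *
    (({u, u⁻¹} : Finset G).card : ℤ) = 4 * mm b u (rp g) := by
  have hB := sum_pair_inv u
    (fun h => (if rp (b * h) = rp g then 1 else 0) + (if rp (b⁻¹ * h) = rp g then 1 else 0))
  have hmx : (mx b u g : ℤ) =
      (((if g = b * u then 1 else 0) + (if g⁻¹ = b * u then 1 else 0)) +
      ((if g = b * u⁻¹ then 1 else 0) + (if g⁻¹ = b * u⁻¹ then 1 else 0))) +
      (((if g = b⁻¹ * u then 1 else 0) + (if g⁻¹ = b⁻¹ * u then 1 else 0)) +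
      ((if g = b⁻¹ * u⁻¹ then 1 else 0) + (if g⁻¹ = b⁻¹ * u⁻¹ then 1 else 0))) := by
    unfold mx
    rw [Finset.card_filter]
    push_cast
    simp only [Fintype.sum_prod_type, Fintype.sum_bool, sg, if_true, Bool.false_eq_true, if_false]
    ring
  have h1 := ind_rp (b * u) g
  have h2 := ind_rp (b * u⁻¹) g
  have h3 := ind_rp (b⁻¹ * u) g
  have h4 := ind_rp (b⁻¹ * u⁻¹) g
  rw [hmx]
  unfold mm
  linear_combination (({u, u⁻¹} : Finset G).card : ℤ) * (h1 + h2 + h3 + h4) + 2 * hB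

theorem mx_eq_of_mm (b c u g : G) (h : mm b u (rp g) = mm c u (rp g)) : mx b u g = mx c u g := by
  have h1 := mx_mm b u g
  have h2 := mx_mm c u g
  have hg : (({g, g⁻¹} : Finset G).card : ℤ) ≠ 0 := by
    have : 0 < ({g, g⁻¹} : Finset G).card := Finset.card_pos.2 ⟨g, by simp⟩
    exact_mod_cast this.ne'
  have hu : (({u, u⁻¹} : Finset G).card : ℤ) ≠ 0 := by
    have : 0 < ({u, u⁻¹} : Finset G).card := Finset.card_pos.2 ⟨u, by simp⟩
    exact_mod_cast this.ne'
  rw [h, ← h2] at h1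
  have h3 := mul_right_cancel₀ hg (mul_right_cancel₀ hu h1)
  exact_mod_cast h3

omit [Fintype G] in
theorem mx_le (b u g : G) : mx b u g ≤ 8 := by
  unfold mx
  calc _ ≤ (Finset.univ : Finset (Bool × Bool × Bool)).card := Finset.card_filter_le _ _
    _ = 8 := by simp

theorem useful_lower (z : G) (hz : z ≠ 1) (hn : 256 ≤ Fintype.card G) :
    Fintype.card G ^ 2 ≤ 64 * (Finset.univ.filter (fun q : G × G => Us q.1 z q.2)).card := by
  have hx := xi z hz
  set n := Fintype.card G with hnd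
  set Q : Finset (G × G) := Finset.univ.filter
    (fun q : G × G => mx q.1 q.2 (q.1 * q.2) ≠ mx (z * q.1) q.2 (q.1 * q.2)) with hQ
  have hT : (∑ a : G, ∑ u : G, (mx a u (a * u) : ℤ) - ∑ a : G, ∑ u : G, (mx (z * a) u (a * u) : ℤ)) ≤
      8 * (Q.card : ℤ) := by
    rw [← Fintype.sum_prod_type' (fun a u => (mx a u (a * u) : ℤ)),
      ← Fintype.sum_prod_type' (fun a u => (mx (z * a) u (a * u) : ℤ)), ← Finset.sum_sub_distrib]
    have h8 : (8 : ℤ) * (Q.card : ℤ) = ∑ q : G × G,
        (if mx q.1 q.2 (q.1 * q.2) ≠ mx (z * q.1) q.2 (q.1 * q.2) then (8 : ℤ) else 0) := by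
      rw [← Finset.sum_filter, Finset.sum_const, nsmul_eq_mul, mul_comm]
    rw [h8]
    apply Finset.sum_le_sum
    intro q _
    by_cases h : mx q.1 q.2 (q.1 * q.2) ≠ mx (z * q.1) q.2 (q.1 * q.2)
    · rw [if_pos h]
      have h9 := mx_le q.1 q.2 (q.1 * q.2)
      have h10 : (mx q.1 q.2 (q.1 * q.2) : ℤ) ≤ 8 := by exact_mod_cast h9
      have h11 : (0 : ℤ) ≤ (mx (z * q.1) q.2 (q.1 * q.2) : ℤ) := Int.natCast_nonneg _
      linarith
    · rw [if_neg h]
      push Not at h
      rw [h, sub_self]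
  have hQn : n ^ 2 ≤ 32 * Q.card := by
    have : ((n : ℤ)) ^ 2 ≤ 32 * (Q.card : ℤ) := by linarith
    exact_mod_cast this
  set A : Finset (G × G) := Finset.univ.filter (fun q : G × G => Us q.1 z q.2) with hA
  set E1 : Finset (G × G) := Finset.univ.filter (fun q : G × G => q.2 = 1) with hE1
  set E2 : Finset (G × G) := Finset.univ.filter (fun q : G × G => q.1 * q.2 = 1) with hE2
  set E3 : Finset (G × G) := Finset.univ.filter (fun q : G × G => q.1 * q.2 = q.2) with hE3
  set E4 : Finset (G × G) := Finset.univ.filter (fun q : G × G => q.1 * q.2 = q.2⁻¹) with hE4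
  have c1 : E1.card ≤ n := by
    rw [hnd, ← Finset.card_univ]
    apply Finset.card_le_card_of_injOn (fun q => q.1) (fun q _ => Finset.mem_coe.2 (Finset.mem_univ _))
    intro q hq q' hq' h
    simp only [hE1, Finset.coe_filter, Finset.mem_univ, true_and, Set.mem_ofPred_eq] at hq hq'
    exact Prod.ext h (by rw [hq, hq'])
  have c2 : E2.card ≤ n := by
    rw [hnd, ← Finset.card_univ]
    apply Finset.card_le_card_of_injOn (fun q => q.1) (fun q _ => Finset.mem_coe.2 (Finset.mem_univ _))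
    intro q hq q' hq' h
    simp only [hE2, Finset.coe_filter, Finset.mem_univ, true_and, Set.mem_ofPred_eq] at hq hq'
    refine Prod.ext h ?_
    have h' : q.1 = q'.1 := h
    rw [← hq', h'] at hq
    exact mul_left_cancel hq
  have c3 : E3.card ≤ n := by
    rw [hnd, ← Finset.card_univ]
    apply Finset.card_le_card_of_injOn (fun q => q.2) (fun q _ => Finset.mem_coe.2 (Finset.mem_univ _))
    intro q hq q' hq' h
    simp only [hE3, Finset.coe_filter, Finset.mem_univ, true_and, Set.mem_ofPred_eq] at hq hq'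
    refine Prod.ext ?_ h
    have h1 : q.1 = 1 := mul_eq_right.1 hq
    have h2 : q'.1 = 1 := mul_eq_right.1 hq'
    rw [h1, h2]
  have c4 : E4.card ≤ n := by
    rw [hnd, ← Finset.card_univ]
    apply Finset.card_le_card_of_injOn (fun q => q.2) (fun q _ => Finset.mem_coe.2 (Finset.mem_univ _))
    intro q hq q' hq' h
    simp only [hE4, Finset.coe_filter, Finset.mem_univ, true_and, Set.mem_ofPred_eq] at hq hq'
    refine Prod.ext ?_ h
    have h' : q.2 = q'.2 := h
    have h1 : q.1 = q.2⁻¹ * q.2⁻¹ := eq_mul_inv_of_mul_eq hq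
    have h2 : q'.1 = q'.2⁻¹ * q'.2⁻¹ := eq_mul_inv_of_mul_eq hq'
    rw [h1, h2, h']
  have hsub : Q ⊆ A ∪ (E1 ∪ (E2 ∪ (E3 ∪ E4))) := by
    intro q hq
    simp only [hQ, Finset.mem_filter, Finset.mem_univ, true_and] at hq
    simp only [hA, hE1, hE2, hE3, hE4, Finset.mem_union, Finset.mem_filter, Finset.mem_univ,
      true_and]
    by_cases e1 : q.2 = 1
    · exact Or.inr (Or.inl e1)
    by_cases e2 : q.1 * q.2 = 1
    · exact Or.inr (Or.inr (Or.inl e2))
    by_cases e3 : q.1 * q.2 = q.2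
    · exact Or.inr (Or.inr (Or.inr (Or.inl e3)))
    by_cases e4 : q.1 * q.2 = q.2⁻¹
    · exact Or.inr (Or.inr (Or.inr (Or.inr e4)))
    refine Or.inl ⟨e1, e2, e3, e4, ?_⟩
    intro hm
    exact hq (mx_eq_of_mm _ _ _ _ hm)
  have hcard : Q.card ≤ A.card + 4 * n := by
    have h1 := Finset.card_le_card hsub
    have h2 := Finset.card_union_le A (E1 ∪ (E2 ∪ (E3 ∪ E4)))
    have h3 := Finset.card_union_le E1 (E2 ∪ (E3 ∪ E4))
    have h4 := Finset.card_union_le E2 (E3 ∪ E4)
    have h5 := Finset.card_union_le E3 E4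
    omega
  have h256 : 256 * n ≤ n ^ 2 := by
    rw [sq]
    exact Nat.mul_le_mul_right _ hn
  omega

end Pool.RCay
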