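import Pool.Agent.RCay.Basic

/-!
# Module XI: the key inequality

PAPER PROOF. Write `n = card G`. For fixed signs `(e₁, e₂, e₃)` count the pairs `(a, u)` with
`(a u)^{e₁} = (z a)^{e₂} u^{e₃}` (`sg e₁ (a u) = sg e₂ (z a) * sg e₃ u`):
* `+,+,+`: `a u = z a u` iff `z = 1`: `n²` if `z = 1`, else `0`;
* `+,+,-`: `a u = z a u⁻¹` iff `u² = a⁻¹ z a`; `rt (a⁻¹ z a) = rt z`: `n * rt z`;
* `+,-,+`: `a u = (z a)⁻¹ u` iff `a² = z⁻¹`; `rt z⁻¹ = rt z`: `n * rt z`;
* `+,-,-`: `a u = (z a)⁻¹ u⁻¹` iff `z a² u² = 1`: `Θ z := #{(w,v) | z w² v² = 1}`;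
* `-,+,+`: `(a u)⁻¹ = z a u` iff `z (a u)² = 1`; with `w = a u`: `n * rt z⁻¹ = n * rt z`;
* `-,+,-`: `(a u)⁻¹ = z a u⁻¹` iff `z a u⁻¹ a u = 1` iff `z w² u² = 1` with `w = a u⁻¹`: `Θ z`;
* `-,-,+`: `(a u)⁻¹ = (z a)⁻¹ u` iff `z a u⁻¹ a⁻¹ u⁻¹ = 1` iff `z w² v² = 1` with `w = a u⁻¹`, `v = u a⁻¹ u⁻¹` (a bijection of
  pairs: `u = (w v)⁻¹`, `a = w u`): `Θ z`;
* `-,-,-`: `(a u)⁻¹ = (z a)⁻¹ u⁻¹` iff `z a u⁻¹ a⁻¹ u = 1`: `κ z := #{(a,u) | z a u⁻¹ a⁻¹ u = 1}`.
Hence `∑_{a,u} mx (z a) u (a u) = n² [z=1] + 3 n rt z + 3 Θ z + κ z =: Ξ z` (for every `z`, checked numerically for 16 groups).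
`Θ z = ∑_g rt g * rt (z g)` (`w² = g`... : `v² = (z w²)⁻¹`, `rt (x⁻¹) = rt x`), so
`Θ 1 - Θ z = ½ ∑_g (rt g - rt (z g))² ≥ (rt z - rt 1)²` (terms `g = 1` and `g = z⁻¹ ≠ 1`).
`κ z ≤ κ 1`: for each `a`, `{u | z a u⁻¹ a⁻¹ u = 1} = {u | u⁻¹ a⁻¹ u = a⁻¹ z⁻¹}` is empty or has as many elements as
`{u | u⁻¹ a⁻¹ u = a⁻¹}` (translate by one element).
With `Δ = rt z - rt 1` (an integer): `Ξ 1 - Ξ z ≥ n² - 3 n Δ + 3 Δ² ≥ n²/4` for `z ≠ 1`
(`4 n² - 12 n Δ + 12 Δ² - n² = 3 (n - 2 Δ)²`).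
-/

namespace Pool.RCay

open scoped Classical

variable {G : Type} [Group G] [Fintype G]

namespace XiAux

theorem rt_eq (z : G) : (rt z : ℤ) = ∑ v : G, if v * v = z then (1 : ℤ) else 0 := by
  unfold rt
  rw [Finset.card_filter]
  push_cast
  rfl

theorem rt_inv (z : G) : (rt z⁻¹ : ℤ) = rt z := by
  rw [rt_eq, rt_eq]
  refine Fintype.sum_equiv (Equiv.inv G) _ _ fun v => ?_
  simp only [Equiv.inv_apply]
  refine if_congr ?_ rfl rfl
  rw [← mul_inv_rev, inv_eq_iff_eq_inv]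

theorem rt_conj (a z : G) : (rt (a⁻¹ * z * a) : ℤ) = rt z := by
  rw [rt_eq, rt_eq]
  refine Fintype.sum_equiv (MulAut.conj a).toEquiv _ _ fun v => ?_
  simp only [MulEquiv.toEquiv_eq_coe, MulEquiv.coe_toEquiv, MulAut.conj_apply]
  refine if_congr ?_ rfl rfl
  constructor
  · intro h
    calc a * v * a⁻¹ * (a * v * a⁻¹) = a * (v * v) * a⁻¹ := by group
      _ = z := by rw [h]; group
  · intro h
    calc v * v = a⁻¹ * (a * v * a⁻¹ * (a * v * a⁻¹)) * a := by group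
      _ = _ := by rw [h]

/-- number of solutions of `z w² v² = 1` -/
noncomputable def Th (z : G) : ℤ := ∑ w : G, ∑ v : G, if z * w * w * v * v = 1 then (1 : ℤ) else 0

/-- the last term -/
noncomputable def Ka (z : G) : ℤ :=
  ∑ a : G, ∑ u : G, if (a * u)⁻¹ = (z * a)⁻¹ * u⁻¹ then (1 : ℤ) else 0

omit [Fintype G] in
theorem mx_eq (b u g : G) : (mx b u g : ℤ) =
    (if g = b * u then (1 : ℤ) else 0) + (if g = b * u⁻¹ then (1 : ℤ) else 0) +
    (if g = b⁻¹ * u then (1 : ℤ) else 0) + (if g = b⁻¹ * u⁻¹ then (1 : ℤ) else 0) +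
    (if g⁻¹ = b * u then (1 : ℤ) else 0) + (if g⁻¹ = b * u⁻¹ then (1 : ℤ) else 0) +
    (if g⁻¹ = b⁻¹ * u then (1 : ℤ) else 0) + (if g⁻¹ = b⁻¹ * u⁻¹ then (1 : ℤ) else 0) := by
  unfold mx
  rw [Finset.card_filter]
  push_cast
  rw [Fintype.sum_prod_type]
  simp only [Fintype.sum_prod_type, Fintype.sum_bool, sg, if_true, Bool.false_eq_true, if_false]
  ring

theorem t1 (z : G) : (∑ a : G, ∑ u : G, if a * u = z * a * u then (1 : ℤ) else 0) =
    if z = 1 then (Fintype.card G : ℤ) ^ 2 else 0 := by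
  have h : ∀ a u : G, (a * u = z * a * u) ↔ z = 1 := by
    intro a u
    rw [mul_left_inj]
    exact ⟨fun h => (mul_eq_right.mp h.symm), fun h => by rw [h, one_mul]⟩
  simp only [h]
  split_ifs
  · simp [sq]
  · simp

theorem t2 (z : G) : (∑ a : G, ∑ u : G, if a * u = z * a * u⁻¹ then (1 : ℤ) else 0) =
    Fintype.card G * rt z := by
  have h : ∀ a : G, (∑ u : G, if a * u = z * a * u⁻¹ then (1 : ℤ) else 0) = rt z := by
    intro a
    rw [← rt_conj a z, rt_eq]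
    refine Finset.sum_congr rfl fun u _ => if_congr ?_ rfl rfl
    constructor
    · intro h
      calc u * u = a⁻¹ * (a * u) * u := by group
        _ = _ := by rw [h]; group
    · intro h
      calc a * u = a * (u * u) * u⁻¹ := by group
        _ = _ := by rw [h]; group
  simp only [h]
  simp

theorem t3 (z : G) : (∑ a : G, ∑ u : G, if a * u = (z * a)⁻¹ * u then (1 : ℤ) else 0) =
    Fintype.card G * rt z := by
  rw [Finset.sum_comm]
  have h : ∀ u : G, (∑ a : G, if a * u = (z * a)⁻¹ * u then (1 : ℤ) else 0) = rt z := by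
    intro u
    rw [← rt_inv z, rt_eq]
    refine Finset.sum_congr rfl fun a _ => if_congr ?_ rfl rfl
    rw [mul_left_inj, mul_inv_rev]
    constructor
    · intro h
      calc a * a = a * (a⁻¹ * z⁻¹) := by rw [← h]
        _ = _ := by group
    · intro h
      calc a = a⁻¹ * (a * a) := by group
        _ = _ := by rw [h]
  simp only [h]
  simp

theorem t5 (z : G) : (∑ a : G, ∑ u : G, if (a * u)⁻¹ = z * a * u then (1 : ℤ) else 0) =
    Fintype.card G * rt z := by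
  have h : ∀ a : G, (∑ u : G, if (a * u)⁻¹ = z * a * u then (1 : ℤ) else 0) = rt z := by
    intro a
    rw [← rt_inv z, rt_eq]
    refine Fintype.sum_equiv (Equiv.mulLeft a) _ _ fun u => if_congr ?_ rfl rfl
    simp only [Equiv.coe_mulLeft]
    rw [mul_assoc z a u]
    set w := a * u
    constructor
    · intro h
      calc w * w = z⁻¹ * (z * w) * w := by group
        _ = _ := by rw [← h]; group
    · intro h
      calc w⁻¹ = z * (z⁻¹ * w⁻¹) := by group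
        _ = _ := by rw [← h]; group
  simp only [h]
  simp

theorem t4 (z : G) : (∑ a : G, ∑ u : G, if a * u = (z * a)⁻¹ * u⁻¹ then (1 : ℤ) else 0) = Th z := by
  unfold Th
  refine Finset.sum_congr rfl fun a _ => Finset.sum_congr rfl fun u _ => if_congr ?_ rfl rfl
  constructor
  · intro h
    calc z * a * a * u * u = z * a * (a * u) * u := by group
      _ = 1 := by rw [h]; group
  · intro h
    calc a * u = (z * a)⁻¹ * (z * a * a * u * u) * u⁻¹ := by group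
      _ = _ := by rw [h]; group

theorem t6 (z : G) : (∑ a : G, ∑ u : G, if (a * u)⁻¹ = z * a * u⁻¹ then (1 : ℤ) else 0) = Th z := by
  unfold Th
  rw [Finset.sum_comm]
  rw [Finset.sum_comm (f := fun w v : G => if z * w * w * v * v = 1 then (1 : ℤ) else 0)]
  refine Finset.sum_congr rfl fun u _ => ?_
  refine Fintype.sum_equiv (Equiv.mulRight u⁻¹) _ _ fun a => if_congr ?_ rfl rfl
  simp only [Equiv.coe_mulRight]
  constructor
  · intro h
    calc z * (a * u⁻¹) * (a * u⁻¹) * u * u = (z * a * u⁻¹) * (a * u) := by group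
      _ = 1 := by rw [← h]; group
  · intro h
    calc (a * u)⁻¹ = 1 * (a * u)⁻¹ := by group
      _ = _ := by rw [← h]; group

theorem t7 (z : G) : (∑ a : G, ∑ u : G, if (a * u)⁻¹ = (z * a)⁻¹ * u then (1 : ℤ) else 0) = Th z := by
  unfold Th
  rw [← Fintype.sum_prod_type' (f := fun a u : G => if (a * u)⁻¹ = (z * a)⁻¹ * u then (1 : ℤ) else 0),
    ← Fintype.sum_prod_type' (f := fun w v : G => if z * w * w * v * v = 1 then (1 : ℤ) else 0)]
  let e : G × G ≃ G × G :=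
    { toFun := fun p => (p.1 * p.2⁻¹, p.2 * p.1⁻¹ * p.2⁻¹)
      invFun := fun q => (q.1 * (q.1 * q.2)⁻¹, (q.1 * q.2)⁻¹)
      left_inv := fun p => by
        ext
        · simp only; group
        · simp only; group
      right_inv := fun q => by
        ext
        · simp only; group
        · simp only; group }
  refine Fintype.sum_equiv e _ _ fun p => if_congr ?_ rfl rfl
  obtain ⟨a, u⟩ := p
  change (a * u)⁻¹ = (z * a)⁻¹ * u ↔
    z * (a * u⁻¹) * (a * u⁻¹) * (u * a⁻¹ * u⁻¹) * (u * a⁻¹ * u⁻¹) = 1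
  constructor
  · intro h
    calc z * (a * u⁻¹) * (a * u⁻¹) * (u * a⁻¹ * u⁻¹) * (u * a⁻¹ * u⁻¹) =
        z * a * (a * u)⁻¹ ^ 0 * u⁻¹ * a⁻¹ * u⁻¹ := by group
      _ = z * a * (a * u)⁻¹ * u⁻¹ := by group
      _ = 1 := by rw [h]; group
  · intro h
    have h2 : z * a * (a * u)⁻¹ * u⁻¹ = 1 := by
      rw [← h]
      group
    calc (a * u)⁻¹ = (z * a)⁻¹ * (z * a * (a * u)⁻¹ * u⁻¹) * u := by group
      _ = _ := by rw [h2]; group

theorem Th_eq (z : G) : Th z = ∑ g : G, (rt g : ℤ) * rt (z * g) := by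
  unfold Th
  have h1 : ∀ w : G, (∑ v : G, if z * w * w * v * v = 1 then (1 : ℤ) else 0) = rt (z * (w * w)) := by
    intro w
    rw [← rt_inv (z * (w * w)), rt_eq]
    refine Finset.sum_congr rfl fun v _ => if_congr ?_ rfl rfl
    constructor
    · intro h
      calc v * v = (z * (w * w))⁻¹ * (z * w * w * v * v) := by group
        _ = _ := by rw [h]; group
    · intro h
      calc z * w * w * v * v = z * w * w * (v * v) := by group
        _ = 1 := by rw [h]; group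
  simp only [h1]
  have h2 : ∀ w : G, (rt (z * (w * w)) : ℤ) =
      ∑ g : G, if w * w = g then (rt (z * g) : ℤ) else 0 := by
    intro w
    simp
  simp only [h2]
  rw [Finset.sum_comm]
  refine Finset.sum_congr rfl fun g _ => ?_
  rw [rt_eq g, Finset.sum_mul]
  refine Finset.sum_congr rfl fun w _ => ?_
  split_ifs <;> simp

theorem Th_diff (z : G) (hz : z ≠ 1) : ((rt z : ℤ) - rt (1 : G)) ^ 2 ≤ Th (1 : G) - Th z := by
  rw [Th_eq, Th_eq]
  have h1 : ∑ g : G, (rt (z * g) : ℤ) * rt (z * g) = ∑ g : G, (rt g : ℤ) * rt g :=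
    Fintype.sum_equiv (Equiv.mulLeft z) _ _ fun g => rfl
  have h2 : ∑ g : G, ((rt g : ℤ) - rt (z * g)) ^ 2 =
      2 * (∑ g : G, (rt g : ℤ) * rt (1 * g) - ∑ g : G, (rt g : ℤ) * rt (z * g)) := by
    have h3 : ∑ g : G, ((rt g : ℤ) - rt (z * g)) ^ 2 = ∑ g : G, (rt g : ℤ) * rt g +
        ∑ g : G, (rt (z * g) : ℤ) * rt (z * g) - 2 * ∑ g : G, (rt g : ℤ) * rt (z * g) := by
      rw [Finset.mul_sum, ← Finset.sum_add_distrib, ← Finset.sum_sub_distrib]
      refine Finset.sum_congr rfl fun g _ => ?_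
      ring
    rw [h3, h1]
    simp only [one_mul]
    ring
  have h4 : ∑ g ∈ ({1, z⁻¹} : Finset G), ((rt g : ℤ) - rt (z * g)) ^ 2 ≤
      ∑ g : G, ((rt g : ℤ) - rt (z * g)) ^ 2 :=
    Finset.sum_le_sum_of_subset_of_nonneg (Finset.subset_univ _) fun _ _ _ => sq_nonneg _
  have hz' : (1 : G) ≠ z⁻¹ := by
    intro h
    exact hz (inv_eq_one.mp h.symm)
  rw [Finset.sum_pair hz', h2] at h4
  simp only [mul_one, mul_inv_cancel, rt_inv] at h4
  nlinarith

theorem Ka_le (z : G) : Ka z ≤ Ka (1 : G) := by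
  unfold Ka
  refine Finset.sum_le_sum fun a _ => ?_
  have hcard : ∀ z : G, (∑ u : G, if (a * u)⁻¹ = (z * a)⁻¹ * u⁻¹ then (1 : ℤ) else 0) =
      ((Finset.univ.filter (fun u : G => (a * u)⁻¹ = (z * a)⁻¹ * u⁻¹)).card : ℤ) := by
    intro z
    rw [Finset.card_filter]
    push_cast
    rfl
  rw [hcard, hcard]
  by_cases hex : ∃ u₀ : G, (a * u₀)⁻¹ = (z * a)⁻¹ * u₀⁻¹
  · obtain ⟨u₀, h₀⟩ := hex
    have : (Finset.univ.filter (fun u : G => (a * u)⁻¹ = (z * a)⁻¹ * u⁻¹)).card ≤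
        (Finset.univ.filter (fun u : G => (a * u)⁻¹ = (1 * a)⁻¹ * u⁻¹)).card := by
      refine Finset.card_le_card_of_injOn (fun u => u * u₀⁻¹) ?_ ?_
      · intro u hu
        simp only [Finset.coe_filter, Finset.mem_univ, true_and, Set.mem_ofPred_eq] at hu ⊢
        have e1 : u⁻¹ * a⁻¹ * u = (z * a)⁻¹ := by
          calc u⁻¹ * a⁻¹ * u = (a * u)⁻¹ * u := by group
            _ = _ := by rw [hu]; group
        have e2 : u₀⁻¹ * a⁻¹ * u₀ = (z * a)⁻¹ := by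
          calc u₀⁻¹ * a⁻¹ * u₀ = (a * u₀)⁻¹ * u₀ := by group
            _ = _ := by rw [h₀]; group
        calc (a * (u * u₀⁻¹))⁻¹ = u₀ * (u⁻¹ * a⁻¹ * u) * u⁻¹ := by group
          _ = u₀ * (u₀⁻¹ * a⁻¹ * u₀) * u⁻¹ := by rw [e1, e2]
          _ = (1 * a)⁻¹ * (u * u₀⁻¹)⁻¹ := by group
      · intro u _ v _ h
        exact mul_right_cancel h
    exact_mod_cast this
  · push Not at hex
    have : (Finset.univ.filter (fun u : G => (a * u)⁻¹ = (z * a)⁻¹ * u⁻¹)) = ∅ := by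
      apply Finset.filter_eq_empty_iff.mpr
      intro u _
      exact hex u
    rw [this]
    simp

theorem total (z : G) : (∑ a : G, ∑ u : G, (mx (z * a) u (a * u) : ℤ)) =
    (if z = 1 then (Fintype.card G : ℤ) ^ 2 else 0) + 3 * (Fintype.card G * rt z) + 3 * Th z +
      Ka z := by
  simp only [mx_eq, Finset.sum_add_distrib]
  rw [t1, t2, t3, t4, t5, t6, t7]
  unfold Ka
  ring

end XiAux

open XiAux in
theorem xi (z : G) (hz : z ≠ 1) :
    (Fintype.card G : ℤ) ^ 2 ≤ 4 * (∑ a : G, ∑ u : G, (mx a u (a * u) : ℤ) -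
      ∑ a : G, ∑ u : G, (mx (z * a) u (a * u) : ℤ)) := by
  have h1 := total (1 : G)
  have h2 := total z
  simp only [one_mul] at h1
  rw [if_pos trivial] at h1
  rw [if_neg hz] at h2
  rw [h1, h2]
  have h3 := Th_diff z hz
  have h4 := Ka_le z
  have h5 := sq_nonneg ((Fintype.card G : ℤ) - 2 * ((rt z : ℤ) - rt (1 : G)))
  nlinarith

end Pool.RCay
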